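import Pool.Agent.Lib.MP_f4f4db_co.Defs

section

/-! # Chang's theorem over `F_p` (KM-7) -/

namespace EHProj

open scoped LinearAlgebra.Projectivization
open Module

section Chang
variable {G : Type} [AddCommGroup G] [Fintype G]
variable {p : ℕ} [Fact p.Prime]

theorem chang_norm_std (s : ZMod p) : ‖(ZMod.stdAddChar s : ℂ)‖ = 1 := by
  rw [ZMod.stdAddChar_apply]
  exact Circle.norm_coe _

theorem chang_sum_std : ∑ s : ZMod p, (ZMod.stdAddChar s : ℂ) = 0 := by
  have h := AddChar.sum_mulShift (1 : ZMod p) (ZMod.isPrimitive_stdAddChar p)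
  simpa using h

/-- one coordinate -/
theorem chang_coord (c : ℂ) (hc : ‖c‖ ≤ 1) :
    ∑ s : ZMod p, Real.exp ((c * (ZMod.stdAddChar s : ℂ)).re * (1 / 2)) ≤
      (p : ℝ) * Real.exp (1 / 8) := by
  have h1 : ∀ s : ZMod p, Real.exp ((c * (ZMod.stdAddChar s : ℂ)).re * (1 / 2)) ≤
      Real.cosh (1 / 2) + (c * (ZMod.stdAddChar s : ℂ)).re * Real.sinh (1 / 2) := by
    intro s
    apply Real.exp_mul_le_cosh_add_mul_sinh
    refine (Complex.abs_re_le_norm _).trans ?_
    rw [norm_mul, chang_norm_std, mul_one]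
    exact hc
  refine (Finset.sum_le_sum fun s _ => h1 s).trans ?_
  rw [Finset.sum_add_distrib, ← Finset.sum_mul, ← Complex.re_sum, ← Finset.mul_sum,
    chang_sum_std]
  simp only [Finset.sum_const, Finset.card_univ, ZMod.card, nsmul_eq_mul, mul_zero,
    Complex.zero_re, zero_mul, add_zero]
  apply mul_le_mul_of_nonneg_left _ (Nat.cast_nonneg _)
  refine (Real.cosh_le_exp_half_sq _).trans (le_of_eq ?_)
  norm_num

variable [Module (ZMod p) G]

omit [Fintype G] in
open Classical in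
theorem chang_surj {ι : Type} [Fintype ι] (φ : ι → Module.Dual (ZMod p) G)
    (hφ : LinearIndependent (ZMod p) φ) :
    Function.Surjective (LinearMap.pi φ : G →ₗ[ZMod p] (ι → ZMod p)) := by
  rw [← LinearMap.dualMap_injective_iff]
  rw [← LinearMap.ker_eq_bot, LinearMap.ker_eq_bot']
  intro ψ hψ
  have h1 : ∑ i, ψ (Pi.single i 1) • φ i = 0 := by
    ext x
    have h2 := LinearMap.congr_fun hψ x
    simp only [LinearMap.dualMap_apply, LinearMap.zero_apply] at h2
    rw [LinearMap.zero_apply, ← h2]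
    have h3 : (LinearMap.pi φ x : ι → ZMod p) = ∑ i, φ i x • (Pi.single i (1 : ZMod p)) := by
      funext j
      simp [Finset.sum_apply, Pi.single_apply]
    rw [h3, map_sum, LinearMap.sum_apply]
    refine Finset.sum_congr rfl fun i _ => ?_
    simp [mul_comm]
  have h2 := Fintype.linearIndependent_iff.1 hφ _ h1
  apply LinearMap.pi_ext'
  intro i
  ext
  simpa using h2 i

open Classical in
theorem chang_sum_comp {H : Type} [AddCommGroup H] [Fintype H] (f : G →+ H)
    (hf : Function.Surjective f) (F : H → ℝ) :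
    (Fintype.card H : ℝ) * ∑ x, F (f x) = (Fintype.card G : ℝ) * ∑ y, F y := by
  have hfib : ∀ y : H, (Finset.univ.filter fun x => f x = y).card =
      (Finset.univ.filter fun x => f x = 0).card := by
    intro y
    exact AddMonoidHom.card_fiber_eq_of_mem_range f (hf y) (hf 0)
  set k := (Finset.univ.filter fun x => f x = 0).card with hk
  have h1 : ∀ F : H → ℝ, ∑ x, F (f x) = (k : ℝ) * ∑ y, F y := by
    intro F
    rw [← Finset.sum_fiberwise (s := Finset.univ) (g := fun x => f x), Finset.mul_sum]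
    refine Finset.sum_congr rfl fun y _ => ?_
    rw [Finset.sum_congr rfl (g := fun _ => F y)]
    · rw [Finset.sum_const, hfib, nsmul_eq_mul]
    · intro x hx
      rw [(Finset.mem_filter.1 hx).2]
  have h2 := h1 (fun _ => 1)
  simp only [Finset.sum_const, Finset.card_univ, nsmul_eq_mul, mul_one] at h2
  rw [h1, h2]
  ring

open Classical in
theorem chang_upper {ι : Type} [Fintype ι] (φ : ι → Module.Dual (ZMod p) G)
    (hφ : LinearIndependent (ZMod p) φ) (c : ι → ℂ) (hc : ∀ i, ‖c i‖ ≤ 1) :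
    ∑ x : G, Real.exp ((∑ i, (c i * (ZMod.stdAddChar (φ i x) : ℂ)).re) * (1 / 2)) ≤
      (Fintype.card G : ℝ) * Real.exp (Fintype.card ι / 8) := by
  have h1 := chang_sum_comp (G := G) (H := ι → ZMod p)
    (LinearMap.pi φ : G →ₗ[ZMod p] (ι → ZMod p)).toAddMonoidHom (chang_surj φ hφ)
    (fun y => ∏ i, Real.exp ((c i * (ZMod.stdAddChar (y i) : ℂ)).re * (1 / 2)))
  have h2 : ∑ y : ι → ZMod p, ∏ i, Real.exp ((c i * (ZMod.stdAddChar (y i) : ℂ)).re * (1 / 2)) =
      ∏ i, ∑ s : ZMod p, Real.exp ((c i * (ZMod.stdAddChar s : ℂ)).re * (1 / 2)) := by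
    rw [Finset.prod_univ_sum, Fintype.piFinset_univ]
  rw [h2] at h1
  have h3 : ∏ i, ∑ s : ZMod p, Real.exp ((c i * (ZMod.stdAddChar s : ℂ)).re * (1 / 2)) ≤
      ∏ _i : ι, (p : ℝ) * Real.exp (1 / 8) :=
    Finset.prod_le_prod (fun i _ => Finset.sum_nonneg fun s _ => (Real.exp_pos _).le)
      (fun i _ => chang_coord (c i) (hc i))
  have h4 : (∏ _i : ι, (p : ℝ) * Real.exp (1 / 8)) =
      (Fintype.card (ι → ZMod p) : ℝ) * Real.exp (Fintype.card ι / 8) := by
    rw [Finset.prod_const, Finset.card_univ, mul_pow, Fintype.card_fun, ZMod.card,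
      ← Real.exp_nat_mul]
    push_cast
    congr 2
    ring
  have hpos : (0 : ℝ) < (Fintype.card (ι → ZMod p) : ℝ) := by
    exact_mod_cast Fintype.card_pos
  have h5 : ∑ x : G, Real.exp ((∑ i, (c i * (ZMod.stdAddChar (φ i x) : ℂ)).re) * (1 / 2)) =
      ∑ x : G, ∏ i, Real.exp ((c i * (ZMod.stdAddChar
        ((LinearMap.pi φ : G →ₗ[ZMod p] (ι → ZMod p)).toAddMonoidHom x i) : ℂ)).re * (1 / 2)) := by
    refine Finset.sum_congr rfl fun x _ => ?_
    rw [← Real.exp_sum, ← Finset.sum_mul]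
    rfl
  rw [h5]
  apply le_of_mul_le_mul_left _ hpos
  rw [h1]
  calc (Fintype.card G : ℝ) *
        ∏ i, ∑ s : ZMod p, Real.exp ((c i * (ZMod.stdAddChar s : ℂ)).re * (1 / 2))
      ≤ (Fintype.card G : ℝ) * ∏ _i : ι, (p : ℝ) * Real.exp (1 / 8) :=
        mul_le_mul_of_nonneg_left h3 (Nat.cast_nonneg _)
    _ = _ := by rw [h4]; ring

theorem chang_card {ι : Type} [Fintype ι] (T : Finset G) (hT : T.Nonempty) (D : ℕ)
    (hD : (1 / 2 : ℝ) ^ D ≤ (T.card : ℝ) / (Fintype.card G : ℝ))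
    (φ : ι → Module.Dual (ZMod p) G) (hφ : LinearIndependent (ZMod p) φ)
    (hs : ∀ i, (1 / 2) * (T.card : ℝ) ≤ ‖∑ t ∈ T, (ZMod.stdAddChar (φ i t) : ℂ)‖) :
    Fintype.card ι ≤ 6 * D := by
  set d : ℕ := Fintype.card ι with hd
  have hTpos : (0 : ℝ) < (T.card : ℝ) := by exact_mod_cast hT.card_pos
  have hGpos : (0 : ℝ) < (Fintype.card G : ℝ) := by exact_mod_cast Fintype.card_pos
  let z : ι → ℂ := fun i => ∑ t ∈ T, (ZMod.stdAddChar (φ i t) : ℂ)
  let c : ι → ℂ := fun i => (starRingEnd ℂ) (z i) / (‖z i‖ : ℂ)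
  have hzpos : ∀ i, 0 < ‖z i‖ := fun i => lt_of_lt_of_le (by positivity) (hs i)
  have hc : ∀ i, ‖c i‖ ≤ 1 := by
    intro i
    simp only [c, norm_div, RCLike.norm_conj, Complex.norm_real, norm_norm]
    rw [div_self (hzpos i).ne']
  have hcz : ∀ i, c i * z i = (‖z i‖ : ℂ) := by
    intro i
    have h0 : (‖z i‖ : ℂ) ≠ 0 := by exact_mod_cast (hzpos i).ne'
    simp only [c]
    rw [div_mul_eq_mul_div, div_eq_iff h0, Complex.conj_mul']
    ring
  have hup := chang_upper φ hφ c hc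
  rw [← hd] at hup
  -- lower bound
  have hsum : (d : ℝ) * (T.card : ℝ) / 2 ≤
      ∑ x ∈ T, ∑ i, (c i * (ZMod.stdAddChar (φ i x) : ℂ)).re := by
    rw [Finset.sum_comm]
    have h1 : ∀ i, (1 / 2) * (T.card : ℝ) ≤ ∑ x ∈ T, (c i * (ZMod.stdAddChar (φ i x) : ℂ)).re := by
      intro i
      rw [← Complex.re_sum, ← Finset.mul_sum]
      have := hcz i
      simp only [z] at this
      rw [this, Complex.ofReal_re]
      exact hs i
    calc (d : ℝ) * (T.card : ℝ) / 2 = ∑ _i : ι, (1 / 2) * (T.card : ℝ) := by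
          rw [Finset.sum_const, Finset.card_univ, nsmul_eq_mul, ← hd]; ring
      _ ≤ _ := Finset.sum_le_sum fun i _ => h1 i
  have hlow : (T.card : ℝ) * Real.exp (d / 4) ≤
      ∑ x ∈ T, Real.exp ((∑ i, (c i * (ZMod.stdAddChar (φ i x) : ℂ)).re) * (1 / 2)) := by
    have h1 : ∀ x ∈ T, Real.exp (d / 4) *
        (1 + ((∑ i, (c i * (ZMod.stdAddChar (φ i x) : ℂ)).re) * (1 / 2) - d / 4)) ≤
        Real.exp ((∑ i, (c i * (ZMod.stdAddChar (φ i x) : ℂ)).re) * (1 / 2)) := by
      intro x _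
      have h2 := Real.add_one_le_exp
        ((∑ i, (c i * (ZMod.stdAddChar (φ i x) : ℂ)).re) * (1 / 2) - d / 4)
      have h3 : Real.exp ((∑ i, (c i * (ZMod.stdAddChar (φ i x) : ℂ)).re) * (1 / 2)) =
          Real.exp (d / 4) *
          Real.exp ((∑ i, (c i * (ZMod.stdAddChar (φ i x) : ℂ)).re) * (1 / 2) - d / 4) := by
        rw [← Real.exp_add]; congr 1; ring
      rw [h3]
      apply mul_le_mul_of_nonneg_left _ (Real.exp_pos _).le
      linarith
    refine le_trans ?_ (Finset.sum_le_sum h1)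
    rw [← Finset.mul_sum, mul_comm (T.card : ℝ)]
    apply mul_le_mul_of_nonneg_left _ (Real.exp_pos _).le
    rw [Finset.sum_add_distrib, Finset.sum_sub_distrib, ← Finset.sum_mul]
    simp only [Finset.sum_const, nsmul_eq_mul, mul_one]
    linarith
  have hsub : ∑ x ∈ T, Real.exp ((∑ i, (c i * (ZMod.stdAddChar (φ i x) : ℂ)).re) * (1 / 2)) ≤
      ∑ x : G, Real.exp ((∑ i, (c i * (ZMod.stdAddChar (φ i x) : ℂ)).re) * (1 / 2)) :=
    Finset.sum_le_univ_sum_of_nonneg fun x => (Real.exp_pos _).le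
  have hall := hlow.trans (hsub.trans hup)
  have e1 : Real.exp ((d : ℝ) / 4) = Real.exp ((d : ℝ) / 8) * Real.exp ((d : ℝ) / 8) := by
    rw [← Real.exp_add]; congr 1; ring
  rw [e1, ← mul_assoc] at hall
  have hall2 : (T.card : ℝ) * Real.exp ((d : ℝ) / 8) ≤ (Fintype.card G : ℝ) :=
    le_of_mul_le_mul_right hall (Real.exp_pos _)
  have h6 : Real.exp ((d : ℝ) / 8) ≤ 2 ^ D := by
    have h7 : (1 / 2 : ℝ) ^ D * (Fintype.card G : ℝ) ≤ (T.card : ℝ) := by
      rwa [le_div_iff₀ hGpos] at hD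
    have h8 : (1 / 2 : ℝ) ^ D * (Fintype.card G : ℝ) * Real.exp ((d : ℝ) / 8) ≤
        (Fintype.card G : ℝ) :=
      (mul_le_mul_of_nonneg_right h7 (Real.exp_pos _).le).trans hall2
    have h9 : (1 / 2 : ℝ) ^ D * Real.exp ((d : ℝ) / 8) ≤ 1 := by
      have h10 : (Fintype.card G : ℝ) * ((1 / 2 : ℝ) ^ D * Real.exp ((d : ℝ) / 8)) ≤
          (Fintype.card G : ℝ) * 1 := by linarith
      exact le_of_mul_le_mul_left h10 hGpos
    have h11 : (2 : ℝ) ^ D * (1 / 2 : ℝ) ^ D = 1 := by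
      rw [← mul_pow]; norm_num
    calc Real.exp ((d : ℝ) / 8) = 2 ^ D * ((1 / 2 : ℝ) ^ D * Real.exp ((d : ℝ) / 8)) := by
          rw [← mul_assoc, h11, one_mul]
      _ ≤ 2 ^ D * 1 := mul_le_mul_of_nonneg_left h9 (by positivity)
      _ = 2 ^ D := mul_one _
  have h12 : (d : ℝ) / 8 ≤ D * Real.log 2 := by
    have := Real.log_le_log (Real.exp_pos _) h6
    rwa [Real.log_exp, Real.log_pow] at this
  have h13 : Real.log 2 < 0.6931471808 := Real.log_two_lt_d9
  have h14 : (d : ℝ) ≤ 6 * D := by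
    have hD0 : (0 : ℝ) ≤ D := Nat.cast_nonneg _
    nlinarith
  exact_mod_cast h14

theorem chang (T : Finset G) (hT : T.Nonempty) (D : ℕ)
    (hD : (1 / 2 : ℝ) ^ D ≤ (T.card : ℝ) / (Fintype.card G : ℝ)) :
    ∃ W : Submodule (ZMod p) G, finrank (ZMod p) G ≤ finrank (ZMod p) W + 6 * D ∧
      ∀ φ : Module.Dual (ZMod p) G,
        (1 / 2) * (T.card : ℝ) ≤ ‖∑ t ∈ T, (ZMod.stdAddChar (φ t) : ℂ)‖ → ∀ w ∈ W, φ w = 0 := by
  classical
  let Spec : Set (Module.Dual (ZMod p) G) :=
    {φ | (1 / 2) * (T.card : ℝ) ≤ ‖∑ t ∈ T, (ZMod.stdAddChar (φ t) : ℂ)‖}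
  obtain ⟨b, hb1, hb2, hb3⟩ := exists_linearIndependent (ZMod p) Spec
  have : Finite (Module.Dual (ZMod p) G) := Module.finite_of_finite (ZMod p)
  have : Fintype b := Fintype.ofFinite b
  have hcard : Fintype.card b ≤ 6 * D := chang_card T hT D hD (fun i : b => i.1) hb3
    (fun i => hb1 i.2)
  refine ⟨(Submodule.span (ZMod p) Spec).dualCoannihilator, ?_, ?_⟩
  · have h1 := Subspace.finrank_add_finrank_dualCoannihilator_eq
      (K := ZMod p) (V := G) (Submodule.span (ZMod p) Spec)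
    have h2 : finrank (ZMod p) (Submodule.span (ZMod p) Spec) = Fintype.card b := by
      rw [← hb2]
      rw [finrank_span_set_eq_card hb3, Set.toFinset_card]
    omega
  · intro φ hφ w hw
    rw [Submodule.mem_dualCoannihilator] at hw
    exact hw φ (Submodule.subset_span hφ)

end Chang

end EHProj
end

section

/-!
# Kelley–Meka, the Fourier step
-/

namespace EHProj

open scoped LinearAlgebra.Projectivization ComplexConjugate
open Module

theorem fourierstep_swap {α β γ δ ε M : Type} [AddCommMonoid M] (A : Finset α) (B : Finset β)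
    (C : Finset γ) (D : Finset δ) (E : Finset ε) (F : ε → α → β → γ → δ → M) :
    ∑ e ∈ E, ∑ a ∈ A, ∑ b ∈ B, ∑ c ∈ C, ∑ d ∈ D, F e a b c d =
      ∑ a ∈ A, ∑ b ∈ B, ∑ c ∈ C, ∑ d ∈ D, ∑ e ∈ E, F e a b c d := by
  rw [Finset.sum_comm]
  refine Finset.sum_congr rfl fun a _ => ?_
  rw [Finset.sum_comm]
  refine Finset.sum_congr rfl fun b _ => ?_
  rw [Finset.sum_comm]
  refine Finset.sum_congr rfl fun c _ => ?_
  rw [Finset.sum_comm]

theorem fourierstep_map_sum {G : Type} [AddCommGroup G] (ψ : AddChar G ℂ) {ι : Type} (s : Finset ι)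
    (h : ι → G) : ψ (∑ i ∈ s, h i) = ∏ i ∈ s, ψ (h i) := by
  classical
  induction s using Finset.induction_on with
  | empty => simp
  | insert a s ha ih => rw [Finset.sum_insert ha, Finset.prod_insert ha, AddChar.map_add_eq_mul, ih]

section fourierstep
variable {G : Type} [AddCommGroup G] [Fintype G]
variable {p : ℕ} [Fact p.Prime] [Module (ZMod p) G]

/-- the character attached to a linear form -/
noncomputable def fourierstepE (φ : Module.Dual (ZMod p) G) : AddChar G ℂ :=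
  (ZMod.stdAddChar (N := p)).compAddMonoidHom φ.toAddMonoidHom

theorem fourierstepE_apply (φ : Module.Dual (ZMod p) G) (x : G) :
    fourierstepE φ x = (ZMod.stdAddChar (φ x) : ℂ) := rfl

theorem fourierstep_std_eq_one {a : ZMod p} (h : (ZMod.stdAddChar a : ℂ) = 1) : a = 0 := by
  apply ZMod.injective_stdAddChar (N := p)
  rw [h, AddChar.map_zero_eq_one]

theorem fourierstep_finite_dual : Finite (Module.Dual (ZMod p) G) :=
  Finite.of_injective (fun φ : Module.Dual (ZMod p) G => (φ : G → ZMod p)) DFunLike.coe_injective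

/-- orthogonality -/
theorem fourierstep_sum_dual [Fintype (Module.Dual (ZMod p) G)] [DecidableEq G] (x : G) :
    ∑ φ : Module.Dual (ZMod p) G, fourierstepE φ x =
      if x = 0 then (Fintype.card (Module.Dual (ZMod p) G) : ℂ) else 0 := by
  split_ifs with h
  · rw [h]
    simp [AddChar.map_zero_eq_one]
  · let ψ : AddChar (Module.Dual (ZMod p) G) ℂ :=
      (ZMod.stdAddChar (N := p)).compAddMonoidHom
        { toFun := fun φ => φ x
          map_zero' := rfl
          map_add' := fun _ _ => rfl }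
    have h1 : ∑ φ, ψ φ = 0 := by
      rw [AddChar.sum_eq_zero_iff_ne_zero]
      intro h0
      obtain ⟨φ, hφ⟩ := Projective.exists_dual_ne_zero (ZMod p) h
      apply hφ
      apply fourierstep_std_eq_one
      have h2 : ψ φ = 1 := by rw [h0]; rfl
      exact h2
    exact h1

/-- sums over a subspace -/
theorem fourierstep_sum_sub (W : Submodule (ZMod p) G) [Fintype W] (φ : Module.Dual (ZMod p) G)
    (h : ¬ ∀ w ∈ W, φ w = 0) : ∑ w : W, fourierstepE φ (w : G) = 0 := by
  let ψ : AddChar W ℂ := (fourierstepE φ).compAddMonoidHom W.subtype.toAddMonoidHom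
  have h1 : ∑ w, ψ w = 0 := by
    rw [AddChar.sum_eq_zero_iff_ne_zero]
    intro h0
    apply h
    intro w hw
    apply fourierstep_std_eq_one
    have h2 : ψ ⟨w, hw⟩ = 1 := by rw [h0]; rfl
    exact h2
  exact h1

variable [Fintype (Module.Dual (ZMod p) G)]

/-- Fourier coefficients -/
noncomputable def fourierstepC (f : G → ℝ) (φ : Module.Dual (ZMod p) G) : ℂ :=
  (Fintype.card (Module.Dual (ZMod p) G) : ℂ)⁻¹ * ∑ y, (f y : ℂ) * fourierstepE φ (-y)

theorem fourierstep_inv (f : G → ℝ) (x : G) :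
    (f x : ℂ) = ∑ φ : Module.Dual (ZMod p) G, fourierstepC f φ * fourierstepE φ x := by
  classical
  have hc : (Fintype.card (Module.Dual (ZMod p) G) : ℂ) ≠ 0 :=
    Nat.cast_ne_zero.2 Fintype.card_ne_zero
  have h1 : ∀ φ : Module.Dual (ZMod p) G, fourierstepC f φ * fourierstepE φ x =
      (Fintype.card (Module.Dual (ZMod p) G) : ℂ)⁻¹ * ∑ y, (f y : ℂ) * fourierstepE φ (x - y) := by
    intro φ
    rw [fourierstepC, mul_assoc, Finset.sum_mul]
    congr 1
    refine Finset.sum_congr rfl fun y _ => ?_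
    rw [mul_assoc, ← AddChar.map_add_eq_mul]
    congr 2
    abel
  simp only [h1]
  rw [← Finset.mul_sum, Finset.sum_comm]
  simp only [← Finset.mul_sum, fourierstep_sum_dual]
  have h2 : ∀ y, ((f y : ℂ) * if x - y = 0 then (Fintype.card (Module.Dual (ZMod p) G) : ℂ)
      else 0) = if y = x then (f x : ℂ) * (Fintype.card (Module.Dual (ZMod p) G) : ℂ) else 0 := by
    intro y
    by_cases h : y = x
    · rw [if_pos h, h, sub_self, if_pos rfl]
    · rw [if_neg h, if_neg (fun h' => h (sub_eq_zero.1 h').symm), mul_zero]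
  simp only [h2]
  rw [Finset.sum_ite_eq' Finset.univ x, if_pos (Finset.mem_univ x)]
  field_simp

theorem fourierstepC_norm (f : G → ℝ) (hf0 : ∀ x, 0 ≤ f x) (hf1 : ∀ x, f x ≤ 1)
    (φ : Module.Dual (ZMod p) G) : ‖fourierstepC f φ‖ ≤
      (Fintype.card (Module.Dual (ZMod p) G) : ℝ)⁻¹ * (Fintype.card G : ℝ) := by
  rw [fourierstepC, norm_mul, norm_inv, Complex.norm_natCast]
  gcongr
  calc ‖∑ y, (f y : ℂ) * fourierstepE φ (-y)‖ ≤ ∑ y : G, ‖(f y : ℂ) * fourierstepE φ (-y)‖ :=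
        norm_sum_le _ _
    _ ≤ ∑ _y : G, (1 : ℝ) := by
        refine Finset.sum_le_sum fun y _ => ?_
        rw [norm_mul, AddChar.norm_apply, mul_one, Complex.norm_real, Real.norm_eq_abs,
          abs_of_nonneg (hf0 y)]
        exact hf1 y
    _ = (Fintype.card G : ℝ) := by simp

/-- Parseval -/
theorem fourierstep_parseval (A : Finset G) :
    ∑ φ : Module.Dual (ZMod p) G, ‖∑ z ∈ A, fourierstepE φ z‖ ^ 2 =
      (Fintype.card (Module.Dual (ZMod p) G) : ℝ) * (A.card : ℝ) := by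
  classical
  have h1 : ∀ φ : Module.Dual (ZMod p) G, ((‖∑ z ∈ A, fourierstepE φ z‖ ^ 2 : ℝ) : ℂ) =
      ∑ z ∈ A, ∑ y ∈ A, fourierstepE φ (z - y) := by
    intro φ
    have h2 : conj (∑ z ∈ A, fourierstepE φ z) = ∑ y ∈ A, fourierstepE φ (-y) := by
      rw [map_sum]
      exact Finset.sum_congr rfl fun y _ => (AddChar.map_neg_eq_conj _ _).symm
    rw [Complex.ofReal_pow, ← Complex.mul_conj', h2, Finset.sum_mul_sum]
    refine Finset.sum_congr rfl fun z _ => Finset.sum_congr rfl fun y _ => ?_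
    rw [← AddChar.map_add_eq_mul, sub_eq_add_neg]
  have h3 : ((∑ φ : Module.Dual (ZMod p) G, ‖∑ z ∈ A, fourierstepE φ z‖ ^ 2 : ℝ) : ℂ) =
      (((Fintype.card (Module.Dual (ZMod p) G) : ℝ) * (A.card : ℝ) : ℝ) : ℂ) := by
    rw [Complex.ofReal_sum]
    simp only [h1]
    rw [Finset.sum_comm]
    have h4 : ∀ z ∈ A, ∑ φ : Module.Dual (ZMod p) G, ∑ y ∈ A, fourierstepE φ (z - y) =
        (Fintype.card (Module.Dual (ZMod p) G) : ℂ) := by
      intro z hz
      rw [Finset.sum_comm]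
      simp only [fourierstep_sum_dual, sub_eq_zero]
      rw [Finset.sum_ite_eq A z, if_pos hz]
    rw [Finset.sum_congr rfl h4, Finset.sum_const, nsmul_eq_mul]
    push_cast
    ring
  exact_mod_cast h3

/-- the smoothed total as a sum over forms -/
theorem fourierstep_total (f : G → ℝ) (A' T : Finset G) (j : ℕ) (w : G) :
    ((∑ s ∈ Fintype.piFinset (fun _ : Fin j => T), ∑ s' ∈ Fintype.piFinset (fun _ : Fin j => T),
        ∑ y ∈ A', ∑ z ∈ A', f (z - y + ∑ i, (s i - s' i) + w) : ℝ) : ℂ) =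
      ∑ φ : Module.Dual (ZMod p) G, fourierstepC f φ *
        (((‖∑ z ∈ A', fourierstepE φ z‖ ^ 2 * ‖∑ t ∈ T, fourierstepE φ t‖ ^ (2 * j) : ℝ) : ℂ)) *
        fourierstepE φ w := by
  classical
  have hconj : ∀ (φ : Module.Dual (ZMod p) G) (B : Finset G),
      conj (∑ z ∈ B, fourierstepE φ z) = ∑ y ∈ B, fourierstepE φ (-y) := by
    intro φ B
    rw [map_sum]
    exact Finset.sum_congr rfl fun y _ => (AddChar.map_neg_eq_conj _ _).symm
  -- one character
  have hone : ∀ φ : Module.Dual (ZMod p) G,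
      ∑ s ∈ Fintype.piFinset (fun _ : Fin j => T), ∑ s' ∈ Fintype.piFinset (fun _ : Fin j => T),
        ∑ y ∈ A', ∑ z ∈ A', fourierstepE φ (z - y + ∑ i, (s i - s' i) + w) =
      ((‖∑ z ∈ A', fourierstepE φ z‖ ^ 2 * ‖∑ t ∈ T, fourierstepE φ t‖ ^ (2 * j) : ℝ) : ℂ) *
        fourierstepE φ w := by
    intro φ
    have e1 : ∀ (s s' : Fin j → G) (y z : G), fourierstepE φ (z - y + ∑ i, (s i - s' i) + w) =
        ((∏ i, fourierstepE φ (s i)) * (∏ i, fourierstepE φ (-s' i))) *
          (fourierstepE φ (-y) * fourierstepE φ z) * fourierstepE φ w := by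
      intro s s' y z
      have h1 : z - y + ∑ i, (s i - s' i) + w = z + (-y) + (∑ i, s i + ∑ i, (-s' i)) + w := by
        rw [← Finset.sum_add_distrib]
        simp only [sub_eq_add_neg]
      rw [h1, AddChar.map_add_eq_mul, AddChar.map_add_eq_mul, AddChar.map_add_eq_mul,
        AddChar.map_add_eq_mul, fourierstep_map_sum, fourierstep_map_sum]
      ring
    have e2 : ∀ s s' : Fin j → G, ∑ y ∈ A', ∑ z ∈ A',
        fourierstepE φ (z - y + ∑ i, (s i - s' i) + w) =
        (∏ i, fourierstepE φ (s i)) * (∏ i, fourierstepE φ (-s' i)) *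
          (((‖∑ z ∈ A', fourierstepE φ z‖ ^ 2 : ℝ) : ℂ) * fourierstepE φ w) := by
      intro s s'
      simp only [e1]
      rw [Complex.ofReal_pow, ← Complex.mul_conj', hconj]
      rw [mul_comm (∑ z ∈ A', fourierstepE φ z), Finset.sum_mul_sum]
      simp only [Finset.mul_sum, Finset.sum_mul]
      refine Finset.sum_congr rfl fun y _ => Finset.sum_congr rfl fun z _ => ?_
      ring
    simp only [e2]
    have e3 : ∑ s ∈ Fintype.piFinset (fun _ : Fin j => T), ∏ i, fourierstepE φ (s i) =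
        (∑ t ∈ T, fourierstepE φ t) ^ j := by
      rw [← Finset.prod_univ_sum, Finset.prod_const, Finset.card_univ, Fintype.card_fin]
    have e4 : ∑ s ∈ Fintype.piFinset (fun _ : Fin j => T), ∏ i, fourierstepE φ (-s i) =
        (∑ t ∈ T, fourierstepE φ (-t)) ^ j := by
      rw [← Finset.prod_univ_sum (t := fun _ : Fin j => T) (f := fun _ t => fourierstepE φ (-t)),
        Finset.prod_const, Finset.card_univ, Fintype.card_fin]
    have e5 : ((‖∑ t ∈ T, fourierstepE φ t‖ ^ (2 * j) : ℝ) : ℂ) =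
        (∑ t ∈ T, fourierstepE φ t) ^ j * (∑ t ∈ T, fourierstepE φ (-t)) ^ j := by
      rw [Complex.ofReal_pow, pow_mul, ← Complex.mul_conj', hconj, mul_pow]
    rw [Complex.ofReal_mul, e5, ← e3, ← e4, Finset.sum_mul_sum]
    simp only [Finset.mul_sum, Finset.sum_mul]
    refine Finset.sum_congr rfl fun s _ => Finset.sum_congr rfl fun s' _ => ?_
    ring
  have e6 : ∀ (s s' : Fin j → G) (y z : G), (f (z - y + ∑ i, (s i - s' i) + w) : ℂ) =
      ∑ φ : Module.Dual (ZMod p) G, fourierstepC f φ *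
        fourierstepE φ (z - y + ∑ i, (s i - s' i) + w) := fun s s' y z => fourierstep_inv f _
  push_cast
  simp only [e6]
  calc _ = ∑ φ : Module.Dual (ZMod p) G, ∑ s ∈ Fintype.piFinset (fun _ : Fin j => T),
        ∑ s' ∈ Fintype.piFinset (fun _ : Fin j => T), ∑ y ∈ A', ∑ z ∈ A',
          fourierstepC f φ * fourierstepE φ (z - y + ∑ i, (s i - s' i) + w) :=
        (fourierstep_swap (Fintype.piFinset fun _ : Fin j => T) (Fintype.piFinset fun _ => T) A' A'
          Finset.univ (fun (φ : Module.Dual (ZMod p) G) s s' y z =>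
            fourierstepC f φ * fourierstepE φ (z - y + ∑ i, (s i - s' i) + w))).symm
    _ = _ := by
        refine Finset.sum_congr rfl fun φ _ => ?_
        have := hone φ
        push_cast at this
        rw [mul_assoc, ← this]
        simp only [Finset.mul_sum]

end fourierstep

section
variable {G : Type} [AddCommGroup G] [Fintype G]
variable {p : ℕ} [Fact p.Prime] [Module (ZMod p) G]

theorem fourier_step (f : G → ℝ) (hf0 : ∀ x, 0 ≤ f x) (hf1 : ∀ x, f x ≤ 1) (A' T : Finset G)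
    (hA' : A'.Nonempty) (hTn : T.Nonempty) (a' j : ℕ) (haj : a' + 8 ≤ 2 * j)
    (hd : (1 / 2 : ℝ) ^ a' ≤ (A'.card : ℝ) / (Fintype.card G : ℝ))
    (W : Submodule (ZMod p) G)
    (hW : ∀ φ : Module.Dual (ZMod p) G,
        (1 / 2) * (T.card : ℝ) ≤ ‖∑ t ∈ T, (ZMod.stdAddChar (φ t) : ℂ)‖ → ∀ w ∈ W, φ w = 0)
    (htot : (1 - 2 / 256) * (A'.card : ℝ) ^ 2 * (T.card : ℝ) ^ (2 * j) ≤
      ∑ s ∈ Fintype.piFinset (fun _ : Fin j => T), ∑ s' ∈ Fintype.piFinset (fun _ : Fin j => T),
        ∑ y ∈ A', ∑ z ∈ A', f (z - y + ∑ i, (s i - s' i))) :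
    ∃ u : G, (1 - 3 / 256) * (Nat.card W : ℝ) ≤ ∑ᶠ w : W, f (u + (w : G)) := by
  classical
  have := fourierstep_finite_dual (G := G) (p := p)
  letI : Fintype (Module.Dual (ZMod p) G) := Fintype.ofFinite _
  letI : Fintype W := Fintype.ofFinite _
  obtain ⟨S, hS⟩ : ∃ S : G → ℝ, S = fun w => ∑ s ∈ Fintype.piFinset (fun _ : Fin j => T),
    ∑ s' ∈ Fintype.piFinset (fun _ : Fin j => T),
      ∑ y ∈ A', ∑ z ∈ A', f (z - y + ∑ i, (s i - s' i) + w) := ⟨_, rfl⟩
  set g : G → ℝ := fun u => ∑ w : W, f (u + (w : G)) with hg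
  have hA0 : (0 : ℝ) < A'.card := by exact_mod_cast hA'.card_pos
  have hT0 : (0 : ℝ) < T.card := by exact_mod_cast hTn.card_pos
  have hG0 : (0 : ℝ) < Fintype.card G := by exact_mod_cast Fintype.card_pos
  have hW0 : (0 : ℝ) < Fintype.card W := by exact_mod_cast Fintype.card_pos
  have hD0 : (0 : ℝ) < Fintype.card (Module.Dual (ZMod p) G) := by exact_mod_cast Fintype.card_pos
  -- sum of S over W
  have hSg : ∑ w : W, S (w : G) = ∑ s ∈ Fintype.piFinset (fun _ : Fin j => T),
      ∑ s' ∈ Fintype.piFinset (fun _ : Fin j => T),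
      ∑ y ∈ A', ∑ z ∈ A', g (z - y + ∑ i, (s i - s' i)) := by
    simp only [hS, hg]
    exact fourierstep_swap (Fintype.piFinset fun _ : Fin j => T) (Fintype.piFinset fun _ => T) A' A'
      Finset.univ (fun (w : W) s s' y z => f (z - y + ∑ i, (s i - s' i) + (w : G)))
  have hST : ∀ w : G, ((S w : ℝ) : ℂ) = ∑ φ : Module.Dual (ZMod p) G, fourierstepC f φ *
        (((‖∑ z ∈ A', fourierstepE φ z‖ ^ 2 * ‖∑ t ∈ T, fourierstepE φ t‖ ^ (2 * j) : ℝ) : ℂ)) *
        fourierstepE φ w := fun w => by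
    rw [hS]; exact fourierstep_total f A' T j w
  -- comparison
  have hdiff : |(Fintype.card W : ℝ) * S 0 - ∑ w : W, S (w : G)| ≤
      (Fintype.card G : ℝ) * A'.card * Fintype.card W * ((T.card : ℝ) / 2) ^ (2 * j) := by
    have h1 : (((Fintype.card W : ℝ) * S 0 - ∑ w : W, S (w : G) : ℝ) : ℂ) =
        ∑ φ : Module.Dual (ZMod p) G, fourierstepC f φ *
        (((‖∑ z ∈ A', fourierstepE φ z‖ ^ 2 * ‖∑ t ∈ T, fourierstepE φ t‖ ^ (2 * j) : ℝ) : ℂ)) *
        ((Fintype.card W : ℂ) - ∑ w : W, fourierstepE φ (w : G)) := by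
      rw [Complex.ofReal_sub, Complex.ofReal_mul, Complex.ofReal_sum]
      simp only [hST]
      rw [Finset.sum_comm, Complex.ofReal_natCast, Finset.mul_sum, ← Finset.sum_sub_distrib]
      refine Finset.sum_congr rfl fun φ _ => ?_
      rw [← Finset.mul_sum, AddChar.map_zero_eq_one]
      ring
    rw [← Real.norm_eq_abs, ← Complex.norm_real, h1]
    calc _ ≤ ∑ φ : Module.Dual (ZMod p) G, ‖fourierstepC f φ *
        (((‖∑ z ∈ A', fourierstepE φ z‖ ^ 2 * ‖∑ t ∈ T, fourierstepE φ t‖ ^ (2 * j) : ℝ) : ℂ)) *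
        ((Fintype.card W : ℂ) - ∑ w : W, fourierstepE φ (w : G))‖ := norm_sum_le _ _
      _ ≤ ∑ φ : Module.Dual (ZMod p) G,
          ((Fintype.card (Module.Dual (ZMod p) G) : ℝ)⁻¹ * (Fintype.card G : ℝ)) *
          (‖∑ z ∈ A', fourierstepE φ z‖ ^ 2 * ((T.card : ℝ) / 2) ^ (2 * j)) *
          (Fintype.card W : ℝ) := by
          refine Finset.sum_le_sum fun φ _ => ?_
          by_cases hφ : ∀ w ∈ W, φ w = 0
          · have h2 : ∑ w : W, fourierstepE φ (w : G) = (Fintype.card W : ℂ) := by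
              have : ∀ w : W, fourierstepE φ (w : G) = 1 := fun w => by
                rw [fourierstepE_apply, hφ w w.2, AddChar.map_zero_eq_one]
              simp [this]
            rw [h2, sub_self, mul_zero, norm_zero]
            positivity
          · rw [fourierstep_sum_sub W φ hφ, sub_zero, norm_mul, norm_mul, Complex.norm_natCast,
              Complex.norm_real, Real.norm_eq_abs, abs_of_nonneg (by positivity)]
            have h3 : ‖∑ t ∈ T, fourierstepE φ t‖ ≤ (T.card : ℝ) / 2 := by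
              by_contra hlt
              apply hφ
              apply hW
              have : ‖∑ t ∈ T, fourierstepE φ t‖ = ‖∑ t ∈ T, (ZMod.stdAddChar (φ t) : ℂ)‖ := rfl
              rw [← this]
              linarith
            have h4 := fourierstepC_norm f hf0 hf1 φ
            gcongr
      _ = ((Fintype.card (Module.Dual (ZMod p) G) : ℝ)⁻¹ * (Fintype.card G : ℝ)) *
          ((∑ φ : Module.Dual (ZMod p) G, ‖∑ z ∈ A', fourierstepE φ z‖ ^ 2) *
            ((T.card : ℝ) / 2) ^ (2 * j)) * (Fintype.card W : ℝ) := by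
          rw [Finset.sum_mul, Finset.mul_sum, Finset.sum_mul]
      _ = _ := by
          rw [fourierstep_parseval]
          field_simp
  -- bound of the error
  have herr : (Fintype.card G : ℝ) * A'.card * Fintype.card W * ((T.card : ℝ) / 2) ^ (2 * j) ≤
      (1 / 256) * Fintype.card W * ((A'.card : ℝ) ^ 2 * (T.card : ℝ) ^ (2 * j)) := by
    have h1 : (Fintype.card G : ℝ) * (1 / 2) ^ a' ≤ A'.card := by
      rw [le_div_iff₀ hG0] at hd
      linarith
    have h2 : ((1 : ℝ) / 2) ^ (2 * j) ≤ (1 / 2) ^ a' * (1 / 256) := by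
      have : ((1 : ℝ) / 256) = (1 / 2) ^ 8 := by norm_num
      rw [this, ← pow_add]
      exact pow_le_pow_of_le_one (by norm_num) (by norm_num) haj
    have h3 : ((T.card : ℝ) / 2) ^ (2 * j) = (T.card : ℝ) ^ (2 * j) * (1 / 2) ^ (2 * j) := by
      rw [← mul_pow]; congr 1; ring
    rw [h3]
    calc (Fintype.card G : ℝ) * A'.card * Fintype.card W * ((T.card : ℝ) ^ (2 * j) * (1 / 2) ^ (2 * j))
        ≤ (Fintype.card G : ℝ) * A'.card * Fintype.card W *
          ((T.card : ℝ) ^ (2 * j) * ((1 / 2) ^ a' * (1 / 256))) := by gcongr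
      _ = ((Fintype.card G : ℝ) * (1 / 2) ^ a') *
          (A'.card * Fintype.card W * (T.card : ℝ) ^ (2 * j) * (1 / 256)) := by ring
      _ ≤ (A'.card : ℝ) * (A'.card * Fintype.card W * (T.card : ℝ) ^ (2 * j) * (1 / 256)) := by
          gcongr
      _ = _ := by ring
  have hS0 : (1 - 2 / 256) * (A'.card : ℝ) ^ 2 * (T.card : ℝ) ^ (2 * j) ≤ S 0 := by
    refine htot.trans (le_of_eq ?_)
    simp only [hS, add_zero]
  have hsum : (1 - 3 / 256) * (Fintype.card W : ℝ) * ((A'.card : ℝ) ^ 2 * (T.card : ℝ) ^ (2 * j)) ≤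
      ∑ w : W, S (w : G) := by
    have h1 := (abs_le.1 (hdiff.trans herr)).2
    have h2 := mul_le_mul_of_nonneg_left hS0 hW0.le
    nlinarith
  -- choose the best translate
  obtain ⟨u, hu⟩ := Finite.exists_max g
  refine ⟨u, ?_⟩
  rw [finsum_eq_sum_of_fintype, Nat.card_eq_fintype_card]
  change _ ≤ g u
  have hle : ∑ w : W, S (w : G) ≤ ((A'.card : ℝ) ^ 2 * (T.card : ℝ) ^ (2 * j)) * g u := by
    rw [hSg]
    calc _ ≤ ∑ s ∈ Fintype.piFinset (fun _ : Fin j => T),
          ∑ s' ∈ Fintype.piFinset (fun _ : Fin j => T), ∑ y ∈ A', ∑ z ∈ A', g u := by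
          refine Finset.sum_le_sum fun s _ => Finset.sum_le_sum fun s' _ =>
            Finset.sum_le_sum fun y _ => Finset.sum_le_sum fun z _ => hu _
      _ = _ := by
          simp only [Finset.sum_const, nsmul_eq_mul, Fintype.card_piFinset, Finset.prod_const,
            Finset.card_univ, Fintype.card_fin]
          push_cast
          ring
  have hpos : 0 < (A'.card : ℝ) ^ 2 * (T.card : ℝ) ^ (2 * j) := by positivity
  have h5 : ((A'.card : ℝ) ^ 2 * (T.card : ℝ) ^ (2 * j)) * ((1 - 3 / 256) * (Fintype.card W : ℝ)) ≤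
      ((A'.card : ℝ) ^ 2 * (T.card : ℝ) ^ (2 * j)) * g u := by linarith
  exact le_of_mul_le_mul_left h5 hpos

end

end EHProj
end

section

/-!
# Moments of convolutions (EH-KM1)
-/

namespace EHProj

open scoped LinearAlgebra.Projectivization
open Module

section KM
variable {G : Type} [AddCommGroup G] [Fintype G]

theorem moments_avg_comm {α β : Type} [Fintype α] [Fintype β] (f : α → β → ℝ) :
    avg (fun x => avg (fun y => f x y)) = avg (fun y => avg (fun x => f x y)) := by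
  unfold avg
  rw [← Finset.sum_div, ← Finset.sum_div, Finset.sum_comm, div_div, div_div,
    mul_comm (Fintype.card β : ℝ)]

theorem moments_avg_mul_right {α : Type} [Fintype α] (f : α → ℝ) (c : ℝ) :
    avg (fun x => f x * c) = avg f * c := by
  unfold avg
  rw [← Finset.sum_mul]
  ring

theorem moments_avg_mul_left {α : Type} [Fintype α] (f : α → ℝ) (c : ℝ) :
    avg (fun x => c * f x) = c * avg f := by
  unfold avg
  rw [← Finset.mul_sum]
  ring

theorem moments_avg_equiv {α β : Type} [Fintype α] [Fintype β] (e : α ≃ β) (f : β → ℝ) :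
    avg (fun x => f (e x)) = avg f := by
  unfold avg
  rw [Equiv.sum_comp e f, Fintype.card_congr e]

theorem moments_avg_const {α : Type} [Fintype α] [Nonempty α] (c : ℝ) :
    avg (fun _ : α => c) = c := by
  unfold avg
  have h : (Fintype.card α : ℝ) ≠ 0 := by
    exact_mod_cast Fintype.card_ne_zero
  rw [Finset.sum_const, Finset.card_univ, nsmul_eq_mul]
  field_simp

theorem moments_avg_add {α : Type} [Fintype α] (f g : α → ℝ) :
    avg (fun x => f x + g x) = avg f + avg g := by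
  unfold avg
  rw [Finset.sum_add_distrib, add_div]

theorem moments_avg_sub {α : Type} [Fintype α] (f g : α → ℝ) :
    avg (fun x => f x - g x) = avg f - avg g := by
  unfold avg
  rw [Finset.sum_sub_distrib, sub_div]

theorem moments_pow (g h : G → ℝ) (k : ℕ) (x : G) :
    cnv g h x ^ k = avg (fun y : Fin k → G => (∏ i, g (x + y i)) * ∏ i, h (y i)) := by
  unfold cnv avg
  rw [div_pow, Fintype.sum_pow]
  congr 1
  · refine Finset.sum_congr rfl fun y _ => ?_
    rw [Finset.prod_mul_distrib]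
  · rw [Fintype.card_fun, Fintype.card_fin]
    push_cast
    rfl

theorem avg_cnv_pow (g h : G → ℝ) (k : ℕ) :
    avg (fun x => cnv g h x ^ k) =
      avg (fun y : Fin k → G =>
        avg (fun x => ∏ i, g (x + y i)) * avg (fun x => ∏ i, h (x + y i))) := by
  have e1 : avg (fun x => cnv g h x ^ k) =
      avg (fun y : Fin k → G => avg (fun x => ∏ i, g (x + y i)) * ∏ i, h (y i)) := by
    have : (fun x => cnv g h x ^ k) =
        fun x => avg (fun y : Fin k → G => (∏ i, g (x + y i)) * ∏ i, h (y i)) := by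
      funext x
      exact moments_pow g h k x
    rw [this, moments_avg_comm]
    congr 1
    funext y
    rw [moments_avg_mul_right]
  have e2 : ∀ z : G,
      avg (fun y : Fin k → G => avg (fun x => ∏ i, g (x + y i)) * ∏ i, h (z + y i)) =
      avg (fun y : Fin k → G => avg (fun x => ∏ i, g (x + y i)) * ∏ i, h (y i)) := by
    intro z
    rw [← moments_avg_equiv (Equiv.addLeft (fun _ : Fin k => z))
      (fun y : Fin k → G => avg (fun x => ∏ i, g (x + y i)) * ∏ i, h (y i))]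
    congr 1
    funext y
    simp only [Equiv.coe_addLeft, Pi.add_apply]
    congr 1
    rw [← moments_avg_equiv (Equiv.addRight z) (fun x => ∏ i, g (x + y i))]
    congr 1
    funext x
    simp only [Equiv.coe_addRight, add_assoc]
  have e3 : avg (fun y : Fin k → G =>
        avg (fun x => ∏ i, g (x + y i)) * avg (fun x => ∏ i, h (x + y i))) =
      avg (fun z : G => avg (fun y : Fin k → G =>
        avg (fun x => ∏ i, g (x + y i)) * ∏ i, h (z + y i))) := by
    rw [moments_avg_comm]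
    congr 1
    funext y
    rw [moments_avg_mul_left]
  rw [e1, e3]
  simp only [e2]
  have : Nonempty G := ⟨0⟩
  rw [moments_avg_const]

theorem avg_cnv_self_nonneg (g : G → ℝ) (k : ℕ) : 0 ≤ avg (fun x => cnv g g x ^ k) := by
  rw [avg_cnv_pow]
  unfold avg
  refine div_nonneg (Finset.sum_nonneg fun y _ => mul_self_nonneg _) (Nat.cast_nonneg _)

theorem avg_cnv_cs (g h : G → ℝ) (k : ℕ) :
    (avg (fun x => cnv g h x ^ k)) ^ 2 ≤
      avg (fun x => cnv g g x ^ k) * avg (fun x => cnv h h x ^ k) := by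
  rw [avg_cnv_pow, avg_cnv_pow, avg_cnv_pow]
  set F : (Fin k → G) → ℝ := fun y => avg (fun x => ∏ i, g (x + y i)) with hF
  set H : (Fin k → G) → ℝ := fun y => avg (fun x => ∏ i, h (x + y i)) with hH
  have key := Finset.sum_mul_sq_le_sq_mul_sq (Finset.univ : Finset (Fin k → G)) F H
  show (avg (fun y => F y * H y)) ^ 2 ≤ avg (fun y => F y * F y) * avg (fun y => H y * H y)
  unfold avg
  rw [div_pow, div_mul_div_comm, ← sq (Fintype.card (Fin k → G) : ℝ)]
  refine div_le_div_of_nonneg_right ?_ (sq_nonneg _)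
  calc (∑ y, F y * H y) ^ 2 ≤ (∑ y, F y ^ 2) * ∑ y, H y ^ 2 := key
    _ = (∑ y, F y * F y) * ∑ y, H y * H y := by simp only [sq]

theorem moments_avg_mu (A : Finset G) (hA : A.Nonempty) : avg (mu A) = 1 := by
  classical
  unfold avg mu
  have h1 : (Fintype.card G : ℝ) ≠ 0 := by
    have : Nonempty G := ⟨0⟩
    exact_mod_cast Fintype.card_ne_zero
  have h2 : (A.card : ℝ) ≠ 0 := by
    exact_mod_cast hA.card_pos.ne'
  rw [← Finset.sum_filter]
  rw [Finset.sum_const, nsmul_eq_mul]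
  have : (Finset.univ.filter (fun x => x ∈ A)) = A := by
    ext x
    simp
  rw [this]
  field_simp

theorem cnv_mu_sub_one (A B : Finset G) (hA : A.Nonempty) (hB : B.Nonempty) (x : G) :
    cnv (fun y => mu A y - 1) (fun y => mu B y - 1) x = cnv (mu A) (mu B) x - 1 := by
  have : Nonempty G := ⟨0⟩
  have e : avg (fun y => mu A (x + y)) = 1 := by
    rw [← moments_avg_mu A hA]
    exact moments_avg_equiv (Equiv.addLeft x) (mu A)
  unfold cnv
  have h : (fun y => (mu A (x + y) - 1) * (mu B y - 1)) =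
      fun y => (mu A (x + y) * mu B y - mu A (x + y)) - (mu B y - 1) := by
    funext y
    ring
  rw [h, moments_avg_sub, moments_avg_sub, moments_avg_sub, e, moments_avg_const]
  have h2 : avg (fun y => mu B y) = 1 := moments_avg_mu B hB
  rw [h2]
  ring

end KM

end EHProj
end

section

/-!
# MP_f4f4db_co KM-5: the moment bound and sampling
-/

set_option autoImplicit false

namespace EHProj

open scoped LinearAlgebra.Projectivization
open Module

section KM
variable {G : Type} [AddCommGroup G] [Fintype G]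

private theorem sampling_pow_le_cosh (t : ℝ) (k : ℕ) :
    t ^ (2 * k) ≤ (2 * k).factorial * Real.cosh t := by
  have h := le_hasSum (Real.hasSum_cosh t) k (fun j _ => by
    rw [pow_mul]
    positivity)
  rw [div_le_iff₀ (by positivity)] at h
  linarith

omit [AddCommGroup G] [Fintype G] in
private theorem sampling_exp_sum (A' : Finset G) (Y : G → ℝ)
    (hY1 : ∀ z ∈ A', |Y z| ≤ 1) (hY0 : ∑ z ∈ A', Y z = 0) (s : ℝ) (m : ℕ) :
    ∑ z ∈ Fintype.piFinset (fun _ : Fin m => A'), Real.exp (s * ∑ i, Y (z i)) ≤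
      ((A'.card : ℝ) * Real.exp (s ^ 2 / 2)) ^ m := by
  have h1 : ∑ z ∈ Fintype.piFinset (fun _ : Fin m => A'), Real.exp (s * ∑ i, Y (z i)) =
      (∑ z ∈ A', Real.exp (s * Y z)) ^ m := by
    have h2 := Finset.prod_univ_sum (fun _ : Fin m => A') (fun _ z => Real.exp (s * Y z))
    rw [Finset.prod_const, Finset.card_univ, Fintype.card_fin] at h2
    rw [h2]
    refine Finset.sum_congr rfl fun z _ => ?_
    rw [← Real.exp_sum, Finset.mul_sum]
  rw [h1]
  refine pow_le_pow_left₀ (Finset.sum_nonneg fun z _ => (Real.exp_pos _).le) ?_ m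
  calc ∑ z ∈ A', Real.exp (s * Y z) ≤ ∑ z ∈ A', (Real.cosh s + Y z * Real.sinh s) := by
        refine Finset.sum_le_sum fun z hz => ?_
        rw [mul_comm s]
        exact Real.exp_mul_le_cosh_add_mul_sinh (hY1 z hz) s
    _ = (A'.card : ℝ) * Real.cosh s := by
        rw [Finset.sum_add_distrib, ← Finset.sum_mul, hY0, zero_mul, add_zero, Finset.sum_const,
          nsmul_eq_mul]
    _ ≤ _ := mul_le_mul_of_nonneg_left (Real.cosh_le_exp_half_sq s) (Nat.cast_nonneg _)

theorem moment_bound (A' : Finset G) (hA' : A'.Nonempty) (Y : G → ℝ)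
    (hY1 : ∀ z ∈ A', |Y z| ≤ 1) (hY0 : ∑ z ∈ A', Y z = 0) (r m : ℕ) (hr : Even r) (hr2 : 2 ≤ r)
    (hm : 1 ≤ m) :
    ∑ z ∈ Fintype.piFinset (fun _ : Fin m => A'), (∑ i, Y (z i)) ^ r ≤
      (A'.card : ℝ) ^ m * (Real.exp 1 * r * m) ^ (r / 2) := by
  obtain ⟨k, hk⟩ := hr
  have hrk : r = 2 * k := by omega
  subst hrk
  have hk1 : 1 ≤ k := by omega
  have hdiv : 2 * k / 2 = k := by omega
  rw [hdiv]
  have hk0 : (0 : ℝ) < k := by exact_mod_cast hk1
  have hm0 : (0 : ℝ) < m := by exact_mod_cast hm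
  set l : ℝ := Real.sqrt ((2 * k : ℕ) / m) with hl
  have hl0 : 0 < l := by
    rw [hl]
    apply Real.sqrt_pos.2
    push_cast
    positivity
  have hl2 : l ^ 2 = (2 * k : ℕ) / m := Real.sq_sqrt (by positivity)
  have hA0 : (0 : ℝ) ≤ A'.card := Nat.cast_nonneg _
  -- sum of cosh
  have h1 : ∑ z ∈ Fintype.piFinset (fun _ : Fin m => A'), Real.cosh (l * ∑ i, Y (z i)) ≤
      ((A'.card : ℝ) * Real.exp (l ^ 2 / 2)) ^ m := by
    have e1 := sampling_exp_sum A' Y hY1 hY0 l m
    have e2 := sampling_exp_sum A' Y hY1 hY0 (-l) m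
    rw [neg_sq] at e2
    have e3 : ∑ z ∈ Fintype.piFinset (fun _ : Fin m => A'), Real.cosh (l * ∑ i, Y (z i)) =
        (∑ z ∈ Fintype.piFinset (fun _ : Fin m => A'), Real.exp (l * ∑ i, Y (z i)) +
          ∑ z ∈ Fintype.piFinset (fun _ : Fin m => A'), Real.exp (-l * ∑ i, Y (z i))) / 2 := by
      rw [← Finset.sum_add_distrib, Finset.sum_div]
      refine Finset.sum_congr rfl fun z _ => ?_
      rw [Real.cosh_eq, neg_mul]
    rw [e3]
    linarith
  have h2 : l ^ (2 * k) * ∑ z ∈ Fintype.piFinset (fun _ : Fin m => A'), (∑ i, Y (z i)) ^ (2 * k) ≤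
      (2 * k).factorial * ((A'.card : ℝ) * Real.exp (l ^ 2 / 2)) ^ m := by
    calc _ = ∑ z ∈ Fintype.piFinset (fun _ : Fin m => A'), (l * ∑ i, Y (z i)) ^ (2 * k) := by
          rw [Finset.mul_sum]
          refine Finset.sum_congr rfl fun z _ => ?_
          rw [mul_pow]
      _ ≤ ∑ z ∈ Fintype.piFinset (fun _ : Fin m => A'),
          ((2 * k).factorial * Real.cosh (l * ∑ i, Y (z i))) :=
          Finset.sum_le_sum fun z _ => sampling_pow_le_cosh _ k
      _ = (2 * k).factorial * ∑ z ∈ Fintype.piFinset (fun _ : Fin m => A'),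
          Real.cosh (l * ∑ i, Y (z i)) := by rw [Finset.mul_sum]
      _ ≤ _ := mul_le_mul_of_nonneg_left h1 (by positivity)
  have h3 : (Real.exp (l ^ 2 / 2)) ^ m = (Real.exp 1) ^ k := by
    rw [← Real.exp_nat_mul, ← Real.exp_nat_mul, hl2]
    congr 1
    push_cast
    field_simp
  have h4 : l ^ (2 * k) = ((2 * k : ℕ) / m : ℝ) ^ k := by
    rw [pow_mul, hl2]
  have h5 : ((2 * k).factorial : ℝ) ≤ ((2 * k : ℕ) : ℝ) ^ (2 * k) := by
    exact_mod_cast Nat.factorial_le_pow (2 * k)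
  rw [mul_pow, h3, h4] at h2
  have h6 : (0 : ℝ) < ((2 * k : ℕ) / m : ℝ) ^ k := by
    have : (0 : ℝ) < (2 * k : ℕ) := by push_cast; positivity
    positivity
  refine le_of_mul_le_mul_left (h2.trans ?_) h6
  calc ((2 * k).factorial : ℝ) * ((A'.card : ℝ) ^ m * (Real.exp 1) ^ k)
      ≤ ((2 * k : ℕ) : ℝ) ^ (2 * k) * ((A'.card : ℝ) ^ m * (Real.exp 1) ^ k) :=
        mul_le_mul_of_nonneg_right h5 (by positivity)
    _ = _ := by
        rw [pow_mul, mul_pow, mul_pow, div_pow]
        field_simp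
        ring

open Classical in
theorem sampling (f : G → ℝ) (hf0 : ∀ x, 0 ≤ f x) (hf1 : ∀ x, f x ≤ 1) (A' : Finset G)
    (hA' : A'.Nonempty) (r e m : ℕ) (hr : Even r) (hr2 : 2 ≤ r) (he : 1 ≤ e)
    (hm : m = 6 * r * e ^ 2) :
    (A'.card : ℝ) ^ m ≤ 2 * (((Fintype.piFinset (fun _ : Fin m => A')).filter
      (fun z => avg (fun u => ((∑ i, f (u + z i)) / (m : ℝ) - sm A' f u) ^ r) ≤
        (1 / (e : ℝ)) ^ r)).card : ℝ) := by
  have hm1 : 1 ≤ m := by
    rw [hm]
    have : 0 < 6 * r * e ^ 2 := by positivity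
    omega
  have hm0 : (0 : ℝ) < m := by exact_mod_cast hm1
  have he0 : (0 : ℝ) < e := by exact_mod_cast he
  have hr0 : (0 : ℝ) < r := by
    have : 0 < r := by omega
    exact_mod_cast this
  have hA0 : (0 : ℝ) < A'.card := by exact_mod_cast Finset.card_pos.2 hA'
  obtain ⟨k, hk⟩ := id hr
  have hrk : r = 2 * k := by omega
  have hk1 : 1 ≤ k := by omega
  have hG0 : (0 : ℝ) < Fintype.card G := by
    have : Nonempty G := ⟨hA'.choose⟩
    exact_mod_cast Fintype.card_pos
  set P := Fintype.piFinset (fun _ : Fin m => A') with hP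
  set g : (Fin m → G) → ℝ := fun z =>
    avg (fun u => ((∑ i, f (u + z i)) / (m : ℝ) - sm A' f u) ^ r) with hg
  have hg0 : ∀ z, 0 ≤ g z := fun z => by
    simp only [hg]
    unfold avg
    exact div_nonneg (Finset.sum_nonneg fun u _ => hr.pow_nonneg _) hG0.le
  -- averages over A'
  have hsm0 : ∀ u, 0 ≤ sm A' f u := fun u =>
    div_nonneg (Finset.sum_nonneg fun y _ => hf0 _) hA0.le
  have hsm1 : ∀ u, sm A' f u ≤ 1 := fun u => by
    unfold sm
    rw [div_le_one hA0]
    calc ∑ y ∈ A', f (u + y) ≤ ∑ y ∈ A', (1 : ℝ) := Finset.sum_le_sum fun y _ => hf1 _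
      _ = A'.card := by simp
  have hcore : ∀ u, ∑ z ∈ P, ((∑ i, f (u + z i)) / (m : ℝ) - sm A' f u) ^ r ≤
      (1 / 2) * (A'.card : ℝ) ^ m * (1 / (e : ℝ)) ^ r := by
    intro u
    have h1 := moment_bound A' hA' (fun z => f (u + z) - sm A' f u)
      (fun z _ => by
        rw [abs_le]
        constructor <;> linarith [hf0 (u + z), hf1 (u + z), hsm0 u, hsm1 u])
      (by
        rw [Finset.sum_sub_distrib, Finset.sum_const, nsmul_eq_mul]
        unfold sm
        field_simp
        ring) r m hr hr2 hm1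
    have h2 : ∀ z : Fin m → G, ((∑ i, f (u + z i)) / (m : ℝ) - sm A' f u) ^ r =
        (1 / (m : ℝ)) ^ r * (∑ i, (f (u + z i) - sm A' f u)) ^ r := by
      intro z
      rw [← mul_pow]
      congr 1
      rw [Finset.sum_sub_distrib, Finset.sum_const, nsmul_eq_mul, Finset.card_univ,
        Fintype.card_fin]
      field_simp
    rw [Finset.sum_congr rfl fun z _ => h2 z, ← Finset.mul_sum]
    have h3 : (1 / (m : ℝ)) ^ r * ((A'.card : ℝ) ^ m * (Real.exp 1 * r * m) ^ (r / 2)) =
        (A'.card : ℝ) ^ m * ((Real.exp 1 / 6) ^ k * (1 / (e : ℝ)) ^ r) := by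
      have hd : r / 2 = k := by omega
      have e1 : (1 / (m : ℝ)) ^ r = ((1 / (m : ℝ)) ^ 2) ^ k := by rw [← pow_mul, hrk]
      have e2 : (1 / (e : ℝ)) ^ r = ((1 / (e : ℝ)) ^ 2) ^ k := by rw [← pow_mul, hrk]
      rw [hd, e1, e2, mul_left_comm, ← mul_pow, ← mul_pow]
      congr 2
      have e3 : (m : ℝ) = 6 * r * e ^ 2 := by
        rw [hm]
        push_cast
        ring
      rw [e3]
      field_simp
    have h4 : (Real.exp 1 / 6) ^ k ≤ 1 / 2 := by
      have h5 : Real.exp 1 / 6 ≤ 1 / 2 := by linarith [Real.exp_one_lt_d9]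
      have h6 : 0 ≤ Real.exp 1 / 6 := by positivity
      calc (Real.exp 1 / 6) ^ k ≤ (Real.exp 1 / 6) ^ 1 :=
            pow_le_pow_of_le_one h6 (by linarith) hk1
        _ ≤ 1 / 2 := by rw [pow_one]; exact h5
    calc (1 / (m : ℝ)) ^ r * ∑ z ∈ P, (∑ i, (f (u + z i) - sm A' f u)) ^ r
        ≤ (1 / (m : ℝ)) ^ r * ((A'.card : ℝ) ^ m * (Real.exp 1 * r * m) ^ (r / 2)) :=
          mul_le_mul_of_nonneg_left h1 (by positivity)
      _ = (A'.card : ℝ) ^ m * ((Real.exp 1 / 6) ^ k * (1 / (e : ℝ)) ^ r) := h3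
      _ ≤ (A'.card : ℝ) ^ m * ((1 / 2) * (1 / (e : ℝ)) ^ r) := by gcongr
      _ = _ := by ring
  have htot : ∑ z ∈ P, g z ≤ (1 / 2) * (A'.card : ℝ) ^ m * (1 / (e : ℝ)) ^ r := by
    have h1 : ∑ z ∈ P, g z = (∑ u, ∑ z ∈ P, ((∑ i, f (u + z i)) / (m : ℝ) - sm A' f u) ^ r) /
        (Fintype.card G : ℝ) := by
      simp only [hg]
      unfold avg
      rw [← Finset.sum_div, Finset.sum_comm]
    rw [h1, div_le_iff₀ hG0]
    calc ∑ u, ∑ z ∈ P, ((∑ i, f (u + z i)) / (m : ℝ) - sm A' f u) ^ r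
        ≤ ∑ u : G, (1 / 2) * (A'.card : ℝ) ^ m * (1 / (e : ℝ)) ^ r :=
          Finset.sum_le_sum fun u _ => hcore u
      _ = _ := by
          rw [Finset.sum_const, nsmul_eq_mul, Finset.card_univ]
          ring
  -- Markov
  have hE : (0 : ℝ) < (1 / (e : ℝ)) ^ r := by positivity
  have hbad : ((P.filter (fun z => ¬ g z ≤ (1 / (e : ℝ)) ^ r)).card : ℝ) ≤
      (1 / 2) * (A'.card : ℝ) ^ m := by
    have h1 : ((P.filter (fun z => ¬ g z ≤ (1 / (e : ℝ)) ^ r)).card : ℝ) * (1 / (e : ℝ)) ^ r ≤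
        (1 / 2) * (A'.card : ℝ) ^ m * (1 / (e : ℝ)) ^ r := by
      calc _ = ∑ z ∈ P.filter (fun z => ¬ g z ≤ (1 / (e : ℝ)) ^ r), (1 / (e : ℝ)) ^ r := by
            rw [Finset.sum_const, nsmul_eq_mul]
        _ ≤ ∑ z ∈ P.filter (fun z => ¬ g z ≤ (1 / (e : ℝ)) ^ r), g z := by
            refine Finset.sum_le_sum fun z hz => ?_
            rw [Finset.mem_filter, not_le] at hz
            exact hz.2.le
        _ ≤ ∑ z ∈ P, g z := Finset.sum_le_sum_of_subset_of_nonneg (Finset.filter_subset _ _)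
            fun z _ _ => hg0 z
        _ ≤ _ := htot
    exact le_of_mul_le_mul_right h1 hE
  have hcard : ((P.filter (fun z => g z ≤ (1 / (e : ℝ)) ^ r)).card : ℝ) +
      ((P.filter (fun z => ¬ g z ≤ (1 / (e : ℝ)) ^ r)).card : ℝ) = (A'.card : ℝ) ^ m := by
    have h1 := Finset.card_filter_add_card_filter_not (s := P) (fun z => g z ≤ (1 / (e : ℝ)) ^ r)
    have h2 : P.card = A'.card ^ m := by
      rw [hP, Fintype.card_piFinset, Finset.prod_const, Finset.card_univ, Fintype.card_fin]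
    rw [h2] at h1
    exact_mod_cast h1
  linarith

end KM

end EHProj
end

section

/-! # Almost periods exist (KM-6a) -/

namespace EHProj

open scoped LinearAlgebra.Projectivization
open Module

section KM
variable {G : Type} [AddCommGroup G] [Fintype G]

theorem almostperiod_avg_shift (φ : G → ℝ) (t : G) :
    avg (fun u => φ (u + t)) = avg φ := by
  unfold avg
  congr 1
  exact Fintype.sum_equiv (Equiv.addRight t) _ _ fun u => rfl

theorem almostperiod_avg_mono {φ ψ : G → ℝ} (h : ∀ x, φ x ≤ ψ x) : avg φ ≤ avg ψ := by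
  unfold avg
  exact div_le_div_of_nonneg_right (Finset.sum_le_sum fun x _ => h x) (Nat.cast_nonneg _)

theorem almostperiod_avg_lin (φ ψ : G → ℝ) (c : ℝ) :
    avg (fun x => c * (φ x + ψ x)) = c * (avg φ + avg ψ) := by
  unfold avg
  rw [← Finset.mul_sum, Finset.sum_add_distrib]
  ring

theorem almost_period (f : G → ℝ) (hf0 : ∀ x, 0 ≤ f x) (hf1 : ∀ x, f x ≤ 1) (A' : Finset G)
    (hA' : A'.Nonempty) (r e m : ℕ) (hr : Even r) (hr2 : 2 ≤ r) (he : 1 ≤ e)
    (hm : m = 6 * r * e ^ 2) :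
    ∃ T : Finset G, T.Nonempty ∧
      (1 / 2) * ((A'.card : ℝ) / (Fintype.card G : ℝ)) ^ m ≤ (T.card : ℝ) / (Fintype.card G : ℝ) ∧
      ∀ t ∈ T, ∀ t' ∈ T, avg (fun u => (sm A' f (u + (t - t')) - sm A' f u) ^ r) ≤
        (2 / (e : ℝ)) ^ r := by
  classical
  have hs := sampling f hf0 hf1 A' hA' r e m hr hr2 he hm
  set Good : Finset (Fin m → G) := (Fintype.piFinset (fun _ : Fin m => A')).filter
      (fun z => avg (fun u => ((∑ i, f (u + z i)) / (m : ℝ) - sm A' f u) ^ r) ≤
        (1 / (e : ℝ)) ^ r) with hGood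
  set n : ℕ := Fintype.card G with hn
  have hn0 : 0 < n := Fintype.card_pos
  have hn0' : (0 : ℝ) < n := by exact_mod_cast hn0
  have ha0 : 0 < A'.card := hA'.card_pos
  have ha0' : (0 : ℝ) < A'.card := by exact_mod_cast ha0
  set T : (Fin m → G) → Finset G := fun w =>
    Finset.univ.filter fun t => (fun i => w i - t) ∈ Good with hT
  -- double counting
  have hdc : ∑ w : Fin m → G, (T w).card = n * Good.card := by
    have h1 : ∀ w : Fin m → G, (T w).card = ∑ t : G, if (fun i => w i - t) ∈ Good then 1 else 0 := by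
      intro w
      rw [hT, Finset.card_filter]
    simp_rw [h1]
    rw [Finset.sum_comm]
    have h2 : ∀ t : G, (∑ w : Fin m → G, if (fun i => w i - t) ∈ Good then 1 else 0) =
        Good.card := by
      intro t
      have h3 : (∑ w : Fin m → G, if (fun i => w i - t) ∈ Good then 1 else 0) =
          ∑ z : Fin m → G, if z ∈ Good then 1 else 0 :=
        Fintype.sum_equiv (Equiv.subRight (fun _ : Fin m => t)) _ _ fun w => rfl
      rw [h3]
      simp
    simp_rw [h2]
    rw [Finset.sum_const, Finset.card_univ, smul_eq_mul]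
  have hex : ∃ w : Fin m → G, n * Good.card ≤ (T w).card * n ^ m := by
    by_contra hcon
    push Not at hcon
    have h1 : ∑ w : Fin m → G, (T w).card * n ^ m < ∑ w : Fin m → G, n * Good.card :=
      Finset.sum_lt_sum_of_nonempty ⟨fun _ => 0, Finset.mem_univ _⟩ fun w _ => hcon w
    rw [← Finset.sum_mul, hdc, Finset.sum_const, Finset.card_univ, smul_eq_mul,
      Fintype.card_fun, Fintype.card_fin, mul_comm (n ^ m)] at h1
    exact lt_irrefl _ h1
  obtain ⟨w, hw⟩ := hex
  have hw' : (n : ℝ) * Good.card ≤ (T w).card * (n : ℝ) ^ m := by exact_mod_cast hw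
  have hlow : (1 / 2) * ((A'.card : ℝ) / (n : ℝ)) ^ m ≤ ((T w).card : ℝ) / (n : ℝ) := by
    rw [div_pow, le_div_iff₀ hn0', ← mul_div_assoc, div_mul_eq_mul_div, div_le_iff₀ (by positivity)]
    nlinarith [hs, hw', hn0']
  have hpos : (0 : ℝ) < (1 / 2) * ((A'.card : ℝ) / (n : ℝ)) ^ m := by positivity
  have hTn : (T w).Nonempty := by
    rw [← Finset.card_pos]
    by_contra h0
    have : (T w).card = 0 := by omega
    rw [this] at hlow
    simp only [Nat.cast_zero, zero_div] at hlow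
    linarith
  refine ⟨T w, hTn, hlow, ?_⟩
  set F : G → ℝ := sm A' f with hF
  set g : G → ℝ := fun u => (∑ i, f (u + w i)) / (m : ℝ) with hg
  have hT1 : ∀ t ∈ T w, avg (fun u => (g u - F (u + t)) ^ r) ≤ (1 / (e : ℝ)) ^ r := by
    intro t ht
    have ht1 : (fun i => w i - t) ∈ Good := by
      simpa [hT] using ht
    have ht2 : avg (fun u => ((∑ i, f (u + (w i - t))) / (m : ℝ) - F u) ^ r) ≤
        (1 / (e : ℝ)) ^ r := (Finset.mem_filter.1 ht1).2
    rw [← almostperiod_avg_shift (fun u => ((∑ i, f (u + (w i - t))) / (m : ℝ) - F u) ^ r) t] at ht2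
    have e1 : (fun u => ((∑ i, f (u + t + (w i - t))) / (m : ℝ) - F (u + t)) ^ r) =
        fun u => (g u - F (u + t)) ^ r := by
      funext u
      have : ∀ i, u + t + (w i - t) = u + w i := fun i => by abel
      simp only [this, hg]
    rw [e1] at ht2
    exact ht2
  intro t ht t' ht'
  have e2 : avg (fun u => (F (u + (t - t')) - F u) ^ r) =
      avg (fun u => (F (u + t) - F (u + t')) ^ r) := by
    rw [← almostperiod_avg_shift (fun u => (F (u + (t - t')) - F u) ^ r) t']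
    congr 1
    funext u
    have : u + t' + (t - t') = u + t := by abel
    rw [this]
  rw [e2]
  have hpt : ∀ u, (F (u + t) - F (u + t')) ^ r ≤
      2 ^ (r - 1) * ((g u - F (u + t)) ^ r + (g u - F (u + t')) ^ r) := by
    intro u
    have h1 := hr.add_pow_le (a := F (u + t) - g u) (b := g u - F (u + t'))
    have h2 : F (u + t) - g u + (g u - F (u + t')) = F (u + t) - F (u + t') := by ring
    rw [h2] at h1
    have h3 : (F (u + t) - g u) ^ r = (g u - F (u + t)) ^ r := by
      rw [← neg_sub, hr.neg_pow]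
    rw [h3] at h1
    exact h1
  refine (almostperiod_avg_mono hpt).trans ?_
  rw [almostperiod_avg_lin (fun u => (g u - F (u + t)) ^ r) (fun u => (g u - F (u + t')) ^ r)]
  have h1 := hT1 t ht
  have h2 := hT1 t' ht'
  have h3 : (2 : ℝ) ^ (r - 1) * 2 = 2 ^ r := by
    rw [← pow_succ]; congr 1; omega
  calc (2 : ℝ) ^ (r - 1) * (avg (fun u => (g u - F (u + t)) ^ r) +
        avg (fun u => (g u - F (u + t')) ^ r))
      ≤ (2 : ℝ) ^ (r - 1) * ((1 / (e : ℝ)) ^ r + (1 / (e : ℝ)) ^ r) := by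
        refine mul_le_mul_of_nonneg_left (add_le_add h1 h2) (by positivity)
    _ = ((2 : ℝ) ^ (r - 1) * 2) * (1 / (e : ℝ)) ^ r := by ring
    _ = (2 / (e : ℝ)) ^ r := by rw [h3, ← mul_pow]; congr 1; ring

end KM

end EHProj
end

section

/-! # KM-6b: sums of almost periods -/

namespace EHProj

open scoped LinearAlgebra.Projectivization
open Module

section KM
variable {G : Type} [AddCommGroup G] [Fintype G]

private lemma shiftsum_key (f : G → ℝ) {r : ℕ} (hr : Even r) (hr2 : 2 ≤ r) {c : ℝ} (hc : 0 ≤ c) :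
    avg (fun u => f u ^ r) ≤ c ^ r ↔
      (∑ u, |f u| ^ (r : ℝ)) ^ (1 / (r : ℝ)) ≤ c * (Fintype.card G : ℝ) ^ (1 / (r : ℝ)) := by
  have hG : (0 : ℝ) < Fintype.card G := by exact_mod_cast Fintype.card_pos
  have hr0 : (0 : ℝ) < r := by exact_mod_cast (by omega : 0 < r)
  have hrn : r ≠ 0 := by omega
  have h1 : ∑ u, |f u| ^ (r : ℝ) = ∑ u, f u ^ r := by
    refine Finset.sum_congr rfl fun u _ => ?_
    rw [Real.rpow_natCast, hr.pow_abs]
  have h2 : (0 : ℝ) ≤ ∑ u, f u ^ r := Finset.sum_nonneg fun u _ => hr.pow_nonneg _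
  rw [h1]
  unfold avg
  rw [div_le_iff₀ hG]
  have h3 : c * (Fintype.card G : ℝ) ^ (1 / (r : ℝ)) = (c ^ r * Fintype.card G) ^ (1 / (r : ℝ)) := by
    rw [Real.mul_rpow (by positivity) hG.le, one_div, Real.pow_rpow_inv_natCast hc hrn]
  rw [h3]
  exact (Real.rpow_le_rpow_iff h2 (by positivity) (by positivity)).symm

theorem shift_sum (F : G → ℝ) (T : Finset G) (r e : ℕ) (hr : Even r) (hr2 : 2 ≤ r) (he : 1 ≤ e)
    (hT : ∀ t ∈ T, ∀ t' ∈ T, avg (fun u => (F (u + (t - t')) - F u) ^ r) ≤ (2 / (e : ℝ)) ^ r)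
    (j : ℕ) (s s' : Fin j → G) (hs : ∀ i, s i ∈ T) (hs' : ∀ i, s' i ∈ T) :
    avg (fun u => (F (u + ∑ i, (s i - s' i)) - F u) ^ r) ≤ (2 * j / (e : ℝ)) ^ r := by
  have he0 : (0 : ℝ) < e := by exact_mod_cast he
  induction j with
  | zero =>
      have hrn : r ≠ 0 := by omega
      simp [avg, hrn]
  | succ j ih =>
      have h1 := ih (fun i => s i.castSucc) (fun i => s' i.castSucc) (fun i => hs _)
        (fun i => hs' _)
      have h2 := hT (s (Fin.last j)) (hs _) (s' (Fin.last j)) (hs' _)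
      rw [shiftsum_key _ hr hr2 (by positivity)] at h1 h2 ⊢
      set S : G := ∑ i : Fin j, (s i.castSucc - s' i.castSucc) with hS
      set d : G := s (Fin.last j) - s' (Fin.last j) with hd
      have h3 : ∑ i, (s i - s' i) = S + d := by rw [Fin.sum_univ_castSucc]
      rw [h3]
      have hp : (1 : ℝ) ≤ r := by exact_mod_cast (by omega : 1 ≤ r)
      have h4 := Real.Lp_add_le Finset.univ (fun u => F (u + S + d) - F (u + S))
        (fun u => F (u + S) - F u) hp
      have h5 : ∑ u, |F (u + S + d) - F (u + S)| ^ (r : ℝ) = ∑ u, |F (u + d) - F u| ^ (r : ℝ) :=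
        Equiv.sum_comp (Equiv.addRight S) (fun u => |F (u + d) - F u| ^ (r : ℝ))
      rw [h5] at h4
      have h6 : ∑ u, |F (u + (S + d)) - F u| ^ (r : ℝ) =
          ∑ u, |F (u + S + d) - F (u + S) + (F (u + S) - F u)| ^ (r : ℝ) := by
        refine Finset.sum_congr rfl fun u _ => ?_
        congr 2
        rw [add_assoc]; ring
      rw [h6]
      refine le_trans h4 ?_
      have h7 : 2 * ((j + 1 : ℕ) : ℝ) / (e : ℝ) * (Fintype.card G : ℝ) ^ (1 / (r : ℝ)) =
          2 / (e : ℝ) * (Fintype.card G : ℝ) ^ (1 / (r : ℝ)) +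
          2 * (j : ℝ) / (e : ℝ) * (Fintype.card G : ℝ) ^ (1 / (r : ℝ)) := by
        push_cast; ring
      rw [h7]
      exact add_le_add h2 h1

end KM

end EHProj
end
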