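import Pool.Agent.Lib.MP_f4f4db_co.Defs
import Pool.Agent.Lib.MP_f4f4db_co.ShiftSum

section

set_option linter.unusedSectionVars false

namespace EHProj

open scoped LinearAlgebra.Projectivization
open Module

section Tools
variable {p : ℕ} [Fact p.Prime] {V : Type} [AddCommGroup V] [Module (ZMod p) V] [Finite V]

theorem natCard_eq (H : Submodule (ZMod p) V) : Nat.card H = p ^ finrank (ZMod p) H := by
  have h := Module.natCard_eq_pow_finrank (K := ZMod p) (V := H)
  rw [Nat.card_zmod] at h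
  exact h

theorem rd_card_pos (H : Submodule (ZMod p) V) : (0 : ℝ) < (Nat.card H : ℝ) := by
  exact_mod_cast Nat.card_pos

theorem rd_nonneg (A : Set V) (H : Submodule (ZMod p) V) (x : V) : 0 ≤ rd A H x := by
  unfold rd; positivity

theorem rd_mono {A B : Set V} {H : Submodule (ZMod p) V} {x : V}
    (h : ∀ v, v - x ∈ H → v ∈ A → v ∈ B) : rd A H x ≤ rd B H x := by
  unfold rd
  apply div_le_div_of_nonneg_right _ (rd_card_pos H).le
  have : Nat.card {a : H // x + (a : V) ∈ A} ≤ Nat.card {a : H // x + (a : V) ∈ B} :=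
    Nat.card_le_card_of_injective
      (fun a => (⟨a.1, h _ (by simp) a.2⟩ : {a : H // x + (a : V) ∈ B}))
      (fun a b hab => by
        have := congrArg Subtype.val hab
        exact Subtype.ext this)
  exact_mod_cast this

theorem rd_full {A : Set V} {H : Submodule (ZMod p) V} {x : V} (h : ∀ v, v - x ∈ H → v ∈ A) :
    rd A H x = 1 := by
  unfold rd
  have : Nat.card {a : H // x + (a : V) ∈ A} = Nat.card H :=
    Nat.card_congr (Equiv.subtypeUnivEquiv (fun a => h _ (by simp)))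
  rw [this]
  exact div_self (rd_card_pos H).ne'

theorem rd_le_one (A : Set V) (H : Submodule (ZMod p) V) (x : V) : rd A H x ≤ 1 := by
  have h1 : rd (Set.univ : Set V) H x = 1 := rd_full (fun _ _ => trivial)
  have h2 : rd A H x ≤ rd (Set.univ : Set V) H x := rd_mono (fun _ _ _ => trivial)
  linarith

theorem rd_compl (A : Set V) (H : Submodule (ZMod p) V) (x : V) :
    rd A H x + rd Aᶜ H x = 1 := by
  classical
  unfold rd
  rw [← add_div]
  have e : Nat.card {a : H // x + (a : V) ∈ A} + Nat.card {a : H // x + (a : V) ∈ Aᶜ}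
      = Nat.card H := by
    rw [← Nat.card_sum]
    exact Nat.card_congr (Equiv.sumCompl (fun a : H => x + (a : V) ∈ A))
  rw [← Nat.cast_add, e]
  exact div_self (rd_card_pos H).ne'

theorem rd_union_le (A B : Set V) (H : Submodule (ZMod p) V) (x : V) :
    rd (A ∪ B) H x ≤ rd A H x + rd B H x := by
  classical
  unfold rd
  rw [← add_div]
  apply div_le_div_of_nonneg_right _ (rd_card_pos H).le
  have : Nat.card {a : H // x + (a : V) ∈ A ∪ B} ≤
      Nat.card {a : H // x + (a : V) ∈ A} + Nat.card {a : H // x + (a : V) ∈ B} := by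
    have h := Set.ncard_union_le {a : H | x + (a : V) ∈ A} {a : H | x + (a : V) ∈ B}
    exact h
  exact_mod_cast this

/-- comparison of counts under a translation by an element of `H` -/
theorem rd_card_translate (A : Set V) {H : Submodule (ZMod p) V} {x y : V} (h : y - x ∈ H) :
    Nat.card {a : H // y + (a : V) ∈ A} = Nat.card {a : H // x + (a : V) ∈ A} := by
  refine Nat.card_congr ((Equiv.addLeft (⟨y - x, h⟩ : H)).subtypeEquiv ?_)
  intro a
  simp [← add_assoc]

theorem rd_congr (A : Set V) {H : Submodule (ZMod p) V} {x y : V} (h : y - x ∈ H) :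
    rd A H y = rd A H x := by
  unfold rd
  rw [rd_card_translate A h]

theorem exists_of_rd_pos {A : Set V} {H : Submodule (ZMod p) V} {x : V} (h : 0 < rd A H x) :
    ∃ v ∈ A, v - x ∈ H := by
  by_contra hne
  push Not at hne
  have : rd A H x = 0 := by
    unfold rd
    have : IsEmpty {a : H // x + (a : V) ∈ A} := ⟨fun a => hne _ a.2 (by simp)⟩
    rw [Nat.card_of_isEmpty]; simp
  linarith

theorem rd_subsingleton {A : Set V} {H : Submodule (ZMod p) V} {x : V}
    (h : ∀ v ∈ A, ∀ w ∈ A, v - x ∈ H → w - x ∈ H → v = w) :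
    rd A H x ≤ 1 / (Nat.card H : ℝ) := by
  unfold rd
  apply div_le_div_of_nonneg_right _ (rd_card_pos H).le
  have : Subsingleton {a : H // x + (a : V) ∈ A} := ⟨fun a b => by
    have := h _ a.2 _ b.2 (by simp) (by simp)
    exact Subtype.ext (Subtype.ext (add_left_cancel this))⟩
  have : Nat.card {a : H // x + (a : V) ∈ A} ≤ 1 := Finite.card_le_one_iff_subsingleton.mpr this
  exact_mod_cast this

theorem rd_restrict (A : Set V) {H H' : Submodule (ZMod p) V} (hH : H' ≤ H) {x y : V}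
    (hy : y - x ∈ H) (k : ℕ) (hk : finrank (ZMod p) H ≤ finrank (ZMod p) H' + k) :
    rd A H' y ≤ (p : ℝ) ^ k * rd A H x := by
  rw [← rd_congr A hy]
  unfold rd
  have hc : Nat.card {a : H' // y + (a : V) ∈ A} ≤ Nat.card {a : H // y + (a : V) ∈ A} :=
    Nat.card_le_card_of_injective
      (fun a => (⟨⟨a.1.1, hH a.1.2⟩, a.2⟩ : {a : H // y + (a : V) ∈ A}))
      (fun a b hab => by
        have := congrArg (fun t => (t.1 : V)) hab
        exact Subtype.ext (Subtype.ext this))
  have hcard : (Nat.card H : ℝ) ≤ (p : ℝ) ^ k * (Nat.card H' : ℝ) := by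
    rw [natCard_eq, natCard_eq]
    have h1 : p ^ finrank (ZMod p) H ≤ p ^ (finrank (ZMod p) H' + k) :=
      Nat.pow_le_pow_right (Fact.out : p.Prime).pos hk
    have h2 : p ^ finrank (ZMod p) H ≤ p ^ k * p ^ finrank (ZMod p) H' := by
      rw [← pow_add, Nat.add_comm k]; exact h1
    exact_mod_cast h2
  rw [div_le_iff₀ (rd_card_pos H')]
  have h3 : (Nat.card {a : H' // y + (a : V) ∈ A} : ℝ) ≤
      (Nat.card {a : H // y + (a : V) ∈ A} : ℝ) := by exact_mod_cast hc
  have h4 : (0 : ℝ) ≤ (Nat.card {a : H // y + (a : V) ∈ A} : ℝ) / (Nat.card H : ℝ) := by positivity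
  calc (Nat.card {a : H' // y + (a : V) ∈ A} : ℝ)
      ≤ (Nat.card {a : H // y + (a : V) ∈ A} : ℝ) := h3
    _ = ((Nat.card {a : H // y + (a : V) ∈ A} : ℝ) / (Nat.card H : ℝ)) * (Nat.card H : ℝ) := by
        rw [div_mul_cancel₀ _ (rd_card_pos H).ne']
    _ ≤ ((Nat.card {a : H // y + (a : V) ∈ A} : ℝ) / (Nat.card H : ℝ)) *
          ((p : ℝ) ^ k * (Nat.card H' : ℝ)) := mul_le_mul_of_nonneg_left hcard h4
    _ = _ := by ring

theorem rd_avg (A : Set V) {H H' : Submodule (ZMod p) V} (hH : H' ≤ H) (x : V) :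
    ∃ x', x' - x ∈ H ∧ rd A H x ≤ rd A H' x' := by
  classical
  by_contra hne
  push Not at hne
  have : Fintype H := Fintype.ofFinite H
  have : Fintype H' := Fintype.ofFinite H'
  -- double counting
  have key : ∑ h0 : H, (Nat.card {a : H' // (x + (h0 : V)) + (a : V) ∈ A}) =
      Nat.card H' * Nat.card {a : H // x + (a : V) ∈ A} := by
    have e1 : ∀ h0 : H, Nat.card {a : H' // (x + (h0 : V)) + (a : V) ∈ A} =
        ∑ a : H', (if (x + (h0 : V)) + (a : V) ∈ A then 1 else 0) := by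
      intro h0
      rw [Nat.card_eq_fintype_card, Fintype.card_subtype, Finset.card_filter]
    rw [Finset.sum_congr rfl (fun h0 _ => e1 h0), Finset.sum_comm]
    have e2 : ∀ a : H', ∑ h0 : H, (if (x + (h0 : V)) + (a : V) ∈ A then 1 else 0) =
        Nat.card {b : H // x + (b : V) ∈ A} := by
      intro a
      rw [Nat.card_eq_fintype_card, Fintype.card_subtype, Finset.card_filter]
      refine Fintype.sum_equiv (Equiv.addRight (⟨(a : V), hH a.2⟩ : H)) _ _ ?_
      intro h0
      simp only [Equiv.coe_addRight, Submodule.coe_add, add_assoc]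
      by_cases hm : x + ((h0 : V) + (a : V)) ∈ A <;> simp [hm]
    rw [Finset.sum_congr rfl (fun a _ => e2 a)]
    simp [Nat.card_eq_fintype_card]
  have hlt : ∀ h0 : H, (Nat.card {a : H' // (x + (h0 : V)) + (a : V) ∈ A} : ℝ) <
      rd A H x * (Nat.card H' : ℝ) := by
    intro h0
    have := hne (x + (h0 : V)) (by simp)
    unfold rd at this ⊢
    rwa [div_lt_iff₀ (rd_card_pos H')] at this
  have hsum : (∑ h0 : H, (Nat.card {a : H' // (x + (h0 : V)) + (a : V) ∈ A} : ℝ)) <
      ∑ _h0 : H, rd A H x * (Nat.card H' : ℝ) :=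
    Finset.sum_lt_sum_of_nonempty ⟨0, Finset.mem_univ _⟩ (fun h0 _ => hlt h0)
  have hk : (∑ h0 : H, (Nat.card {a : H' // (x + (h0 : V)) + (a : V) ∈ A} : ℝ)) =
      (Nat.card H' : ℝ) * (Nat.card {a : H // x + (a : V) ∈ A} : ℝ) := by
    exact_mod_cast key
  rw [hk, Finset.sum_const, Finset.card_univ, nsmul_eq_mul] at hsum
  have hr : rd A H x * (Nat.card H : ℝ) = (Nat.card {a : H // x + (a : V) ∈ A} : ℝ) := by
    unfold rd; rw [div_mul_cancel₀ _ (rd_card_pos H).ne']
  rw [← Nat.card_eq_fintype_card (α := H)] at hsum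
  rw [← hr] at hsum
  nlinarith [hsum]

theorem exists_compl {W H : Submodule (ZMod p) V} (hW : W ≤ H) :
    ∃ H0 ≤ H, H0 ⊓ W = ⊥ ∧ H0 ⊔ W = H ∧
      finrank (ZMod p) H = finrank (ZMod p) H0 + finrank (ZMod p) W := by
  obtain ⟨C, hC⟩ := Submodule.exists_isCompl W
  have h1 : (C ⊓ H) ⊓ W = ⊥ := by
    rw [eq_bot_iff]
    intro v hv
    have : v ∈ W ⊓ C := ⟨hv.2, hv.1.1⟩
    rwa [hC.inf_eq_bot] at this
  have h2 : (C ⊓ H) ⊔ W = H := by
    rw [sup_comm, ← sup_inf_assoc_of_le C hW, hC.sup_eq_top, top_inf_eq]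
  refine ⟨C ⊓ H, inf_le_right, h1, h2, ?_⟩
  have h3 := Submodule.finrank_sup_add_finrank_inf_eq (C ⊓ H) W
  rw [h2, h1, finrank_bot, add_zero] at h3
  exact h3

end Tools

end EHProj
end

section

section

/-!
# The density step (KM-9a)
-/

open scoped LinearAlgebra.Projectivization
open Module

namespace EHProj

section KM
variable {G : Type} [AddCommGroup G] [Fintype G]
variable {p : ℕ} [Fact p.Prime] [Module (ZMod p) G]

open Classical in
private theorem densitystep_cnv (A : Finset G) (x : G) :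
    cnv (mu A) (mu A) x = (∑ y ∈ A, mu A (x + y)) / (A.card : ℝ) := by
  have hn : (Fintype.card G : ℝ) ≠ 0 := by
    have : 0 < Fintype.card G := Fintype.card_pos_iff.2 ⟨0⟩
    exact_mod_cast this.ne'
  unfold cnv avg
  have h1 : ∑ y, mu A (x + y) * mu A y =
      ∑ y, (if y ∈ A then mu A (x + y) * ((Fintype.card G : ℝ) / (A.card : ℝ)) else 0) := by
    refine Finset.sum_congr rfl fun y _ => ?_
    by_cases hy : y ∈ A
    · rw [if_pos hy]
      congr 1
      unfold mu
      rw [if_pos hy]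
    · rw [if_neg hy]
      have : mu A y = 0 := by
        unfold mu
        rw [if_neg hy]
      rw [this, mul_zero]
  rw [h1, ← Finset.sum_filter, Finset.filter_mem_eq_inter, Finset.univ_inter, ← Finset.sum_mul]
  field_simp

open Classical in
private theorem densitystep_nonneg (A : Finset G) (x : G) : 0 ≤ cnv (mu A) (mu A) x := by
  have h : ∀ y, 0 ≤ mu A y := by
    intro y
    unfold mu
    split_ifs
    · positivity
    · exact le_rfl
  unfold cnv avg
  exact div_nonneg (Finset.sum_nonneg fun y _ => mul_nonneg (h _) (h _)) (Nat.cast_nonneg _)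

open Classical in
theorem density_step (A : Finset G) (hA : A.Nonempty) (W : Submodule (ZMod p) G) (u : G)
    (hu : (1 - 3 / 256) * (Nat.card W : ℝ) ≤
      ∑ᶠ w : W, (if u + (w : G) ∈ pop A then (1 : ℝ) else 0)) :
    ∃ x : G, (65 / 64) * ((A.card : ℝ) / (Fintype.card G : ℝ)) ≤ rd (A : Set G) W x := by
  have hn : (0 : ℝ) < (Fintype.card G : ℝ) := by
    have : 0 < Fintype.card G := Fintype.card_pos_iff.2 ⟨0⟩
    exact_mod_cast this
  have ha : (0 : ℝ) < (A.card : ℝ) := by
    have := hA.card_pos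
    exact_mod_cast this
  have hW : (0 : ℝ) < (Nat.card W : ℝ) := by
    have : 0 < Nat.card W := Nat.card_pos
    exact_mod_cast this
  rw [finsum_eq_sum_of_fintype] at hu
  have hrd : ∀ x : G, rd (A : Set G) W x * (Nat.card W : ℝ) =
      ∑ w : W, (if x + (w : G) ∈ A then (1 : ℝ) else 0) := by
    intro x
    unfold rd
    rw [div_mul_cancel₀ _ hW.ne', Nat.card_eq_fintype_card, Fintype.card_subtype,
      Finset.sum_boole]
    simp
  by_contra hcon
  push Not at hcon
  have h1 : (33 / 32) * ((1 - 3 / 256) * (Nat.card W : ℝ)) ≤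
      ∑ w : W, cnv (mu A) (mu A) (u + (w : G)) := by
    calc (33 / 32) * ((1 - 3 / 256) * (Nat.card W : ℝ))
        ≤ (33 / 32) * ∑ w : W, (if u + (w : G) ∈ pop A then (1 : ℝ) else 0) := by gcongr
      _ = ∑ w : W, (33 / 32) * (if u + (w : G) ∈ pop A then (1 : ℝ) else 0) := by
          rw [Finset.mul_sum]
      _ ≤ ∑ w : W, cnv (mu A) (mu A) (u + (w : G)) := by
          refine Finset.sum_le_sum fun w _ => ?_
          split_ifs with h
          · rw [mul_one]
            exact h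
          · rw [mul_zero]
            exact densitystep_nonneg A _
  have h2 : ∑ w : W, cnv (mu A) (mu A) (u + (w : G)) =
      (∑ y ∈ A, ((Fintype.card G : ℝ) / (A.card : ℝ)) *
        (rd (A : Set G) W (u + y) * (Nat.card W : ℝ))) / (A.card : ℝ) := by
    simp only [densitystep_cnv]
    rw [← Finset.sum_div, Finset.sum_comm]
    congr 1
    refine Finset.sum_congr rfl fun y _ => ?_
    rw [hrd, Finset.mul_sum]
    refine Finset.sum_congr rfl fun w _ => ?_
    unfold mu
    rw [show u + (w : G) + y = u + y + (w : G) by abel]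
    split_ifs <;> simp
  have h3 : ∑ y ∈ A, ((Fintype.card G : ℝ) / (A.card : ℝ)) *
        (rd (A : Set G) W (u + y) * (Nat.card W : ℝ)) <
      ∑ _y ∈ A, ((Fintype.card G : ℝ) / (A.card : ℝ)) *
        (((65 / 64) * ((A.card : ℝ) / (Fintype.card G : ℝ))) * (Nat.card W : ℝ)) := by
    refine Finset.sum_lt_sum_of_nonempty hA fun y _ => ?_
    have := hcon (u + y)
    gcongr
  rw [Finset.sum_const, nsmul_eq_mul] at h3
  have h4 : (A.card : ℝ) * (((Fintype.card G : ℝ) / (A.card : ℝ)) *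
        (((65 / 64) * ((A.card : ℝ) / (Fintype.card G : ℝ))) * (Nat.card W : ℝ))) =
      (65 / 64) * (Nat.card W : ℝ) * (A.card : ℝ) := by
    field_simp
  rw [h4] at h3
  rw [h2, le_div_iff₀ ha] at h1
  have h5 : (65 / 64) * (Nat.card W : ℝ) ≤ (33 / 32) * ((1 - 3 / 256) * (Nat.card W : ℝ)) := by
    nlinarith
  have h6 := mul_le_mul_of_nonneg_right h5 ha.le
  linarith

end KM

end EHProj
end

section

/-! KM-4: sifting. -/

namespace EHProj

open scoped LinearAlgebra.Projectivization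
open Module

section KM
variable {G : Type} [AddCommGroup G] [Fintype G]

set_option linter.unusedSectionVars false

open Classical in
/-- indicator function -/
private noncomputable def siftInd (A : Finset G) (y : G) : ℝ := if y ∈ A then 1 else 0

/-- number of representations -/
private noncomputable def siftI (A : Finset G) (x : G) : ℝ := ∑ y, siftInd A (x + y) * siftInd A y

/-- indicator function of the intersection of translates -/
private noncomputable def siftF (A : Finset G) {N : ℕ} (s : Fin N → G) (y : G) : ℝ :=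
  ∏ i, siftInd A (y + s i)

private theorem siftInd_nonneg (A : Finset G) (y : G) : 0 ≤ siftInd A y := by
  unfold siftInd; split_ifs <;> norm_num

private theorem siftI_nonneg (A : Finset G) (x : G) : 0 ≤ siftI A x :=
  Finset.sum_nonneg fun _ _ => mul_nonneg (siftInd_nonneg _ _) (siftInd_nonneg _ _)

private theorem siftF_nonneg (A : Finset G) {N : ℕ} (s : Fin N → G) (y : G) : 0 ≤ siftF A s y :=
  Finset.prod_nonneg fun _ _ => siftInd_nonneg _ _

private theorem sift_cnv (A : Finset G) (x : G) :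
    cnv (mu A) (mu A) x = (Fintype.card G : ℝ) * siftI A x / (A.card : ℝ) ^ 2 := by
  classical
  have hG : (Fintype.card G : ℝ) ≠ 0 := by
    have : 0 < Fintype.card G := Fintype.card_pos_iff.mpr ⟨0⟩
    positivity
  have e : ∀ z : G, mu A z = (Fintype.card G : ℝ) / (A.card : ℝ) * siftInd A z := by
    intro z
    unfold mu siftInd
    split_ifs <;> simp
  unfold cnv avg siftI
  have e2 : ∀ y : G, mu A (x + y) * mu A y = ((Fintype.card G : ℝ) / (A.card : ℝ)) ^ 2 *
      (siftInd A (x + y) * siftInd A y) := by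
    intro y
    rw [e, e]; ring
  simp only [e2]
  rw [← Finset.mul_sum]
  field_simp

/-- the key identity -/
private theorem sift_key (A : Finset G) (N : ℕ) (x : G) :
    ∑ s : Fin N → G, ∑ y, siftF A s y * siftF A s (x + y) =
      (Fintype.card G : ℝ) * siftI A x ^ N := by
  rw [Finset.sum_comm]
  have e : ∀ y : G, ∑ s : Fin N → G, siftF A s y * siftF A s (x + y) = siftI A x ^ N := by
    intro y
    have e1 : ∀ s : Fin N → G, siftF A s y * siftF A s (x + y) =
        ∏ i, (siftInd A (y + s i) * siftInd A (x + y + s i)) := by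
      intro s
      unfold siftF
      rw [Finset.prod_mul_distrib]
    simp only [e1]
    have e2 := Finset.prod_univ_sum (fun _ : Fin N => (Finset.univ : Finset G))
      (fun _ g => siftInd A (y + g) * siftInd A (x + y + g))
    rw [Fintype.piFinset_univ] at e2
    rw [← e2]
    have e3 : ∑ g : G, siftInd A (y + g) * siftInd A (x + y + g) = siftI A x := by
      have := Equiv.sum_comp (Equiv.addLeft y) (fun g => siftInd A (x + g) * siftInd A g)
      simp only [Equiv.coe_addLeft] at this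
      unfold siftI
      rw [← this]
      refine Finset.sum_congr rfl fun g _ => ?_
      rw [← add_assoc, mul_comm]
    rw [e3, Finset.prod_const, Finset.card_univ, Fintype.card_fin]
  simp only [e]
  rw [Finset.sum_const, Finset.card_univ, nsmul_eq_mul]

private theorem sift_first (A : Finset G) (N : ℕ) :
    ∑ s : Fin N → G, ∑ y, siftF A s y = (Fintype.card G : ℝ) * (A.card : ℝ) ^ N := by
  classical
  rw [Finset.sum_comm]
  have e : ∀ y : G, ∑ s : Fin N → G, siftF A s y = (A.card : ℝ) ^ N := by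
    intro y
    have e2 := Finset.prod_univ_sum (fun _ : Fin N => (Finset.univ : Finset G))
      (fun _ g => siftInd A (y + g))
    rw [Fintype.piFinset_univ] at e2
    unfold siftF
    rw [← e2]
    have e3 : ∑ g : G, siftInd A (y + g) = (A.card : ℝ) := by
      have := Equiv.sum_comp (Equiv.addLeft y) (fun g => siftInd A g)
      simp only [Equiv.coe_addLeft] at this
      rw [this]
      unfold siftInd
      rw [Finset.sum_boole]
      congr 2
      ext z
      simp
    rw [e3, Finset.prod_const, Finset.card_univ, Fintype.card_fin]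
  simp only [e]
  rw [Finset.sum_const, Finset.card_univ, nsmul_eq_mul]

/-- weighted pairs -/
private theorem sift_pairs (F w : G → ℝ) :
    ∑ x, w x * ∑ y, F y * F (x + y) = ∑ y, ∑ z, F y * F z * w (z - y) := by
  have e : ∀ y : G, ∑ z, F y * F z * w (z - y) = ∑ x, w x * (F y * F (x + y)) := by
    intro y
    rw [← Equiv.sum_comp (Equiv.addRight y)]
    refine Finset.sum_congr rfl fun x _ => ?_
    simp only [Equiv.coe_addRight, add_sub_cancel_right]
    ring
  simp only [e, Finset.mul_sum]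
  rw [Finset.sum_comm]

open Classical in
theorem sift (A : Finset G) (hA : A.Nonempty) (N : ℕ) (hN : 220 ≤ N)
    (h : (17 / 16 : ℝ) ^ N ≤ avg (fun x => cnv (mu A) (mu A) x ^ N)) :
    ∃ A' : Finset G, A'.Nonempty ∧
      ((A.card : ℝ) / (Fintype.card G : ℝ)) ^ N / 4 ≤ (A'.card : ℝ) / (Fintype.card G : ℝ) ∧
      (1 - 1 / 256) * (A'.card : ℝ) ^ 2 ≤
        (((A' ×ˢ A').filter (fun q => q.2 - q.1 ∈ pop A)).card : ℝ) := by
  have hG : (0 : ℝ) < (Fintype.card G : ℝ) := by
    have : 0 < Fintype.card G := Fintype.card_pos_iff.mpr ⟨0⟩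
    positivity
  have hAc : (0 : ℝ) < (A.card : ℝ) := by
    have := hA.card_pos
    positivity
  set g : ℝ := (Fintype.card G : ℝ) with hg
  set c : ℝ := (A.card : ℝ) with hc
  set M : ℝ := ∑ x, siftI A x ^ N with hM
  set β : ℝ := c ^ 2 / g with hβ
  have hβ0 : 0 < β := by positivity
  -- lower bound for M
  have hM1 : g * ((17 / 16 : ℝ) ^ N * β ^ N) ≤ M := by
    have e : avg (fun x => cnv (mu A) (mu A) x ^ N) = M / (g * β ^ N) := by
      unfold avg
      have e1 : ∀ x : G, cnv (mu A) (mu A) x ^ N = siftI A x ^ N / β ^ N := by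
        intro x
        rw [sift_cnv, ← div_pow]
        congr 1
        rw [hβ, ← hg, ← hc]
        field_simp
      simp only [e1]
      rw [← Finset.sum_div, div_div, mul_comm (β ^ N) _]
    rw [e, le_div_iff₀ (by positivity)] at h
    calc g * ((17 / 16 : ℝ) ^ N * β ^ N) = (17 / 16 : ℝ) ^ N * (g * β ^ N) := by ring
      _ ≤ M := h
  have hM0 : g * β ^ N ≤ M := by
    refine le_trans ?_ hM1
    have : (1 : ℝ) ≤ (17 / 16 : ℝ) ^ N := one_le_pow₀ (by norm_num)
    have h2 : 0 ≤ β ^ N := by positivity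
    nlinarith [mul_le_mul_of_nonneg_right this h2]
  have hMpos : 0 < M := lt_of_lt_of_le (by positivity) hM0
  -- notation
  set S : (Fin N → G) → ℝ := fun s => ∑ y, siftF A s y with hS
  set wb : G → ℝ := fun x => if x ∈ pop A then 0 else 1 with hwb
  set wg : G → ℝ := fun x => if x ∈ pop A then 1 else 0 with hwg
  set bad : (Fin N → G) → ℝ := fun s => ∑ x, wb x * ∑ y, siftF A s y * siftF A s (x + y) with hbad
  have hS0 : ∀ s, 0 ≤ S s := fun s => Finset.sum_nonneg fun y _ => siftF_nonneg _ _ _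
  have hbad0 : ∀ s, 0 ≤ bad s := fun s => Finset.sum_nonneg fun x _ => by
    refine mul_nonneg ?_ (Finset.sum_nonneg fun y _ =>
      mul_nonneg (siftF_nonneg _ _ _) (siftF_nonneg _ _ _))
    simp only [hwb]; split_ifs <;> norm_num
  have hSsq : ∀ s, S s ^ 2 = ∑ x, ∑ y, siftF A s y * siftF A s (x + y) := by
    intro s
    have := sift_pairs (siftF A s) (fun _ => 1)
    simp only [one_mul, mul_one] at this
    rw [this, hS, sq, Finset.sum_mul_sum]
  -- (a)
  have ha : ∑ s, S s ^ 2 = g * M := by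
    simp only [hSsq]
    rw [Finset.sum_comm]
    simp only [sift_key]
    rw [← Finset.mul_sum]
  -- (b)
  have hb : ∑ s, bad s ≤ (1 / 512) * (g * M) := by
    simp only [hbad]
    rw [Finset.sum_comm]
    have e : ∀ x : G, ∑ s : Fin N → G, wb x * ∑ y, siftF A s y * siftF A s (x + y) =
        wb x * (g * siftI A x ^ N) := by
      intro x
      rw [← Finset.mul_sum, sift_key]
    simp only [e]
    have e2 : ∀ x : G, wb x * (g * siftI A x ^ N) ≤ g * ((33 / 32 : ℝ) ^ N * β ^ N) := by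
      intro x
      by_cases hx : x ∈ pop A
      · simp only [hwb, hx, if_true, zero_mul]
        positivity
      · simp only [hwb, hx, if_false, one_mul]
        refine mul_le_mul_of_nonneg_left ?_ hG.le
        rw [← mul_pow]
        refine pow_le_pow_left₀ (siftI_nonneg _ _) ?_ N
        have hx' : cnv (mu A) (mu A) x < 33 / 32 := by
          by_contra hcon
          exact hx (not_lt.mp hcon)
        rw [sift_cnv, div_lt_iff₀ (by positivity)] at hx'
        rw [hβ, ← mul_div_assoc, le_div_iff₀ hG]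
        linarith
    have e3 : ∑ x : G, wb x * (g * siftI A x ^ N) ≤ g * (g * ((33 / 32 : ℝ) ^ N * β ^ N)) := by
      refine (Finset.sum_le_sum fun x _ => e2 x).trans ?_
      rw [Finset.sum_const, Finset.card_univ, nsmul_eq_mul]
    refine e3.trans ?_
    have e4 : (33 / 32 : ℝ) ^ N = (33 / 34 : ℝ) ^ N * (17 / 16 : ℝ) ^ N := by
      rw [← mul_pow]; norm_num
    have e5 : (33 / 34 : ℝ) ^ N ≤ 1 / 512 := by
      calc (33 / 34 : ℝ) ^ N ≤ (33 / 34 : ℝ) ^ 220 :=
            pow_le_pow_of_le_one (by norm_num) (by norm_num) hN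
        _ ≤ 1 / 512 := by norm_num
    rw [e4]
    have e6 : 0 ≤ g * ((17 / 16 : ℝ) ^ N * β ^ N) := by positivity
    calc g * (g * ((33 / 34 : ℝ) ^ N * (17 / 16 : ℝ) ^ N * β ^ N))
        = (33 / 34 : ℝ) ^ N * (g * (g * ((17 / 16 : ℝ) ^ N * β ^ N))) := by ring
      _ ≤ (1 / 512) * (g * (g * ((17 / 16 : ℝ) ^ N * β ^ N))) :=
          mul_le_mul_of_nonneg_right e5 (by positivity)
      _ ≤ (1 / 512) * (g * M) := by
          refine mul_le_mul_of_nonneg_left ?_ (by norm_num)
          exact mul_le_mul_of_nonneg_left hM1 hG.le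
  -- (d)
  set τ : ℝ := g * ((c / g) ^ N / 4) with hτ
  have hτ0 : 0 ≤ τ := by positivity
  have hd : ∑ s, (if S s < τ then S s ^ 2 else 0) ≤ (1 / 4) * (g * M) := by
    have e1 : ∀ s, (if S s < τ then S s ^ 2 else 0) ≤ τ * S s := by
      intro s
      split_ifs with hs
      · rw [sq]
        exact mul_le_mul_of_nonneg_right hs.le (hS0 s)
      · exact mul_nonneg hτ0 (hS0 s)
    refine (Finset.sum_le_sum fun s _ => e1 s).trans ?_
    rw [← Finset.mul_sum]
    have e2 : ∑ s, S s = g * c ^ N := sift_first A N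
    rw [e2, hτ]
    have e3 : g * ((c / g) ^ N / 4) * (g * c ^ N) = (1 / 4) * (g * (g * β ^ N)) := by
      have : (c / g) ^ N * c ^ N = β ^ N := by
        rw [← mul_pow, hβ]
        congr 1
        ring
      calc g * ((c / g) ^ N / 4) * (g * c ^ N) = (1 / 4) * (g * (g * ((c / g) ^ N * c ^ N))) := by
            ring
        _ = _ := by rw [this]
    rw [e3]
    refine mul_le_mul_of_nonneg_left ?_ (by norm_num)
    exact mul_le_mul_of_nonneg_left hM0 hG.le
  -- choice of s
  have hpos : 0 < ∑ s, (S s ^ 2 - 256 * bad s - (if S s < τ then S s ^ 2 else 0)) := by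
    rw [Finset.sum_sub_distrib, Finset.sum_sub_distrib, ← Finset.mul_sum, ha]
    have : 0 < g * M := by positivity
    linarith
  obtain ⟨s, -, hs⟩ : ∃ s ∈ (Finset.univ : Finset (Fin N → G)),
      0 < S s ^ 2 - 256 * bad s - (if S s < τ then S s ^ 2 else 0) := by
    by_contra hcon
    push Not at hcon
    have := Finset.sum_nonpos hcon
    linarith
  have hnot : ¬ S s < τ := by
    intro hlt
    rw [if_pos hlt] at hs
    have := hbad0 s
    linarith
  rw [if_neg hnot, sub_zero] at hs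
  have hSpos : 0 < S s := by
    rcases (hS0 s).lt_or_eq with h0 | h0
    · exact h0
    · rw [← h0] at hs
      have := hbad0 s
      norm_num at hs
      linarith
  -- the set
  set A' : Finset G := Finset.univ.filter (fun y => ∀ i, y + s i ∈ A) with hA'
  have hF : ∀ y, siftF A s y = if y ∈ A' then 1 else 0 := by
    intro y
    unfold siftF siftInd
    rw [Finset.prod_ite_zero]
    simp [hA']
  have hcard : S s = (A'.card : ℝ) := by
    rw [hS]
    simp only [hF]
    rw [Finset.sum_boole]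
    congr 2
    ext z
    simp
  refine ⟨A', ?_, ?_, ?_⟩
  · rw [← Finset.card_pos]
    rw [hcard] at hSpos
    exact_mod_cast hSpos
  · rw [le_div_iff₀ hG, ← hcard]
    have := not_lt.mp hnot
    rw [hτ] at this
    linarith
  · have hgood : (((A' ×ˢ A').filter (fun q => q.2 - q.1 ∈ pop A)).card : ℝ) =
        ∑ x, wg x * ∑ y, siftF A s y * siftF A s (x + y) := by
      rw [sift_pairs]
      rw [← Finset.sum_product', ← Finset.sum_boole, Finset.univ_product_univ]
      rw [← Finset.sum_subset (Finset.subset_univ (A' ×ˢ A'))]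
      · rw [Finset.sum_congr rfl]
        intro q hq
        rw [Finset.mem_product] at hq
        rw [hF, hF, if_pos hq.1, if_pos hq.2]
        simp [hwg]
      · intro q _ hq
        rw [hF, hF]
        rw [Finset.mem_product, not_and_or] at hq
        rcases hq with hq | hq
        · rw [if_neg hq]; ring
        · rw [if_neg hq]; ring
    have hsum : S s ^ 2 = (∑ x, wg x * ∑ y, siftF A s y * siftF A s (x + y)) + bad s := by
      rw [hSsq, hbad, ← Finset.sum_add_distrib]
      refine Finset.sum_congr rfl fun x _ => ?_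
      simp only [hwg, hwb]
      split_ifs <;> ring
    rw [hgood, ← hcard]
    linarith

end KM

end EHProj
end

section

/-!
# Unbalancing (KM-3)
-/

open scoped LinearAlgebra.Projectivization
open Module

namespace EHProj

section KM
variable {G : Type} [AddCommGroup G] [Fintype G]

private theorem unbalance_amgm (u : ℝ) (hu : 0 ≤ u) (k : ℕ) :
    ((k : ℝ) + 1) * u ^ k ≤ k * u ^ (k + 1) + 1 := by
  induction k with
  | zero => simp
  | succ k ih =>
    have h1 : 0 ≤ ((k : ℝ) + 1) * u ^ k * (u - 1) ^ 2 := by positivity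
    have h2 : ((k : ℝ) + 1) * u ^ k * (u - 1) ^ 2 =
        ((k : ℝ) + 1) * u ^ (k + 2) - 2 * ((k : ℝ) + 1) * u ^ (k + 1) + ((k : ℝ) + 1) * u ^ k := by
      ring
    push_cast
    have h3 : u ^ (k + 1 + 1) = u ^ (k + 2) := by ring
    rw [h3]
    nlinarith

private theorem unbalance_point (t : ℝ) (ht : -1 ≤ t) (k : ℕ) (hk : Even k) :
    (256 / 27 : ℝ) ^ (k + 1) * ((|t| ^ (k + 1) + t ^ (k + 1)) / 2) ≤ (1 + t) ^ (4 * (k + 1)) := by
  have h1 : 0 ≤ 1 + t := by linarith
  rcases le_total 0 t with h0 | h0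
  · rw [abs_of_nonneg h0]
    have h2 : 256 / 27 * t ≤ (1 + t) ^ 4 := by
      nlinarith [mul_nonneg (sq_nonneg (t - 1 / 3))
        (show (0 : ℝ) ≤ t ^ 2 + 14 / 3 * t + 9 by positivity)]
    calc (256 / 27 : ℝ) ^ (k + 1) * ((t ^ (k + 1) + t ^ (k + 1)) / 2)
        = (256 / 27 * t) ^ (k + 1) := by
          rw [mul_pow]
          ring
      _ ≤ ((1 + t) ^ 4) ^ (k + 1) := pow_le_pow_left₀ (by positivity) h2 _
      _ = (1 + t) ^ (4 * (k + 1)) := by rw [← pow_mul]
  · have hodd : Odd (k + 1) := hk.add_one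
    rw [abs_of_nonpos h0, hodd.neg_pow]
    simp only [neg_add_cancel, zero_div, mul_zero]
    positivity

theorem unbalance (F : G → ℝ) (k : ℕ) (hk : Even k) (hk2 : 2 ≤ k) (hF : ∀ x, -1 ≤ F x)
    (h1 : (1 / 4 : ℝ) ^ k ≤ avg (fun x => F x ^ k)) (h2 : 0 ≤ avg (fun x => F x ^ (k + 1))) :
    (17 / 16 : ℝ) ^ (4 * (k + 1)) ≤ avg (fun x => (1 + F x) ^ (4 * (k + 1))) := by
  have hn : (0 : ℝ) < (Fintype.card G : ℝ) := by
    have : 0 < Fintype.card G := Fintype.card_pos_iff.2 ⟨0⟩
    exact_mod_cast this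
  unfold avg at h1 h2 ⊢
  rw [le_div_iff₀ hn] at h1 ⊢
  have h2' : 0 ≤ ∑ x, F x ^ (k + 1) := by
    have := mul_nonneg h2 hn.le
    rwa [div_mul_cancel₀ _ hn.ne'] at this
  set n : ℝ := (Fintype.card G : ℝ) with hndef
  have hk0 : (0 : ℝ) < k := by
    have : 0 < k := by omega
    exact_mod_cast this
  -- the moment of order k
  have h3 : n ≤ ∑ x, (4 * |F x|) ^ k := by
    have h4 : ∑ x, (4 * |F x|) ^ k = 4 ^ k * ∑ x, F x ^ k := by
      rw [Finset.mul_sum]
      refine Finset.sum_congr rfl fun x _ => ?_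
      rw [mul_pow, hk.pow_abs]
    rw [h4]
    have h5 : (4 : ℝ) ^ k * ((1 / 4) ^ k * n) ≤ 4 ^ k * ∑ x, F x ^ k := by gcongr
    rw [← mul_assoc, ← mul_pow] at h5
    norm_num at h5
    exact h5
  have h6 : n ≤ ∑ x, (4 * |F x|) ^ (k + 1) := by
    have h7 : ∑ x, ((k : ℝ) + 1) * (4 * |F x|) ^ k ≤ ∑ x, (k * (4 * |F x|) ^ (k + 1) + 1) :=
      Finset.sum_le_sum fun x _ => unbalance_amgm _ (by positivity) k
    rw [← Finset.mul_sum, Finset.sum_add_distrib, ← Finset.mul_sum] at h7
    simp only [Finset.sum_const, Finset.card_univ, nsmul_eq_mul, mul_one] at h7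
    rw [← hndef] at h7
    have h8 : ((k : ℝ) + 1) * n ≤ ((k : ℝ) + 1) * ∑ x, (4 * |F x|) ^ k := by gcongr
    have h9 : k * n ≤ k * ∑ x, (4 * |F x|) ^ (k + 1) := by linarith
    exact le_of_mul_le_mul_left h9 hk0
  have h10 : ∑ x, (4 * |F x|) ^ (k + 1) = 4 ^ (k + 1) * ∑ x, |F x| ^ (k + 1) := by
    rw [Finset.mul_sum]
    refine Finset.sum_congr rfl fun x _ => ?_
    rw [mul_pow]
  rw [h10] at h6
  have h11 : (256 / 27 : ℝ) ^ (k + 1) * ((∑ x, |F x| ^ (k + 1) + ∑ x, F x ^ (k + 1)) / 2) ≤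
      ∑ x, (1 + F x) ^ (4 * (k + 1)) := by
    rw [← Finset.sum_add_distrib, Finset.sum_div, Finset.mul_sum]
    exact Finset.sum_le_sum fun x _ => unbalance_point _ (hF x) k hk
  refine le_trans ?_ h11
  have h12 : (17 / 16 : ℝ) ^ (4 * (k + 1)) * 2 ≤ (64 / 27) ^ (k + 1) := by
    have h13 : (2 : ℝ) ≤ (185 / 100) ^ (k + 1) := by
      calc (2 : ℝ) ≤ (185 / 100) ^ 3 := by norm_num
        _ ≤ (185 / 100) ^ (k + 1) := pow_le_pow_right₀ (by norm_num) (by omega)
    calc (17 / 16 : ℝ) ^ (4 * (k + 1)) * 2 ≤ ((17 / 16 : ℝ) ^ 4) ^ (k + 1) * (185 / 100) ^ (k + 1) := by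
          rw [pow_mul]
          gcongr
      _ = ((17 / 16 : ℝ) ^ 4 * (185 / 100)) ^ (k + 1) := by rw [mul_pow]
      _ ≤ (64 / 27) ^ (k + 1) := by
          apply pow_le_pow_left₀ (by positivity)
          norm_num
  have h14 : (256 / 27 : ℝ) ^ (k + 1) = (64 / 27) ^ (k + 1) * 4 ^ (k + 1) := by
    rw [← mul_pow]
    norm_num
  rw [h14]
  have h15 : (0 : ℝ) ≤ (64 / 27) ^ (k + 1) := by positivity
  calc (17 / 16 : ℝ) ^ (4 * (k + 1)) * n = ((17 / 16 : ℝ) ^ (4 * (k + 1)) * 2) * n / 2 := by ring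
    _ ≤ (64 / 27) ^ (k + 1) * n / 2 := by gcongr
    _ ≤ (64 / 27) ^ (k + 1) * (4 ^ (k + 1) * ∑ x, |F x| ^ (k + 1)) / 2 := by gcongr
    _ ≤ (64 / 27) ^ (k + 1) * (4 ^ (k + 1) * (∑ x, |F x| ^ (k + 1) + ∑ x, F x ^ (k + 1))) / 2 := by
        gcongr
        linarith
    _ = _ := by ring

end KM

end EHProj
end

section

set_option autoImplicit false

/-! # KM-2: the Hoelder step -/

namespace EHProj

open scoped LinearAlgebra.Projectivization
open Module

section KM
variable {G : Type} [AddCommGroup G] [Fintype G]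

open Classical in
lemma holder_cnv (A B : Finset G) (x : G) :
    cnv (mu A) (mu B) x = (Fintype.card G : ℝ) / ((A.card : ℝ) * B.card) *
      ((B.filter (fun y => x + y ∈ A)).card : ℝ) := by
  have hn : (Fintype.card G : ℝ) ≠ 0 := by
    have : 0 < Fintype.card G := Fintype.card_pos_iff.2 ⟨x⟩
    positivity
  have h1 : ∀ y : G, mu A (x + y) * mu B y =
      if y ∈ B.filter (fun y => x + y ∈ A) then
        (Fintype.card G : ℝ) / (A.card : ℝ) * ((Fintype.card G : ℝ) / (B.card : ℝ)) else 0 := by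
    intro y
    by_cases hy : y ∈ B <;> by_cases hxy : x + y ∈ A <;> simp [mu, hy, hxy]
  unfold cnv avg
  simp only [h1]
  rw [Finset.sum_ite_mem, Finset.univ_inter, Finset.sum_const, nsmul_eq_mul]
  by_cases hA : (A.card : ℝ) = 0
  · simp [hA]
  by_cases hB : (B.card : ℝ) = 0
  · simp [hB]
  field_simp

omit [Fintype G] in
open Classical in
lemma holder_count (A B C : Finset G) :
    ((A ×ˢ B).filter (fun q => q.1 - q.2 ∈ C)).card =
      ∑ x ∈ C, (B.filter (fun y => x + y ∈ A)).card := by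
  rw [Finset.card_eq_sum_card_fiberwise (s := (A ×ˢ B).filter (fun q => q.1 - q.2 ∈ C))
    (f := fun q : G × G => q.1 - q.2) (t := C)
    (fun q hq => (Finset.mem_filter.1 (Finset.mem_coe.1 hq)).2)]
  refine Finset.sum_congr rfl fun x hx => ?_
  refine Finset.card_nbij' (fun q => q.2) (fun y => (x + y, y)) ?_ ?_ ?_ ?_
  · intro q hq
    simp only [Finset.coe_filter, Finset.mem_filter, Finset.mem_product, Set.mem_ofPred_eq] at hq ⊢
    obtain ⟨⟨⟨h1, h2⟩, h3⟩, h4⟩ := hq
    refine ⟨h2, ?_⟩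
    rw [← h4, sub_add_cancel]
    exact h1
  · intro y hy
    simp only [Finset.coe_filter, Finset.mem_filter, Finset.mem_product, Set.mem_ofPred_eq] at hy ⊢
    refine ⟨⟨⟨hy.2, hy.1⟩, ?_⟩, ?_⟩
    · rw [add_sub_cancel_right]; exact hx
    · rw [add_sub_cancel_right]
  · intro q hq
    simp only [Finset.coe_filter, Finset.mem_filter, Finset.mem_product, Set.mem_ofPred_eq] at hq
    ext
    · simp only
      rw [← hq.2, sub_add_cancel]
    · rfl
  · intro y hy
    rfl

open Classical in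
theorem km_holder (A B C : Finset G) (hA : A.Nonempty) (hB : B.Nonempty) (hC : C.Nonempty)
    (c k : ℕ) (hk : Even k) (hck : c ≤ k)
    (hCc : (1 / 2 : ℝ) ^ c ≤ (C.card : ℝ) / (Fintype.card G : ℝ))
    (hstar : (((A ×ˢ B).filter (fun q => q.1 - q.2 ∈ C)).card : ℝ) ≤
      (1 / 2) * ((A.card : ℝ) * B.card * C.card / (Fintype.card G : ℝ))) :
    (1 / 4 : ℝ) ^ k ≤ avg (fun x => (cnv (mu A) (mu A) x - 1) ^ k) ∨
    (1 / 4 : ℝ) ^ k ≤ avg (fun x => (cnv (mu B) (mu B) x - 1) ^ k) := by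
  have hA0 : (0 : ℝ) < A.card := by exact_mod_cast hA.card_pos
  have hB0 : (0 : ℝ) < B.card := by exact_mod_cast hB.card_pos
  have hC0 : (0 : ℝ) < C.card := by exact_mod_cast hC.card_pos
  have hn : (0 : ℝ) < (Fintype.card G : ℝ) := by
    obtain ⟨x, -⟩ := hA
    have : 0 < Fintype.card G := Fintype.card_pos_iff.2 ⟨x⟩
    exact_mod_cast this
  set F : G → ℝ := fun x => cnv (mu A) (mu B) x - 1 with hF
  -- the sum over `C`
  have h1 : ∑ x ∈ C, F x ≤ -(1 / 2) * (C.card : ℝ) := by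
    have h2 : ∑ x ∈ C, cnv (mu A) (mu B) x ≤ (1 / 2) * (C.card : ℝ) := by
      simp only [holder_cnv]
      rw [← Finset.mul_sum]
      have h3 : (∑ x ∈ C, ((B.filter (fun y => x + y ∈ A)).card : ℝ)) =
          (((A ×ˢ B).filter (fun q => q.1 - q.2 ∈ C)).card : ℝ) := by
        rw [holder_count]
        push_cast
        rfl
      rw [h3]
      calc (Fintype.card G : ℝ) / ((A.card : ℝ) * B.card) *
            (((A ×ˢ B).filter (fun q => q.1 - q.2 ∈ C)).card : ℝ)
          ≤ (Fintype.card G : ℝ) / ((A.card : ℝ) * B.card) *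
            ((1 / 2) * ((A.card : ℝ) * B.card * C.card / (Fintype.card G : ℝ))) := by
              gcongr
        _ = (1 / 2) * (C.card : ℝ) := by
              field_simp
    simp only [hF, Finset.sum_sub_distrib, Finset.sum_const, nsmul_eq_mul, mul_one]
    linarith
  have h2 : (1 / 2) * (C.card : ℝ) ≤ ∑ x ∈ C, |F x| := by
    have h3 : -∑ x ∈ C, F x ≤ ∑ x ∈ C, |F x| := by
      rw [← Finset.sum_neg_distrib]
      exact Finset.sum_le_sum fun x _ => neg_le_abs (F x)
    linarith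
  have h3 : (1 / 2 : ℝ) ^ k * (C.card : ℝ) ≤ ∑ x ∈ C, |F x| ^ k := by
    have h4 := Real.pow_arith_mean_le_arith_mean_pow C (fun _ => 1 / (C.card : ℝ))
      (fun x => |F x|) (fun _ _ => by positivity)
      (by rw [Finset.sum_const, nsmul_eq_mul]; field_simp) (fun _ _ => abs_nonneg _) k
    rw [← Finset.mul_sum, ← Finset.mul_sum] at h4
    have h5 : (1 / 2 : ℝ) ≤ 1 / (C.card : ℝ) * ∑ x ∈ C, |F x| := by
      rw [div_mul_eq_mul_div, one_mul, le_div_iff₀ hC0]
      exact h2
    have h6 : (1 / 2 : ℝ) ^ k ≤ 1 / (C.card : ℝ) * ∑ x ∈ C, |F x| ^ k :=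
      (pow_le_pow_left₀ (by norm_num) h5 k).trans h4
    rw [div_mul_eq_mul_div, one_mul, le_div_iff₀ hC0] at h6
    exact h6
  have h4 : ∑ x ∈ C, |F x| ^ k ≤ ∑ x, F x ^ k := by
    simp only [hk.pow_abs]
    exact Finset.sum_le_sum_of_subset_of_nonneg (Finset.subset_univ C)
      (fun x _ _ => hk.pow_nonneg (F x))
  have h5 : (1 / 4 : ℝ) ^ k ≤ avg (fun x => F x ^ k) := by
    unfold avg
    have h6 : (1 / 2 : ℝ) ^ k * ((C.card : ℝ) / (Fintype.card G : ℝ)) ≤
        (∑ x, F x ^ k) / (Fintype.card G : ℝ) := by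
      rw [← mul_div_assoc]
      exact div_le_div_of_nonneg_right (h3.trans h4) hn.le
    have h7 : (1 / 4 : ℝ) ^ k = (1 / 2 : ℝ) ^ k * (1 / 2 : ℝ) ^ k := by
      rw [← mul_pow]; norm_num
    rw [h7]
    refine le_trans ?_ h6
    refine mul_le_mul_of_nonneg_left ?_ (by positivity)
    exact (pow_le_pow_of_le_one (by norm_num) (by norm_num) hck).trans hCc
  have h6 := avg_cnv_cs (fun y => mu A y - 1) (fun y => mu B y - 1) k
  have h7 := avg_cnv_self_nonneg (fun y => mu A y - 1) k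
  have h8 := avg_cnv_self_nonneg (fun y => mu B y - 1) k
  simp only [cnv_mu_sub_one A B hA hB, cnv_mu_sub_one A A hA hA,
    cnv_mu_sub_one B B hB hB] at h6 h7 h8
  by_contra hcon
  push Not at hcon
  obtain ⟨hc1, hc2⟩ := hcon
  have h9 : ((1 / 4 : ℝ) ^ k) ^ 2 ≤ (avg (fun x => F x ^ k)) ^ 2 :=
    pow_le_pow_left₀ (by positivity) h5 2
  have h10 : avg (fun x => (cnv (mu A) (mu A) x - 1) ^ k) *
      avg (fun x => (cnv (mu B) (mu B) x - 1) ^ k) < (1 / 4 : ℝ) ^ k * (1 / 4 : ℝ) ^ k :=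
    mul_lt_mul'' hc1 hc2 h7 h8
  rw [← sq] at h10
  exact absurd (h9.trans h6) (not_le.2 h10)

end KM

end EHProj
end

section

/-! # KM-6c: total after smoothing -/

namespace EHProj

open scoped LinearAlgebra.Projectivization
open Module

section KM
variable {G : Type} [AddCommGroup G] [Fintype G]

/-- the total after smoothing -/
theorem smooth_total (f : G → ℝ) (hf0 : ∀ x, 0 ≤ f x) (hf1 : ∀ x, f x ≤ 1) (A' T : Finset G)
    (hA' : A'.Nonempty) (hTn : T.Nonempty) (a' r j : ℕ) (hr : Even r) (hr2 : 2 ≤ r) (har : a' ≤ r)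
    (hj : 1 ≤ j) (hd : (1 / 2 : ℝ) ^ a' ≤ (A'.card : ℝ) / (Fintype.card G : ℝ))
    (hT : ∀ t ∈ T, ∀ t' ∈ T,
      avg (fun u => (sm A' f (u + (t - t')) - sm A' f u) ^ r) ≤ (2 / ((1024 * j : ℕ) : ℝ)) ^ r)
    (hbase : (1 - 1 / 256) * (A'.card : ℝ) ^ 2 ≤ ∑ y ∈ A', ∑ z ∈ A', f (z - y)) :
    (1 - 2 / 256) * (A'.card : ℝ) ^ 2 * (T.card : ℝ) ^ (2 * j) ≤
      ∑ s ∈ Fintype.piFinset (fun _ : Fin j => T), ∑ s' ∈ Fintype.piFinset (fun _ : Fin j => T),
        ∑ y ∈ A', ∑ z ∈ A', f (z - y + ∑ i, (s i - s' i)) := by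
  have hG : (0 : ℝ) < Fintype.card G := by exact_mod_cast Fintype.card_pos
  have hA0 : (0 : ℝ) < A'.card := by exact_mod_cast hA'.card_pos
  have hj0 : (0 : ℝ) < j := by exact_mod_cast hj
  set F : G → ℝ := sm A' f with hF
  have hinner : ∀ v : G, ∑ z ∈ A', f (v + z) = A'.card * F v := by
    intro v
    rw [hF]; unfold sm
    field_simp
  have hrw : ∀ σ : G, ∑ y ∈ A', ∑ z ∈ A', f (z - y + σ) = A'.card * ∑ y ∈ A', F (-y + σ) := by
    intro σ
    rw [Finset.mul_sum]
    refine Finset.sum_congr rfl fun y _ => ?_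
    rw [← hinner]
    refine Finset.sum_congr rfl fun z _ => ?_
    congr 1
    abel
  have hbase' : (1 - 1 / 256) * (A'.card : ℝ) ^ 2 ≤ A'.card * ∑ y ∈ A', F (-y) := by
    have h1 := hrw 0
    simp only [add_zero] at h1
    rw [← h1]; exact hbase
  have hone : ∀ σ : G, avg (fun u => (F (u + σ) - F u) ^ r) ≤ (1 / 512 : ℝ) ^ r →
      (1 - 2 / 256) * (A'.card : ℝ) ^ 2 ≤ ∑ y ∈ A', ∑ z ∈ A', f (z - y + σ) := by
    intro σ hσ
    rw [hrw]
    have h1 : ∑ u, (F (u + σ) - F u) ^ r ≤ (1 / 512 : ℝ) ^ r * Fintype.card G := by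
      unfold avg at hσ
      exact (div_le_iff₀ hG).mp hσ
    have h2 : ∑ y ∈ A', (F (-y + σ) - F (-y)) ^ r ≤ ∑ u, (F (u + σ) - F u) ^ r := by
      have h3 : ∑ u, (F (u + σ) - F u) ^ r = ∑ u, (F (-u + σ) - F (-u)) ^ r :=
        (Equiv.sum_comp (Equiv.neg G) (fun u => (F (u + σ) - F u) ^ r)).symm
      rw [h3]
      exact Finset.sum_le_sum_of_subset_of_nonneg (Finset.subset_univ _)
        fun u _ _ => hr.pow_nonneg _
    have h4 := Real.pow_arith_mean_le_arith_mean_pow A' (fun _ => 1 / (A'.card : ℝ))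
      (fun y => |F (-y + σ) - F (-y)|) (fun _ _ => by positivity) (by
        rw [Finset.sum_const, nsmul_eq_mul]; field_simp) (fun _ _ => abs_nonneg _) r
    have h5 : ∑ y ∈ A', 1 / (A'.card : ℝ) * |F (-y + σ) - F (-y)| ^ r ≤ (1 / 256 : ℝ) ^ r := by
      have h6 : ∑ y ∈ A', 1 / (A'.card : ℝ) * |F (-y + σ) - F (-y)| ^ r =
          1 / (A'.card : ℝ) * ∑ y ∈ A', (F (-y + σ) - F (-y)) ^ r := by
        rw [Finset.mul_sum]
        refine Finset.sum_congr rfl fun y _ => ?_
        rw [hr.pow_abs]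
      rw [h6]
      have h7 : (Fintype.card G : ℝ) ≤ 2 ^ r * A'.card := by
        have h8 : (1 / 2 : ℝ) ^ a' * Fintype.card G ≤ A'.card := (le_div_iff₀ hG).mp hd
        have h9 : (1 / 2 : ℝ) ^ r ≤ (1 / 2 : ℝ) ^ a' :=
          pow_le_pow_of_le_one (by norm_num) (by norm_num) har
        have h10 : (1 / 2 : ℝ) ^ r * Fintype.card G ≤ A'.card :=
          le_trans (mul_le_mul_of_nonneg_right h9 hG.le) h8
        have h11 : (2 : ℝ) ^ r * ((1 / 2 : ℝ) ^ r * Fintype.card G) = Fintype.card G := by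
          rw [← mul_assoc, ← mul_pow]; norm_num
        rw [← h11]
        exact mul_le_mul_of_nonneg_left h10 (by positivity)
      calc 1 / (A'.card : ℝ) * ∑ y ∈ A', (F (-y + σ) - F (-y)) ^ r
          ≤ 1 / (A'.card : ℝ) * ((1 / 512 : ℝ) ^ r * Fintype.card G) := by
            apply mul_le_mul_of_nonneg_left (le_trans h2 h1) (by positivity)
        _ ≤ 1 / (A'.card : ℝ) * ((1 / 512 : ℝ) ^ r * (2 ^ r * A'.card)) := by gcongr
        _ = (1 / 512 : ℝ) ^ r * 2 ^ r := by field_simp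
        _ = (1 / 256 : ℝ) ^ r := by rw [← mul_pow]; norm_num
    have h12 : ∑ y ∈ A', 1 / (A'.card : ℝ) * |F (-y + σ) - F (-y)| ≤ 1 / 256 :=
      le_of_pow_le_pow_left₀ (by omega : r ≠ 0) (by norm_num) (le_trans h4 h5)
    have h13 : ∑ y ∈ A', |F (-y + σ) - F (-y)| ≤ A'.card / 256 := by
      rw [← Finset.mul_sum] at h12
      have := mul_le_mul_of_nonneg_left h12 hA0.le
      rw [← mul_assoc, mul_one_div_cancel hA0.ne', one_mul] at this
      linarith
    have h14 : ∑ y ∈ A', F (-y) - A'.card / 256 ≤ ∑ y ∈ A', F (-y + σ) := by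
      have h15 : ∑ y ∈ A', F (-y) - ∑ y ∈ A', F (-y + σ) ≤ ∑ y ∈ A', |F (-y + σ) - F (-y)| := by
        rw [← Finset.sum_sub_distrib]
        refine Finset.sum_le_sum fun y _ => ?_
        rw [abs_sub_comm]
        exact le_abs_self _
      linarith
    have h16 := mul_le_mul_of_nonneg_left h14 hA0.le
    nlinarith
  have hsh : ∀ s ∈ Fintype.piFinset (fun _ : Fin j => T),
      ∀ s' ∈ Fintype.piFinset (fun _ : Fin j => T),
      (1 - 2 / 256) * (A'.card : ℝ) ^ 2 ≤ ∑ y ∈ A', ∑ z ∈ A', f (z - y + ∑ i, (s i - s' i)) := by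
    intro s hs s' hs'
    rw [Fintype.mem_piFinset] at hs hs'
    apply hone
    have h1 := shift_sum F T r (1024 * j) hr hr2 (by omega) hT j s s' hs hs'
    refine le_trans h1 (le_of_eq ?_)
    congr 1
    push_cast
    field_simp
    norm_num
  have hcard : (((Fintype.piFinset (fun _ : Fin j => T)).card : ℕ) : ℝ) = (T.card : ℝ) ^ j := by
    rw [Fintype.card_piFinset]; simp
  calc (1 - 2 / 256) * (A'.card : ℝ) ^ 2 * (T.card : ℝ) ^ (2 * j)
      = ∑ s ∈ Fintype.piFinset (fun _ : Fin j => T),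
          ∑ s' ∈ Fintype.piFinset (fun _ : Fin j => T), (1 - 2 / 256) * (A'.card : ℝ) ^ 2 := by
        rw [Finset.sum_const, Finset.sum_const, nsmul_eq_mul, nsmul_eq_mul, hcard]
        ring
    _ ≤ _ := Finset.sum_le_sum fun s hs => Finset.sum_le_sum fun s' hs' => hsh s hs s' hs'

end KM

end EHProj
end

section

/-! Kelley–Meka increment, assembly (KM9b). -/

namespace EHProj

open scoped LinearAlgebra.Projectivization
open Module

section KM
variable {G : Type} [AddCommGroup G] [Fintype G]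

private theorem kmglobal_mu_nonneg (A : Finset G) (x : G) : 0 ≤ mu A x := by
  unfold mu
  split_ifs
  · positivity
  · exact le_rfl

private theorem kmglobal_cnv_nonneg (A B : Finset G) (x : G) : 0 ≤ cnv (mu A) (mu B) x := by
  unfold cnv avg
  apply div_nonneg
  · apply Finset.sum_nonneg
    intro y _
    exact mul_nonneg (kmglobal_mu_nonneg A _) (kmglobal_mu_nonneg B _)
  · positivity

private theorem kmglobal_kk_even (c : ℕ) : Even (kk c) := by
  unfold kk; exact even_two_mul _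

private theorem kmglobal_kk_ge (c : ℕ) : c ≤ kk c ∧ 54 ≤ kk c := by
  unfold kk
  constructor
  · have := le_max_left ((c + 1) / 2) 27
    omega
  · have := le_max_right ((c + 1) / 2) 27
    omega

private theorem kmglobal_nonempty (A : Finset G) (a : ℕ)
    (hA : (1 / 2 : ℝ) ^ a ≤ (A.card : ℝ) / (Fintype.card G : ℝ)) : A.Nonempty := by
  rw [Finset.nonempty_iff_ne_empty]
  rintro rfl
  simp only [Finset.card_empty, Nat.cast_zero, zero_div] at hA
  have : (0 : ℝ) < (1 / 2 : ℝ) ^ a := by positivity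
  linarith

variable {p : ℕ} [Fact p.Prime] [Module (ZMod p) G]

open Classical in
private theorem kmglobal_one (A : Finset G) (a c : ℕ)
    (hA : (1 / 2 : ℝ) ^ a ≤ (A.card : ℝ) / (Fintype.card G : ℝ))
    (h : (1 / 4 : ℝ) ^ (kk c) ≤ avg (fun x => (cnv (mu A) (mu A) x - 1) ^ (kk c))) :
    ∃ W : Submodule (ZMod p) G, finrank (ZMod p) G ≤ finrank (ZMod p) W + KK a c ∧
      (∃ x, (65 / 64) * ((A.card : ℝ) / (Fintype.card G : ℝ)) ≤ rd (A : Set G) W x) := by
  have hAn : A.Nonempty := kmglobal_nonempty A a hA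
  obtain ⟨hck, h54⟩ := kmglobal_kk_ge c
  have hunb := unbalance (fun x : G => cnv (mu A) (mu A) x - 1) (kk c) (kmglobal_kk_even c)
    (by omega) (fun x => by have := kmglobal_cnv_nonneg A A x; linarith) h
    (by
      have h1 := avg_cnv_self_nonneg (fun y => mu A y - 1) (kk c + 1)
      have h2 : (fun x : G => cnv (fun y => mu A y - 1) (fun y => mu A y - 1) x ^ (kk c + 1))
          = (fun x : G => (cnv (mu A) (mu A) x - 1) ^ (kk c + 1)) := by
        funext x
        rw [cnv_mu_sub_one A A hAn hAn]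
      rwa [h2] at h1)
  have hN : NN c = 4 * (kk c + 1) := rfl
  rw [← hN] at hunb
  have e1 : (fun x : G => (1 + (cnv (mu A) (mu A) x - 1)) ^ NN c)
      = (fun x : G => cnv (mu A) (mu A) x ^ NN c) := by
    funext x
    congr 1
    ring
  rw [e1] at hunb
  obtain ⟨A', hA'n, hA'd, hA'c⟩ := sift A hAn (NN c) (by rw [hN]; omega) hunb
  have hd : (1 / 2 : ℝ) ^ (aa a c) ≤ (A'.card : ℝ) / (Fintype.card G : ℝ) := by
    refine le_trans ?_ hA'd
    have h1 : (1 / 2 : ℝ) ^ (aa a c) = ((1 / 2 : ℝ) ^ a) ^ (NN c) / 4 := by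
      unfold aa
      rw [pow_add, ← pow_mul, mul_comm (NN c) a]
      norm_num
      ring
    rw [h1]
    have h2 : ((1 / 2 : ℝ) ^ a) ^ (NN c) ≤ ((A.card : ℝ) / (Fintype.card G : ℝ)) ^ (NN c) :=
      pow_le_pow_left₀ (by positivity) hA _
    linarith
  set f : G → ℝ := fun x => if x ∈ pop A then (1 : ℝ) else 0 with hf
  have hf0 : ∀ x, 0 ≤ f x := by intro x; rw [hf]; simp only; split_ifs <;> norm_num
  have hf1 : ∀ x, f x ≤ 1 := by intro x; rw [hf]; simp only; split_ifs <;> norm_num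
  have hbase : (1 - 1 / 256) * (A'.card : ℝ) ^ 2 ≤ ∑ y ∈ A', ∑ z ∈ A', f (z - y) := by
    refine hA'c.trans (le_of_eq ?_)
    rw [Finset.card_filter, Nat.cast_sum, Finset.sum_product]
    apply Finset.sum_congr rfl
    intro y _
    apply Finset.sum_congr rfl
    intro z _
    rw [hf]
    simp only
    split_ifs <;> simp
  have hr : Even (rr a c) := by unfold rr; exact even_two_mul _
  have hr2 : 2 ≤ rr a c := by unfold rr aa; omega
  have har : aa a c ≤ rr a c := by unfold rr; omega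
  have hj1 : 1 ≤ jj a c := by unfold jj; omega
  have haj : aa a c + 8 ≤ 2 * jj a c := by unfold jj; omega
  have he : 1 ≤ ee a c := by unfold ee; omega
  obtain ⟨T, hTn, hTd, hT⟩ := almost_period f hf0 hf1 A' hA'n (rr a c) (ee a c) (mm a c)
    hr hr2 he rfl
  have htot := smooth_total f hf0 hf1 A' T hA'n hTn (aa a c) (rr a c) (jj a c) hr hr2 har
    hj1 hd hT hbase
  have hD : (1 / 2 : ℝ) ^ (aa a c * mm a c + 1) ≤ (T.card : ℝ) / (Fintype.card G : ℝ) := by
    refine le_trans ?_ hTd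
    rw [pow_succ, pow_mul]
    have h2 : ((1 / 2 : ℝ) ^ aa a c) ^ (mm a c)
        ≤ ((A'.card : ℝ) / (Fintype.card G : ℝ)) ^ (mm a c) :=
      pow_le_pow_left₀ (by positivity) hd _
    linarith
  obtain ⟨W, hWdim, hW⟩ := chang (p := p) T hTn (aa a c * mm a c + 1) hD
  obtain ⟨u, hu⟩ := fourier_step f hf0 hf1 A' T hA'n hTn (aa a c) (jj a c) haj hd W hW htot
  obtain ⟨x, hx⟩ := density_step A hAn W u hu
  exact ⟨W, hWdim, x, hx⟩

open Classical in
theorem km_global (A B C : Finset G) (a c : ℕ) (ha : 1 ≤ a)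
    (hA : (1 / 2 : ℝ) ^ a ≤ (A.card : ℝ) / (Fintype.card G : ℝ))
    (hB : (1 / 2 : ℝ) ^ a ≤ (B.card : ℝ) / (Fintype.card G : ℝ))
    (hC : (1 / 2 : ℝ) ^ c ≤ (C.card : ℝ) / (Fintype.card G : ℝ))
    (hstar : (((A ×ˢ B).filter (fun q => q.1 - q.2 ∈ C)).card : ℝ) ≤
      (1 / 2) * ((A.card : ℝ) * B.card * C.card / (Fintype.card G : ℝ))) :
    ∃ W : Submodule (ZMod p) G, finrank (ZMod p) G ≤ finrank (ZMod p) W + KK a c ∧
      ((∃ x, (65 / 64) * ((A.card : ℝ) / (Fintype.card G : ℝ)) ≤ rd (A : Set G) W x) ∨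
       (∃ x, (65 / 64) * ((B.card : ℝ) / (Fintype.card G : ℝ)) ≤ rd (B : Set G) W x)) := by
  obtain ⟨hck, h54⟩ := kmglobal_kk_ge c
  rcases km_holder A B C (kmglobal_nonempty A a hA) (kmglobal_nonempty B a hB)
    (kmglobal_nonempty C c hC) c (kk c) (kmglobal_kk_even c) hck hC hstar with h | h
  · obtain ⟨W, h1, h2⟩ := kmglobal_one (p := p) A a c hA h
    exact ⟨W, h1, Or.inl h2⟩
  · obtain ⟨W, h1, h2⟩ := kmglobal_one (p := p) B a c hB h
    exact ⟨W, h1, Or.inr h2⟩

end KM

end EHProj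
end

section

/-! Kelley–Meka relative to a coset (EH-T2). -/

set_option linter.unusedSectionVars false

namespace EHProj

open scoped LinearAlgebra.Projectivization
open Module

section Tools
variable {p : ℕ} [Fact p.Prime] {V : Type} [AddCommGroup V] [Module (ZMod p) V] [Finite V]

private theorem kmrel_card {α : Type*} [Fintype α] (P : α → Prop) [DecidablePred P] :
    (Finset.univ.filter P).card = Nat.card {h : α // P h} := by
  rw [Nat.card_eq_fintype_card, Fintype.card_subtype]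

/-- relative density inside a subspace `W` of the group `H` -/
private theorem kmrel_rd (A : Set V) (H : Submodule (ZMod p) V) (x : V)
    (A0 : Set H) (hA0 : ∀ h : H, h ∈ A0 ↔ x + (h : V) ∈ A)
    (W : Submodule (ZMod p) H) (x0 : H) :
    rd A0 W x0 = rd A (W.map H.subtype) (x + (x0 : V)) := by
  unfold rd
  let e : W ≃ (W.map H.subtype : Submodule (ZMod p) V) :=
    (Submodule.equivMapOfInjective H.subtype H.injective_subtype W).toEquiv
  have he : ∀ w : W, ((e w : V)) = ((w : H) : V) := by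
    intro w
    rfl
  congr 1
  · have h : Nat.card {h : W // x0 + (h : H) ∈ A0} =
        Nat.card {h : (W.map H.subtype : Submodule (ZMod p) V) // x + (x0 : V) + (h : V) ∈ A} := by
      refine Nat.card_congr (e.subtypeEquiv ?_)
      intro w
      rw [hA0, he]
      simp [add_assoc]
    exact_mod_cast h
  · exact_mod_cast Nat.card_congr e

theorem km_rel (H : Submodule (ZMod p) V) (A B C : Set V) (x y : V) (a c : ℕ) (ha : 1 ≤ a)
    (hA : (1 / 2 : ℝ) ^ a ≤ rd A H x) (hB : (1 / 2 : ℝ) ^ a ≤ rd B H y)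
    (hC : (1 / 2 : ℝ) ^ c ≤ rd C H (x - y))
    (hstar : (Nat.card {q : H × H // x + (q.1 : V) ∈ A ∧ y + (q.2 : V) ∈ B ∧
        (x + (q.1 : V)) - (y + (q.2 : V)) ∈ C} : ℝ) ≤
      (1 / 2) * (rd A H x * rd B H y * rd C H (x - y)) * (Nat.card H : ℝ) ^ 2) :
    ∃ H' ≤ H, finrank (ZMod p) H ≤ finrank (ZMod p) H' + KK a c ∧
      ((∃ x', x' - x ∈ H ∧ (65 / 64) * rd A H x ≤ rd A H' x') ∨
       (∃ y', y' - y ∈ H ∧ (65 / 64) * rd B H y ≤ rd B H' y')) := by
  classical
  have : Fintype H := Fintype.ofFinite H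
  set A0 : Finset H := Finset.univ.filter (fun h => x + (h : V) ∈ A) with hA0
  set B0 : Finset H := Finset.univ.filter (fun h => y + (h : V) ∈ B) with hB0
  set C0 : Finset H := Finset.univ.filter (fun h => (x - y) + (h : V) ∈ C) with hC0
  have hN : Nat.card H = Fintype.card H := Nat.card_eq_fintype_card
  have hNpos : (0 : ℝ) < (Fintype.card H : ℝ) := by
    exact_mod_cast Fintype.card_pos
  have dA : (A0.card : ℝ) / (Fintype.card H : ℝ) = rd A H x := by
    unfold rd
    rw [hN, hA0, kmrel_card]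
  have dB : (B0.card : ℝ) / (Fintype.card H : ℝ) = rd B H y := by
    unfold rd
    rw [hN, hB0, kmrel_card]
  have dC : (C0.card : ℝ) / (Fintype.card H : ℝ) = rd C H (x - y) := by
    unfold rd
    rw [hN, hC0, kmrel_card]
  have hcount : ((A0 ×ˢ B0).filter (fun q => q.1 - q.2 ∈ C0)).card =
      Nat.card {q : H × H // x + (q.1 : V) ∈ A ∧ y + (q.2 : V) ∈ B ∧
        (x + (q.1 : V)) - (y + (q.2 : V)) ∈ C} := by
    rw [← kmrel_card]
    congr 1
    ext q
    simp only [Finset.mem_filter, Finset.mem_product, hA0, hB0, hC0, Finset.mem_univ, true_and,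
      Submodule.coe_sub]
    have e : x - y + ((q.1 : V) - (q.2 : V)) = (x + (q.1 : V)) - (y + (q.2 : V)) := by abel
    rw [e, and_assoc]
  have hstar' : (((A0 ×ˢ B0).filter (fun q => q.1 - q.2 ∈ C0)).card : ℝ) ≤
      (1 / 2) * ((A0.card : ℝ) * B0.card * C0.card / (Fintype.card H : ℝ)) := by
    rw [hcount]
    refine hstar.trans (le_of_eq ?_)
    rw [← dA, ← dB, ← dC, hN]
    field_simp
  obtain ⟨W, hW1, hW2⟩ := km_global (p := p) A0 B0 C0 a c ha (by rw [dA]; exact hA)
    (by rw [dB]; exact hB) (by rw [dC]; exact hC) (by convert hstar')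
  refine ⟨W.map H.subtype, Submodule.map_subtype_le H W, ?_, ?_⟩
  · have : finrank (ZMod p) (W.map H.subtype : Submodule (ZMod p) V) = finrank (ZMod p) W :=
      (Submodule.equivMapOfInjective H.subtype H.injective_subtype W).finrank_eq.symm
    rw [this]
    exact hW1
  · rcases hW2 with ⟨x0, hx0⟩ | ⟨y0, hy0⟩
    · left
      refine ⟨x + (x0 : V), by simp, ?_⟩
      rw [dA, kmrel_rd A H x (A0 : Set H) (by intro h; simp [hA0]) W x0] at hx0
      exact hx0
    · right
      refine ⟨y + (y0 : V), by simp, ?_⟩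
      rw [dB, kmrel_rd B H y (B0 : Set H) (by intro h; simp [hB0]) W y0] at hy0
      exact hy0

end Tools

end EHProj
end

section

/-!
# MP_f4f4db_co T-3: iteration lemmas
-/

set_option autoImplicit false

namespace EHProj

open scoped LinearAlgebra.Projectivization
open Module

section Tools
variable {p : ℕ} [Fact p.Prime] {V : Type} [AddCommGroup V] [Module (ZMod p) V] [Finite V]

private theorem it_num (a : ℕ) {α : ℝ} (hα : α ≤ 1)
    (h : (65 / 64) * ((65 / 64 : ℝ) ^ (45 * a) * (1 / 2) ^ a) ≤ α) : False := by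
  have h1 : (2 : ℝ) ≤ (65 / 64) ^ 45 := by norm_num
  have h2 : (2 : ℝ) ^ a ≤ (65 / 64) ^ (45 * a) := by
    rw [pow_mul]
    exact pow_le_pow_left₀ (by norm_num) h1 a
  have h3 : (1 : ℝ) ≤ (65 / 64) ^ (45 * a) * (1 / 2) ^ a := by
    calc (1 : ℝ) = 2 ^ a * (1 / 2) ^ a := by rw [← mul_pow]; norm_num
      _ ≤ _ := mul_le_mul_of_nonneg_right h2 (by positivity)
  linarith

private theorem it_card_rd (A : Set V) (H : Submodule (ZMod p) V) (x : V) :
    (Nat.card {h : H // x + (h : V) ∈ A} : ℝ) = rd A H x * (Nat.card H : ℝ) := by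
  unfold rd
  have : (0 : ℝ) < Nat.card H := by exact_mod_cast Nat.card_pos
  field_simp

private theorem it_pairs (H : Submodule (ZMod p) V) (A C : Set V) (x : V) (β : ℝ)
    (hβ : ∀ w ∈ C, w ∈ H → rd {v | v ∈ A ∧ v + w ∈ A} H x ≤ β) :
    (Nat.card {q : H × H // x + (q.1 : V) ∈ A ∧ x + (q.2 : V) ∈ A ∧
        (x + (q.1 : V)) - (x + (q.2 : V)) ∈ C} : ℝ) ≤
      β * rd C H 0 * (Nat.card H : ℝ) ^ 2 := by
  classical
  have _hF : Fintype {w : H // (0 : V) + (w : V) ∈ C} := Fintype.ofFinite _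
  let e : {q : H × H // x + (q.1 : V) ∈ A ∧ x + (q.2 : V) ∈ A ∧
        (x + (q.1 : V)) - (x + (q.2 : V)) ∈ C} →
      (Σ w : {w : H // (0 : V) + (w : V) ∈ C},
        {h : H // x + (h : V) ∈ {v | v ∈ A ∧ v + (w : V) ∈ A}}) :=
    fun q => ⟨⟨q.1.1 - q.1.2, by
          have := q.2.2.2
          rw [add_sub_add_left_eq_sub] at this
          rw [zero_add]
          exact this⟩, ⟨q.1.2, q.2.2.1, by
          have := q.2.1
          show x + (q.1.2 : V) + ((q.1.1 - q.1.2 : H) : V) ∈ A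
          rw [Submodule.coe_sub, add_assoc, add_sub_cancel]
          exact this⟩⟩
  have he : Function.Injective e := by
    intro q q' hqq
    have h1 := congrArg (fun s : (Σ w : {w : H // (0 : V) + (w : V) ∈ C},
        {h : H // x + (h : V) ∈ {v | v ∈ A ∧ v + (w : V) ∈ A}}) => (s.1.1, s.2.1)) hqq
    simp only [e, Prod.mk.injEq] at h1
    obtain ⟨h2, h3⟩ := h1
    apply Subtype.ext
    apply Prod.ext
    · rw [h3] at h2
      exact sub_left_injective h2
    · exact h3
  have hle := Nat.card_le_card_of_injective e he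
  rw [Nat.card_sigma] at hle
  refine le_trans (Nat.cast_le.2 hle) ?_
  push_cast
  have h1 : ∀ w : {w : H // (0 : V) + (w : V) ∈ C},
      (Nat.card {h : H // x + (h : V) ∈ {v | v ∈ A ∧ v + (w : V) ∈ A}} : ℝ) ≤
        β * (Nat.card H : ℝ) := by
    intro w
    rw [it_card_rd]
    refine mul_le_mul_of_nonneg_right ?_ (Nat.cast_nonneg _)
    refine hβ _ ?_ w.1.2
    have := w.2
    rwa [zero_add] at this
  calc _ ≤ ∑ w : {w : H // (0 : V) + (w : V) ∈ C}, β * (Nat.card H : ℝ) :=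
        Finset.sum_le_sum fun w _ => h1 w
    _ = (Nat.card {w : H // (0 : V) + (w : V) ∈ C} : ℝ) * (β * (Nat.card H : ℝ)) := by
        rw [Finset.sum_const, nsmul_eq_mul, Finset.card_univ, ← Nat.card_eq_fintype_card]
    _ = _ := by
        rw [it_card_rd]
        ring

private theorem it1_aux (H : Submodule (ZMod p) V) (A : Set V) (x : V) (a c : ℕ) (ha : 1 ≤ a)
    (n : ℕ) : ∀ i : ℕ, i + n = 45 * a → ∀ H1 ≤ H, ∀ x1 : V,
      finrank (ZMod p) H ≤ finrank (ZMod p) H1 + i * KK a c → x1 - x ∈ H →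
      (65 / 64 : ℝ) ^ i * (1 / 2) ^ a ≤ rd A H1 x1 → rd A H x ≤ rd A H1 x1 →
    ∃ H' ≤ H, finrank (ZMod p) H ≤ finrank (ZMod p) H' + 45 * a * KK a c ∧
      ∃ x', x' - x ∈ H ∧ rd A H x ≤ rd A H' x' ∧
        ∀ C : Set V, (1 / 2 : ℝ) ^ c ≤ rd C H' 0 →
          ∃ w ∈ C, w ∈ H' ∧ (1 / 2) * (rd A H' x') ^ 2 ≤ rd {v | v ∈ A ∧ v + w ∈ A} H' x' := by
  induction n with
  | zero =>
    intro i hi H1 hH1 x1 hr hx1 hd hA
    rw [add_zero] at hi
    by_cases h : ∀ C : Set V, (1 / 2 : ℝ) ^ c ≤ rd C H1 0 →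
          ∃ w ∈ C, w ∈ H1 ∧ (1 / 2) * (rd A H1 x1) ^ 2 ≤ rd {v | v ∈ A ∧ v + w ∈ A} H1 x1
    · exact ⟨H1, hH1, by rw [hi] at hr; exact hr, x1, hx1, hA, h⟩
    · exfalso
      push Not at h
      obtain ⟨C, hC, hw⟩ := h
      have hα : (1 / 2 : ℝ) ^ a ≤ rd A H1 x1 := by
        refine le_trans ?_ hd
        exact le_mul_of_one_le_left (by positivity) (one_le_pow₀ (by norm_num))
      obtain ⟨H2, hH2, -, h2⟩ := km_rel H1 A A C x1 x1 a c ha hα hα (by rwa [sub_self]) (by
        rw [sub_self]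
        have := it_pairs H1 A C x1 ((1 / 2) * (rd A H1 x1) ^ 2) (fun w hwC hwH => (hw w hwC hwH).le)
        calc _ ≤ _ := this
          _ = _ := by ring)
      have h3 : ∃ x', x' - x1 ∈ H1 ∧ (65 / 64) * rd A H1 x1 ≤ rd A H2 x' := h2.elim id id
      obtain ⟨x', -, h4⟩ := h3
      refine it_num a (rd_le_one A H2 x') (le_trans ?_ h4)
      rw [hi] at hd
      linarith
  | succ n ih =>
    intro i hi H1 hH1 x1 hr hx1 hd hA
    by_cases h : ∀ C : Set V, (1 / 2 : ℝ) ^ c ≤ rd C H1 0 →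
          ∃ w ∈ C, w ∈ H1 ∧ (1 / 2) * (rd A H1 x1) ^ 2 ≤ rd {v | v ∈ A ∧ v + w ∈ A} H1 x1
    · refine ⟨H1, hH1, hr.trans ?_, x1, hx1, hA, h⟩
      have : i * KK a c ≤ 45 * a * KK a c := Nat.mul_le_mul_right _ (by omega)
      omega
    · push Not at h
      obtain ⟨C, hC, hw⟩ := h
      have hα : (1 / 2 : ℝ) ^ a ≤ rd A H1 x1 := by
        refine le_trans ?_ hd
        exact le_mul_of_one_le_left (by positivity) (one_le_pow₀ (by norm_num))
      obtain ⟨H2, hH2, hr2, h2⟩ := km_rel H1 A A C x1 x1 a c ha hα hα (by rwa [sub_self]) (by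
        rw [sub_self]
        have := it_pairs H1 A C x1 ((1 / 2) * (rd A H1 x1) ^ 2) (fun w hwC hwH => (hw w hwC hwH).le)
        calc _ ≤ _ := this
          _ = _ := by ring)
      have h3 : ∃ x', x' - x1 ∈ H1 ∧ (65 / 64) * rd A H1 x1 ≤ rd A H2 x' := h2.elim id id
      obtain ⟨x', hx', h4⟩ := h3
      have h0 : 0 ≤ rd A H1 x1 := rd_nonneg A H1 x1
      refine ih (i + 1) (by omega) H2 (hH2.trans hH1) x' ?_ ?_ ?_ ?_
      · rw [add_mul, one_mul]
        omega
      · have := H.add_mem (hH1 hx') hx1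
        rwa [sub_add_sub_cancel] at this
      · refine le_trans ?_ h4
        rw [pow_succ]
        linarith
      · linarith

theorem it1 (H : Submodule (ZMod p) V) (A : Set V) (x : V) (a c : ℕ) (ha : 1 ≤ a)
    (hA : (1 / 2 : ℝ) ^ a ≤ rd A H x) :
    ∃ H' ≤ H, finrank (ZMod p) H ≤ finrank (ZMod p) H' + 45 * a * KK a c ∧
      ∃ x', x' - x ∈ H ∧ rd A H x ≤ rd A H' x' ∧
        ∀ C : Set V, (1 / 2 : ℝ) ^ c ≤ rd C H' 0 →
          ∃ w ∈ C, w ∈ H' ∧ (1 / 2) * (rd A H' x') ^ 2 ≤ rd {v | v ∈ A ∧ v + w ∈ A} H' x' :=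
  it1_aux H A x a c ha (45 * a) 0 (by omega) H le_rfl x (by omega) (by
    rw [sub_self]
    exact H.zero_mem) (by rw [pow_zero, one_mul]; exact hA) le_rfl

private theorem it2_aux (H : Submodule (ZMod p) V) (A B : Set V) (x y : V) (a c : ℕ) (ha : 1 ≤ a)
    (n : ℕ) : ∀ i l : ℕ, i + l + n = 90 * a → i ≤ 45 * a → l ≤ 45 * a → ∀ H1 ≤ H, ∀ x1 y1 : V,
      finrank (ZMod p) H ≤ finrank (ZMod p) H1 + (i + l) * KK a c → x1 - x ∈ H → y1 - y ∈ H →
      (65 / 64 : ℝ) ^ i * (1 / 2) ^ a ≤ rd A H1 x1 →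
      (65 / 64 : ℝ) ^ l * (1 / 2) ^ a ≤ rd B H1 y1 →
    ∃ H' ≤ H, finrank (ZMod p) H ≤ finrank (ZMod p) H' + 90 * a * KK a c ∧
      ∃ x' y', x' - x ∈ H ∧ y' - y ∈ H ∧
        ∀ C : Set V, (1 / 2 : ℝ) ^ c ≤ rd C H' (x' - y') →
          ∃ v ∈ A, ∃ w ∈ B, v - x' ∈ H' ∧ w - y' ∈ H' ∧ v - w ∈ C := by
  induction n with
  | zero =>
    intro i l hil hi hl H1 hH1 x1 y1 hr hx1 hy1 hdA hdB
    have hi' : i = 45 * a := by omega
    have hl' : l = 45 * a := by omega
    by_cases h : ∀ C : Set V, (1 / 2 : ℝ) ^ c ≤ rd C H1 (x1 - y1) →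
          ∃ v ∈ A, ∃ w ∈ B, v - x1 ∈ H1 ∧ w - y1 ∈ H1 ∧ v - w ∈ C
    · refine ⟨H1, hH1, ?_, x1, y1, hx1, hy1, h⟩
      have : (i + l) * KK a c ≤ 90 * a * KK a c := Nat.mul_le_mul_right _ (by omega)
      omega
    · exfalso
      push Not at h
      obtain ⟨C, hC, hw⟩ := h
      have hα : (1 / 2 : ℝ) ^ a ≤ rd A H1 x1 := by
        refine le_trans ?_ hdA
        exact le_mul_of_one_le_left (by positivity) (one_le_pow₀ (by norm_num))
      have hβ : (1 / 2 : ℝ) ^ a ≤ rd B H1 y1 := by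
        refine le_trans ?_ hdB
        exact le_mul_of_one_le_left (by positivity) (one_le_pow₀ (by norm_num))
      obtain ⟨H2, hH2, -, h2⟩ := km_rel H1 A B C x1 y1 a c ha hα hβ hC (by
        have he : IsEmpty {q : H1 × H1 // x1 + (q.1 : V) ∈ A ∧ y1 + (q.2 : V) ∈ B ∧
            (x1 + (q.1 : V)) - (y1 + (q.2 : V)) ∈ C} := by
          refine ⟨fun q => ?_⟩
          refine hw _ q.2.1 _ q.2.2.1 ?_ ?_ q.2.2.2
          · rw [add_sub_cancel_left]
            exact q.1.1.2
          · rw [add_sub_cancel_left]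
            exact q.1.2.2
        rw [Nat.card_of_isEmpty, Nat.cast_zero]
        have e1 := rd_nonneg A H1 x1
        have e2 := rd_nonneg B H1 y1
        have e3 := rd_nonneg C H1 (x1 - y1)
        positivity)
      rcases h2 with ⟨x', -, h4⟩ | ⟨y', -, h4⟩
      · refine it_num a (rd_le_one A H2 x') (le_trans ?_ h4)
        rw [hi'] at hdA
        linarith
      · refine it_num a (rd_le_one B H2 y') (le_trans ?_ h4)
        rw [hl'] at hdB
        linarith
  | succ n ih =>
    intro i l hil hi hl H1 hH1 x1 y1 hr hx1 hy1 hdA hdB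
    by_cases h : ∀ C : Set V, (1 / 2 : ℝ) ^ c ≤ rd C H1 (x1 - y1) →
          ∃ v ∈ A, ∃ w ∈ B, v - x1 ∈ H1 ∧ w - y1 ∈ H1 ∧ v - w ∈ C
    · refine ⟨H1, hH1, ?_, x1, y1, hx1, hy1, h⟩
      have : (i + l) * KK a c ≤ 90 * a * KK a c := Nat.mul_le_mul_right _ (by omega)
      omega
    · push Not at h
      obtain ⟨C, hC, hw⟩ := h
      have hα : (1 / 2 : ℝ) ^ a ≤ rd A H1 x1 := by
        refine le_trans ?_ hdA
        exact le_mul_of_one_le_left (by positivity) (one_le_pow₀ (by norm_num))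
      have hβ : (1 / 2 : ℝ) ^ a ≤ rd B H1 y1 := by
        refine le_trans ?_ hdB
        exact le_mul_of_one_le_left (by positivity) (one_le_pow₀ (by norm_num))
      obtain ⟨H2, hH2, hr2, h2⟩ := km_rel H1 A B C x1 y1 a c ha hα hβ hC (by
        have he : IsEmpty {q : H1 × H1 // x1 + (q.1 : V) ∈ A ∧ y1 + (q.2 : V) ∈ B ∧
            (x1 + (q.1 : V)) - (y1 + (q.2 : V)) ∈ C} := by
          refine ⟨fun q => ?_⟩
          refine hw _ q.2.1 _ q.2.2.1 ?_ ?_ q.2.2.2
          · rw [add_sub_cancel_left]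
            exact q.1.1.2
          · rw [add_sub_cancel_left]
            exact q.1.2.2
        rw [Nat.card_of_isEmpty, Nat.cast_zero]
        have e1 := rd_nonneg A H1 x1
        have e2 := rd_nonneg B H1 y1
        have e3 := rd_nonneg C H1 (x1 - y1)
        positivity)
      rcases h2 with ⟨x', hx', h4⟩ | ⟨y', hy', h4⟩
      · obtain ⟨y', hy', h5⟩ := rd_avg B hH2 y1
        by_cases hii : i = 45 * a
        · exfalso
          refine it_num a (rd_le_one A H2 x') (le_trans ?_ h4)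
          rw [hii] at hdA
          linarith
        · refine ih (i + 1) l (by omega) (by omega) hl H2 (hH2.trans hH1) x' y' ?_ ?_ ?_ ?_
            (hdB.trans h5)
          · have : (i + 1 + l) * KK a c = (i + l) * KK a c + KK a c := by ring
            omega
          · have := H.add_mem (hH1 hx') hx1
            rwa [sub_add_sub_cancel] at this
          · have := H.add_mem (hH1 hy') hy1
            rwa [sub_add_sub_cancel] at this
          · refine le_trans ?_ h4
            rw [pow_succ]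
            linarith
      · obtain ⟨x', hx', h5⟩ := rd_avg A hH2 x1
        by_cases hll : l = 45 * a
        · exfalso
          refine it_num a (rd_le_one B H2 y') (le_trans ?_ h4)
          rw [hll] at hdB
          linarith
        · refine ih i (l + 1) (by omega) hi (by omega) H2 (hH2.trans hH1) x' y' ?_ ?_ ?_
            (hdA.trans h5) ?_
          · have : (i + (l + 1)) * KK a c = (i + l) * KK a c + KK a c := by ring
            omega
          · have := H.add_mem (hH1 hx') hx1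
            rwa [sub_add_sub_cancel] at this
          · have := H.add_mem (hH1 hy') hy1
            rwa [sub_add_sub_cancel] at this
          · refine le_trans ?_ h4
            rw [pow_succ]
            linarith

theorem it2 (H : Submodule (ZMod p) V) (A B : Set V) (x y : V) (a c : ℕ) (ha : 1 ≤ a)
    (hA : (1 / 2 : ℝ) ^ a ≤ rd A H x) (hB : (1 / 2 : ℝ) ^ a ≤ rd B H y) :
    ∃ H' ≤ H, finrank (ZMod p) H ≤ finrank (ZMod p) H' + 90 * a * KK a c ∧
      ∃ x' y', x' - x ∈ H ∧ y' - y ∈ H ∧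
        ∀ C : Set V, (1 / 2 : ℝ) ^ c ≤ rd C H' (x' - y') →
          ∃ v ∈ A, ∃ w ∈ B, v - x' ∈ H' ∧ w - y' ∈ H' ∧ v - w ∈ C :=
  it2_aux H A B x y a c ha (90 * a) 0 0 (by omega) (by omega) (by omega) H le_rfl x y (by omega)
    (by rw [sub_self]; exact H.zero_mem) (by rw [sub_self]; exact H.zero_mem)
    (by rw [pow_zero, one_mul]; exact hA) (by rw [pow_zero, one_mul]; exact hB)

theorem it1_disj (H : Submodule (ZMod p) V) (A D : Set V) (x : V) (a c : ℕ) (ha : 1 ≤ a)
    (hA : (1 / 2 : ℝ) ^ a ≤ rd A H x)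
    (hD : ∀ v w, v - x ∈ H → w ∈ H → v ∈ A → v + w ∈ A → w ∉ D) :
    ∃ H' ≤ H, finrank (ZMod p) H ≤ finrank (ZMod p) H' + 45 * a * KK a c ∧
      (∃ x', x' - x ∈ H ∧ rd A H x ≤ rd A H' x') ∧ rd D H' 0 < (1 / 2 : ℝ) ^ c := by
  obtain ⟨H', hH', hr, x', hx', hd, hC⟩ := it1 H A x a c ha hA
  refine ⟨H', hH', hr, ⟨x', hx', hd⟩, ?_⟩
  by_contra hcon
  obtain ⟨w, hwD, hwH, hw⟩ := hC D (not_lt.1 hcon)
  have hα : 0 < rd A H' x' := lt_of_lt_of_le (by positivity) (hA.trans hd)
  obtain ⟨v, ⟨hvA, hvA'⟩, hvx⟩ := exists_of_rd_pos (lt_of_lt_of_le (by positivity) hw)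
  refine hD v w ?_ (hH' hwH) hvA hvA' hwD
  have := H.add_mem (hH' hvx) hx'
  rwa [sub_add_sub_cancel] at this

end Tools

end EHProj
end
end

section

set_option autoImplicit false

/-! # T-4: avoiding a sparse set -/

namespace EHProj

open scoped LinearAlgebra.Projectivization
open Module

section Tools
variable {p : ℕ} [Fact p.Prime] {V : Type} [AddCommGroup V] [Module (ZMod p) V] [Finite V]

lemma avoid_card (H : Submodule (ZMod p) V) : Nat.card H = p ^ finrank (ZMod p) H := by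
  rw [Module.natCard_eq_pow_finrank (K := ZMod p), Nat.card_zmod]

lemma avoid_step (E : Set V) (hE : ∀ c : ZMod p, ∀ v, c ≠ 0 → v ∈ E → c • v ∈ E)
    (H F : Submodule (ZMod p) V) (hFH : F ≤ H) (hF : ∀ v ∈ F, v ≠ 0 → v ∉ E)
    (hcard : (F : Set V).ncard * (1 + {v : V | v ∈ H ∧ v ∈ E}.ncard) < (H : Set V).ncard) :
    ∃ F' ≤ H, finrank (ZMod p) F' = finrank (ZMod p) F + 1 ∧ ∀ v ∈ F', v ≠ 0 → v ∉ E := by
  have hex : ∃ v ∈ H, v ∉ F ∧ ∀ w ∈ F, v + w ∉ E := by
    by_contra hcon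
    push Not at hcon
    have hsub : (H : Set V) ⊆ (F : Set V) ∪
        (fun q : V × V => q.1 - q.2) '' ({v : V | v ∈ H ∧ v ∈ E} ×ˢ (F : Set V)) := by
      intro v hv
      by_cases hvF : v ∈ F
      · exact Or.inl hvF
      · obtain ⟨w, hw, hvw⟩ := hcon v hv hvF
        refine Or.inr ⟨(v + w, w), ⟨⟨H.add_mem hv (hFH hw), hvw⟩, hw⟩, ?_⟩
        simp
    have h1 := Set.ncard_le_ncard hsub (Set.toFinite _)
    have h2 := Set.ncard_union_le (F : Set V)
      ((fun q : V × V => q.1 - q.2) '' ({v : V | v ∈ H ∧ v ∈ E} ×ˢ (F : Set V)))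
    have h3 := Set.ncard_image_le (f := fun q : V × V => q.1 - q.2)
      (Set.toFinite ({v : V | v ∈ H ∧ v ∈ E} ×ˢ (F : Set V)))
    rw [Set.ncard_prod] at h3
    have h4 : (F : Set V).ncard * (1 + {v : V | v ∈ H ∧ v ∈ E}.ncard) =
        (F : Set V).ncard + {v : V | v ∈ H ∧ v ∈ E}.ncard * (F : Set V).ncard := by ring
    omega
  obtain ⟨v, hvH, hvF, hv⟩ := hex
  have hv0 : v ≠ 0 := by
    rintro rfl
    exact hvF F.zero_mem
  refine ⟨F ⊔ Submodule.span (ZMod p) {v}, ?_, ?_, ?_⟩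
  · refine sup_le hFH ?_
    rw [Submodule.span_singleton_le_iff_mem]
    exact hvH
  · have h1 := Submodule.finrank_sup_add_finrank_inf_eq F (Submodule.span (ZMod p) {v})
    have h2 : F ⊓ Submodule.span (ZMod p) {v} = ⊥ :=
      ((Submodule.disjoint_span_singleton' hv0).2 hvF).eq_bot
    rw [h2, finrank_bot, finrank_span_singleton hv0] at h1
    omega
  · intro u hu hu0 huE
    obtain ⟨f, hf, s, hs, rfl⟩ := Submodule.mem_sup.1 hu
    obtain ⟨c, rfl⟩ := Submodule.mem_span_singleton.1 hs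
    by_cases hc : c = 0
    · subst hc
      rw [zero_smul, add_zero] at hu0 huE
      exact hF f hf hu0 huE
    · have h1 := hE c⁻¹ _ (inv_ne_zero hc) huE
      rw [smul_add, smul_smul, inv_mul_cancel₀ hc, one_smul, add_comm] at h1
      exact hv _ (F.smul_mem c⁻¹ hf) h1

theorem avoid (E : Set V) (hE : ∀ c : ZMod p, ∀ v, c ≠ 0 → v ∈ E → c • v ∈ E)
    (H : Submodule (ZMod p) V) (D : ℕ) (hD : D ≤ finrank (ZMod p) H)
    (h : rd E H 0 < (1 / (p : ℝ)) ^ D) :
    ∃ F ≤ H, finrank (ZMod p) F = D ∧ ∀ v ∈ F, v ≠ 0 → v ∉ E := by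
  have hp : p.Prime := Fact.out
  set e : ℕ := {v : V | v ∈ H ∧ v ∈ E}.ncard with he
  have hHc : (H : Set V).ncard = p ^ finrank (ZMod p) H := by
    rw [← Nat.card_coe_set_eq]
    exact avoid_card H
  have hcE : Nat.card {h : H // (0 : V) + (h : V) ∈ E} = e := by
    rw [he, ← Nat.card_coe_set_eq]
    refine Nat.card_congr ⟨fun x => ⟨(x.1 : V), x.1.2, by simpa using x.2⟩,
      fun y => ⟨⟨y.1, y.2.1⟩, by simpa using y.2.2⟩, fun x => ?_, fun y => ?_⟩
    · rfl
    · rfl
  have heD : e * p ^ D < (H : Set V).ncard := by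
    have hpos : (0 : ℝ) < (p : ℝ) ^ D := by
      have := hp.pos
      positivity
    have hH0 : (0 : ℝ) < (Nat.card H : ℝ) := by
      rw [avoid_card]
      have := hp.pos
      positivity
    have h1 : rd E H 0 = (e : ℝ) / (Nat.card H : ℝ) := by
      rw [rd, hcE]
    rw [h1, one_div, inv_pow, div_lt_iff₀ hH0, ← div_eq_inv_mul, lt_div_iff₀ hpos] at h
    rw [hHc, ← avoid_card H]
    exact_mod_cast h
  have hmain : ∀ i ≤ D, ∃ F ≤ H, finrank (ZMod p) F = i ∧ ∀ v ∈ F, v ≠ 0 → v ∉ E := by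
    intro i
    induction i with
    | zero =>
      intro _
      refine ⟨⊥, bot_le, finrank_bot _ _, ?_⟩
      intro v hv hv0
      exact absurd ((Submodule.mem_bot _).1 hv) hv0
    | succ i ih =>
      intro hi
      obtain ⟨F, hFH, hFi, hF⟩ := ih (by omega)
      obtain ⟨F', h1, h2, h3⟩ := avoid_step E hE H F hFH hF (by
        have hFc : (F : Set V).ncard = p ^ i := by
          rw [← Nat.card_coe_set_eq, ← hFi]
          exact avoid_card F
        rw [hFc, ← he]
        rcases Nat.eq_zero_or_pos e with h0 | h0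
        · rw [h0, add_zero, mul_one, hHc]
          exact Nat.pow_lt_pow_right hp.one_lt (by omega)
        · refine lt_of_le_of_lt ?_ heD
          calc p ^ i * (1 + e) ≤ p ^ i * (p * e) := by
                refine Nat.mul_le_mul_left _ ?_
                have := Nat.mul_le_mul_right e hp.two_le
                omega
            _ = e * p ^ (i + 1) := by ring
            _ ≤ e * p ^ D := Nat.mul_le_mul_left _ (Nat.pow_le_pow_right hp.pos hi))
      exact ⟨F', h1, by rw [h2, hFi], h3⟩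
  exact hmain D le_rfl

theorem density_black (X : Set V) (hXs : ∀ c : ZMod p, ∀ v, c ≠ 0 → v ∈ X → c • v ∈ X)
    (H : Submodule (ZMod p) V) (t : ℕ) (ht : t ≤ finrank (ZMod p) H) (hw : ¬ HasWhite X H t) :
    (1 / (p : ℝ)) ^ t ≤ rd X H 0 := by
  by_contra hcon
  push Not at hcon
  obtain ⟨F, h1, h2, h3⟩ := avoid X hXs H t ht hcon
  exact hw ⟨F, h1, h2, h3⟩

theorem density_white (X : Set V) (hXs : ∀ c : ZMod p, ∀ v, c ≠ 0 → v ∈ X → c • v ∈ X)
    (H : Submodule (ZMod p) V) (t : ℕ) (ht : t ≤ finrank (ZMod p) H) (hb : ¬ HasBlack X H t) :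
    (1 / (p : ℝ)) ^ t ≤ rd {v | v ≠ 0 ∧ v ∉ X} H 0 := by
  by_contra hcon
  push Not at hcon
  have hE : ∀ c : ZMod p, ∀ v : V, c ≠ 0 → v ∈ {v : V | v ≠ 0 ∧ v ∉ X} →
      c • v ∈ {v : V | v ≠ 0 ∧ v ∉ X} := by
    intro c v hc hv
    refine ⟨smul_ne_zero hc hv.1, fun hcv => hv.2 ?_⟩
    have h1 := hXs c⁻¹ _ (inv_ne_zero hc) hcv
    rwa [smul_smul, inv_mul_cancel₀ hc, one_smul] at h1
  obtain ⟨F, h1, h2, h3⟩ := avoid {v : V | v ≠ 0 ∧ v ∉ X} hE H t ht hcon
  refine hb ⟨F, h1, h2, fun w hw hw0 => ?_⟩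
  by_contra hwX
  exact h3 w hw hw0 ⟨hw0, hwX⟩

end Tools

end EHProj
end
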