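import Mathlib

/-!
# Erdős–Hajnal property for point sets of projective geometries: definitions

Everything used in the final statement is at the top; the rest are tools.
-/

namespace EHProj

open scoped LinearAlgebra.Projectivization

noncomputable section

/-- `X ⊆ PG(n-1,K)` contains `H ⊆ PG(k-1,K)` as an induced restriction: some injective linear map
`L` satisfies `L x ∈ X ↔ x ∈ H` for all points `x`. -/
def ContainsInduced (K : Type) [Field K] {k n : ℕ}
    (H : Set (ℙ K (Fin k → K))) (X : Set (ℙ K (Fin n → K))) : Prop :=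
  ∃ (L : (Fin k → K) →ₗ[K] (Fin n → K)) (hL : Function.Injective L),
    ∀ x : ℙ K (Fin k → K), Projectivization.map L hL x ∈ X ↔ x ∈ H

/-- The Erdős–Hajnal property of `H ⊆ PG(k-1,K)`: there are constants `δ, C > 0` such that for
every `n ≥ 1` and every `X ⊆ PG(n-1,K)` that does not contain `H` as an induced restriction there
is a linear subspace `U` with `dim U > C n ^ δ` all of whose points are in `X`, or none of whose
points are in `X`. -/
def EHProperty (K : Type) [Field K] (k : ℕ) (H : Set (ℙ K (Fin k → K))) : Prop :=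
  ∃ δ : ℝ, 0 < δ ∧ ∃ C : ℝ, 0 < C ∧ ∀ n : ℕ, 1 ≤ n → ∀ X : Set (ℙ K (Fin n → K)),
    ¬ ContainsInduced K H X →
    ∃ U : Submodule K (Fin n → K), C * (n : ℝ) ^ δ < (Module.finrank K U : ℝ) ∧
      ((∀ x : ℙ K (Fin n → K), x.submodule ≤ U → x ∈ X) ∨
       (∀ x : ℙ K (Fin n → K), x.submodule ≤ U → x ∉ X))

/-- `H` is (the point set of) a line of `PG(k-1,K)`. -/
def IsLine (K : Type) [Field K] {k : ℕ} (H : Set (ℙ K (Fin k → K))) : Prop :=
  ∃ U : Submodule K (Fin k → K), Module.finrank K U = 2 ∧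
    ∀ x : ℙ K (Fin k → K), x ∈ H ↔ x.submodule ≤ U

/-! ### The codimension bound of the Kelley–Meka increment -/

/-- an even number `≥ max c 54` -/
def kk (c : ℕ) : ℕ := 2 * max ((c + 1) / 2) 27
def NN (c : ℕ) : ℕ := 4 * (kk c + 1)
def aa (a c : ℕ) : ℕ := NN c * a + 2
/-- an even number `≥ aa a c` -/
def rr (a c : ℕ) : ℕ := 2 * ((aa a c + 1) / 2)
def jj (a c : ℕ) : ℕ := (aa a c + 9) / 2
def ee (a c : ℕ) : ℕ := 1024 * jj a c
def mm (a c : ℕ) : ℕ := 6 * rr a c * (ee a c) ^ 2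
/-- codimension lost in one density increment -/
def KK (a c : ℕ) : ℕ := 6 * (aa a c * mm a c + 1)

/-! ### Averages, convolutions -/

def avg {α : Type} [Fintype α] (f : α → ℝ) : ℝ := (∑ x, f x) / (Fintype.card α : ℝ)

def cnv {G : Type} [AddCommGroup G] [Fintype G] (g h : G → ℝ) (x : G) : ℝ :=
  avg fun y => g (x + y) * h y

open Classical in
/-- normalised indicator function -/
def mu {G : Type} [Fintype G] (A : Finset G) (x : G) : ℝ :=
  if x ∈ A then (Fintype.card G : ℝ) / (A.card : ℝ) else 0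

/-- average of `f` over the translate `u + A` -/
def sm {G : Type} [AddCommGroup G] (A : Finset G) (f : G → ℝ) (u : G) : ℝ :=
  (∑ y ∈ A, f (u + y)) / (A.card : ℝ)

/-- the popular differences of `A` -/
def pop {G : Type} [AddCommGroup G] [Fintype G] (A : Finset G) : Set G :=
  {x | 33 / 32 ≤ cnv (mu A) (mu A) x}

/-! ### Relative densities -/

section rdDefs
variable {p : ℕ} [Fact p.Prime] {V : Type} [AddCommGroup V] [Module (ZMod p) V]

/-- relative density of a set `A` in the coset `x + H` -/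
def rd (A : Set V) (H : Submodule (ZMod p) V) (x : V) : ℝ :=
  (Nat.card {h : H // x + (h : V) ∈ A} : ℝ) / (Nat.card H : ℝ)

/-- `H` contains a `t`-dimensional subspace all of whose nonzero vectors are in `X` -/
def HasBlack (X : Set V) (H : Submodule (ZMod p) V) (t : ℕ) : Prop :=
  ∃ W : Submodule (ZMod p) V, W ≤ H ∧ Module.finrank (ZMod p) W = t ∧ ∀ w ∈ W, w ≠ 0 → w ∈ X

/-- `H` contains a `t`-dimensional subspace none of whose nonzero vectors is in `X` -/
def HasWhite (X : Set V) (H : Submodule (ZMod p) V) (t : ℕ) : Prop :=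
  ∃ W : Submodule (ZMod p) V, W ≤ H ∧ Module.finrank (ZMod p) W = t ∧ ∀ w ∈ W, w ≠ 0 → w ∉ X

/-- the set of `v` whose coset of `U` is contained in `X` -/
def SU (X : Set V) (U : Submodule (ZMod p) V) : Set V := {v | ∀ u ∈ U, v + u ∈ X}

/-- the set of `v` whose coset of `U` meets `X` -/
def BU (X : Set V) (U : Submodule (ZMod p) V) : Set V := {v | ∃ u ∈ U, v + u ∈ X}

variable (p) in
/-- the two closure rules used by the growth argument of Part 2 -/
def GrowRules (X : Set V) : Prop :=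
  (∀ U : Submodule (ZMod p) V, (∀ u ∈ U, u ≠ 0 → u ∈ X) → ∀ v w, v ∈ SU X U → w ∈ SU X U →
    v - w ∉ U → v - w ∈ BU X U → v - w ∈ SU X U) ∧
  (∀ U : Submodule (ZMod p) V, (∀ u ∈ U, u ≠ 0 → u ∈ X) → ∀ z v, z ∈ SU X U → v ∈ SU X U →
    v + z ∈ SU X U → v - z ∉ U → v ∈ SU X (U ⊔ Submodule.span (ZMod p) {z}))

end rdDefs

/-! ### Small configurations -/

section confDefs
variable {V : Type} [AddCommGroup V]

open Classical in
def ind (X : Set V) (v : V) : ℕ := if v ∈ X then 1 else 0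

/-- number of points of the plane `⟨x,y,w⟩` in `X` (characteristic two) -/
def cnt3 (X : Set V) (x y w : V) : ℕ :=
  ind X x + ind X y + ind X w + ind X (x + y) + ind X (x + w) + ind X (y + w) + ind X (x + y + w)

/-- `x,y,w` are linearly independent over the field with two elements -/
def Ind3 (x y w : V) : Prop := x ≠ 0 ∧ y ≠ 0 ∧ x ≠ y ∧ w ≠ 0 ∧ w ≠ x ∧ w ≠ y ∧ w ≠ x + y

def SixFree (X : Set V) : Prop := ∀ x y w : V, Ind3 x y w → cnt3 X x y w ≠ 6
def FiveFree (X : Set V) : Prop := ∀ x y w : V, Ind3 x y w → cnt3 X x y w ≠ 5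
def LineFree (X : Set V) : Prop := ∀ x y w : V, Ind3 x y w → x ∈ X → y ∈ X → x + y ∈ X →
  w ∈ X ∨ w + x ∈ X ∨ w + y ∈ X ∨ w + x + y ∈ X

/-- number of points of the line `⟨x,y⟩` in `X` (characteristic three) -/
def cnt2 (X : Set V) (x y : V) : ℕ := ind X x + ind X y + ind X (x + y) + ind X (x - y)
def ThreeFree (X : Set V) : Prop :=
  ∀ x y : V, x ≠ 0 → y ≠ 0 → x ≠ y → x ≠ -y → cnt2 X x y ≠ 3

end confDefs

/-! ### Polynomially bounded functions -/

def PolyBdd (f : ℕ → ℕ) : Prop := ∃ C d : ℕ, ∀ t, f t ≤ C * (t + 1) ^ d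

/-- `R(t)` of the Schur–Ramsey lemma -/
def RR (t : ℕ) : ℕ := 45 * t * KK t t + t

/-- cost of one growth step (Part 2) -/
def stepN (t : ℕ) : ℕ :=
  45 * (4 * t + 5) * KK (4 * t + 5) (2 * t + 2) + 45 * (2 * t + 1) * KK (2 * t + 1) (2 * t + 2) + 1
def growN (t : ℕ) : ℕ := t * stepN t + 4 * t + 10

/-- parameters of Part 3 (five-free) -/
def fg (t : ℕ) : ℕ := 2 * t + 4
def fk (t : ℕ) : ℕ := 90 * KK 2 (fg t)
def fc0 (t : ℕ) : ℕ := fg t + fk t
def fkB (t : ℕ) : ℕ := 45 * (2 * t + 1) * KK (2 * t + 1) (fc0 t)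
def fiveN (t : ℕ) : ℕ := 45 * t * KK t t + fkB t + fk t + 2 * t + 5

/-- parameters of Part 4 (line-free) -/
def lD (t : ℕ) : ℕ := 2 * RR t + 2 * t + 2
def lg (t : ℕ) : ℕ := lD t + 4
def lk2 (t : ℕ) : ℕ := 90 * lg t * KK (lg t) 3
def lc1 (t : ℕ) : ℕ := lk2 t + lD t + 9
def lkc (t : ℕ) : ℕ := 45 * (2 * t + 1) * KK (2 * t + 1) (lc1 t)
def lcb (t : ℕ) : ℕ := lc1 t + lkc t
def lkb (t : ℕ) : ℕ := 45 * (2 * t + 1) * KK (2 * t + 1) (lcb t)
def lca (t : ℕ) : ℕ := lcb t + lkb t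
def lka (t : ℕ) : ℕ := 45 * (2 * t + 1) * KK (2 * t + 1) (lca t)
def lineN (t : ℕ) : ℕ :=
  45 * t * KK t (RR t + 1) + lka t + lkb t + lkc t + lk2 t + lD t + RR t + 10

/-- the set of vectors representing the points of `H` -/
def vec {p : ℕ} [Fact p.Prime] {k : ℕ} (H : Set (ℙ (ZMod p) (Fin k → ZMod p))) :
    Set (Fin k → ZMod p) :=
  {v | ∃ hv : v ≠ 0, Projectivization.mk (ZMod p) v hv ∈ H}

end

end EHProj
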