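import Pool.Agent.Lib.MP_f4f4db_co.Defs
import Pool.Agent.Lib.MP_f4f4db_co.Avoid

section

/-! # From the polynomial main theorem to the Erdős–Hajnal property (job E-1) -/

namespace EHProj

open scoped LinearAlgebra.Projectivization
open Module

/-- the vectors representing the points of `X` -/
private lemma ehofpoly_mem_vec {p : ℕ} [Fact p.Prime] {k : ℕ}
    (X : Set (ℙ (ZMod p) (Fin k → ZMod p))) {v : Fin k → ZMod p} (hv : v ≠ 0) :
    v ∈ vec X ↔ Projectivization.mk (ZMod p) v hv ∈ X :=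
  ⟨fun ⟨_, h⟩ => h, fun h => ⟨hv, h⟩⟩

private lemma ehofpoly_smul {p : ℕ} [Fact p.Prime] {k : ℕ}
    (X : Set (ℙ (ZMod p) (Fin k → ZMod p))) (c : ZMod p) (v : Fin k → ZMod p) (hc : c ≠ 0)
    (h : v ∈ vec X) : c • v ∈ vec X := by
  obtain ⟨hv, hX⟩ := h
  refine ⟨smul_ne_zero hc hv, ?_⟩
  have : Projectivization.mk (ZMod p) (c • v) (smul_ne_zero hc hv) =
      Projectivization.mk (ZMod p) v hv := by
    rw [Projectivization.mk_eq_mk_iff']
    exact ⟨c, rfl⟩
  rw [this]; exact hX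

private lemma ehofpoly_sub {p : ℕ} [Fact p.Prime] {k : ℕ} {W : Submodule (ZMod p) (Fin k → ZMod p)}
    {v : Fin k → ZMod p} (hv : v ≠ 0) (h : (Projectivization.mk (ZMod p) v hv).submodule ≤ W) :
    v ∈ W := by
  rw [Projectivization.submodule_mk] at h
  exact h (Submodule.mem_span_singleton_self v)

private lemma ehofpoly_num (C0 d0 : ℕ) (n t : ℕ) (hn : 1 ≤ n)
    (x : ℝ) (hx : x = 1 / (4 * ((C0 : ℝ) + 1)) * (n : ℝ) ^ ((1 : ℝ) / ((d0 : ℝ) + 1)))
    (hx1 : 1 ≤ x) (ht : t = ⌊x⌋₊ + 1) : C0 * (t + 1) ^ d0 ≤ n := by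
  have hn0 : (0 : ℝ) < n := by exact_mod_cast hn
  have ht1 : ((t : ℝ) + 1) ≤ 3 * x := by
    have : (⌊x⌋₊ : ℝ) ≤ x := Nat.floor_le (by linarith)
    rw [ht]; push_cast; linarith
  have hC : (0 : ℝ) < (C0 : ℝ) + 1 := by positivity
  set y : ℝ := (n : ℝ) ^ ((1 : ℝ) / ((d0 : ℝ) + 1)) with hy
  have hy0 : 0 < y := Real.rpow_pos_of_pos hn0 _
  have hyn : y ^ (d0 + 1) = n := by
    rw [hy, ← Real.rpow_natCast, ← Real.rpow_mul hn0.le]
    push_cast
    rw [one_div, inv_mul_cancel₀ (by positivity), Real.rpow_one]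
  have ht2 : ((t : ℝ) + 1) ≤ y / ((C0 : ℝ) + 1) := by
    refine ht1.trans ?_
    rw [hx, le_div_iff₀ hC]
    have : 3 * (1 / (4 * ((C0 : ℝ) + 1)) * y) * ((C0 : ℝ) + 1) = 3 / 4 * y := by
      field_simp
    rw [this]; linarith
  have h1 : ((C0 : ℝ) + 1) * ((t : ℝ) + 1) ^ (d0 + 1) ≤ n := by
    have h2 : ((t : ℝ) + 1) ^ (d0 + 1) ≤ (y / ((C0 : ℝ) + 1)) ^ (d0 + 1) :=
      pow_le_pow_left₀ (by positivity) ht2 _
    calc ((C0 : ℝ) + 1) * ((t : ℝ) + 1) ^ (d0 + 1)
        ≤ ((C0 : ℝ) + 1) * (y / ((C0 : ℝ) + 1)) ^ (d0 + 1) :=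
          mul_le_mul_of_nonneg_left h2 hC.le
      _ = y ^ (d0 + 1) / ((C0 : ℝ) + 1) ^ d0 := by
          rw [div_pow, pow_succ ((C0 : ℝ) + 1) d0]; field_simp
      _ ≤ y ^ (d0 + 1) / 1 := by
          apply div_le_div_of_nonneg_left (by positivity) one_pos
          exact one_le_pow₀ (by linarith [(Nat.cast_nonneg C0 : (0 : ℝ) ≤ C0)])
      _ = n := by rw [div_one, hyn]
  have h3 : (C0 + 1) * (t + 1) ^ (d0 + 1) ≤ n := by exact_mod_cast h1
  calc C0 * (t + 1) ^ d0 ≤ (C0 + 1) * (t + 1) ^ (d0 + 1) :=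
        Nat.mul_le_mul (by omega) (Nat.pow_le_pow_right (by omega) (by omega))
    _ ≤ n := h3

theorem eh_of_poly (p : ℕ) [Fact p.Prime] (k : ℕ) (H : Set (ℙ (ZMod p) (Fin k → ZMod p)))
    (N : ℕ → ℕ) (hN : PolyBdd N)
    (hmain : ∀ n t : ℕ, 1 ≤ t → N t ≤ n → ∀ X : Set (Fin n → ZMod p), (0 : Fin n → ZMod p) ∉ X →
      (∀ c : ZMod p, ∀ v, c ≠ 0 → v ∈ X → c • v ∈ X) →
      (¬ ∃ L : (Fin k → ZMod p) →ₗ[ZMod p] (Fin n → ZMod p), Function.Injective L ∧
        ∀ v, v ≠ 0 → (L v ∈ X ↔ v ∈ vec H)) →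
      HasBlack (p := p) X ⊤ t ∨ HasWhite (p := p) X ⊤ t) :
    EHProperty (ZMod p) k H := by
  obtain ⟨C0, d0, hCd⟩ := hN
  have hC : (0 : ℝ) < (C0 : ℝ) + 1 := by positivity
  refine ⟨1 / ((d0 : ℝ) + 1), by positivity, 1 / (4 * ((C0 : ℝ) + 1)), by positivity, ?_⟩
  intro n hn X hX
  set x : ℝ := 1 / (4 * ((C0 : ℝ) + 1)) * (n : ℝ) ^ ((1 : ℝ) / ((d0 : ℝ) + 1)) with hx
  rcases lt_or_ge x 1 with hx1 | hx1
  · -- one point
    have hv : ∃ v : Fin n → ZMod p, v ≠ 0 := ⟨fun _ => 1, fun h => by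
      have := congrFun h ⟨0, hn⟩
      exact one_ne_zero this⟩
    obtain ⟨v, hv⟩ := hv
    refine ⟨Submodule.span (ZMod p) {v}, ?_, ?_⟩
    · rw [finrank_span_singleton hv]
      simpa using hx1
    · have hpt : ∀ y : ℙ (ZMod p) (Fin n → ZMod p), y.submodule ≤ Submodule.span (ZMod p) {v} →
          y = Projectivization.mk (ZMod p) v hv := by
        intro y
        induction y using Projectivization.ind with
        | h w hw =>
          intro hy
          have hmem := ehofpoly_sub hw hy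
          rw [Submodule.mem_span_singleton] at hmem
          obtain ⟨c, hc⟩ := hmem
          rw [Projectivization.mk_eq_mk_iff']
          exact ⟨c, hc⟩
      by_cases hin : Projectivization.mk (ZMod p) v hv ∈ X
      · exact Or.inl fun y hy => by rw [hpt y hy]; exact hin
      · exact Or.inr fun y hy => by rw [hpt y hy]; exact hin
  · -- the general case
    set t : ℕ := ⌊x⌋₊ + 1 with ht
    have htx : x < (t : ℝ) := by rw [ht]; push_cast; exact Nat.lt_floor_add_one x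
    have hNt : N t ≤ n := (hCd t).trans (ehofpoly_num C0 d0 n t hn x hx hx1 ht)
    have hfree : ¬ ∃ L : (Fin k → ZMod p) →ₗ[ZMod p] (Fin n → ZMod p), Function.Injective L ∧
        ∀ v, v ≠ 0 → (L v ∈ vec X ↔ v ∈ vec H) := by
      rintro ⟨L, hL, hLv⟩
      refine hX ⟨L, hL, fun y => ?_⟩
      induction y using Projectivization.ind with
      | h v hv =>
        rw [Projectivization.map_mk, ← ehofpoly_mem_vec, ← ehofpoly_mem_vec]
        exact hLv v hv
    rcases hmain n t (by omega) hNt (vec X) (fun ⟨h0, _⟩ => h0 rfl)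
      (fun c v hc hv => ehofpoly_smul X c v hc hv) hfree with h | h
    · obtain ⟨W, -, hW, hWX⟩ := h
      refine ⟨W, by rw [hW]; exact htx, Or.inl fun y => ?_⟩
      induction y using Projectivization.ind with
      | h v hv =>
        intro hy
        rw [← ehofpoly_mem_vec]
        exact hWX v (ehofpoly_sub hv hy) hv
    · obtain ⟨W, -, hW, hWX⟩ := h
      refine ⟨W, by rw [hW]; exact htx, Or.inr fun y => ?_⟩
      induction y using Projectivization.ind with
      | h v hv =>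
        intro hy
        rw [← ehofpoly_mem_vec]
        exact hWX v (ehofpoly_sub hv hy) hv

end EHProj
end

section

/-! # Polynomial bounds (job P-1) -/

namespace EHProj

open scoped LinearAlgebra.Projectivization
open Module

theorem polyBdd_const (n : ℕ) : PolyBdd (fun _ => n) := ⟨n, 0, fun t => by simp⟩

theorem polyBdd_id : PolyBdd (fun t => t) := ⟨1, 1, fun t => by simp⟩

theorem PolyBdd.add {f g : ℕ → ℕ} (hf : PolyBdd f) (hg : PolyBdd g) :
    PolyBdd (fun t => f t + g t) := by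
  obtain ⟨C, d, h⟩ := hf
  obtain ⟨C', d', h'⟩ := hg
  refine ⟨C + C', d + d', fun t => ?_⟩
  have h1 : (t + 1) ^ d ≤ (t + 1) ^ (d + d') := Nat.pow_le_pow_right (by omega) (by omega)
  have h2 : (t + 1) ^ d' ≤ (t + 1) ^ (d + d') := Nat.pow_le_pow_right (by omega) (by omega)
  calc f t + g t ≤ C * (t + 1) ^ d + C' * (t + 1) ^ d' := Nat.add_le_add (h t) (h' t)
    _ ≤ C * (t + 1) ^ (d + d') + C' * (t + 1) ^ (d + d') :=
      Nat.add_le_add (Nat.mul_le_mul_left _ h1) (Nat.mul_le_mul_left _ h2)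
    _ = (C + C') * (t + 1) ^ (d + d') := by ring

theorem PolyBdd.mul {f g : ℕ → ℕ} (hf : PolyBdd f) (hg : PolyBdd g) :
    PolyBdd (fun t => f t * g t) := by
  obtain ⟨C, d, h⟩ := hf
  obtain ⟨C', d', h'⟩ := hg
  refine ⟨C * C', d + d', fun t => ?_⟩
  calc f t * g t ≤ (C * (t + 1) ^ d) * (C' * (t + 1) ^ d') := Nat.mul_le_mul (h t) (h' t)
    _ = (C * C') * (t + 1) ^ (d + d') := by ring

theorem PolyBdd.poly_mono {f g : ℕ → ℕ} (hg : PolyBdd g) (h : ∀ t, f t ≤ g t) : PolyBdd f := by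
  obtain ⟨C, d, h'⟩ := hg
  exact ⟨C, d, fun t => (h t).trans (h' t)⟩

theorem PolyBdd.KK {f g : ℕ → ℕ} (hf : PolyBdd f) (hg : PolyBdd g) :
    PolyBdd (fun t => EHProj.KK (f t) (g t)) := by
  have hkk : PolyBdd (fun t => kk (g t)) :=
    (hg.add (polyBdd_const 55)).poly_mono fun t => by unfold kk; omega
  have hNN : PolyBdd (fun t => NN (g t)) :=
    (polyBdd_const 4).mul (hkk.add (polyBdd_const 1))
  have haa : PolyBdd (fun t => aa (f t) (g t)) :=
    (hNN.mul hf).add (polyBdd_const 2)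
  have hrr : PolyBdd (fun t => rr (f t) (g t)) :=
    (haa.add (polyBdd_const 1)).poly_mono fun t => by unfold rr; omega
  have hjj : PolyBdd (fun t => jj (f t) (g t)) :=
    (haa.add (polyBdd_const 9)).poly_mono fun t => by unfold jj; omega
  have hee : PolyBdd (fun t => ee (f t) (g t)) := (polyBdd_const 1024).mul hjj
  have hmm : PolyBdd (fun t => mm (f t) (g t)) :=
    (((polyBdd_const 6).mul hrr).mul (hee.mul hee)).poly_mono fun t => by
      unfold mm; exact le_of_eq (by ring)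
  exact (polyBdd_const 6).mul ((haa.mul hmm).add (polyBdd_const 1))

theorem poly_RR {f : ℕ → ℕ} (hf : PolyBdd f) : PolyBdd (fun t => RR (f t)) :=
  (((polyBdd_const 45).mul hf).mul (hf.KK hf)).add hf

theorem polyBdd_growN : PolyBdd growN := by
  have i := polyBdd_id
  have c := polyBdd_const
  have h1 : PolyBdd (fun t => 4 * t + 5) := ((c 4).mul i).add (c 5)
  have h2 : PolyBdd (fun t => 2 * t + 2) := ((c 2).mul i).add (c 2)
  have h3 : PolyBdd (fun t => 2 * t + 1) := ((c 2).mul i).add (c 1)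
  have hs : PolyBdd stepN :=
    ((((c 45).mul h1).mul (h1.KK h2)).add (((c 45).mul h3).mul (h3.KK h2))).add (c 1)
  exact ((i.mul hs).add ((c 4).mul i)).add (c 10)

theorem polyBdd_fiveN : PolyBdd fiveN := by
  have i := polyBdd_id
  have c := polyBdd_const
  have h3 : PolyBdd (fun t => 2 * t + 1) := ((c 2).mul i).add (c 1)
  have hg : PolyBdd fg := ((c 2).mul i).add (c 4)
  have hk : PolyBdd fk := (c 90).mul ((c 2).KK hg)
  have hc0 : PolyBdd fc0 := hg.add hk
  have hkB : PolyBdd fkB := ((c 45).mul h3).mul (h3.KK hc0)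
  exact ((((((c 45).mul i).mul (i.KK i)).add hkB).add hk).add ((c 2).mul i)).add (c 5)

theorem polyBdd_lineN : PolyBdd lineN := by
  have i := polyBdd_id
  have c := polyBdd_const
  have h3 : PolyBdd (fun t => 2 * t + 1) := ((c 2).mul i).add (c 1)
  have hR : PolyBdd RR := poly_RR i
  have hD : PolyBdd lD := (((c 2).mul hR).add ((c 2).mul i)).add (c 2)
  have hg : PolyBdd lg := hD.add (c 4)
  have hk2 : PolyBdd lk2 := ((c 90).mul hg).mul (hg.KK (c 3))
  have hc1 : PolyBdd lc1 := (hk2.add hD).add (c 9)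
  have hkc : PolyBdd lkc := ((c 45).mul h3).mul (h3.KK hc1)
  have hcb : PolyBdd lcb := hc1.add hkc
  have hkb : PolyBdd lkb := ((c 45).mul h3).mul (h3.KK hcb)
  have hca : PolyBdd lca := hcb.add hkb
  have hka : PolyBdd lka := ((c 45).mul h3).mul (h3.KK hca)
  exact (((((((((c 45).mul i).mul (i.KK (hR.add (c 1)))).add hka).add hkb).add hkc).add
    hk2).add hD).add hR).add (c 10)

end EHProj
end

section

/-! # T-5: Schur–Ramsey over the field with two elements -/

namespace EHProj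

open scoped LinearAlgebra.Projectivization
open Module

section Char2
variable {V : Type} [AddCommGroup V] [Module (ZMod 2) V] [Finite V]

theorem schur (X : Set V) (hX0 : (0 : V) ∉ X) (t : ℕ) (ht : 1 ≤ t) (H : Submodule (ZMod 2) V)
    (hH : RR t ≤ finrank (ZMod 2) H) (hw : ¬ HasWhite X H t) :
    ∃ x ∈ H, ∃ y ∈ H, x ≠ y ∧ x ∈ X ∧ y ∈ X ∧ x + y ∈ X := by
  have hXs : ∀ c : ZMod 2, ∀ v, c ≠ 0 → v ∈ X → c • v ∈ X := by
    intro c v hc hv
    have h1 : c = 1 := by
      revert hc; revert c; decide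
    rw [h1, one_smul]
    exact hv
  have hRR : RR t = 45 * t * KK t t + t := rfl
  have hA := density_black X hXs H t (by omega) hw
  rw [Nat.cast_ofNat] at hA
  obtain ⟨H', hH', hfin, x', hx', hle, hC⟩ := it1 H X 0 t t ht hA
  have hw' : ¬ HasWhite X H' t := fun ⟨W, hW, hWt, hWX⟩ => hw ⟨W, hW.trans hH', hWt, hWX⟩
  have hA' := density_black X hXs H' t (by omega) hw'
  rw [Nat.cast_ofNat] at hA'
  obtain ⟨w, hwX, hwH', hrd⟩ := hC X hA'
  have hpos : 0 < rd X H' x' := lt_of_lt_of_le (by positivity) (hA.trans hle)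
  have hpos2 : 0 < rd {v | v ∈ X ∧ v + w ∈ X} H' x' := lt_of_lt_of_le (by positivity) hrd
  obtain ⟨v, ⟨hvX, hvwX⟩, hvx⟩ := exists_of_rd_pos hpos2
  have hvH : v ∈ H := by
    rw [sub_zero] at hx'
    have := H.add_mem (hH' hvx) hx'
    rwa [sub_add_cancel] at this
  refine ⟨v, hvH, w, hH' hwH', ?_, hvX, hwX, hvwX⟩
  intro e
  apply hX0
  have h0 : v + w = 0 := by
    rw [← e, ← two_smul (ZMod 2) v, show (2 : ZMod 2) = 0 from rfl, zero_smul]
  rwa [h0] at hvwX

end Char2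

end EHProj
end

section

/-! # Complementation (job E-2) -/

namespace EHProj

open scoped LinearAlgebra.Projectivization
open Module

theorem eh_compl (K : Type) [Field K] (k : ℕ) (H : Set (ℙ K (Fin k → K)))
    (h : EHProperty K k Hᶜ) : EHProperty K k H := by
  obtain ⟨δ, hδ, C, hC, hmain⟩ := h
  refine ⟨δ, hδ, C, hC, fun n hn X hX => ?_⟩
  have hX' : ¬ ContainsInduced K Hᶜ Xᶜ := by
    rintro ⟨L, hL, hLx⟩
    exact hX ⟨L, hL, fun x => not_iff_not.1 (by simpa only [Set.mem_compl_iff] using hLx x)⟩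
  obtain ⟨U, hU, hU'⟩ := hmain n hn Xᶜ hX'
  refine ⟨U, hU, ?_⟩
  rcases hU' with h1 | h1
  · exact Or.inr fun x hx => h1 x hx
  · exact Or.inl fun x hx => by simpa using h1 x hx

end EHProj
end
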