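import Pool.Agent.Lib.MP_f4f4db_co.Avoid
import Pool.Agent.Lib.MP_c6cae0_co.T3.M5

/-! # The exponent one fifth for the line over the field with two elements -/

namespace EHProj.Exp5

open Module
open scoped LinearAlgebra.Projectivization

theorem add_self {n : ℕ} (b : Fin n → ZMod 2) : b + b = 0 := by
  ext i; exact CharTwo.add_self_eq_zero (b i)

theorem scal_two {V : Type} [AddCommGroup V] [Module (ZMod 2) V] (X : Set V) (c : ZMod 2) (v : V)
    (hc : c ≠ 0) (hv : v ∈ X) : c • v ∈ X := by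
  have : c = 1 := by
    revert hc; revert c; decide
  rw [this, one_smul]; exact hv

theorem rd_top_card {n : ℕ} (X : Set (Fin n → ZMod 2)) (A : Finset (Fin n → ZMod 2))
    (hA : ∀ v, v ∈ A ↔ v ∈ X) : rd (p := 2) X ⊤ 0 = (A.card : ℝ) / 2 ^ n := by
  have h1 : Nat.card (⊤ : Submodule (ZMod 2) (Fin n → ZMod 2)) = 2 ^ n := by
    rw [natCard_eq, finrank_top, Module.finrank_fin_fun]
  have h2 : Nat.card {h : (⊤ : Submodule (ZMod 2) (Fin n → ZMod 2)) //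
      (0 : Fin n → ZMod 2) + (h : Fin n → ZMod 2) ∈ X} = A.card := by
    rw [← Fintype.card_coe A, ← Nat.card_eq_fintype_card]
    refine Nat.card_congr ⟨fun x => ⟨(x.1 : Fin n → ZMod 2), (hA _).2 (by simpa using x.2)⟩,
      fun y => ⟨⟨y.1, Submodule.mem_top⟩, by simpa using (hA _).1 y.2⟩, fun x => ?_, fun y => ?_⟩
    · ext; rfl
    · ext; rfl
  unfold rd
  rw [h1, h2]
  push_cast
  rfl

theorem num_bound (C0 : ℝ) (hC0 : 0 < C0) (m : ℕ) (hm : 1 ≤ m) :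
    C0 * ((m : ℝ) * Real.log 2) * ((1 + (m : ℝ) * Real.log 2) * (1 + (m : ℝ) * Real.log 2)) ^ 2 *
      Real.log (2 + (1 + (m : ℝ) * Real.log 2) * (1 + (m : ℝ) * Real.log 2)) ^ 2 + m ≤
    (144 * C0 + 3) * (m : ℝ) ^ 5 * Real.log (1 + m) ^ 2 := by
  have hm' : (1 : ℝ) ≤ m := by exact_mod_cast hm
  have hl2 : 0.6931471803 < Real.log 2 := Real.log_two_gt_d9
  have hl2' : Real.log 2 < 0.6931471808 := Real.log_two_lt_d9
  set L : ℝ := (m : ℝ) * Real.log 2 with hL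
  have hL0 : 0 ≤ L := by positivity
  have hLm : L ≤ m := by rw [hL]; nlinarith
  have h1 : (1 + L) * (1 + L) ≤ (1 + m) * (1 + (m : ℝ)) := by
    apply mul_le_mul <;> linarith
  have hlog0 : Real.log 2 ≤ Real.log (1 + m) :=
    Real.log_le_log (by norm_num) (by linarith)
  have hlog1 : 0 ≤ Real.log (2 + (1 + L) * (1 + L)) := by
    apply Real.log_nonneg; nlinarith
  have hlog2 : Real.log (2 + (1 + L) * (1 + L)) ≤ 3 * Real.log (1 + m) := by
    have : 3 * Real.log (1 + (m : ℝ)) = Real.log ((1 + (m : ℝ)) ^ 3) := by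
      rw [Real.log_pow]; norm_num
    rw [this]
    apply Real.log_le_log (by positivity)
    nlinarith [sq_nonneg ((m : ℝ) - 1), mul_nonneg (by linarith : (0 : ℝ) ≤ (m : ℝ) - 1)
      (by positivity : (0 : ℝ) ≤ (1 + (m : ℝ)) ^ 2)]
  have h2 : ((1 + L) * (1 + L)) ^ 2 ≤ 16 * (m : ℝ) ^ 4 := by
    have : (1 + L) * (1 + L) ≤ 4 * (m : ℝ) ^ 2 := by nlinarith
    calc ((1 + L) * (1 + L)) ^ 2 ≤ (4 * (m : ℝ) ^ 2) ^ 2 :=
          pow_le_pow_left₀ (by positivity) this 2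
      _ = 16 * (m : ℝ) ^ 4 := by ring
  have h3 : Real.log (2 + (1 + L) * (1 + L)) ^ 2 ≤ 9 * Real.log (1 + m) ^ 2 := by
    calc Real.log (2 + (1 + L) * (1 + L)) ^ 2 ≤ (3 * Real.log (1 + m)) ^ 2 :=
          pow_le_pow_left₀ hlog1 hlog2 2
      _ = 9 * Real.log (1 + m) ^ 2 := by ring
  have h4 : C0 * L * ((1 + L) * (1 + L)) ^ 2 * Real.log (2 + (1 + L) * (1 + L)) ^ 2 ≤
      C0 * m * (16 * (m : ℝ) ^ 4) * (9 * Real.log (1 + m) ^ 2) := by
    gcongr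
  have h5 : (m : ℝ) ≤ 3 * (m : ℝ) ^ 5 * Real.log (1 + m) ^ 2 := by
    have h6 : (0.48 : ℝ) ≤ Real.log (1 + m) ^ 2 := by nlinarith
    have h7 : (m : ℝ) ≤ (m : ℝ) ^ 5 := le_self_pow₀ hm' (by norm_num)
    nlinarith [pow_pos (by linarith : (0 : ℝ) < m) 5]
  nlinarith

/-- The Schur–Ramsey lemma with exponent five. -/
theorem schur5 : ∃ C : ℝ, 1 ≤ C ∧ ∀ m n : ℕ, 1 ≤ m → C * (m : ℝ) ^ 5 * Real.log (1 + m) ^ 2 ≤ n →
    ∀ X : Set (Fin n → ZMod 2), (0 : Fin n → ZMod 2) ∉ X → ¬ HasWhite (p := 2) X ⊤ m →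
      ∃ a ∈ X, ∃ b ∈ X, a ≠ b ∧ a + b ∈ X := by
  classical
  obtain ⟨C0, hC0, hmain⟩ := PT.three_main
  refine ⟨144 * C0 + 3, by linarith, fun m n hm hn X hX0 hW => ?_⟩
  have hb := num_bound C0 hC0 m hm
  have hmn : m ≤ n := by
    have : (m : ℝ) ≤ n := by
      refine le_trans ?_ hn
      refine le_trans ?_ hb
      have : 0 ≤ Real.log 2 := Real.log_nonneg (by norm_num)
      have h0 : 0 ≤ C0 * ((m : ℝ) * Real.log 2) * ((1 + (m : ℝ) * Real.log 2) *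
        (1 + (m : ℝ) * Real.log 2)) ^ 2 *
        Real.log (2 + (1 + (m : ℝ) * Real.log 2) * (1 + (m : ℝ) * Real.log 2)) ^ 2 := by
        positivity
      linarith
    exact_mod_cast this
  set A : Finset (Fin n → ZMod 2) := Finset.univ.filter (fun v => v ∈ X) with hA
  have hAX : ∀ v, v ∈ A ↔ v ∈ X := fun v => by simp [hA]
  have hd : (1 / ((2 : ℕ) : ℝ)) ^ m ≤ rd (p := 2) X ⊤ 0 :=
    density_black X (fun c v hc hv => scal_two X c v hc hv) ⊤ m
      (by rw [finrank_top, Module.finrank_fin_fun]; exact hmn) hW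
  rw [rd_top_card X A hAX] at hd
  have h2n : (0 : ℝ) < 2 ^ n := by positivity
  have hcard : ((1 / 2 : ℝ)) ^ m * (2 : ℝ) ^ n ≤ A.card := by
    rw [le_div_iff₀ h2n] at hd
    simpa using hd
  obtain ⟨W, x, hcod, hexc, -⟩ := hmain n ((1 / 2 : ℝ) ^ m) ((1 / 2 : ℝ) ^ m) (by positivity)
    (pow_le_one₀ (by norm_num) (by norm_num)) (by positivity)
    (pow_le_one₀ (by norm_num) (by norm_num)) A hcard
  have hlog : Real.log (1 / (1 / 2 : ℝ) ^ m) = (m : ℝ) * Real.log 2 := by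
    rw [← one_div_pow, Real.log_pow]; norm_num
  rw [hlog] at hcod
  have hWm : m ≤ finrank (ZMod 2) W := by
    have : (m : ℝ) ≤ finrank (ZMod 2) W := by linarith
    exact_mod_cast this
  set E : Set (Fin n → ZMod 2) := {w | ¬ ∃ a ∈ A, ∃ b ∈ A, a + b = w} with hE
  have hrd : rd (p := 2) E W 0 < (1 / ((2 : ℕ) : ℝ)) ^ m := by
    have hpos : (0 : ℝ) < Nat.card W := rd_card_pos W
    unfold rd
    rw [div_lt_iff₀ hpos]
    have hc : Nat.card {h : W // (0 : Fin n → ZMod 2) + (h : Fin n → ZMod 2) ∈ E} =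
        Nat.card {w : Fin n → ZMod 2 // w ∈ W ∧ ¬ ∃ a ∈ A, ∃ b ∈ A, a + b = w} := by
      refine Nat.card_congr ⟨fun x => ⟨(x.1 : Fin n → ZMod 2), x.1.2, by simpa [hE] using x.2⟩,
        fun y => ⟨⟨y.1, y.2.1⟩, by simpa [hE] using y.2.2⟩, fun x => ?_, fun y => ?_⟩
      · ext; rfl
      · ext; rfl
    rw [hc]
    simpa using hexc
  obtain ⟨F, -, hF, hFE⟩ := avoid E (fun c v hc hv => scal_two E c v hc hv) W m hWm hrd
  have hFX : ∃ w ∈ F, w ≠ 0 ∧ w ∈ X := by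
    by_contra hcon
    push Not at hcon
    exact hW ⟨F, le_top, hF, fun w hw hw0 => hcon w hw hw0⟩
  obtain ⟨w, hwF, hw0, hwX⟩ := hFX
  have := hFE w hwF hw0
  simp only [hE, Set.mem_ofPred_eq, not_not] at this
  obtain ⟨a, ha, b, hb', hab⟩ := this
  refine ⟨a, (hAX a).1 ha, b, (hAX b).1 hb', fun h => hw0 ?_, by rw [hab]; exact hwX⟩
  rw [← hab, h]
  exact add_self b

end EHProj.Exp5

namespace EHProj.Exp5

open Module
open scoped LinearAlgebra.Projectivization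

/-- the growth function -/
noncomputable def gro (d : ℕ) : ℝ := (d : ℝ) ^ 5 * Real.log (1 + d) ^ 2

theorem gro_one_le (d : ℕ) (hd : 1 ≤ d) : 0.48 * (d : ℝ) ≤ gro d := by
  have hm' : (1 : ℝ) ≤ d := by exact_mod_cast hd
  have hl2 : 0.6931471803 < Real.log 2 := Real.log_two_gt_d9
  have hlog0 : Real.log 2 ≤ Real.log (1 + d) :=
    Real.log_le_log (by norm_num) (by linarith)
  have h6 : (0.48 : ℝ) ≤ Real.log (1 + d) ^ 2 := by nlinarith
  have h7 : (d : ℝ) ≤ (d : ℝ) ^ 5 := le_self_pow₀ hm' (by norm_num)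
  unfold gro
  nlinarith [pow_pos (by linarith : (0 : ℝ) < d) 5]

theorem gro_succ (d : ℕ) (hd : 1 ≤ d) : gro (d + 1) ≤ 128 * gro d := by
  have hm' : (1 : ℝ) ≤ d := by exact_mod_cast hd
  have h1 : ((d : ℝ) + 1) ^ 5 ≤ 32 * (d : ℝ) ^ 5 := by
    calc ((d : ℝ) + 1) ^ 5 ≤ (2 * (d : ℝ)) ^ 5 := pow_le_pow_left₀ (by positivity) (by linarith) 5
      _ = 32 * (d : ℝ) ^ 5 := by ring
  have h2 : Real.log (1 + ((d : ℝ) + 1)) ≤ 2 * Real.log (1 + d) := by
    have : 2 * Real.log (1 + (d : ℝ)) = Real.log ((1 + (d : ℝ)) ^ 2) := by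
      rw [Real.log_pow]; norm_num
    rw [this]
    apply Real.log_le_log (by positivity)
    nlinarith
  have h3 : 0 ≤ Real.log (1 + ((d : ℝ) + 1)) := Real.log_nonneg (by linarith)
  have h4 : Real.log (1 + ((d : ℝ) + 1)) ^ 2 ≤ 4 * Real.log (1 + d) ^ 2 := by
    calc Real.log (1 + ((d : ℝ) + 1)) ^ 2 ≤ (2 * Real.log (1 + d)) ^ 2 := pow_le_pow_left₀ h3 h2 2
      _ = 4 * Real.log (1 + d) ^ 2 := by ring
  unfold gro
  push_cast
  calc ((d : ℝ) + 1) ^ 5 * Real.log (1 + ((d : ℝ) + 1)) ^ 2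
      ≤ (32 * (d : ℝ) ^ 5) * (4 * Real.log (1 + d) ^ 2) := by gcongr
    _ = 128 * ((d : ℝ) ^ 5 * Real.log (1 + d) ^ 2) := by ring

/-- a one-dimensional homogeneous subspace -/
theorem one_dim {n : ℕ} (hn : 1 ≤ n) (X : Set (Fin n → ZMod 2)) :
    HasBlack (p := 2) X ⊤ 1 ∨ HasWhite (p := 2) X ⊤ 1 := by
  have hv : ∃ v : Fin n → ZMod 2, v ≠ 0 := ⟨fun _ => 1, fun h => by
    have := congrFun h ⟨0, hn⟩
    exact one_ne_zero this⟩
  obtain ⟨v, hv⟩ := hv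
  have hmem : ∀ w ∈ Submodule.span (ZMod 2) {v}, w ≠ 0 → w = v := by
    intro w hw hw0
    obtain ⟨c, rfl⟩ := Submodule.mem_span_singleton.1 hw
    have hc : c = 1 := by
      have h : ∀ c : ZMod 2, c ≠ 0 → c = 1 := by decide
      exact h c fun h => hw0 (by rw [h, zero_smul])
    rw [hc, one_smul]
  by_cases hin : v ∈ X
  · exact Or.inl ⟨_, le_top, finrank_span_singleton hv, fun w hw hw0 => by
      rw [hmem w hw hw0]; exact hin⟩
  · exact Or.inr ⟨_, le_top, finrank_span_singleton hv, fun w hw hw0 => by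
      rw [hmem w hw hw0]; exact hin⟩

theorem full_case : ∃ C : ℝ, 1 ≤ C ∧ ∀ n : ℕ, 1 ≤ n → ∀ X : Set (Fin n → ZMod 2),
    (0 : Fin n → ZMod 2) ∉ X → (∀ a ∈ X, ∀ b ∈ X, a ≠ b → a + b ∉ X) →
      ∃ d : ℕ, (n : ℝ) ≤ C * gro d ∧ (HasBlack (p := 2) X ⊤ d ∨ HasWhite (p := 2) X ⊤ d) := by
  obtain ⟨C0, hC0, hs⟩ := schur5
  refine ⟨128 * C0, by linarith, fun n hn X hX0 hX => ?_⟩
  have hn' : (1 : ℝ) ≤ n := by exact_mod_cast hn
  have hex : ∃ k : ℕ, ¬ C0 * gro (k + 1) ≤ n := by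
    refine ⟨3 * n, fun h => ?_⟩
    have h1 := gro_one_le (3 * n + 1) (by omega)
    push_cast at h1
    have h0 : 0 ≤ gro (3 * n + 1) := le_trans (by positivity) h1
    nlinarith
  classical
  set k := Nat.find hex with hk
  have hk1 : ¬ C0 * gro (k + 1) ≤ n := Nat.find_spec hex
  push Not at hk1
  rcases Nat.eq_zero_or_pos k with h0 | h0
  · refine ⟨1, ?_, one_dim hn X⟩
    rw [h0, zero_add] at hk1
    have h1 := gro_one_le 1 le_rfl
    have : 0 ≤ gro 1 := le_trans (by norm_num) h1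
    nlinarith
  · have hk2 : C0 * gro k ≤ n := by
      have := Nat.find_min hex (m := k - 1) (by omega)
      rw [not_not] at this
      rwa [Nat.sub_add_cancel h0] at this
    refine ⟨k, ?_, Or.inr ?_⟩
    · have := gro_succ k h0
      nlinarith
    · by_contra hW
      obtain ⟨a, ha, b, hb, hab, hab'⟩ := hs k n h0 (by
        have : C0 * (k : ℝ) ^ 5 * Real.log (1 + k) ^ 2 = C0 * gro k := by unfold gro; ring
        rw [this]; exact hk2) X hX0 hW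
      exact hX a ha b hb hab hab'

theorem sub_case {n : ℕ} (hn : 1 ≤ n) (X : Set (Fin n → ZMod 2))
    (hX0 : (0 : Fin n → ZMod 2) ∉ X) (hX : ∀ a ∈ X, ∀ b ∈ X, a ≠ b → a + b ∈ X) :
      ∃ d : ℕ, (n : ℝ) ≤ 5 * gro d ∧ (HasBlack (p := 2) X ⊤ d ∨ HasWhite (p := 2) X ⊤ d) := by
  let U : Submodule (ZMod 2) (Fin n → ZMod 2) :=
    { carrier := {v | v = 0 ∨ v ∈ X}
      zero_mem' := Or.inl rfl
      add_mem' := by
        rintro a b (rfl | ha) (rfl | hb)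
        · exact Or.inl (add_zero 0)
        · rw [zero_add]; exact Or.inr hb
        · rw [add_zero]; exact Or.inr ha
        · by_cases hab : a = b
          · rw [hab]; exact Or.inl (add_self b)
          · exact Or.inr (hX a ha b hb hab)
      smul_mem' := by
        intro c v hv
        by_cases hc : c = 0
        · rw [hc, zero_smul]; exact Or.inl rfl
        · exact scal_two {v | v = 0 ∨ v ∈ X} c v hc hv }
  obtain ⟨U', hU'⟩ := Submodule.exists_isCompl U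
  have hsum : finrank (ZMod 2) U + finrank (ZMod 2) U' = n := by
    rw [Submodule.finrank_add_eq_of_isCompl hU', Module.finrank_fin_fun]
  have hB : HasBlack (p := 2) X ⊤ (finrank (ZMod 2) U) :=
    ⟨U, le_top, rfl, fun w hw hw0 => hw.resolve_left hw0⟩
  have hW : HasWhite (p := 2) X ⊤ (finrank (ZMod 2) U') :=
    ⟨U', le_top, rfl, fun w hw hw0 hwX => hw0 (by
      have := Submodule.disjoint_def.1 hU'.disjoint w (Or.inr hwX) hw
      exact this)⟩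
  have key : ∀ d : ℕ, n ≤ 2 * d → (n : ℝ) ≤ 5 * gro d := by
    intro d hd
    have h1 := gro_one_le d (by omega)
    have h2 : (n : ℝ) ≤ 2 * d := by exact_mod_cast hd
    nlinarith
  rcases le_total (finrank (ZMod 2) U) (finrank (ZMod 2) U') with h | h
  · exact ⟨_, key _ (by omega), Or.inr hW⟩
  · exact ⟨_, key _ (by omega), Or.inl hB⟩

/-- the linear map with `e₀ ↦ x`, `e₁ ↦ y` -/
def lmap {n : ℕ} (x y : Fin n → ZMod 2) : (Fin 2 → ZMod 2) →ₗ[ZMod 2] (Fin n → ZMod 2) :=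
  (LinearMap.proj (0 : Fin 2)).smulRight x + (LinearMap.proj (1 : Fin 2)).smulRight y

theorem lmap_apply {n : ℕ} (x y : Fin n → ZMod 2) (v : Fin 2 → ZMod 2) :
    lmap x y v = v 0 • x + v 1 • y := rfl

theorem vec_cases (v : Fin 2 → ZMod 2) :
    v = 0 ∨ v = ![1, 0] ∨ v = ![0, 1] ∨ v = ![1, 1] := by
  revert v; decide

theorem free_of {n : ℕ} (X : Set (Fin n → ZMod 2)) (S : Set (Fin 2 → ZMod 2))
    (hfree : ¬ ∃ L : (Fin 2 → ZMod 2) →ₗ[ZMod 2] (Fin n → ZMod 2), Function.Injective L ∧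
        ∀ v, v ≠ 0 → (L v ∈ X ↔ v ∈ S)) (x y : Fin n → ZMod 2) (hx : x ≠ 0) (hy : y ≠ 0)
    (hxy : x ≠ y) : ¬ ((x ∈ X ↔ (![1, 0] : Fin 2 → ZMod 2) ∈ S) ∧
      (y ∈ X ↔ (![0, 1] : Fin 2 → ZMod 2) ∈ S) ∧ (x + y ∈ X ↔ (![1, 1] : Fin 2 → ZMod 2) ∈ S)) := by
  rintro ⟨h1, h2, h3⟩
  refine hfree ⟨lmap x y, ?_, ?_⟩
  · rw [injective_iff_map_eq_zero]
    intro v hv
    rw [lmap_apply] at hv
    rcases vec_cases v with rfl | rfl | rfl | rfl
    · rfl
    · exact absurd (by simpa using hv) hx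
    · exact absurd (by simpa using hv) hy
    · refine absurd ?_ hxy
      have : x + y = 0 := by simpa using hv
      rw [← add_self y] at this
      exact add_right_cancel this
  · intro v hv
    rw [lmap_apply]
    rcases vec_cases v with rfl | rfl | rfl | rfl
    · exact absurd rfl hv
    · simpa using h1
    · simpa using h2
    · simpa using h3

theorem add_cancel' {n : ℕ} (a b : Fin n → ZMod 2) : a + (a + b) = b := by
  rw [← add_assoc, add_self, zero_add]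

theorem add_ne_zero' {n : ℕ} {a b : Fin n → ZMod 2} (h : a ≠ b) : a + b ≠ 0 := by
  intro h0
  apply h
  rw [← add_self b] at h0
  exact add_right_cancel h0

theorem vector_level : ∃ C : ℝ, 0 < C ∧ ∀ n : ℕ, 1 ≤ n → ∀ (X : Set (Fin n → ZMod 2))
    (S : Set (Fin 2 → ZMod 2)), (0 : Fin n → ZMod 2) ∉ X →
    (¬ ∃ L : (Fin 2 → ZMod 2) →ₗ[ZMod 2] (Fin n → ZMod 2), Function.Injective L ∧
        ∀ v, v ≠ 0 → (L v ∈ X ↔ v ∈ S)) →
    ∃ d : ℕ, (n : ℝ) ≤ C * gro d ∧ (HasBlack (p := 2) X ⊤ d ∨ HasWhite (p := 2) X ⊤ d) := by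
  obtain ⟨C0, hC0, hfull⟩ := full_case
  refine ⟨C0 + 5, by linarith, fun n hn X S hX0 hfree => ?_⟩
  have hgro : ∀ d : ℕ, 0 ≤ gro d := fun d => by unfold gro; positivity
  have hF := free_of X S hfree
  set Y : Set (Fin n → ZMod 2) := {v | v ≠ 0 ∧ v ∉ X} with hY
  have hY0 : (0 : Fin n → ZMod 2) ∉ Y := fun h => h.1 rfl
  have hXne : ∀ a ∈ X, a ≠ 0 := fun a ha h => hX0 (h ▸ ha)
  -- transfer of homogeneous subspaces from `Y` to `X`
  have htr : (∃ d : ℕ, (n : ℝ) ≤ (C0 + 5) * gro d ∧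
      (HasBlack (p := 2) Y ⊤ d ∨ HasWhite (p := 2) Y ⊤ d)) →
      ∃ d : ℕ, (n : ℝ) ≤ (C0 + 5) * gro d ∧
      (HasBlack (p := 2) X ⊤ d ∨ HasWhite (p := 2) X ⊤ d) := by
    rintro ⟨d, hd, h⟩
    refine ⟨d, hd, ?_⟩
    rcases h with ⟨W, h1, h2, h3⟩ | ⟨W, h1, h2, h3⟩
    · exact Or.inr ⟨W, h1, h2, fun w hw hw0 => (h3 w hw hw0).2⟩
    · refine Or.inl ⟨W, h1, h2, fun w hw hw0 => ?_⟩
      by_contra hwX
      exact h3 w hw hw0 ⟨hw0, hwX⟩
  have useFull : ∀ Z : Set (Fin n → ZMod 2), (0 : Fin n → ZMod 2) ∉ Z →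
      (∀ a ∈ Z, ∀ b ∈ Z, a ≠ b → a + b ∉ Z) → ∃ d : ℕ, (n : ℝ) ≤ (C0 + 5) * gro d ∧
      (HasBlack (p := 2) Z ⊤ d ∨ HasWhite (p := 2) Z ⊤ d) := by
    intro Z hZ0 hZ
    obtain ⟨d, hd, h⟩ := hfull n hn Z hZ0 hZ
    exact ⟨d, by nlinarith [hgro d], h⟩
  have useSub : ∀ Z : Set (Fin n → ZMod 2), (0 : Fin n → ZMod 2) ∉ Z →
      (∀ a ∈ Z, ∀ b ∈ Z, a ≠ b → a + b ∈ Z) → ∃ d : ℕ, (n : ℝ) ≤ (C0 + 5) * gro d ∧
      (HasBlack (p := 2) Z ⊤ d ∨ HasWhite (p := 2) Z ⊤ d) := by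
    intro Z hZ0 hZ
    obtain ⟨d, hd, h⟩ := sub_case hn Z hZ0 hZ
    exact ⟨d, by nlinarith [hgro d], h⟩
  by_cases h1 : (![1, 0] : Fin 2 → ZMod 2) ∈ S <;> by_cases h2 : (![0, 1] : Fin 2 → ZMod 2) ∈ S <;>
    by_cases h3 : (![1, 1] : Fin 2 → ZMod 2) ∈ S <;> simp only [h1, h2, h3, iff_true, iff_false] at hF
  · -- all in
    exact useFull X hX0 fun a ha b hb hab hc => hF a b (hXne a ha) (hXne b hb) hab ⟨ha, hb, hc⟩
  · exact useSub X hX0 fun a ha b hb hab => by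
      by_contra hc
      exact hF a b (hXne a ha) (hXne b hb) hab ⟨ha, hb, hc⟩
  · refine useSub X hX0 fun a ha b hb hab => ?_
    by_contra hc
    refine hF a (a + b) (hXne a ha) (add_ne_zero' hab) ?_ ⟨ha, hc, by rw [add_cancel']; exact hb⟩
    intro h
    exact hXne b hb (by simpa using h.symm)
  · -- one true: first
    refine htr (useSub Y hY0 fun a ha b hb hab => ?_)
    refine ⟨add_ne_zero' hab, fun hc => ?_⟩
    refine hF (a + b) a (add_ne_zero' hab) ha.1 ?_ ⟨hc, ha.2, ?_⟩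
    · intro h
      exact hb.1 (by simpa using h)
    · rw [add_comm (a + b) a, add_cancel']; exact hb.2
  · refine useSub X hX0 fun a ha b hb hab => ?_
    by_contra hc
    refine hF (a + b) a (add_ne_zero' hab) (hXne a ha) ?_ ⟨hc, ha, ?_⟩
    · intro h
      exact hXne b hb (by simpa using h)
    · rw [add_comm (a + b) a, add_cancel']; exact hb
  · -- one true: second
    refine htr (useSub Y hY0 fun a ha b hb hab => ?_)
    refine ⟨add_ne_zero' hab, fun hc => ?_⟩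
    refine hF a (a + b) ha.1 (add_ne_zero' hab) ?_ ⟨ha.2, hc, by rw [add_cancel']; exact hb.2⟩
    intro h
    exact hb.1 (by simpa using h.symm)
  · -- one true: third
    refine htr (useSub Y hY0 fun a ha b hb hab => ?_)
    refine ⟨add_ne_zero' hab, fun hc => ?_⟩
    exact hF a b ha.1 hb.1 hab ⟨ha.2, hb.2, hc⟩
  · -- all out
    refine htr (useFull Y hY0 fun a ha b hb hab hc => ?_)
    exact hF a b ha.1 hb.1 hab ⟨ha.2, hb.2, hc.2⟩

theorem mem_vec {k : ℕ} (X : Set (ℙ (ZMod 2) (Fin k → ZMod 2))) {v : Fin k → ZMod 2}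
    (hv : v ≠ 0) : v ∈ vec X ↔ Projectivization.mk (ZMod 2) v hv ∈ X :=
  ⟨fun ⟨_, h⟩ => h, fun h => ⟨hv, h⟩⟩

theorem mem_of_sub {k : ℕ} {W : Submodule (ZMod 2) (Fin k → ZMod 2)}
    {v : Fin k → ZMod 2} (hv : v ≠ 0) (h : (Projectivization.mk (ZMod 2) v hv).submodule ≤ W) :
    v ∈ W := by
  rw [Projectivization.submodule_mk] at h
  exact h (Submodule.mem_span_singleton_self v)

theorem eh_five : ∃ C : ℝ, 0 < C ∧ ∀ (H : Set (ℙ (ZMod 2) (Fin 2 → ZMod 2))) (n : ℕ), 1 ≤ n →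
    ∀ X : Set (ℙ (ZMod 2) (Fin n → ZMod 2)), ¬ ContainsInduced (ZMod 2) H X →
    ∃ U : Submodule (ZMod 2) (Fin n → ZMod 2),
      (n : ℝ) ≤ C * gro (finrank (ZMod 2) U) ∧
      ((∀ x : ℙ (ZMod 2) (Fin n → ZMod 2), x.submodule ≤ U → x ∈ X) ∨
       (∀ x : ℙ (ZMod 2) (Fin n → ZMod 2), x.submodule ≤ U → x ∉ X)) := by
  obtain ⟨C, hC, hmain⟩ := vector_level
  refine ⟨C, hC, fun H n hn X hX => ?_⟩
  have hfree : ¬ ∃ L : (Fin 2 → ZMod 2) →ₗ[ZMod 2] (Fin n → ZMod 2), Function.Injective L ∧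
      ∀ v, v ≠ 0 → (L v ∈ vec X ↔ v ∈ vec H) := by
    rintro ⟨L, hL, hLv⟩
    refine hX ⟨L, hL, fun y => ?_⟩
    induction y using Projectivization.ind with
    | h v hv =>
      have hLv0 : L v ≠ 0 := fun h => hv (hL (by rw [h, map_zero]))
      rw [Projectivization.map_mk, ← mem_vec X hLv0, ← mem_vec H hv]
      exact hLv v hv
  obtain ⟨d, hd, h⟩ := hmain n hn (vec X) (vec H) (fun ⟨h0, _⟩ => h0 rfl) hfree
  rcases h with ⟨W, -, hW, hWX⟩ | ⟨W, -, hW, hWX⟩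
  · refine ⟨W, by rw [hW]; exact hd, Or.inl fun y => ?_⟩
    induction y using Projectivization.ind with
    | h v hv =>
      intro hy
      rw [← mem_vec X hv]
      exact hWX v (mem_of_sub hv hy) hv
  · refine ⟨W, by rw [hW]; exact hd, Or.inr fun y => ?_⟩
    induction y using Projectivization.ind with
    | h v hv =>
      intro hy
      rw [← mem_vec X hv]
      exact hWX v (mem_of_sub hv hy) hv

end EHProj.Exp5
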