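import Pool.Agent.Lib.MP_f4f4db_co.Defs
import Pool.Agent.Lib.MP_f4f4db_co.Avoid

section

/-!
# Quadratic functions on `𝔽₂`-spaces (EH-T6)

A function whose sum over every plane of `F` vanishes is a quadratic form on `F`, so it vanishes
on a subspace of about half the dimension.
-/

namespace EHProj

open scoped LinearAlgebra.Projectivization

open Module

section Quad

variable {V : Type} [AddCommGroup V] [Module (ZMod 2) V]

theorem quad_vv (v : V) : v + v = 0 := by
  have h : (2 : ZMod 2) • v = v + v := two_smul _ v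
  have h2 : (2 : ZMod 2) = 0 := by decide
  rw [← h, h2, zero_smul]

theorem quad_aa (a : ZMod 2) : a + a = 0 := by revert a; decide

theorem quad_cubic (F : Submodule (ZMod 2) V) (f : V → ZMod 2) (hf0 : f 0 = 0)
    (hsum : ∀ x ∈ F, ∀ y ∈ F, ∀ w ∈ F, Ind3 x y w →
      f x + f y + f w + f (x + y) + f (x + w) + f (y + w) + f (x + y + w) = 0)
    (x y w : V) (hx : x ∈ F) (hy : y ∈ F) (hw : w ∈ F) :
    f x + f y + f w + f (x + y) + f (x + w) + f (y + w) + f (x + y + w) = 0 := by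
  have key : ∀ a b c : ZMod 2, a + b + c + a + b + c = 0 := by decide
  by_cases h1 : x = 0
  · subst h1
    simp only [zero_add, hf0]
    generalize f y = a
    generalize f w = b
    generalize f (y + w) = c
    revert a b c; decide
  by_cases h2 : y = 0
  · subst h2
    simp only [zero_add, add_zero, hf0]
    generalize f x = a
    generalize f w = b
    generalize f (x + w) = c
    revert a b c; decide
  by_cases h3 : x = y
  · subst h3
    simp only [quad_vv, zero_add, hf0]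
    generalize f x = a
    generalize f w = b
    generalize f (x + w) = c
    revert a b c; decide
  by_cases h4 : w = 0
  · subst h4
    simp only [add_zero, hf0]
    generalize f x = a
    generalize f y = b
    generalize f (x + y) = c
    revert a b c; decide
  by_cases h5 : w = x
  · subst h5
    have e : w + y + w = y := by
      rw [add_comm w y, add_assoc, quad_vv, add_zero]
    rw [e, quad_vv, hf0, add_comm y w]
    generalize f w = a
    generalize f y = b
    generalize f (w + y) = c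
    revert a b c; decide
  by_cases h6 : w = y
  · subst h6
    have e : x + w + w = x := by
      rw [add_assoc, quad_vv, add_zero]
    rw [e, quad_vv, hf0]
    generalize f w = a
    generalize f x = b
    generalize f (x + w) = c
    revert a b c; decide
  by_cases h7 : w = x + y
  · subst h7
    have e1 : x + (x + y) = y := by
      rw [← add_assoc, quad_vv, zero_add]
    have e2 : y + (x + y) = x := by
      rw [add_comm x y, ← add_assoc, quad_vv, zero_add]
    rw [e1, e2, quad_vv, hf0]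
    generalize f y = a
    generalize f x = b
    generalize f (x + y) = c
    revert a b c; decide
  exact hsum x hx y hy w hw ⟨h1, h2, h3, h4, h5, h6, h7⟩

/-- the polarisation is additive in the first variable -/
theorem quad_addl (F : Submodule (ZMod 2) V) (f : V → ZMod 2) (hf0 : f 0 = 0)
    (hsum : ∀ x ∈ F, ∀ y ∈ F, ∀ w ∈ F, Ind3 x y w →
      f x + f y + f w + f (x + y) + f (x + w) + f (y + w) + f (x + y + w) = 0)
    (x y w : V) (hx : x ∈ F) (hy : y ∈ F) (hw : w ∈ F) :
    f (x + y + w) + f (x + y) + f w = (f (x + w) + f x + f w) + (f (y + w) + f y + f w) := by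
  have h := quad_cubic F f hf0 hsum x y w hx hy hw
  revert h
  generalize f x = a
  generalize f y = b
  generalize f w = c
  generalize f (x + y) = d
  generalize f (x + w) = e
  generalize f (y + w) = g
  generalize f (x + y + w) = k
  revert a b c d e g k; decide

/-- the set of vectors of `F` orthogonal to `W` -/
theorem quad_kernel [Finite V] (F : Submodule (ZMod 2) V) (f : V → ZMod 2) (hf0 : f 0 = 0)
    (hsum : ∀ x ∈ F, ∀ y ∈ F, ∀ w ∈ F, Ind3 x y w →
      f x + f y + f w + f (x + y) + f (x + w) + f (y + w) + f (x + y + w) = 0)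
    (W : Submodule (ZMod 2) V) (hW : W ≤ F) :
    ∃ K ≤ F, finrank (ZMod 2) F ≤ finrank (ZMod 2) K + finrank (ZMod 2) W ∧
      ∀ v ∈ K, ∀ w ∈ W, f (v + w) + f v + f w = 0 := by
  have hz : ∀ v : V, f (v + 0) + f v + f 0 = 0 := by
    intro v; rw [add_zero, hf0, add_zero, quad_aa]
  have hz' : ∀ w : V, f (0 + w) + f 0 + f w = 0 := by
    intro v; rw [zero_add, hf0, add_zero, quad_aa]
  have hc : ∀ c : ZMod 2, c = 0 ∨ c = 1 := by decide
  let B : F →ₗ[ZMod 2] W →ₗ[ZMod 2] ZMod 2 := LinearMap.mk₂ (ZMod 2)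
    (fun (v : F) (w : W) => f ((v : V) + (w : V)) + f (v : V) + f (w : V))
    (by
      intro v v' w
      exact quad_addl F f hf0 hsum v v' w v.2 v'.2 (hW w.2))
    (by
      intro c v w
      rcases hc c with rfl | rfl
      · simp only [zero_smul, ZeroMemClass.coe_zero]
        exact hz' _
      · simp only [one_smul])
    (by
      intro v w w'
      have h := quad_addl F f hf0 hsum w w' v (hW w.2) (hW w'.2) v.2
      have e1 : ((v : V) + ((w + w' : W) : V)) = (w : V) + (w' : V) + (v : V) := by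
        rw [Submodule.coe_add]; abel
      have e2 : (v : V) + (w : V) = (w : V) + (v : V) := add_comm _ _
      have e3 : (v : V) + (w' : V) = (w' : V) + (v : V) := add_comm _ _
      rw [e1, e2, e3, Submodule.coe_add]
      linear_combination h)
    (by
      intro c v w
      rcases hc c with rfl | rfl
      · simp only [zero_smul, ZeroMemClass.coe_zero]
        exact hz _
      · simp only [one_smul])
  refine ⟨(LinearMap.ker B).map F.subtype, Submodule.map_subtype_le _ _, ?_, ?_⟩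
  · have h1 := LinearMap.finrank_range_add_finrank_ker B
    have h2 : finrank (ZMod 2) (LinearMap.range B) ≤ finrank (ZMod 2) (W →ₗ[ZMod 2] ZMod 2) :=
      Submodule.finrank_le _
    have h3 : finrank (ZMod 2) (W →ₗ[ZMod 2] ZMod 2) = finrank (ZMod 2) W :=
      Subspace.dual_finrank_eq
    have h4 : finrank (ZMod 2) ((LinearMap.ker B).map F.subtype)
        = finrank (ZMod 2) (LinearMap.ker B) :=
      Submodule.finrank_map_subtype_eq _ _
    rw [h4]; omega
  · rintro v ⟨u, hu, rfl⟩ w hw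
    have h5 : B u = 0 := hu
    have h6 : B u ⟨w, hw⟩ = 0 := by rw [h5]; rfl
    exact h6

/-- a subspace of larger dimension has a vector outside -/
theorem quad_exists [Finite V] (K S : Submodule (ZMod 2) V)
    (h : finrank (ZMod 2) S < finrank (ZMod 2) K) : ∃ x ∈ K, x ∉ S := by
  by_contra hcon
  push Not at hcon
  have : finrank (ZMod 2) K ≤ finrank (ZMod 2) S := Submodule.finrank_mono hcon
  omega

theorem quad_span_le [Finite V] (S : Submodule (ZMod 2) V) (x : V) :
    finrank (ZMod 2) (S ⊔ Submodule.span (ZMod 2) {x} : Submodule (ZMod 2) V)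
      ≤ finrank (ZMod 2) S + 1 := by
  have h := Submodule.finrank_add_le_finrank_add_finrank S (Submodule.span (ZMod 2) {x})
  have h2 : finrank (ZMod 2) (Submodule.span (ZMod 2) {x}) ≤ 1 := by
    simpa using finrank_span_le_card (R := ZMod 2) ({x} : Set V)
  omega

theorem quad_pick [Finite V] (F K W : Submodule (ZMod 2) V) (hK : K ≤ F) (f : V → ZMod 2)
    (hf0 : f 0 = 0)
    (hsum : ∀ x ∈ F, ∀ y ∈ F, ∀ w ∈ F, Ind3 x y w →
      f x + f y + f w + f (x + y) + f (x + w) + f (y + w) + f (x + y + w) = 0)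
    (h : finrank (ZMod 2) W + 2 < finrank (ZMod 2) K) :
    ∃ v ∈ K, v ∉ W ∧ f v = 0 := by
  obtain ⟨x, hxK, hxW⟩ := quad_exists K W (by omega)
  have h1 := quad_span_le W x
  obtain ⟨y, hyK, hyS⟩ := quad_exists K (W ⊔ Submodule.span (ZMod 2) {x}) (by omega)
  have h2 := quad_span_le (W ⊔ Submodule.span (ZMod 2) {x}) y
  obtain ⟨w, hwK, hwS⟩ := quad_exists K
    ((W ⊔ Submodule.span (ZMod 2) {x}) ⊔ Submodule.span (ZMod 2) {y}) (by omega)
  obtain ⟨S1, hS1⟩ : ∃ S1, S1 = W ⊔ Submodule.span (ZMod 2) {x} := ⟨_, rfl⟩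
  rw [← hS1] at hyS hwS
  obtain ⟨S2, hS2⟩ : ∃ S2, S2 = S1 ⊔ Submodule.span (ZMod 2) {y} := ⟨_, rfl⟩
  rw [← hS2] at hwS
  have w1 : W ≤ S1 := by rw [hS1]; exact le_sup_left
  have w2 : S1 ≤ S2 := by rw [hS2]; exact le_sup_left
  have x1 : x ∈ S1 := by
    rw [hS1]; exact Submodule.mem_sup_right (Submodule.mem_span_singleton_self x)
  have x2 : x ∈ S2 := w2 x1
  have y2 : y ∈ S2 := by
    rw [hS2]; exact Submodule.mem_sup_right (Submodule.mem_span_singleton_self y)
  have hyW : y ∉ W := fun h => hyS (w1 h)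
  have hwW : w ∉ W := fun h => hwS (w2 (w1 h))
  have hxyW : x + y ∉ W := fun h => hyS ((Submodule.add_mem_iff_right _ x1).1 (w1 h))
  have hxwW : x + w ∉ W := fun h => hwS ((Submodule.add_mem_iff_right _ x2).1 (w2 (w1 h)))
  have hywW : y + w ∉ W := fun h => hwS ((Submodule.add_mem_iff_right _ y2).1 (w2 (w1 h)))
  have hxywW : x + y + w ∉ W := fun h =>
    hwS ((Submodule.add_mem_iff_right _ (S2.add_mem x2 y2)).1 (w2 (w1 h)))
  have hc := quad_cubic F f hf0 hsum x y w (hK hxK) (hK hyK) (hK hwK)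
  by_contra hcon
  push Not at hcon
  have e1 := hcon x hxK hxW
  have e2 := hcon y hyK hyW
  have e3 := hcon w hwK hwW
  have e4 := hcon (x + y) (K.add_mem hxK hyK) hxyW
  have e5 := hcon (x + w) (K.add_mem hxK hwK) hxwW
  have e6 := hcon (y + w) (K.add_mem hyK hwK) hywW
  have e7 := hcon (x + y + w) (K.add_mem (K.add_mem hxK hyK) hwK) hxywW
  have one : ∀ a : ZMod 2, a ≠ 0 → a = 1 := by decide
  rw [one _ e1, one _ e2, one _ e3, one _ e4, one _ e5, one _ e6, one _ e7] at hc
  exact absurd hc (by decide)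

theorem quad_sup [Finite V] (W : Submodule (ZMod 2) V) (v : V) (hv : v ∉ W) :
    finrank (ZMod 2) (W ⊔ Submodule.span (ZMod 2) {v} : Submodule (ZMod 2) V)
      = finrank (ZMod 2) W + 1 := by
  have h1 := quad_span_le W v
  have h2 : W < W ⊔ Submodule.span (ZMod 2) {v} := by
    refine lt_of_le_of_ne le_sup_left ?_
    intro h
    exact hv (by rw [h]; exact Submodule.mem_sup_right (Submodule.mem_span_singleton_self v))
  have h3 := Submodule.finrank_lt_finrank_of_lt h2
  omega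

theorem quad [Finite V] (F : Submodule (ZMod 2) V) (f : V → ZMod 2) (hf0 : f 0 = 0)
    (hsum : ∀ x ∈ F, ∀ y ∈ F, ∀ w ∈ F, Ind3 x y w →
      f x + f y + f w + f (x + y) + f (x + w) + f (y + w) + f (x + y + w) = 0)
    (t : ℕ) (ht : 2 * t + 2 ≤ finrank (ZMod 2) F) :
    ∃ W ≤ F, finrank (ZMod 2) W = t ∧ ∀ w ∈ W, f w = 0 := by
  induction t with
  | zero =>
    refine ⟨⊥, bot_le, finrank_bot _ _, ?_⟩
    intro w hw
    rw [Submodule.mem_bot] at hw
    rw [hw, hf0]
  | succ t ih =>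
    obtain ⟨W, hWF, hWt, hW0⟩ := ih (by omega)
    obtain ⟨K, hKF, hK1, hK2⟩ := quad_kernel F f hf0 hsum W hWF
    obtain ⟨v, hvK, hvW, hv0⟩ := quad_pick F K W hKF f hf0 hsum (by omega)
    refine ⟨W ⊔ Submodule.span (ZMod 2) {v}, ?_, ?_, ?_⟩
    · refine sup_le hWF ?_
      rw [Submodule.span_singleton_le_iff_mem]
      exact hKF hvK
    · rw [quad_sup W v hvW, hWt]
    · intro u hu
      rw [Submodule.mem_sup] at hu
      obtain ⟨w, hw, s, hs, rfl⟩ := hu
      rw [Submodule.mem_span_singleton] at hs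
      obtain ⟨c, rfl⟩ := hs
      have hc : ∀ c : ZMod 2, c = 0 ∨ c = 1 := by decide
      rcases hc c with rfl | rfl
      · rw [zero_smul, add_zero]; exact hW0 w hw
      · rw [one_smul]
        have h := hK2 v hvK w hw
        rw [hv0, hW0 w hw, add_zero, add_zero] at h
        rw [add_comm]; exact h

end Quad

end EHProj
end

section

section

/-!
# Functions all of whose linear shifts are five-free
-/

namespace EHProj

open scoped LinearAlgebra.Projectivization
open Module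

section fivestructAux

variable {E : Type} [AddCommGroup E] [Module (ZMod 2) E]

private lemma fivestruct_self (v : E) : v + v = 0 := by
  have h : (2 : ZMod 2) • v = v + v := two_smul _ v
  rw [← h, show (2 : ZMod 2) = 0 from rfl, zero_smul]

private lemma fivestruct_neg (v : E) : -v = v :=
  neg_eq_of_add_eq_zero_left (fivestruct_self v)

private lemma fivestruct_eq {a b : E} (h : a + b = 0) : a = b := by
  rw [eq_neg_of_add_eq_zero_left h, fivestruct_neg]

private lemma fivestruct_cancel (a b : E) : a + (a + b) = b := by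
  rw [← add_assoc, fivestruct_self, zero_add]

private lemma fivestruct_smul (a : ZMod 2) (v : E) : a • v = 0 ∨ a • v = v := by
  have c : ∀ a : ZMod 2, a = 0 ∨ a = 1 := by decide
  rcases c a with h | h
  · left; rw [h, zero_smul]
  · right; rw [h, one_smul]

private lemma fivestruct_li {x y w : E} (h : Ind3 x y w) :
    LinearIndependent (ZMod 2) ![x, y, w] := by
  obtain ⟨hx, hy, hxy, hw, hwx, hwy, hwxy⟩ := h
  rw [Fintype.linearIndependent_iff]
  intro g hg
  have hg' : g 0 • x + g 1 • y + g 2 • w = 0 := by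
    simpa [Fin.sum_univ_three] using hg
  have c : ∀ a : ZMod 2, a = 0 ∨ a = 1 := by decide
  have key : g 0 = 0 ∧ g 1 = 0 ∧ g 2 = 0 := by
    rcases c (g 0) with h0 | h0 <;> rcases c (g 1) with h1 | h1 <;>
      rcases c (g 2) with h2 | h2 <;> rw [h0, h1, h2] at hg' <;>
      simp only [zero_smul, one_smul, zero_add, add_zero] at hg'
    · exact ⟨h0, h1, h2⟩
    · exact absurd hg' hw
    · exact absurd hg' hy
    · exact absurd (fivestruct_eq hg').symm hwy
    · exact absurd hg' hx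
    · exact absurd (fivestruct_eq hg').symm hwx
    · exact absurd (fivestruct_eq hg') hxy
    · exact absurd (fivestruct_eq hg').symm hwxy
  intro i
  fin_cases i
  · exact key.1
  · exact key.2.1
  · exact key.2.2

private lemma fivestruct_lin {x y w : E} (h : Ind3 x y w) (a b c : ZMod 2) :
    ∃ l : E →ₗ[ZMod 2] ZMod 2, l x = a ∧ l y = b ∧ l w = c := by
  have hli := fivestruct_li h
  have hinj := hli.fintypeLinearCombination_injective
  obtain ⟨g, hg⟩ := LinearMap.exists_leftInverse_of_injective _ (LinearMap.ker_eq_bot.2 hinj)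
  have hg' : ∀ v, g (Fintype.linearCombination (ZMod 2) ![x, y, w] v) = v := by
    intro v
    exact LinearMap.congr_fun hg v
  have e : ∀ i : Fin 3, Fintype.linearCombination (ZMod 2) ![x, y, w] (Pi.single i 1)
      = ![x, y, w] i := by
    intro i
    rw [Fintype.linearCombination_apply_single, one_smul]
  have e' : ∀ i : Fin 3, Fintype.linearCombination (ZMod 2) ![a, b, c] (Pi.single i 1)
      = ![a, b, c] i := by
    intro i
    rw [Fintype.linearCombination_apply_single, one_smul]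
  have k : ∀ i : Fin 3, (Fintype.linearCombination (ZMod 2) ![a, b, c] ∘ₗ g) (![x, y, w] i)
      = ![a, b, c] i := by
    intro i
    rw [← e i, LinearMap.comp_apply, hg', e']
  exact ⟨Fintype.linearCombination (ZMod 2) ![a, b, c] ∘ₗ g, k 0, k 1, k 2⟩

/-- the hypothesis of `five_struct` in the whole space -/
private def fivestructGood (f : E → ZMod 2) : Prop :=
  ∀ l : E →ₗ[ZMod 2] ZMod 2, ∀ x y w : E, Ind3 x y w → cnt3 {v | f v + l v = 1} x y w ≠ 5

private lemma fivestructGood.shift {f : E → ZMod 2} (h : fivestructGood f)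
    (l : E →ₗ[ZMod 2] ZMod 2) : fivestructGood (fun v => f v + l v) := by
  intro l' x y w hi
  have := h (l + l') x y w hi
  simpa only [LinearMap.add_apply, ← add_assoc] using this

private lemma fivestruct_loc {f : E → ZMod 2} (h5 : fivestructGood f) {x y w : E}
    (h : Ind3 x y w) :
    f x + f y + f w + f (x + y) + f (x + w) + f (y + w) + f (x + y + w) = 0 ∨
    (f x + f y + f (x + y) = 1 ∧ f x + f w + f (x + w) = 1 ∧ f y + f w + f (y + w) = 1 ∧
      f x + f y + f w + f (x + y + w) = 0) := by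
  have key : ∀ f1 f2 f3 f4 f5 f6 f7 : ZMod 2,
      (∀ a b c : ZMod 2, (if f1 + a = 1 then 1 else 0) + (if f2 + b = 1 then 1 else 0) +
        (if f3 + c = 1 then 1 else 0) + (if f4 + (a + b) = 1 then 1 else 0) +
        (if f5 + (a + c) = 1 then 1 else 0) + (if f6 + (b + c) = 1 then 1 else 0) +
        (if f7 + (a + b + c) = 1 then 1 else 0) ≠ 5) →
      (f1 + f2 + f3 + f4 + f5 + f6 + f7 = 0 ∨
        (f1 + f2 + f4 = 1 ∧ f1 + f3 + f5 = 1 ∧ f2 + f3 + f6 = 1 ∧ f1 + f2 + f3 + f7 = 0)) := by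
    decide
  refine key _ _ _ _ _ _ _ fun a b c => ?_
  obtain ⟨l, rfl, rfl, rfl⟩ := fivestruct_lin h a b c
  have := h5 l x y w h
  simp only [cnt3, ind, Set.mem_ofPred_eq, map_add] at this
  convert this

private lemma fivestruct_claimA {f : E → ZMod 2} (h5 : fivestructGood f)
    {L0 : Submodule (ZMod 2) E} (hL : ∀ v ∈ L0, v ≠ 0 → f v = 1) (x : E) :
    ∃ m : ZMod 2, ∃ e : E, ∀ v ∈ L0, v ≠ e → f (x + v) = m := by
  by_cases hx : x ∈ L0
  · refine ⟨1, x, fun v hv hne => hL _ (L0.add_mem hx hv) ?_⟩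
    intro h; exact hne (fivestruct_eq h).symm
  have hP : ∀ p, p ∉ L0 → ∀ u ∈ L0, ∀ u' ∈ L0, u ≠ 0 → u' ≠ 0 → u ≠ u' →
      f p + f (p + u) + f (p + u') + f (p + u + u') = 0 → f p = f (p + u) := by
    intro p hp u hu u' hu' hu0 hu0' huu hs
    have hi : Ind3 u u' p := ⟨hu0, hu0', huu, fun h => hp (h ▸ L0.zero_mem),
      fun h => hp (h ▸ hu), fun h => hp (h ▸ hu'), fun h => hp (h ▸ L0.add_mem hu hu')⟩
    have huu0 : u + u' ≠ 0 := fun h => huu (fivestruct_eq h)
    have e1 := hL u hu hu0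
    have e2 := hL u' hu' hu0'
    have e3 := hL _ (L0.add_mem hu hu') huu0
    have e4 : u + p = p + u := add_comm _ _
    have e5 : u' + p = p + u' := add_comm _ _
    have e6 : u + u' + p = p + u + u' := by abel
    have hl := fivestruct_loc h5 hi
    rw [e1, e2, e3, e4, e5, e6] at hl
    revert hs hl
    generalize f p = a
    generalize f (p + u) = b
    generalize f (p + u') = c
    generalize f (p + u + u') = d
    revert a b c d
    decide
  by_cases hconst : ∃ v1 ∈ L0, ∃ v2 ∈ L0, f (x + v1) ≠ f (x + v2)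
  · obtain ⟨v1, hv1, v2, hv2, hne⟩ := hconst
    have hv : v1 ≠ v2 := fun h => hne (by rw [h])
    have hu0 : v1 + v2 ≠ 0 := fun h => hv (fivestruct_eq h)
    have hu : v1 + v2 ∈ L0 := L0.add_mem hv1 hv2
    have hxL : ∀ v ∈ L0, x + v ∉ L0 := fun v hv h => hx (by
      have := L0.sub_mem h hv
      rwa [add_sub_cancel_right] at this)
    have hw : ∀ w ∈ L0, w ≠ v1 → w ≠ v2 → f (x + w) = f (x + w + (v1 + v2)) := by
      intro w hw h1 h2
      by_contra hcon
      have hw0 : v1 + w ≠ 0 := fun h => h1 (fivestruct_eq h).symm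
      have hww : v1 + v2 ≠ v1 + w := fun h => h2 (add_left_cancel h).symm
      have h3 := hP (x + v1) (hxL v1 hv1) (v1 + v2) hu (v1 + w) (L0.add_mem hv1 hw) hu0 hw0 hww
      have e1 : x + v1 + (v1 + v2) = x + v2 := by
        rw [add_assoc, fivestruct_cancel]
      have e2 : x + v1 + (v1 + w) = x + w := by
        rw [add_assoc, fivestruct_cancel]
      have e3 : x + v2 + (v1 + w) = x + w + (v1 + v2) := by abel
      rw [e1, e2, e3] at h3
      apply hne
      apply h3
      revert hne hcon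
      generalize f (x + v1) = a
      generalize f (x + v2) = b
      generalize f (x + w) = c
      generalize f (x + w + (v1 + v2)) = d
      revert a b c d
      decide
    have hw' : ∀ w ∈ L0, w ≠ v1 → w ≠ v2 → ∀ w' ∈ L0, w' ≠ v1 → w' ≠ v2 →
        f (x + w) = f (x + w') := by
      intro w hwL h1 h2 w' hwL' h1' h2'
      by_contra hcon
      have g1 := hw w hwL h1 h2
      have g2 := hw w' hwL' h1' h2'
      have hww : w ≠ w' := fun h => hcon (by rw [h])
      have hww0 : w + w' ≠ 0 := fun h => hww (fivestruct_eq h)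
      have hwwu : w + w' ≠ v1 + v2 := by
        intro h
        apply hcon
        rw [g1, ← h, add_assoc, fivestruct_cancel]
      have h3 := hP (x + w) (hxL w hwL) (w + w') (L0.add_mem hwL hwL') (v1 + v2) hu hww0 hu0 hwwu
      have e1 : x + w + (w + w') = x + w' := by
        rw [add_assoc, fivestruct_cancel]
      rw [e1] at h3
      apply hcon
      apply h3
      rw [← g1, ← g2]
      generalize f (x + w) = a
      generalize f (x + w') = b
      revert a b
      decide
    have hab : ∀ a b m : ZMod 2, a ≠ b → a = m ∨ b = m := by decide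
    by_cases hex : ∃ w ∈ L0, w ≠ v1 ∧ w ≠ v2
    · obtain ⟨w, hwL, hw1, hw2⟩ := hex
      rcases hab _ _ (f (x + w)) hne with h | h
      · refine ⟨f (x + w), v2, fun v hv' hvne => ?_⟩
        by_cases hv1' : v = v1
        · rw [hv1', h]
        · exact hw' v hv' hv1' hvne w hwL hw1 hw2
      · refine ⟨f (x + w), v1, fun v hv' hvne => ?_⟩
        by_cases hv1' : v = v2
        · rw [hv1', h]
        · exact hw' v hv' hvne hv1' w hwL hw1 hw2
    · refine ⟨f (x + v1), v2, fun v hv' hvne => ?_⟩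
      by_cases hv1' : v = v1
      · rw [hv1']
      · exact absurd ⟨v, hv', hv1', hvne⟩ hex
  · push Not at hconst
    exact ⟨f (x + 0), 0, fun v hv _ => hconst v hv 0 L0.zero_mem⟩

private lemma fivestruct_avoid [Finite E] {L0 : Submodule (ZMod 2) E} (hc : Nat.card L0 = 8)
    (T : Finset E) (hT : T.card ≤ 4) : ∃ v ∈ L0, v ∉ T := by
  by_contra h
  push Not at h
  have h1 : (L0 : Set E) ⊆ (T : Set E) := fun v hv => h v hv
  have h2 := Set.ncard_le_ncard h1 (Finset.finite_toSet T)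
  rw [Set.ncard_coe_finset] at h2
  have h3 : (L0 : Set E).ncard = 8 := by
    rw [← hc]; rfl
  omega

private lemma fivestruct_claimB [Finite E] {f : E → ZMod 2} (h5 : fivestructGood f)
    {L0 : Submodule (ZMod 2) E} (hc : Nat.card L0 = 8) (hL : ∀ v ∈ L0, v ≠ 0 → f v = 1) :
    ∃ l : E →ₗ[ZMod 2] ZMod 2, ∀ x : E, ∃ e : E, ∀ v ∈ L0, v ≠ e →
      f (x + v) + l (x + v) = 1 := by
  classical
  choose m e hme using fivestruct_claimA h5 hL
  have hinv : ∀ x, ∀ v ∈ L0, m (x + v) = m x := by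
    intro x v hv
    obtain ⟨w, hw, hwT⟩ := fivestruct_avoid hc {e x, v + e (x + v)}
      (Finset.card_le_two.trans (by norm_num))
    simp only [Finset.mem_insert, Finset.mem_singleton, not_or] at hwT
    have h1 := hme x w hw hwT.1
    have h2 := hme (x + v) (v + w) (L0.add_mem hv hw) (by
      intro h
      apply hwT.2
      rw [← h, fivestruct_cancel])
    rw [← h1, ← h2, add_assoc, fivestruct_cancel]
  have hm0 : m 0 = 1 := by
    obtain ⟨w, hw, hwT⟩ := fivestruct_avoid hc {e 0, 0}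
      (Finset.card_le_two.trans (by norm_num))
    simp only [Finset.mem_insert, Finset.mem_singleton, not_or] at hwT
    rw [← hme 0 w hw hwT.1, zero_add, hL w hw hwT.2]
  have hmL : ∀ x ∈ L0, m x = 1 := by
    intro x hx
    rw [← hm0, ← hinv 0 x hx, zero_add]
  have hadd : ∀ x y, m x + m y + m (x + y) = 1 := by
    intro x y
    by_cases hx : x ∈ L0
    · rw [add_comm x y, hinv y x hx, hmL x hx]
      generalize m y = a
      revert a; decide
    by_cases hy : y ∈ L0
    · rw [hinv x y hy, hmL y hy]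
      generalize m x = a
      revert a; decide
    by_cases hxy : x + y ∈ L0
    · have h1 := hinv x (x + y) hxy
      rw [fivestruct_cancel] at h1
      rw [hmL _ hxy, h1]
      generalize m x = a
      revert a; decide
    obtain ⟨u, hu, hu0⟩ := fivestruct_avoid hc {0} (by simp)
    rw [Finset.mem_singleton] at hu0
    obtain ⟨v, hv, hvT⟩ := fivestruct_avoid hc {e x, e x + u}
      (Finset.card_le_two.trans (by norm_num))
    simp only [Finset.mem_insert, Finset.mem_singleton, not_or] at hvT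
    obtain ⟨v', hv', hvT'⟩ := fivestruct_avoid hc {e y, e y + u, e (x + y) + v, e (x + y) + v + u}
      Finset.card_le_four
    simp only [Finset.mem_insert, Finset.mem_singleton, not_or] at hvT'
    have hsw : ∀ {a b c : E}, a + b = c → a = c + b := by
      intro a b c h
      rw [← h, add_assoc, fivestruct_self, add_zero]
    have f1 := hme x v hv hvT.1
    have f2 := hme x (v + u) (L0.add_mem hv hu) (fun h => hvT.2 (hsw h))
    have f3 := hme y v' hv' hvT'.1
    have f4 := hme y (v' + u) (L0.add_mem hv' hu) (fun h => hvT'.2.1 (hsw h))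
    have f5 := hme (x + y) (v' + v) (L0.add_mem hv' hv) (fun h => hvT'.2.2.1 (hsw h))
    have f6 := hme (x + y) (v' + (v + u)) (L0.add_mem hv' (L0.add_mem hv hu))
      (fun h => hvT'.2.2.2 (by rw [add_assoc]; exact hsw h))
    have hu1 := hL u hu hu0
    have hmem : ∀ {a b : E}, b ∈ L0 → a ∉ L0 → a + b ∉ L0 := by
      intro a b hb ha h
      apply ha
      have := L0.sub_mem h hb
      rwa [add_sub_cancel_right] at this
    have e1 : x + v + (y + v') = x + y + (v' + v) := by abel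
    have e2 : x + v + (y + v') + u = x + y + (v' + (v + u)) := by abel
    have n1 : x + v ∉ L0 := hmem hv hx
    have n2 : y + v' ∉ L0 := hmem hv' hy
    have n3 : x + v + (y + v') ∉ L0 := by
      rw [e1]; exact hmem (L0.add_mem hv' hv) hxy
    have hi : Ind3 (x + v) (y + v') u := by
      refine ⟨fun h => n1 (h ▸ L0.zero_mem), fun h => n2 (h ▸ L0.zero_mem), fun h => n3 ?_, hu0,
        fun h => n1 (h ▸ hu), fun h => n2 (h ▸ hu), fun h => n3 (h ▸ hu)⟩
      rw [h, fivestruct_self]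
      exact L0.zero_mem
    have hl := fivestruct_loc h5 hi
    rw [e2, e1, add_assoc x v u, add_assoc y v' u, f1, f2, f3, f4, f5, f6, hu1] at hl
    revert hl
    generalize m x = a
    generalize m y = b
    generalize m (x + y) = c
    revert a b c
    decide
  have hψ : ∀ x y, (m (x + y) + 1) = (m x + 1) + (m y + 1) := by
    intro x y
    have h := hadd x y
    revert h
    generalize m x = a
    generalize m y = b
    generalize m (x + y) = c
    revert a b c
    decide
  refine ⟨AddMonoidHom.toZModLinearMap 2 (AddMonoidHom.mk' (fun x => m x + 1) hψ), fun x =>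
    ⟨e x, fun v hv hne => ?_⟩⟩
  show f (x + v) + (m (x + v) + 1) = 1
  rw [hme x v hv hne, hinv x v hv]
  generalize m x = a
  revert a
  decide

private lemma fivestruct_claimC {f : E → ZMod 2} (hf0 : f 0 = 0) (h5 : fivestructGood f)
    {L0 : Submodule (ZMod 2) E} {u1 u2 : E} (h1 : u1 ∈ L0) (h2 : u2 ∈ L0) (h10 : u1 ≠ 0)
    (h20 : u2 ≠ 0) (h12 : u1 ≠ u2)
    (hE : ∀ x : E, ∃ e : E, ∀ v ∈ L0, v ≠ e → f (x + v) = 1) :
    ∃ Y : Submodule (ZMod 2) E, ∀ v, v ∈ Y ↔ f v = 0 := by
  have hP : ∀ z, f z = 0 → ∀ u ∈ L0, u ≠ 0 → f (z + u) = 1 := by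
    intro z hz u hu hu0
    obtain ⟨e, he⟩ := hE z
    by_cases h : e = 0
    · exact he u hu (by rw [h]; exact hu0)
    · have := he 0 L0.zero_mem (Ne.symm h)
      rw [add_zero, hz] at this
      exact absurd this (by decide)
  have hclos : ∀ z z', f z = 0 → f z' = 0 → f (z + z') = 0 := by
    intro z z' hz hz'
    by_cases hz0 : z = 0
    · rw [hz0, zero_add]; exact hz'
    by_cases hz0' : z' = 0
    · rw [hz0', add_zero]; exact hz
    by_cases hzz : z = z'
    · rw [hzz, fivestruct_self]; exact hf0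
    by_contra hs
    have hs1 : f (z + z') = 1 := by
      revert hs; generalize f (z + z') = a; revert a; decide
    have key : ∀ u ∈ L0, u ≠ 0 → f (z + z' + u) = 0 := by
      intro u hu hu0
      by_contra hcon
      have hcon1 : f (z + z' + u) = 1 := by
        revert hcon; generalize f (z + z' + u) = a; revert a; decide
      have hu1 : f u = 1 := by
        have := hP 0 hf0 u hu hu0
        rwa [zero_add] at this
      have g1 := hP z hz u hu hu0
      have g2 := hP z' hz' u hu hu0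
      have hi : Ind3 z z' u := by
        refine ⟨hz0, hz0', hzz, hu0, fun h => ?_, fun h => ?_, fun h => ?_⟩
        · rw [h, hz] at hu1; exact absurd hu1 (by decide)
        · rw [h, hz'] at hu1; exact absurd hu1 (by decide)
        · rw [h, add_comm z z', fivestruct_cancel, hz] at g2; exact absurd g2 (by decide)
      have h := h5 0 z z' u hi
      apply h
      simp only [cnt3, ind, Set.mem_ofPred_eq, LinearMap.zero_apply, add_zero, hz, hz', hu1, hs1,
        g1, g2, hcon1]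
      simp
    have k1 := key u1 h1 h10
    have k2 := key u2 h2 h20
    have k3 := hP (z + z' + u1) k1 (u1 + u2) (L0.add_mem h1 h2)
      (fun h => h12 (fivestruct_eq h))
    rw [add_assoc, fivestruct_cancel, k2] at k3
    exact absurd k3 (by decide)
  refine ⟨{ carrier := {v | f v = 0}
            add_mem' := fun {a b} ha hb => hclos a b ha hb
            zero_mem' := hf0
            smul_mem' := fun c v hv => ?_ }, fun v => Iff.rfl⟩
  rcases fivestruct_smul c v with h | h
  · show f (c • v) = 0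
    rw [h]; exact hf0
  · show f (c • v) = 0
    rw [h]; exact hv

private lemma fivestruct_sub [Finite E] {Y : Submodule (ZMod 2) E} {t : ℕ}
    (h : t ≤ finrank (ZMod 2) Y) : ∃ W ≤ Y, finrank (ZMod 2) W = t := by
  obtain ⟨g, hg⟩ := exists_linearIndependent_of_le_finrank h
  have hg' : LinearIndependent (ZMod 2) (fun i => (g i : E)) :=
    hg.map' Y.subtype (Submodule.ker_subtype Y)
  refine ⟨Submodule.span (ZMod 2) (Set.range fun i => (g i : E)), ?_, ?_⟩
  · rw [Submodule.span_le]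
    rintro _ ⟨i, rfl⟩
    exact (g i).2
  · rw [finrank_span_eq_card hg', Fintype.card_fin]

private lemma fivestruct_whole [Finite E] (f : E → ZMod 2) (hf0 : f 0 = 0)
    (h5 : fivestructGood f) (t : ℕ) (ht : 2 * t + 2 ≤ finrank (ZMod 2) E) :
    ∃ l : E →ₗ[ZMod 2] ZMod 2, ∃ W : Submodule (ZMod 2) E, finrank (ZMod 2) W = t ∧
      ∃ c : ZMod 2, ∀ w ∈ W, w ≠ 0 → f w + l w = c := by
  by_cases hev : ∀ x y w : E, Ind3 x y w →
      f x + f y + f w + f (x + y) + f (x + w) + f (y + w) + f (x + y + w) = 0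
  · obtain ⟨W, _, hWt, hW⟩ := quad (⊤ : Submodule (ZMod 2) E) f hf0
      (fun x _ y _ w _ hi => hev x y w hi) t (by rw [finrank_top]; exact ht)
    refine ⟨0, W, hWt, 0, fun w hw _ => ?_⟩
    rw [hW w hw, LinearMap.zero_apply, add_zero]
  push Not at hev
  obtain ⟨x0, y0, w0, hi, hne⟩ := hev
  obtain ⟨o1, o2, o3, o4⟩ := (fivestruct_loc h5 hi).resolve_left hne
  obtain ⟨l0, lx, ly, lw⟩ := fivestruct_lin hi (f x0 + 1) (f y0 + 1) (f w0 + 1)
  have hg5 := h5.shift l0
  set L0 : Submodule (ZMod 2) E := Submodule.span (ZMod 2) (Set.range ![x0, y0, w0]) with hL0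
  have hc : Nat.card L0 = 8 := by
    rw [Module.natCard_eq_pow_finrank (K := ZMod 2), hL0,
      finrank_span_eq_card (fivestruct_li hi)]
    simp
  have hx0 : x0 ∈ L0 := Submodule.subset_span ⟨0, rfl⟩
  have hy0 : y0 ∈ L0 := Submodule.subset_span ⟨1, rfl⟩
  have hL : ∀ v ∈ L0, v ≠ 0 → f v + l0 v = 1 := by
    intro v hv hv0
    have hr : Set.range ![x0, y0, w0] = {x0, y0, w0} := by
      ext z
      simp only [Set.mem_range, Set.mem_insert_iff, Set.mem_singleton_iff]
      constructor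
      · rintro ⟨i, rfl⟩
        fin_cases i <;> simp
      · rintro (h | h | h)
        · exact ⟨0, h.symm⟩
        · exact ⟨1, h.symm⟩
        · exact ⟨2, h.symm⟩
    rw [hL0, hr, Submodule.mem_span_triple] at hv
    obtain ⟨a, b, c, rfl⟩ := hv
    rcases fivestruct_smul a x0 with ha | ha <;> rcases fivestruct_smul b y0 with hb | hb <;>
      rcases fivestruct_smul c w0 with hc' | hc' <;> rw [ha, hb, hc'] at hv0 ⊢ <;>
      simp only [zero_add, add_zero, map_add, lx, ly, lw] at hv0 ⊢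
    · exact absurd rfl hv0
    · generalize f w0 = a; revert a; decide
    · generalize f y0 = a; revert a; decide
    · revert o3; generalize f (y0 + w0) = d; generalize f y0 = a; generalize f w0 = b
      revert a b d; decide
    · generalize f x0 = a; revert a; decide
    · revert o2; generalize f (x0 + w0) = d; generalize f x0 = a; generalize f w0 = b
      revert a b d; decide
    · revert o1; generalize f (x0 + y0) = d; generalize f x0 = a; generalize f y0 = b
      revert a b d; decide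
    · revert o4; generalize f (x0 + y0 + w0) = d; generalize f x0 = a; generalize f y0 = b
      generalize f w0 = c
      revert a b c d; decide
  obtain ⟨l1, hl1⟩ := fivestruct_claimB hg5 hc hL
  have hg5' := hg5.shift l1
  obtain ⟨Y, hY⟩ := fivestruct_claimC (f := fun v => f v + l0 v + l1 v) (by simp [hf0]) hg5'
    hx0 hy0 hi.1 hi.2.1 hi.2.2.1 hl1
  obtain ⟨C, hC⟩ := Y.exists_isCompl
  have hdim := Submodule.finrank_add_eq_of_isCompl hC
  rcases le_or_gt t (finrank (ZMod 2) Y) with h | h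
  · obtain ⟨W, hWY, hW⟩ := fivestruct_sub h
    refine ⟨l0 + l1, W, hW, 0, fun w hw _ => ?_⟩
    have := (hY w).1 (hWY hw)
    simpa only [LinearMap.add_apply, add_assoc] using this
  · obtain ⟨W, hWY, hW⟩ := fivestruct_sub (Y := C) (t := t) (by omega)
    refine ⟨l0 + l1, W, hW, 1, fun w hw hw0 => ?_⟩
    have hwY : w ∉ Y := fun hwY => hw0 (Submodule.disjoint_def.1 hC.disjoint w hwY (hWY hw))
    rw [hY w] at hwY
    rw [LinearMap.add_apply, ← add_assoc]
    revert hwY
    generalize f w + l0 w + l1 w = a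
    revert a
    decide

end fivestructAux

section Five
variable {V : Type} [AddCommGroup V] [Module (ZMod 2) V] [Finite V]

theorem five_struct (F : Submodule (ZMod 2) V) (f : V → ZMod 2) (hf0 : f 0 = 0)
    (h5 : ∀ l : V →ₗ[ZMod 2] ZMod 2, ∀ x ∈ F, ∀ y ∈ F, ∀ w ∈ F, Ind3 x y w →
      cnt3 {v | f v + l v = 1} x y w ≠ 5)
    (t : ℕ) (ht : 2 * t + 2 ≤ finrank (ZMod 2) F) :
    ∃ l : V →ₗ[ZMod 2] ZMod 2, ∃ W ≤ F, finrank (ZMod 2) W = t ∧
      ∃ c : ZMod 2, ∀ w ∈ W, w ≠ 0 → f w + l w = c := by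
  have hgood : fivestructGood (fun v : F => f v) := by
    intro l x y w hi
    obtain ⟨g, hg⟩ := LinearMap.exists_extend l
    have hg' : ∀ v : F, g v = l v := fun v => LinearMap.congr_fun hg v
    have hi' : Ind3 (x : V) (y : V) (w : V) := by
      obtain ⟨h1, h2, h3, h4, h5, h6, h7⟩ := hi
      refine ⟨?_, ?_, ?_, ?_, ?_, ?_, ?_⟩
      · exact_mod_cast h1
      · exact_mod_cast h2
      · exact_mod_cast h3
      · exact_mod_cast h4
      · exact_mod_cast h5
      · exact_mod_cast h6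
      · exact_mod_cast h7
    have := h5 g x x.2 y y.2 w w.2 hi'
    have e : ∀ v : F, ind {v | f v + g v = 1} (v : V) = ind {v : F | f v + l v = 1} v := by
      intro v
      by_cases h : f v + l v = 1
      · have h1 : (v : V) ∈ {v | f v + g v = 1} := by rw [Set.mem_ofPred_eq, hg']; exact h
        have h2 : v ∈ {v : F | f v + l v = 1} := h
        rw [ind, ind, if_pos h1, if_pos h2]
      · have h1 : (v : V) ∉ {v | f v + g v = 1} := by rw [Set.mem_ofPred_eq, hg']; exact h
        have h2 : v ∉ {v : F | f v + l v = 1} := h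
        rw [ind, ind, if_neg h1, if_neg h2]
    have e' : cnt3 {v | f v + g v = 1} (x : V) y w = cnt3 {v : F | f v + l v = 1} x y w := by
      rw [cnt3, cnt3, ← e, ← e, ← e, ← e, ← e, ← e, ← e]
      simp only [Submodule.coe_add]
    rw [← e']
    exact this
  obtain ⟨l, W, hW, c, hc⟩ := fivestruct_whole (fun v : F => f v) (by simpa using hf0) hgood t ht
  obtain ⟨g, hg⟩ := LinearMap.exists_extend l
  have hg' : ∀ v : F, g v = l v := fun v => LinearMap.congr_fun hg v
  refine ⟨g, W.map F.subtype, Submodule.map_subtype_le F W, ?_, c, ?_⟩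
  · rw [Submodule.finrank_map_subtype_eq, hW]
  · rintro w ⟨v, hv, rfl⟩ hw0
    have hv0 : v ≠ 0 := by
      rintro rfl
      exact hw0 (by simp)
    have := hc v hv hv0
    rw [Submodule.subtype_apply, hg']
    exact this

end Five

end EHProj
end

section

/-! # F-1: white density for 5-free sets -/

namespace EHProj

open scoped LinearAlgebra.Projectivization
open Module

section Five
variable {V : Type} [AddCommGroup V] [Module (ZMod 2) V] [Finite V]

private lemma fivewhite_sub (Y : Submodule (ZMod 2) V) (t : ℕ) (h : t ≤ finrank (ZMod 2) Y) :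
    ∃ W ≤ Y, finrank (ZMod 2) W = t := by
  set b := Module.finBasis (ZMod 2) Y
  set f : Fin t → V := fun i => ((b (Fin.castLE h i) : Y) : V) with hf
  have hli : LinearIndependent (ZMod 2) f := by
    have h1 := b.linearIndependent.comp _ (Fin.castLE_injective h)
    exact h1.map' Y.subtype (Submodule.ker_subtype _)
  refine ⟨Submodule.span (ZMod 2) (Set.range f), ?_, ?_⟩
  · rw [Submodule.span_le]
    rintro _ ⟨i, rfl⟩
    exact (b _).2
  · rw [finrank_span_eq_card hli]; simp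

private lemma fivewhite_two (v : V) : v + v = 0 := by
  have h : (2 : ZMod 2) • v = 0 := by
    have : (2 : ZMod 2) = 0 := rfl
    rw [this, zero_smul]
  rwa [two_smul] at h

private lemma fivewhite_eq {v w : V} (h : v + w = 0) : v = w := by
  calc v = v + (w + w) := by rw [fivewhite_two, add_zero]
    _ = (v + w) + w := by abel
    _ = w := by rw [h, zero_add]

-- F-1  (FiveWhite.lean)
theorem five_white (X : Set V) (hX0 : (0 : V) ∉ X) (h5 : FiveFree X) (t : ℕ) (ht : 1 ≤ t)
    (H : Submodule (ZMod 2) V) (hH : 2 * t ≤ finrank (ZMod 2) H) (hb : ¬ HasBlack X H t)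
    (hw : ¬ HasWhite X H t) : 1 / 4 ≤ rd {v | v ≠ 0 ∧ v ∉ X} H 0 := by
  classical
  by_cases hc : ∃ m1 m2 : V, m1 ∈ H ∧ m2 ∈ H ∧ (m1 ≠ 0 ∧ m1 ∉ X) ∧ (m2 ≠ 0 ∧ m2 ∉ X) ∧ m1 ≠ m2 ∧
      m1 + m2 ∈ X
  · obtain ⟨m1, m2, hm1H, hm2H, hm1, hm2, hne, hmX⟩ := hc
    set M : Set V := {v | v ≠ 0 ∧ v ∉ X} with hM
    have hcov : ∀ v : V, v - 0 ∈ H → v ∈ M ∪ {v | v + m1 ∈ M} ∪ {v | v + m2 ∈ M} ∪
        {v | v + (m1 + m2) ∈ M} := by
      intro v _
      by_contra hv
      simp only [Set.mem_union, Set.mem_setOf_eq, not_or] at hv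
      obtain ⟨⟨⟨n0, n1⟩, n2⟩, n3⟩ := hv
      have e1 : v ≠ 0 := by
        rintro rfl; rw [zero_add] at n1; exact n1 hm1
      have e2 : v ≠ m1 := by
        rintro rfl
        exact n0 hm1
      have e3 : v ≠ m2 := by
        rintro rfl
        exact n0 hm2
      have e4 : v ≠ m1 + m2 := by
        rintro rfl
        apply n1
        have : m1 + m2 + m1 = m2 := by
          have h := fivewhite_two m1
          calc m1 + m2 + m1 = (m1 + m1) + m2 := by abel
            _ = m2 := by rw [h, zero_add]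
        rw [this]; exact hm2
      have k0 : v ∈ X := by
        by_contra h; exact n0 ⟨e1, h⟩
      have k1 : v + m1 ∈ X := by
        by_contra h; exact n1 ⟨fun h' => e2 (fivewhite_eq h'), h⟩
      have k2 : v + m2 ∈ X := by
        by_contra h; exact n2 ⟨fun h' => e3 (fivewhite_eq h'), h⟩
      have k3 : v + (m1 + m2) ∈ X := by
        by_contra h; exact n3 ⟨fun h' => e4 (fivewhite_eq h'), h⟩
      apply h5 m1 m2 v ⟨hm1.1, hm2.1, hne, e1, e2, e3, e4⟩
      have k1' : m1 + v ∈ X := by rw [add_comm]; exact k1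
      have k2' : m2 + v ∈ X := by rw [add_comm]; exact k2
      have k3' : m1 + m2 + v ∈ X := by rw [add_comm]; exact k3
      unfold cnt3 ind
      rw [if_neg hm1.2, if_neg hm2.2, if_pos k0, if_pos hmX, if_pos k1', if_pos k2', if_pos k3']
    have hfull := rd_full (p := 2) hcov
    have htr : ∀ m ∈ H, rd {v | v + m ∈ M} H 0 = rd M H 0 := by
      intro m hm
      have h1 : rd {v | v + m ∈ M} H 0 = rd M H m := by
        unfold rd
        congr 2
        apply Nat.card_congr
        refine Equiv.subtypeEquivRight fun h => ?_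
        simp only [Set.mem_setOf_eq, zero_add]
        rw [add_comm]
      rw [h1]
      exact rd_congr M (by simpa using hm)
    have u1 := rd_union_le (p := 2) (M ∪ {v | v + m1 ∈ M} ∪ {v | v + m2 ∈ M})
      {v | v + (m1 + m2) ∈ M} H 0
    have u2 := rd_union_le (p := 2) (M ∪ {v | v + m1 ∈ M}) {v | v + m2 ∈ M} H 0
    have u3 := rd_union_le (p := 2) M {v | v + m1 ∈ M} H 0
    rw [hfull] at u1
    rw [htr _ (H.add_mem hm1H hm2H)] at u1
    rw [htr _ hm2H] at u2
    rw [htr _ hm1H] at u3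
    linarith
  · exfalso
    have hsum : ∀ m1 m2 : V, m1 ∈ H → m2 ∈ H → (m1 ≠ 0 ∧ m1 ∉ X) → (m2 ≠ 0 ∧ m2 ∉ X) →
        m1 ≠ m2 → m1 + m2 ∉ X := fun m1 m2 h1 h2 h3 h4 h5 h6 => hc ⟨m1, m2, h1, h2, h3, h4, h5, h6⟩
    let Y : Submodule (ZMod 2) V :=
      { carrier := {v | v ∈ H ∧ v ∉ X}
        zero_mem' := ⟨H.zero_mem, hX0⟩
        add_mem' := by
          rintro v w ⟨hv, hvX⟩ ⟨hw', hwX⟩
          refine ⟨H.add_mem hv hw', ?_⟩
          by_cases h1 : v = 0
          · rw [h1, zero_add]; exact hwX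
          by_cases h2 : w = 0
          · rw [h2, add_zero]; exact hvX
          by_cases h3 : v = w
          · rw [h3, fivewhite_two]; exact hX0
          exact hsum v w hv hw' ⟨h1, hvX⟩ ⟨h2, hwX⟩ h3
        smul_mem' := by
          rintro c v ⟨hv, hvX⟩
          refine ⟨H.smul_mem c hv, ?_⟩
          rcases (by decide : ∀ c : ZMod 2, c = 0 ∨ c = 1) c with rfl | rfl
          · rw [zero_smul]; exact hX0
          · rw [one_smul]; exact hvX }
    have hYH : Y ≤ H := fun v hv => hv.1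
    have hYt : finrank (ZMod 2) Y < t := by
      by_contra h
      obtain ⟨W, hW, fW⟩ := fivewhite_sub Y t (not_lt.mp h)
      exact hw ⟨W, le_trans hW hYH, fW, fun w hwW _ => (hW hwW).2⟩
    obtain ⟨C, hCH, hCinf, -, hCf⟩ := exists_compl hYH
    obtain ⟨W, hW, fW⟩ := fivewhite_sub C t (by omega)
    apply hb
    refine ⟨W, le_trans hW hCH, fW, fun w hwW hw0 => ?_⟩
    by_contra hwX
    have : w ∈ C ⊓ Y := ⟨hW hwW, hCH (hW hwW), hwX⟩
    rw [hCinf, Submodule.mem_bot] at this
    exact hw0 this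

end Five

end EHProj
end

section

/-! F-2: the special direction for 5-free sets. -/

namespace EHProj

open scoped LinearAlgebra.Projectivization
open Module

section FiveFind

variable {V : Type} [AddCommGroup V] [Module (ZMod 2) V]

private theorem fivefind_zmod2 (c : ZMod 2) : c = 0 ∨ c = 1 := by revert c; decide

private theorem fivefind_add_self (v : V) : v + v = 0 := by
  have h : (2 : ZMod 2) • v = 0 := by
    have : (2 : ZMod 2) = 0 := by decide
    rw [this, zero_smul]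
  rwa [two_smul] at h

private theorem fivefind_scale (X : Set V) (c : ZMod 2) (v : V) (hc : c ≠ 0) (hv : v ∈ X) :
    c • v ∈ X := by
  have : c = 1 := by
    revert c; decide
  rw [this, one_smul]; exact hv

private theorem fivefind_black_mono {X : Set V} {H : Submodule (ZMod 2) V} {t : ℕ}
    (h : HasBlack X H t) : HasBlack (p := 2) X ⊤ t := by
  obtain ⟨W, _, h2, h3⟩ := h
  exact ⟨W, le_top, h2, h3⟩

private theorem fivefind_white_mono {X : Set V} {H : Submodule (ZMod 2) V} {t : ℕ}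
    (h : HasWhite X H t) : HasWhite (p := 2) X ⊤ t := by
  obtain ⟨W, _, h2, h3⟩ := h
  exact ⟨W, le_top, h2, h3⟩

open Classical in
private theorem fivefind_rd_sum [Finite V] (A : Set V) (H : Submodule (ZMod 2) V) [Fintype H]
    (x : V) : rd A H x = (∑ h : H, if x + (h : V) ∈ A then (1 : ℝ) else 0) / (Nat.card H : ℝ) := by
  unfold rd
  congr 1
  rw [Nat.card_eq_fintype_card, Fintype.card_subtype, Finset.card_filter]
  push_cast
  rfl

/-- density in `H + ⟨z⟩` -/
private theorem fivefind_double [Finite V] (M : Set V) (H : Submodule (ZMod 2) V) (z : V)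
    (hz : z ∉ H) (hz0 : z ≠ 0) :
    finrank (ZMod 2) (H ⊔ Submodule.span (ZMod 2) {z} : Submodule (ZMod 2) V)
      = finrank (ZMod 2) H + 1 ∧
    2 * rd M (H ⊔ Submodule.span (ZMod 2) {z}) 0 ≤ rd M H 0 + rd M H z := by
  have : Module.Finite (ZMod 2) V := inferInstance
  have hinf : H ⊓ Submodule.span (ZMod 2) {z} = ⊥ := by
    rw [Submodule.eq_bot_iff]
    rintro v ⟨hv1, hv2⟩
    obtain ⟨c, rfl⟩ := Submodule.mem_span_singleton.1 hv2
    have hc : c = 0 ∨ c = 1 := fivefind_zmod2 c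
    rcases hc with rfl | rfl
    · simp
    · rw [one_smul] at hv1; exact absurd hv1 hz
  have hfr : finrank (ZMod 2) (H ⊔ Submodule.span (ZMod 2) {z} : Submodule (ZMod 2) V)
      = finrank (ZMod 2) H + 1 := by
    have h1 := Submodule.finrank_sup_add_finrank_inf_eq H (Submodule.span (ZMod 2) {z})
    rw [hinf, finrank_bot, finrank_span_singleton hz0] at h1
    omega
  refine ⟨hfr, ?_⟩
  have hcard : (Nat.card (H ⊔ Submodule.span (ZMod 2) {z} : Submodule (ZMod 2) V) : ℝ)
      = 2 * (Nat.card H : ℝ) := by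
    rw [natCard_eq, natCard_eq, hfr, pow_succ]
    push_cast
    ring
  have hpos : (0 : ℝ) < (Nat.card H : ℝ) := by
    have : 0 < Nat.card H := Nat.card_pos
    exact_mod_cast this
  have hcnt : Nat.card {h : (H ⊔ Submodule.span (ZMod 2) {z} : Submodule (ZMod 2) V) //
      0 + (h : V) ∈ M} ≤ Nat.card {h : H // 0 + (h : V) ∈ M} + Nat.card {h : H // z + (h : V) ∈ M} := by
    rw [← Nat.card_sum]
    let φ : {h : H // 0 + (h : V) ∈ M} ⊕ {h : H // z + (h : V) ∈ M} →
        {h : (H ⊔ Submodule.span (ZMod 2) {z} : Submodule (ZMod 2) V) // 0 + (h : V) ∈ M} :=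
      fun s => match s with
        | Sum.inl h => ⟨⟨h.1, Submodule.mem_sup_left h.1.2⟩, h.2⟩
        | Sum.inr h => ⟨⟨z + h.1, add_mem (Submodule.mem_sup_right
            (Submodule.mem_span_singleton_self z)) (Submodule.mem_sup_left h.1.2)⟩,
            by rw [zero_add]; exact h.2⟩
    apply Nat.card_le_card_of_surjective φ
    rintro ⟨⟨v, hv⟩, hvM⟩
    obtain ⟨a, ha, b, hb, hab⟩ := Submodule.mem_sup.1 hv
    obtain ⟨c, rfl⟩ := Submodule.mem_span_singleton.1 hb
    have hc : c = 0 ∨ c = 1 := fivefind_zmod2 c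
    rcases hc with rfl | rfl
    · rw [zero_smul, add_zero] at hab
      subst hab
      exact ⟨Sum.inl ⟨⟨a, ha⟩, hvM⟩, rfl⟩
    · rw [one_smul] at hab
      subst hab
      refine ⟨Sum.inr ⟨⟨a, ha⟩, ?_⟩, ?_⟩
      · have h2 : z + a = 0 + (a + z) := by rw [zero_add, add_comm]
        change z + a ∈ M
        rw [h2]; exact hvM
      · apply Subtype.ext
        apply Subtype.ext
        exact add_comm z a
  unfold rd
  rw [hcard]
  have h2 : (Nat.card {h : (H ⊔ Submodule.span (ZMod 2) {z} : Submodule (ZMod 2) V) //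
      0 + (h : V) ∈ M} : ℝ) ≤ (Nat.card {h : H // 0 + (h : V) ∈ M} : ℝ)
        + (Nat.card {h : H // z + (h : V) ∈ M} : ℝ) := by exact_mod_cast hcnt
  rw [← add_div, mul_div_assoc']
  rw [div_le_div_iff₀ (by positivity) hpos]
  nlinarith

private theorem fivefind_ind_pos {X : Set V} {v : V} (h : v ∈ X) : ind X v = 1 := by
  unfold ind; simp [h]

private theorem fivefind_ind_neg {X : Set V} {v : V} (h : v ∉ X) : ind X v = 0 := by
  unfold ind; simp [h]

variable [Finite V]

theorem five_find (X : Set V) (hX0 : (0 : V) ∉ X) (h5 : FiveFree X) (t : ℕ) (ht : 1 ≤ t)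
    (hdim : fiveN t ≤ finrank (ZMod 2) V) (hb : ¬ HasBlack (p := 2) X ⊤ t)
    (hw : ¬ HasWhite (p := 2) X ⊤ t) :
    ∃ z ∈ X, ∃ F : Submodule (ZMod 2) V, z ∉ F ∧ 2 * t + 2 ≤ finrank (ZMod 2) F ∧
      ∀ h ∈ F, h ≠ 0 → (h + z ∈ X ↔ h ∉ X) := by
  classical
  have hhalf : (1 / ((2 : ℕ) : ℝ)) = (1 / 2 : ℝ) := by norm_num
  have htop : finrank (ZMod 2) (⊤ : Submodule (ZMod 2) V) = finrank (ZMod 2) V := finrank_top _ _
  unfold fiveN at hdim
  -- Step A
  have hA0 : (1 / 2 : ℝ) ^ t ≤ rd X (⊤ : Submodule (ZMod 2) V) 0 := by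
    have h := density_black (p := 2) X (fivefind_scale X) ⊤ t (by omega) hw
    rwa [hhalf] at h
  obtain ⟨V1, -, hV1, x1, -, hx1, hV1C⟩ := it1 (p := 2) ⊤ X 0 t t ht hA0
  rw [htop] at hV1
  have hA1 : (1 / 2 : ℝ) ^ t ≤ rd X V1 0 := by
    have h := density_black (p := 2) X (fivefind_scale X) V1 t (by omega)
      (fun h => hw (fivefind_white_mono h))
    rwa [hhalf] at h
  obtain ⟨z, hzX, hzV1, hz⟩ := hV1C X hA1
  have hz0 : z ≠ 0 := by rintro rfl; exact hX0 hzX
  have hzA : (1 / 2 : ℝ) ^ (2 * t + 1) ≤ rd {v | v ∈ X ∧ v + z ∈ X} V1 x1 := by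
    refine le_trans ?_ hz
    have h1 : (1 / 2 : ℝ) ^ t ≤ rd X V1 x1 := hA0.trans hx1
    have h2 : ((1 / 2 : ℝ) ^ t) ^ 2 ≤ (rd X V1 x1) ^ 2 := pow_le_pow_left₀ (by positivity) h1 2
    have h3 : (1 / 2 : ℝ) ^ (2 * t + 1) = (1 / 2) * ((1 / 2 : ℝ) ^ t) ^ 2 := by
      rw [pow_succ, mul_comm 2 t, pow_mul]; ring
    rw [h3]
    linarith
  obtain ⟨H0, hH0V1, hH0inf, -, hH0fr⟩ := exists_compl (p := 2)
    (W := Submodule.span (ZMod 2) {z}) (H := V1)
    (by rw [Submodule.span_singleton_le_iff_mem]; exact hzV1)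
  rw [finrank_span_singleton hz0] at hH0fr
  have hzH0 : z ∉ H0 := by
    intro h
    have h2 : z ∈ H0 ⊓ Submodule.span (ZMod 2) {z} := ⟨h, Submodule.mem_span_singleton_self z⟩
    rw [hH0inf] at h2
    exact hz0 (by simpa using h2)
  obtain ⟨y, -, hy⟩ := rd_avg (p := 2) {v | v ∈ X ∧ v + z ∈ X} hH0V1 x1
  have hA2 : (1 / 2 : ℝ) ^ (2 * t + 1) ≤ rd {v | v ∈ X ∧ v + z ∈ X} H0 y := hzA.trans hy
  -- Step B
  obtain ⟨H1, hH1, hH1fr, -, hH1C⟩ := it1_disj (p := 2) H0 {v | v ∈ X ∧ v + z ∈ X}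
    {h | h ∉ X ∧ h + z ∉ X} y (2 * t + 1) (fc0 t) (by omega) hA2 (by
      rintro v w - hwH ⟨hv1, hv2⟩ ⟨hvw1, hvw2⟩ ⟨hw1, hw2⟩
      have hi : Ind3 z v w := by
        refine ⟨hz0, ?_, ?_, ?_, ?_, ?_, ?_⟩
        · rintro rfl; exact hX0 hv1
        · rintro rfl; rw [fivefind_add_self] at hv2; exact hX0 hv2
        · rintro rfl; rw [zero_add] at hw2; exact hw2 hzX
        · rintro rfl; exact hw1 hzX
        · rintro rfl; exact hw1 hv1
        · rintro rfl; rw [add_comm] at hw1; exact hw1 hv2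
      apply h5 z v w hi
      unfold cnt3
      rw [fivefind_ind_pos hzX, fivefind_ind_pos hv1, fivefind_ind_neg hw1,
        fivefind_ind_pos (show z + v ∈ X by rw [add_comm]; exact hv2),
        fivefind_ind_neg (show z + w ∉ X by rw [add_comm]; exact hw2),
        fivefind_ind_pos hvw1,
        fivefind_ind_pos (show z + v + w ∈ X by rw [add_assoc, add_comm]; exact hvw2)])
  have hzH1 : z ∉ H1 := fun h => hzH0 (hH1 h)
  -- Step C
  obtain ⟨hfrd, hdd⟩ := fivefind_double {v | v ≠ 0 ∧ v ∉ X} H1 z hzH1 hz0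
  have hfkB : fkB t = 45 * (2 * t + 1) * KK (2 * t + 1) (fc0 t) := rfl
  have hfk : fk t = 90 * KK 2 (fg t) := rfl
  have hwhite := five_white X hX0 h5 t ht (H1 ⊔ Submodule.span (ZMod 2) {z})
    (by omega) (fun h => hb (fivefind_black_mono h)) (fun h => hw (fivefind_white_mono h))
  have hsum : rd {v | v ≠ 0 ∧ v ∉ X} H1 0 + rd {v | v ≠ 0 ∧ v ∉ X} H1 z ≤
      2 * rd {h | h ∉ X ∧ h + z ∉ X} H1 0
        + rd {h | (h ∈ X ∧ h + z ∉ X) ∨ (h ∉ X ∧ h + z ∈ X)} H1 0 := by
    have : Fintype H1 := Fintype.ofFinite H1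
    rw [fivefind_rd_sum, fivefind_rd_sum, fivefind_rd_sum, fivefind_rd_sum, ← add_div,
      mul_div_assoc', ← add_div, ← Finset.sum_add_distrib, Finset.mul_sum,
      ← Finset.sum_add_distrib]
    have hpos : (0 : ℝ) < (Nat.card H1 : ℝ) := by
      have : 0 < Nat.card H1 := Nat.card_pos
      exact_mod_cast this
    apply div_le_div_of_nonneg_right _ hpos.le
    apply Finset.sum_le_sum
    intro h _
    simp only [Set.mem_ofPred_eq, zero_add, add_comm z (h : V)]
    have k0 : ∀ u : V, (if u ≠ 0 ∧ u ∉ X then (1 : ℝ) else 0)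
        ≤ (if u ∉ X then (1 : ℝ) else 0) := by
      intro u
      by_cases g : u ∉ X
      · rw [if_pos g]
        split_ifs <;> norm_num
      · rw [if_neg g, if_neg (fun h' => g h'.2)]
    have k1 := k0 (h : V)
    have k2 := k0 ((h : V) + z)
    refine (add_le_add k1 k2).trans ?_
    by_cases h1 : (h : V) ∈ X <;> by_cases h2 : (h : V) + z ∈ X <;>
      simp [h1, h2] <;> norm_num
  have hC1 : (1 / 2 : ℝ) ^ 2 ≤ rd {h | (h ∈ X ∧ h + z ∉ X) ∨ (h ∉ X ∧ h + z ∈ X)} H1 0 := by
    have h1 : (1 / 2 : ℝ) ^ (fc0 t) ≤ (1 / 2 : ℝ) ^ 3 := by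
      apply pow_le_pow_of_le_one (by norm_num) (by norm_num)
      unfold fc0 fg; omega
    norm_num at h1 ⊢
    linarith
  obtain ⟨H2, hH2, hH2fr, -, hH2C⟩ := it1_disj (p := 2) H1
    {h | (h ∈ X ∧ h + z ∉ X) ∨ (h ∉ X ∧ h + z ∈ X)}
    {h | h ∈ X ∧ h + z ∈ X} 0 2 (fg t) (by omega) hC1 (by
      rintro v w hv hwH hvC hvwC ⟨hw1, hw2⟩
      rw [sub_zero] at hv
      simp only [Set.mem_ofPred_eq] at hvC hvwC
      have hi : Ind3 z v w := by
        refine ⟨hz0, ?_, ?_, ?_, ?_, ?_, ?_⟩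
        · rintro rfl
          rw [zero_add] at hvwC
          tauto
        · rintro rfl; exact hzH1 hv
        · rintro rfl; exact hX0 hw1
        · rintro rfl; exact hzH1 hwH
        · rintro rfl; tauto
        · rintro rfl
          have e1 : z + v + z = v := by
            rw [add_comm z v, add_assoc, fivefind_add_self, add_zero]
          rw [e1] at hw2
          rw [add_comm] at hw1
          tauto
      apply h5 z v w hi
      unfold cnt3
      have e1 : ind X v + ind X (z + v) = 1 := by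
        rw [add_comm z v]
        rcases hvC with ⟨h1, h2⟩ | ⟨h1, h2⟩
        · rw [fivefind_ind_pos h1, fivefind_ind_neg h2]
        · rw [fivefind_ind_neg h1, fivefind_ind_pos h2]
      have e2 : ind X (v + w) + ind X (z + v + w) = 1 := by
        have e3 : z + v + w = v + w + z := by abel
        rw [e3]
        rcases hvwC with ⟨h1, h2⟩ | ⟨h1, h2⟩
        · rw [fivefind_ind_pos h1, fivefind_ind_neg h2]
        · rw [fivefind_ind_neg h1, fivefind_ind_pos h2]
      rw [fivefind_ind_pos hzX, fivefind_ind_pos hw1,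
        fivefind_ind_pos (show z + w ∈ X by rw [add_comm]; exact hw2)]
      omega)
  have hrest : rd {h | h ∉ X ∧ h + z ∉ X} H2 0 < (1 / 2 : ℝ) ^ (fg t) := by
    have h1 := rd_restrict (p := 2) {h : V | h ∉ X ∧ h + z ∉ X} hH2 (x := 0) (y := 0)
      (by rw [sub_zero]; exact H1.zero_mem) (fk t) (by omega)
    refine lt_of_le_of_lt h1 ?_
    have h2 : (1 / 2 : ℝ) ^ (fc0 t) = (1 / 2 : ℝ) ^ (fg t) * (1 / 2 : ℝ) ^ (fk t) := by
      unfold fc0; rw [pow_add]
    have h3 : (((2 : ℕ) : ℝ)) ^ (fk t) * (1 / 2 : ℝ) ^ (fk t) = 1 := by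
      rw [← mul_pow]; norm_num
    have h4 : (0 : ℝ) < (((2 : ℕ) : ℝ)) ^ (fk t) := by positivity
    calc (((2 : ℕ) : ℝ)) ^ (fk t) * rd {h | h ∉ X ∧ h + z ∉ X} H1 0
        < (((2 : ℕ) : ℝ)) ^ (fk t) * (1 / 2 : ℝ) ^ (fc0 t) := mul_lt_mul_of_pos_left hH1C h4
      _ = (((2 : ℕ) : ℝ)) ^ (fk t) * (1 / 2 : ℝ) ^ (fk t) * (1 / 2 : ℝ) ^ (fg t) := by
          rw [h2]; ring
      _ = _ := by rw [h3, one_mul]
  have hE : rd ({h | h ∉ X ∧ h + z ∉ X} ∪ {h | h ∈ X ∧ h + z ∈ X}) H2 0
      < (1 / ((2 : ℕ) : ℝ)) ^ (2 * t + 2) := by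
    have h1 := rd_union_le (p := 2) {h : V | h ∉ X ∧ h + z ∉ X} {h | h ∈ X ∧ h + z ∈ X} H2 0
    rw [hhalf]
    have h2 : (1 / 2 : ℝ) ^ (fg t) = (1 / 2 : ℝ) ^ (2 * t + 2) * (1 / 4) := by
      unfold fg
      rw [show 2 * t + 4 = (2 * t + 2) + 2 by ring, pow_add]
      norm_num
    have h3 : (0 : ℝ) < (1 / 2 : ℝ) ^ (2 * t + 2) := by positivity
    linarith
  obtain ⟨F, hF, hFfr, hFE⟩ := avoid (p := 2)
    ({h : V | h ∉ X ∧ h + z ∉ X} ∪ {h | h ∈ X ∧ h + z ∈ X}) (fivefind_scale _) H2 (2 * t + 2)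
    (by omega) hE
  refine ⟨z, hzX, F, fun h => hzH1 (hH2 (hF h)), by omega, ?_⟩
  intro h hh hh0
  have := hFE h hh hh0
  simp only [Set.mem_union, Set.mem_ofPred_eq] at this
  tauto

end FiveFind

end EHProj
end

section

/-! # L-7: line-free sets, case one, local patterns -/

namespace EHProj

open scoped LinearAlgebra.Projectivization
open Module

section Line
variable {V : Type} [AddCommGroup V] [Module (ZMod 2) V] [Finite V]

private abbrev LLI : Type := ZMod 2 × ZMod 2 × ZMod 2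

omit [Finite V] in
private theorem linelocal_self (v : V) : v + v = 0 := by
  have h : (2 : ZMod 2) • v = 0 := by
    rw [show (2 : ZMod 2) = 0 from rfl, zero_smul]
  rwa [two_smul] at h

omit [Finite V] in
private theorem linelocal_eq {u v : V} (h : u + v = 0) : u = v := by
  have h1 := linelocal_self v
  have h2 : u + v = v + v := by rw [h, h1]
  exact add_right_cancel h2

omit [Finite V] in
private theorem linelocal_ind (F S : Submodule (ZMod 2) V) (hFS : F ⊓ S = ⊥) {f g h u v w : V}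
    (hf : f ∈ F) (hg : g ∈ F) (hh : h ∈ F) (hu : u ∈ S) (hv : v ∈ S) (hw : w ∈ S)
    (hi : Ind3 f g h) : Ind3 (f + u) (g + v) (h + w) := by
  have key : ∀ p ∈ F, ∀ q ∈ S, p + q = 0 → p = 0 := by
    intro p hp q hq hpq
    have h1 : p = q := linelocal_eq hpq
    have h2 : p ∈ F ⊓ S := ⟨hp, h1 ▸ hq⟩
    rw [hFS] at h2
    exact (Submodule.mem_bot _).mp h2
  obtain ⟨h1, h2, h3, h4, h5, h6, h7⟩ := hi
  refine ⟨fun e => h1 (key f hf u hu e), fun e => h2 (key g hg v hv e), fun e => ?_,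
    fun e => h4 (key h hh w hw e), fun e => ?_, fun e => ?_, fun e => ?_⟩
  · apply h3
    apply linelocal_eq
    apply key _ (F.add_mem hf hg) _ (S.add_mem hu hv)
    calc f + g + (u + v) = (f + u) + (g + v) := by abel
      _ = 0 := by rw [e, linelocal_self]
  · apply h5
    apply linelocal_eq
    apply key _ (F.add_mem hh hf) _ (S.add_mem hw hu)
    calc h + f + (w + u) = (h + w) + (f + u) := by abel
      _ = 0 := by rw [e, linelocal_self]
  · apply h6
    apply linelocal_eq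
    apply key _ (F.add_mem hh hg) _ (S.add_mem hw hv)
    calc h + g + (w + v) = (h + w) + (g + v) := by abel
      _ = 0 := by rw [e, linelocal_self]
  · apply h7
    apply linelocal_eq
    apply key _ (F.add_mem hh (F.add_mem hf hg)) _ (S.add_mem hw (S.add_mem hu hv))
    calc h + (f + g) + (w + (u + v)) = (h + w) + (f + u + (g + v)) := by abel
      _ = 0 := by rw [e, linelocal_self]

private instance llIndDec (i j k : LLI) : Decidable (Ind3 i j k) := by
  unfold Ind3
  infer_instance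

private theorem ll_ne2 : ∀ i j : LLI, i ≠ j → i + j ≠ 0 := by decide

private theorem ll_ne4 : ∀ u v t : LLI, t ≠ u + v → u ≠ u + v + (u + t) := by decide

private theorem ll_ne3 (u v t : LLI) (h : Ind3 u v t) :
    u + v ≠ 0 ∧ u + t ≠ 0 ∧ v + t ≠ 0 ∧ u + v + t ≠ 0 ∧ Ind3 (u + v) (u + t) u := by
  obtain ⟨h1, h2, h3, h4, h5, h6, h7⟩ := h
  refine ⟨ll_ne2 _ _ h3, ll_ne2 _ _ (Ne.symm h5), ll_ne2 _ _ (Ne.symm h6),
    ll_ne2 _ _ (Ne.symm h7), ll_ne2 _ _ h3, ll_ne2 _ _ (Ne.symm h5), ?_, h1, ?_, ?_,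
    ll_ne4 _ _ _ h7⟩
  · intro e
    exact h6 (add_left_cancel e).symm
  · intro e
    apply h2
    have : u + 0 = u + v := by rw [add_zero]; exact e
    exact (add_left_cancel this).symm
  · intro e
    apply h4
    have : u + 0 = u + t := by rw [add_zero]; exact e
    exact (add_left_cancel this).symm

private noncomputable def llcb (x y w : V) (i : LLI) : V := i.1 • x + i.2.1 • y + i.2.2 • w

omit [Finite V] in
private theorem llcb_add (x y w : V) (i j : LLI) :
    llcb x y w (i + j) = llcb x y w i + llcb x y w j := by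
  simp only [llcb, Prod.fst_add, Prod.snd_add, add_smul]
  abel

omit [Finite V] in
private theorem llcb_ne (x y w : V) (hi : Ind3 x y w) (i : LLI) (h : i ≠ 0) :
    llcb x y w i ≠ 0 := by
  obtain ⟨h1, h2, h3, h4, h5, h6, h7⟩ := hi
  have e : ∀ i : LLI, i = (0, 0, 0) ∨ i = (1, 0, 0) ∨ i = (0, 1, 0) ∨ i = (0, 0, 1) ∨
      i = (1, 1, 0) ∨ i = (1, 0, 1) ∨ i = (0, 1, 1) ∨ i = (1, 1, 1) := by decide
  rcases e i with rfl | rfl | rfl | rfl | rfl | rfl | rfl | rfl
  · exact absurd rfl h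
  · simpa [llcb] using h1
  · simpa [llcb] using h2
  · simpa [llcb] using h4
  · intro e
    simp only [llcb, one_smul, zero_smul, add_zero] at e
    exact h3 (linelocal_eq e)
  · intro e
    simp only [llcb, one_smul, zero_smul, add_zero] at e
    exact h5 (linelocal_eq e).symm
  · intro e
    simp only [llcb, one_smul, zero_smul, zero_add] at e
    exact h6 (linelocal_eq e).symm
  · intro e
    simp only [llcb, one_smul] at e
    exact h7 (linelocal_eq e).symm

omit [Finite V] in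
private theorem llcb_inj (x y w : V) (hi : Ind3 x y w) {i j : LLI} (h : i ≠ j) :
    llcb x y w i ≠ llcb x y w j := by
  intro e
  have h1 : i + j ≠ 0 := ll_ne2 i j h
  apply llcb_ne x y w hi _ h1
  rw [llcb_add, e, linelocal_self]

omit [Finite V] in
private theorem llcb_ind (x y w : V) (hi : Ind3 x y w) {i j k : LLI} (h : Ind3 i j k) :
    Ind3 (llcb x y w i) (llcb x y w j) (llcb x y w k) := by
  obtain ⟨h1, h2, h3, h4, h5, h6, h7⟩ := h
  refine ⟨llcb_ne _ _ _ hi _ h1, llcb_ne _ _ _ hi _ h2, llcb_inj _ _ _ hi h3,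
    llcb_ne _ _ _ hi _ h4, llcb_inj _ _ _ hi h5, llcb_inj _ _ _ hi h6, ?_⟩
  rw [← llcb_add]
  exact llcb_inj _ _ _ hi h7

theorem line_local (X : Set V) (hX0 : (0 : V) ∉ X) (hL : LineFree X)
    (a b : V) (ha : a ∈ X) (hb : b ∈ X) (hab : a + b ∈ X) (hne : a ≠ b)
    (F : Submodule (ZMod 2) V) (hF : F ⊓ Submodule.span (ZMod 2) {a, b} = ⊥)
    (h1 : ∀ h ∈ F, h ≠ 0 → ∀ z ∈ ({a, b, a + b} : Set V), (h + z ∈ X ↔ h ∉ X))
    (x y w : V) (hx : x ∈ F) (hy : y ∈ F) (hwF : w ∈ F) (hi : Ind3 x y w) :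
    cnt3 X x y w = 0 ∨ cnt3 X x y w = 1 ∨ cnt3 X x y w = 2 ∨ cnt3 X x y w = 4 ∨
      cnt3 X x y w = 6 := by
  have hSa : a ∈ Submodule.span (ZMod 2) {a, b} := Submodule.subset_span (by simp)
  have hSb : b ∈ Submodule.span (ZMod 2) {a, b} := Submodule.subset_span (by simp)
  have hSc : a + b ∈ Submodule.span (ZMod 2) {a, b} := Submodule.add_mem _ hSa hSb
  have hS0 : (0 : V) ∈ Submodule.span (ZMod 2) {a, b} := Submodule.zero_mem _
  have hcF : ∀ i : LLI, llcb x y w i ∈ F := fun i =>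
    F.add_mem (F.add_mem (F.smul_mem _ hx) (F.smul_mem _ hy)) (F.smul_mem _ hwF)
  have sa : ∀ i : LLI, i ≠ 0 → (llcb x y w i + a ∈ X ↔ llcb x y w i ∉ X) := fun i h =>
    h1 _ (hcF i) (llcb_ne x y w hi i h) a (by simp)
  have sb : ∀ i : LLI, i ≠ 0 → (llcb x y w i + b ∈ X ↔ llcb x y w i ∉ X) := fun i h =>
    h1 _ (hcF i) (llcb_ne x y w hi i h) b (by simp)
  have sc : ∀ i : LLI, i ≠ 0 → (llcb x y w i + (a + b) ∈ X ↔ llcb x y w i ∉ X) := fun i h =>
    h1 _ (hcF i) (llcb_ne x y w hi i h) (a + b) (by simp)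
  have haa := linelocal_self a
  have hbb := linelocal_self b
  -- the seven points are all in `X`
  have HF : ∀ u v t uv ut vt uvt : LLI, (Ind3 u v t ∧ u + v = uv ∧ u + t = ut ∧ v + t = vt ∧
      u + v + t = uvt) → ¬ (llcb x y w u ∈ X ∧ llcb x y w v ∈ X ∧ llcb x y w t ∈ X ∧
        llcb x y w uv ∈ X ∧ llcb x y w ut ∈ X ∧ llcb x y w vt ∈ X ∧ llcb x y w uvt ∈ X) := by
    rintro u v t _ _ _ _ ⟨hI, rfl, rfl, rfl, rfl⟩ ⟨m1, m2, m3, m4, m5, m6, m7⟩
    have hI' := linelocal_ind F _ hF (hcF u) (hcF v) (hcF t) hS0 hS0 hSa (llcb_ind x y w hi hI)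
    simp only [add_zero] at hI'
    rcases hL _ _ _ hI' m1 m2 (by rw [← llcb_add]; exact m4) with h | h | h | h
    · exact (sa t hI.2.2.2.1).mp h m3
    · rw [show llcb x y w t + a + llcb x y w u = llcb x y w (u + t) + a by
        rw [llcb_add]; abel] at h
      exact (sa _ (ll_ne3 u v t hI).2.1).mp h m5
    · rw [show llcb x y w t + a + llcb x y w v = llcb x y w (v + t) + a by
        rw [llcb_add]; abel] at h
      exact (sa _ (ll_ne3 u v t hI).2.2.1).mp h m6
    · rw [show llcb x y w t + a + llcb x y w u + llcb x y w v = llcb x y w (u + v + t) + a by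
        rw [llcb_add, llcb_add]; abel] at h
      exact (sa _ (ll_ne3 u v t hI).2.2.2.1).mp h m7
  have HL : ∀ u v t uv ut vt uvt : LLI, (Ind3 u v t ∧ u + v = uv ∧ u + t = ut ∧ v + t = vt ∧
      u + v + t = uvt) → ¬ (llcb x y w u ∈ X ∧ llcb x y w v ∈ X ∧ ¬ llcb x y w t ∈ X ∧
        llcb x y w uv ∈ X ∧ ¬ llcb x y w ut ∈ X ∧ ¬ llcb x y w vt ∈ X ∧
        ¬ llcb x y w uvt ∈ X) := by
    rintro u v t _ _ _ _ ⟨hI, rfl, rfl, rfl, rfl⟩ ⟨m1, m2, m3, m4, m5, m6, m7⟩
    rcases hL _ _ _ (llcb_ind x y w hi hI) m1 m2 (by rw [← llcb_add]; exact m4) with h | h | h | h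
    · exact m3 h
    · rw [← llcb_add, add_comm] at h
      exact m5 h
    · rw [← llcb_add, add_comm] at h
      exact m6 h
    · rw [← llcb_add, ← llcb_add, add_assoc, add_comm] at h
      exact m7 h
  have HT : ∀ u v t uv ut vt uvt : LLI, (Ind3 u v t ∧ u + v = uv ∧ u + t = ut ∧ v + t = vt ∧
      u + v + t = uvt) → ¬ (llcb x y w u ∈ X ∧ llcb x y w v ∈ X ∧ llcb x y w t ∈ X ∧
        ¬ llcb x y w uv ∈ X ∧ ¬ llcb x y w ut ∈ X ∧ ¬ llcb x y w vt ∈ X ∧
        ¬ llcb x y w uvt ∈ X) := by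
    rintro u v t _ _ _ _ ⟨hI, rfl, rfl, rfl, rfl⟩ ⟨m1, m2, m3, m4, m5, m6, m7⟩
    have hI2 : Ind3 (u + v) (u + t) u := (ll_ne3 u v t hI).2.2.2.2
    have hI' := linelocal_ind F _ hF (hcF (u + v)) (hcF (u + t)) (hcF u) hSb hSa hSc
      (llcb_ind x y w hi hI2)
    have n1 : u + v ≠ 0 := (ll_ne3 u v t hI).1
    have n2 : u + t ≠ 0 := (ll_ne3 u v t hI).2.1
    have n3 : v + t ≠ 0 := (ll_ne3 u v t hI).2.2.1
    have e1 : llcb x y w (u + v) + b + (llcb x y w (u + t) + a) =
        llcb x y w (v + t) + (a + b) := by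
      have e := linelocal_self (llcb x y w u)
      calc _ = (llcb x y w u + llcb x y w u) + (llcb x y w v + llcb x y w t + (a + b)) := by
            rw [llcb_add, llcb_add]; abel
        _ = _ := by rw [e, llcb_add, zero_add]
    rcases hL _ _ _ hI' ((sb _ n1).mpr m4) ((sa _ n2).mpr m5)
      (by rw [e1]; exact (sc _ n3).mpr m6) with h | h | h | h
    · exact (sc u hI.1).mp h m1
    · rw [show llcb x y w u + (a + b) + (llcb x y w (u + v) + b) = llcb x y w v + a by
        calc _ = (llcb x y w u + llcb x y w u) + (b + b) + (llcb x y w v + a) := by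
              rw [llcb_add]; abel
          _ = _ := by rw [linelocal_self, hbb]; simp] at h
      exact (sa v hI.2.1).mp h m2
    · rw [show llcb x y w u + (a + b) + (llcb x y w (u + t) + a) = llcb x y w t + b by
        calc _ = (llcb x y w u + llcb x y w u) + (a + a) + (llcb x y w t + b) := by
              rw [llcb_add]; abel
          _ = _ := by rw [linelocal_self, haa]; simp] at h
      exact (sb t hI.2.2.2.1).mp h m3
    · rw [show llcb x y w u + (a + b) + (llcb x y w (u + v) + b) + (llcb x y w (u + t) + a) =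
          llcb x y w (u + v + t) by
        calc _ = (llcb x y w u + llcb x y w u) + (a + a) + (b + b) +
              (llcb x y w u + llcb x y w v + llcb x y w t) := by
              rw [llcb_add, llcb_add]; abel
          _ = _ := by rw [linelocal_self, haa, hbb, llcb_add, llcb_add]; simp] at h
      exact m7 h
  have H5 : ∀ u v t uv ut vt uvt : LLI, (Ind3 u v t ∧ u + v = uv ∧ u + t = ut ∧ v + t = vt ∧
      u + v + t = uvt) → ¬ (¬ llcb x y w u ∈ X ∧ ¬ llcb x y w v ∈ X ∧ llcb x y w t ∈ X ∧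
        llcb x y w uv ∈ X ∧ llcb x y w ut ∈ X ∧ llcb x y w vt ∈ X ∧ llcb x y w uvt ∈ X) := by
    rintro u v t _ _ _ _ ⟨hI, rfl, rfl, rfl, rfl⟩ ⟨m1, m2, m3, m4, m5, m6, m7⟩
    have hI' := linelocal_ind F _ hF (hcF u) (hcF v) (hcF t) hSa hSa hSb
      (llcb_ind x y w hi hI)
    have n1 : u + t ≠ 0 := (ll_ne3 u v t hI).2.1
    have n2 : v + t ≠ 0 := (ll_ne3 u v t hI).2.2.1
    have n3 : u + v + t ≠ 0 := (ll_ne3 u v t hI).2.2.2.1
    have e1 : llcb x y w u + a + (llcb x y w v + a) = llcb x y w (u + v) := by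
      calc _ = (a + a) + (llcb x y w u + llcb x y w v) := by abel
        _ = _ := by rw [haa, llcb_add, zero_add]
    rcases hL _ _ _ hI' ((sa _ hI.1).mpr m1) ((sa _ hI.2.1).mpr m2)
      (by rw [e1]; exact m4) with h | h | h | h
    · exact (sb t hI.2.2.2.1).mp h m3
    · rw [show llcb x y w t + b + (llcb x y w u + a) = llcb x y w (u + t) + (a + b) by
        rw [llcb_add]; abel] at h
      exact (sc _ n1).mp h m5
    · rw [show llcb x y w t + b + (llcb x y w v + a) = llcb x y w (v + t) + (a + b) by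
        rw [llcb_add]; abel] at h
      exact (sc _ n2).mp h m6
    · rw [show llcb x y w t + b + (llcb x y w u + a) + (llcb x y w v + a) =
          llcb x y w (u + v + t) + b by
        calc _ = (a + a) + (llcb x y w u + llcb x y w v + llcb x y w t + b) := by abel
          _ = _ := by rw [haa, llcb_add, llcb_add, zero_add]] at h
      exact (sb _ n3).mp h m7
  have f0 := HF (1, 0, 0) (0, 1, 0) (0, 0, 1) (1, 1, 0) (1, 0, 1) (0, 1, 1) (1, 1, 1) (by decide)
  have f1 := HL (1, 0, 0) (0, 1, 0) (0, 0, 1) (1, 1, 0) (1, 0, 1) (0, 1, 1) (1, 1, 1) (by decide)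
  have f2 := HL (1, 0, 0) (0, 0, 1) (0, 1, 0) (1, 0, 1) (1, 1, 0) (0, 1, 1) (1, 1, 1) (by decide)
  have f3 := HL (1, 0, 0) (0, 1, 1) (0, 1, 0) (1, 1, 1) (1, 1, 0) (0, 0, 1) (1, 0, 1) (by decide)
  have f4 := HL (0, 1, 0) (0, 0, 1) (1, 0, 0) (0, 1, 1) (1, 1, 0) (1, 0, 1) (1, 1, 1) (by decide)
  have f5 := HL (0, 1, 0) (1, 0, 1) (1, 0, 0) (1, 1, 1) (1, 1, 0) (0, 0, 1) (0, 1, 1) (by decide)
  have f6 := HL (0, 0, 1) (1, 1, 0) (1, 0, 0) (1, 1, 1) (1, 0, 1) (0, 1, 0) (0, 1, 1) (by decide)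
  have f7 := HL (1, 1, 0) (1, 0, 1) (1, 0, 0) (0, 1, 1) (0, 1, 0) (0, 0, 1) (1, 1, 1) (by decide)
  have f8 := HT (1, 0, 0) (0, 1, 0) (0, 0, 1) (1, 1, 0) (1, 0, 1) (0, 1, 1) (1, 1, 1) (by decide)
  have f9 := HT (1, 0, 0) (0, 1, 0) (1, 0, 1) (1, 1, 0) (0, 0, 1) (1, 1, 1) (0, 1, 1) (by decide)
  have f10 := HT (1, 0, 0) (0, 1, 0) (0, 1, 1) (1, 1, 0) (1, 1, 1) (0, 0, 1) (1, 0, 1) (by decide)
  have f11 := HT (1, 0, 0) (0, 1, 0) (1, 1, 1) (1, 1, 0) (0, 1, 1) (1, 0, 1) (0, 0, 1) (by decide)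
  have f12 := HT (1, 0, 0) (0, 0, 1) (1, 1, 0) (1, 0, 1) (0, 1, 0) (1, 1, 1) (0, 1, 1) (by decide)
  have f13 := HT (1, 0, 0) (0, 0, 1) (0, 1, 1) (1, 0, 1) (1, 1, 1) (0, 1, 0) (1, 1, 0) (by decide)
  have f14 := HT (1, 0, 0) (0, 0, 1) (1, 1, 1) (1, 0, 1) (0, 1, 1) (1, 1, 0) (0, 1, 0) (by decide)
  have f15 := HT (1, 0, 0) (1, 1, 0) (1, 0, 1) (0, 1, 0) (0, 0, 1) (0, 1, 1) (1, 1, 1) (by decide)
  have f16 := HT (1, 0, 0) (1, 1, 0) (0, 1, 1) (0, 1, 0) (1, 1, 1) (1, 0, 1) (0, 0, 1) (by decide)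
  have f17 := HT (1, 0, 0) (1, 1, 0) (1, 1, 1) (0, 1, 0) (0, 1, 1) (0, 0, 1) (1, 0, 1) (by decide)
  have f18 := HT (1, 0, 0) (1, 0, 1) (0, 1, 1) (0, 0, 1) (1, 1, 1) (1, 1, 0) (0, 1, 0) (by decide)
  have f19 := HT (1, 0, 0) (1, 0, 1) (1, 1, 1) (0, 0, 1) (0, 1, 1) (0, 1, 0) (1, 1, 0) (by decide)
  have f20 := HT (0, 1, 0) (0, 0, 1) (1, 1, 0) (0, 1, 1) (1, 0, 0) (1, 1, 1) (1, 0, 1) (by decide)
  have f21 := HT (0, 1, 0) (0, 0, 1) (1, 0, 1) (0, 1, 1) (1, 1, 1) (1, 0, 0) (1, 1, 0) (by decide)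
  have f22 := HT (0, 1, 0) (0, 0, 1) (1, 1, 1) (0, 1, 1) (1, 0, 1) (1, 1, 0) (1, 0, 0) (by decide)
  have f23 := HT (0, 1, 0) (1, 1, 0) (1, 0, 1) (1, 0, 0) (1, 1, 1) (0, 1, 1) (0, 0, 1) (by decide)
  have f24 := HT (0, 1, 0) (1, 1, 0) (0, 1, 1) (1, 0, 0) (0, 0, 1) (1, 0, 1) (1, 1, 1) (by decide)
  have f25 := HT (0, 1, 0) (1, 1, 0) (1, 1, 1) (1, 0, 0) (1, 0, 1) (0, 0, 1) (0, 1, 1) (by decide)
  have f26 := HT (0, 1, 0) (1, 0, 1) (0, 1, 1) (1, 1, 1) (0, 0, 1) (1, 1, 0) (1, 0, 0) (by decide)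
  have f27 := HT (0, 1, 0) (0, 1, 1) (1, 1, 1) (0, 0, 1) (1, 0, 1) (1, 0, 0) (1, 1, 0) (by decide)
  have f28 := HT (0, 0, 1) (1, 1, 0) (1, 0, 1) (1, 1, 1) (1, 0, 0) (0, 1, 1) (0, 1, 0) (by decide)
  have f29 := HT (0, 0, 1) (1, 1, 0) (0, 1, 1) (1, 1, 1) (0, 1, 0) (1, 0, 1) (1, 0, 0) (by decide)
  have f30 := HT (0, 0, 1) (1, 0, 1) (0, 1, 1) (1, 0, 0) (0, 1, 0) (1, 1, 0) (1, 1, 1) (by decide)
  have f31 := HT (0, 0, 1) (1, 0, 1) (1, 1, 1) (1, 0, 0) (1, 1, 0) (0, 1, 0) (0, 1, 1) (by decide)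
  have f32 := HT (0, 0, 1) (0, 1, 1) (1, 1, 1) (0, 1, 0) (1, 1, 0) (1, 0, 0) (1, 0, 1) (by decide)
  have f33 := HT (1, 1, 0) (1, 0, 1) (1, 1, 1) (0, 1, 1) (0, 0, 1) (0, 1, 0) (1, 0, 0) (by decide)
  have f34 := HT (1, 1, 0) (0, 1, 1) (1, 1, 1) (1, 0, 1) (0, 0, 1) (1, 0, 0) (0, 1, 0) (by decide)
  have f35 := HT (1, 0, 1) (0, 1, 1) (1, 1, 1) (1, 1, 0) (0, 1, 0) (1, 0, 0) (0, 0, 1) (by decide)
  have f36 := H5 (1, 0, 0) (0, 1, 0) (0, 0, 1) (1, 1, 0) (1, 0, 1) (0, 1, 1) (1, 1, 1) (by decide)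
  have f37 := H5 (1, 0, 0) (0, 0, 1) (0, 1, 0) (1, 0, 1) (1, 1, 0) (0, 1, 1) (1, 1, 1) (by decide)
  have f38 := H5 (1, 0, 0) (1, 1, 0) (0, 0, 1) (0, 1, 0) (1, 0, 1) (1, 1, 1) (0, 1, 1) (by decide)
  have f39 := H5 (1, 0, 0) (1, 0, 1) (0, 1, 0) (0, 0, 1) (1, 1, 0) (1, 1, 1) (0, 1, 1) (by decide)
  have f40 := H5 (1, 0, 0) (0, 1, 1) (0, 1, 0) (1, 1, 1) (1, 1, 0) (0, 0, 1) (1, 0, 1) (by decide)
  have f41 := H5 (1, 0, 0) (1, 1, 1) (0, 1, 0) (0, 1, 1) (1, 1, 0) (1, 0, 1) (0, 0, 1) (by decide)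
  have f42 := H5 (0, 1, 0) (0, 0, 1) (1, 0, 0) (0, 1, 1) (1, 1, 0) (1, 0, 1) (1, 1, 1) (by decide)
  have f43 := H5 (0, 1, 0) (1, 1, 0) (0, 0, 1) (1, 0, 0) (0, 1, 1) (1, 1, 1) (1, 0, 1) (by decide)
  have f44 := H5 (0, 1, 0) (1, 0, 1) (1, 0, 0) (1, 1, 1) (1, 1, 0) (0, 0, 1) (0, 1, 1) (by decide)
  have f45 := H5 (0, 1, 0) (0, 1, 1) (1, 0, 0) (0, 0, 1) (1, 1, 0) (1, 1, 1) (1, 0, 1) (by decide)
  have f46 := H5 (0, 1, 0) (1, 1, 1) (1, 0, 0) (1, 0, 1) (1, 1, 0) (0, 1, 1) (0, 0, 1) (by decide)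
  have f47 := H5 (0, 0, 1) (1, 1, 0) (1, 0, 0) (1, 1, 1) (1, 0, 1) (0, 1, 0) (0, 1, 1) (by decide)
  have f48 := H5 (0, 0, 1) (1, 0, 1) (0, 1, 0) (1, 0, 0) (0, 1, 1) (1, 1, 1) (1, 1, 0) (by decide)
  have f49 := H5 (0, 0, 1) (0, 1, 1) (1, 0, 0) (0, 1, 0) (1, 0, 1) (1, 1, 1) (1, 1, 0) (by decide)
  have f50 := H5 (0, 0, 1) (1, 1, 1) (1, 0, 0) (1, 1, 0) (1, 0, 1) (0, 1, 1) (0, 1, 0) (by decide)
  have f51 := H5 (1, 1, 0) (1, 0, 1) (1, 0, 0) (0, 1, 1) (0, 1, 0) (0, 0, 1) (1, 1, 1) (by decide)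
  have f52 := H5 (1, 1, 0) (0, 1, 1) (1, 0, 0) (1, 0, 1) (0, 1, 0) (1, 1, 1) (0, 0, 1) (by decide)
  have f53 := H5 (1, 1, 0) (1, 1, 1) (1, 0, 0) (0, 0, 1) (0, 1, 0) (0, 1, 1) (1, 0, 1) (by decide)
  have f54 := H5 (1, 0, 1) (0, 1, 1) (1, 0, 0) (1, 1, 0) (0, 0, 1) (1, 1, 1) (0, 1, 0) (by decide)
  have f55 := H5 (1, 0, 1) (1, 1, 1) (1, 0, 0) (0, 1, 0) (0, 0, 1) (0, 1, 1) (1, 1, 0) (by decide)
  have f56 := H5 (0, 1, 1) (1, 1, 1) (0, 1, 0) (1, 0, 0) (0, 0, 1) (1, 0, 1) (1, 1, 0) (by decide)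
  have g1 : llcb x y w (1, 0, 0) = x := by simp [llcb]
  have g2 : llcb x y w (0, 1, 0) = y := by simp [llcb]
  have g3 : llcb x y w (0, 0, 1) = w := by simp [llcb]
  have g4 : llcb x y w (1, 1, 0) = x + y := by simp [llcb]
  have g5 : llcb x y w (1, 0, 1) = x + w := by simp [llcb]
  have g6 : llcb x y w (0, 1, 1) = y + w := by simp [llcb]
  have g7 : llcb x y w (1, 1, 1) = x + y + w := by simp [llcb]
  rw [g1, g2, g3, g4, g5, g6, g7] at f0 f1 f2 f3 f4 f5 f6 f7 f8 f9 f10 f11 f12 f13 f14 f15 f16 f17 f18 f19 f20 f21 f22 f23 f24 f25 f26 f27 f28 f29 f30 f31 f32 f33 f34 f35 f36 f37 f38 f39 f40 f41 f42 f43 f44 f45 f46 f47 f48 f49 f50 f51 f52 f53 f54 f55 f56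
  have hB : ∀ v : V, ∃ c : Bool, (v ∈ X ↔ c = true) ∧ ind X v = (if c = true then 1 else 0) := by
    intro v
    by_cases h : v ∈ X
    · exact ⟨true, by simp [h], by simp [ind, h]⟩
    · exact ⟨false, by simp [h], by simp [ind, h]⟩
  obtain ⟨c1, p1, q1⟩ := hB (x)
  obtain ⟨c2, p2, q2⟩ := hB (y)
  obtain ⟨c3, p3, q3⟩ := hB (w)
  obtain ⟨c4, p4, q4⟩ := hB (x + y)
  obtain ⟨c5, p5, q5⟩ := hB (x + w)
  obtain ⟨c6, p6, q6⟩ := hB (y + w)
  obtain ⟨c7, p7, q7⟩ := hB (x + y + w)
  rw [p1, p2, p3, p4, p5, p6, p7] at f0 f1 f2 f3 f4 f5 f6 f7 f8 f9 f10 f11 f12 f13 f14 f15 f16 f17 f18 f19 f20 f21 f22 f23 f24 f25 f26 f27 f28 f29 f30 f31 f32 f33 f34 f35 f36 f37 f38 f39 f40 f41 f42 f43 f44 f45 f46 f47 f48 f49 f50 f51 f52 f53 f54 f55 f56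
  unfold cnt3
  rw [q1, q2, q3, q4, q5, q6, q7]
  clear HF HL HT H5 hL h1 sa sb sc hcF p1 p2 p3 p4 p5 p6 p7 q1 q2 q3 q4 q5 q6 q7 hB
    g1 g2 g3 g4 g5 g6 g7 haa hbb hSa hSb hSc hS0 hi hx hy hwF hF hne hab hb ha hX0
  cases c1 <;> cases c2 <;> cases c3 <;> cases c4 <;> cases c5 <;> cases c6 <;> cases c7 <;>
    first | decide |
      exact absurd (by decide) f0 |
      exact absurd (by decide) f1 |
      exact absurd (by decide) f2 |
      exact absurd (by decide) f3 |
      exact absurd (by decide) f4 |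
      exact absurd (by decide) f5 |
      exact absurd (by decide) f6 |
      exact absurd (by decide) f7 |
      exact absurd (by decide) f8 |
      exact absurd (by decide) f9 |
      exact absurd (by decide) f10 |
      exact absurd (by decide) f11 |
      exact absurd (by decide) f12 |
      exact absurd (by decide) f13 |
      exact absurd (by decide) f14 |
      exact absurd (by decide) f15 |
      exact absurd (by decide) f16 |
      exact absurd (by decide) f17 |
      exact absurd (by decide) f18 |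
      exact absurd (by decide) f19 |
      exact absurd (by decide) f20 |
      exact absurd (by decide) f21 |
      exact absurd (by decide) f22 |
      exact absurd (by decide) f23 |
      exact absurd (by decide) f24 |
      exact absurd (by decide) f25 |
      exact absurd (by decide) f26 |
      exact absurd (by decide) f27 |
      exact absurd (by decide) f28 |
      exact absurd (by decide) f29 |
      exact absurd (by decide) f30 |
      exact absurd (by decide) f31 |
      exact absurd (by decide) f32 |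
      exact absurd (by decide) f33 |
      exact absurd (by decide) f34 |
      exact absurd (by decide) f35 |
      exact absurd (by decide) f36 |
      exact absurd (by decide) f37 |
      exact absurd (by decide) f38 |
      exact absurd (by decide) f39 |
      exact absurd (by decide) f40 |
      exact absurd (by decide) f41 |
      exact absurd (by decide) f42 |
      exact absurd (by decide) f43 |
      exact absurd (by decide) f44 |
      exact absurd (by decide) f45 |
      exact absurd (by decide) f46 |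
      exact absurd (by decide) f47 |
      exact absurd (by decide) f48 |
      exact absurd (by decide) f49 |
      exact absurd (by decide) f50 |
      exact absurd (by decide) f51 |
      exact absurd (by decide) f52 |
      exact absurd (by decide) f53 |
      exact absurd (by decide) f54 |
      exact absurd (by decide) f55 |
      exact absurd (by decide) f56

end Line

end EHProj
end
end
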