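import Pool.Agent.Lib.MP_f4f4db_co.Defs
import Pool.Agent.Lib.MP_f4f4db_co.Avoid

section

/-! # Configurations for `q = 2`, `k = 3` (job E-3) -/

namespace EHProj

open scoped LinearAlgebra.Projectivization
open Module

section conf2

variable {V : Type} [AddCommGroup V] [Module (ZMod 2) V]

private lemma conf2_add_self (x : V) : x + x = 0 := by
  have h : ((1 : ZMod 2) + 1) • x = 0 := by
    rw [show ((1 : ZMod 2) + 1) = 0 by decide, zero_smul]
  rwa [add_smul, one_smul] at h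

private lemma conf2_eq_of_add {x y : V} (h : x + y = 0) : x = y := by
  have h1 : x + y + y = y := by rw [h, zero_add]
  rwa [add_assoc, conf2_add_self, add_zero] at h1

private lemma conf2_zmod (a : ZMod 2) : a = 0 ∨ a = 1 := by
  revert a; decide

/-- the linear map `v ↦ v 0 • x + v 1 • y + v 2 • w` -/
private noncomputable def comb (x y w : V) : (Fin 3 → ZMod 2) →ₗ[ZMod 2] V where
  toFun v := v 0 • x + v 1 • y + v 2 • w
  map_add' u v := by
    simp only [Pi.add_apply, add_smul]; abel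
  map_smul' c v := by
    simp only [Pi.smul_apply, smul_eq_mul, mul_smul, smul_add, RingHom.id_apply]

private lemma comb_apply (x y w : V) (v : Fin 3 → ZMod 2) :
    comb x y w v = v 0 • x + v 1 • y + v 2 • w := rfl

private lemma comb_inj {x y w : V} (h : Ind3 x y w) : Function.Injective (comb x y w) := by
  rw [← LinearMap.ker_eq_bot, LinearMap.ker_eq_bot']
  intro v hv
  obtain ⟨h1, h2, h3, h4, h5, h6, h7⟩ := h
  rw [comb_apply] at hv
  have hv3 : v = ![v 0, v 1, v 2] := by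
    funext i; fin_cases i <;> rfl
  rcases conf2_zmod (v 0) with a | a <;> rcases conf2_zmod (v 1) with b | b <;>
    rcases conf2_zmod (v 2) with c | c <;> rw [a, b, c] at hv hv3 <;>
    simp only [zero_smul, one_smul, zero_add, add_zero] at hv
  · rw [hv3]; funext i; fin_cases i <;> rfl
  · exact absurd hv h4
  · exact absurd hv h2
  · exact absurd (conf2_eq_of_add hv).symm h6
  · exact absurd hv h1
  · exact absurd (conf2_eq_of_add hv).symm h5
  · exact absurd (conf2_eq_of_add hv) h3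
  · exact absurd (conf2_eq_of_add hv).symm h7

private lemma univ8 : (Finset.univ : Finset (Fin 3 → ZMod 2)) =
    {![0, 0, 0], ![1, 0, 0], ![0, 1, 0], ![0, 0, 1], ![1, 1, 0], ![1, 0, 1], ![0, 1, 1],
      ![1, 1, 1]} := by decide

open Classical in
private lemma cnt3_eq (X : Set V) (hX0 : (0 : V) ∉ X) (x y w : V) :
    cnt3 X x y w = (Finset.univ.filter (fun v => comb x y w v ∈ X)).card := by
  rw [Finset.card_filter, univ8]
  rw [Finset.sum_insert (by decide), Finset.sum_insert (by decide), Finset.sum_insert (by decide),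
    Finset.sum_insert (by decide), Finset.sum_insert (by decide), Finset.sum_insert (by decide),
    Finset.sum_insert (by decide), Finset.sum_singleton]
  simp only [comb_apply, cnt3, ind]
  simp [hX0]
  ring

/-- equivalence of `F_2^3` given by a basis -/
private lemma exists_equiv {h1 h2 h3 : Fin 3 → ZMod 2} (h : Ind3 h1 h2 h3)
    {g1 g2 g3 : Fin 3 → ZMod 2} (g : Ind3 g1 g2 g3) :
    ∃ A : (Fin 3 → ZMod 2) ≃ₗ[ZMod 2] (Fin 3 → ZMod 2), A h1 = g1 ∧ A h2 = g2 ∧ A h3 = g3 := by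
  have e1 := comb_inj h
  have e2 := comb_inj g
  let E1 : (Fin 3 → ZMod 2) ≃ₗ[ZMod 2] (Fin 3 → ZMod 2) :=
    LinearEquiv.ofBijective (comb h1 h2 h3) (Finite.injective_iff_bijective.1 e1)
  let E2 : (Fin 3 → ZMod 2) ≃ₗ[ZMod 2] (Fin 3 → ZMod 2) :=
    LinearEquiv.ofBijective (comb g1 g2 g3) (Finite.injective_iff_bijective.1 e2)
  have f1 : E1 ![1, 0, 0] = h1 := by
    change comb h1 h2 h3 ![1, 0, 0] = h1
    simp [comb_apply]
  have f2 : E1 ![0, 1, 0] = h2 := by
    change comb h1 h2 h3 ![0, 1, 0] = h2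
    simp [comb_apply]
  have f3 : E1 ![0, 0, 1] = h3 := by
    change comb h1 h2 h3 ![0, 0, 1] = h3
    simp [comb_apply]
  have k1 : E2 ![1, 0, 0] = g1 := by
    change comb g1 g2 g3 ![1, 0, 0] = g1
    simp [comb_apply]
  have k2 : E2 ![0, 1, 0] = g2 := by
    change comb g1 g2 g3 ![0, 1, 0] = g2
    simp [comb_apply]
  have k3 : E2 ![0, 0, 1] = g3 := by
    change comb g1 g2 g3 ![0, 0, 1] = g3
    simp [comb_apply]
  refine ⟨E1.symm.trans E2, ?_, ?_, ?_⟩
  · rw [LinearEquiv.trans_apply, ← f1, E1.symm_apply_apply, k1]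
  · rw [LinearEquiv.trans_apply, ← f2, E1.symm_apply_apply, k2]
  · rw [LinearEquiv.trans_apply, ← f3, E1.symm_apply_apply, k3]

private lemma complete1 : ∀ s : Fin 3 → ZMod 2, s ≠ 0 → ∃ y w, Ind3 s y w := by
  unfold Ind3; decide

private lemma complete2' : ∀ s t : Fin 3 → ZMod 2,
    ∃ w : Fin 3 → ZMod 2, w ≠ 0 ∧ w ≠ s ∧ w ≠ t ∧ w ≠ s + t := by
  decide

private lemma complete2 (s t : Fin 3 → ZMod 2) (hs : s ≠ 0) (ht : t ≠ 0) (hst : s ≠ t) :
    ∃ w, Ind3 s t w := by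
  obtain ⟨w, hw⟩ := complete2' s t
  exact ⟨w, hs, ht, hst, hw⟩

/-- the transfer -/
private lemma conf2_transfer {H : Set (ℙ (ZMod 2) (Fin 3 → ZMod 2))} {X : Set V}
    (h : ¬ ∃ L : (Fin 3 → ZMod 2) →ₗ[ZMod 2] V, Function.Injective L ∧
        ∀ v, v ≠ 0 → (L v ∈ X ↔ v ∈ vec H)) {x y w : V} (hi : Ind3 x y w)
    (A : (Fin 3 → ZMod 2) ≃ₗ[ZMod 2] (Fin 3 → ZMod 2))
    (hA : ∀ v, v ≠ 0 → (comb x y w (A v) ∈ X ↔ v ∈ vec H)) : False :=
  h ⟨(comb x y w).comp A.toLinearMap, (comb_inj hi).comp A.injective, hA⟩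

end conf2

/-- points are nonzero vectors -/
private noncomputable def conf2_equiv : {v : Fin 3 → ZMod 2 // v ≠ 0} ≃ ℙ (ZMod 2) (Fin 3 → ZMod 2) :=
  Equiv.ofBijective (fun v => Projectivization.mk (ZMod 2) v.1 v.2) (by
    constructor
    · rintro ⟨v, hv⟩ ⟨w, hw⟩ h
      have h' := (Projectivization.mk_eq_mk_iff' (ZMod 2) v w hv hw).1 h
      obtain ⟨c, hc⟩ := h'
      rcases conf2_zmod c with rfl | rfl
      · rw [zero_smul] at hc; exact absurd hc.symm hv
      · rw [one_smul] at hc; exact Subtype.ext hc.symm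
    · intro y
      induction y using Projectivization.ind with
      | h v hv => exact ⟨⟨v, hv⟩, rfl⟩)

open Classical in
private lemma conf2_card (H : Set (ℙ (ZMod 2) (Fin 3 → ZMod 2))) :
    (Finset.univ.filter (fun v : Fin 3 → ZMod 2 => v ∈ vec H)).card = H.ncard := by
  rw [← Nat.card_coe_set_eq, ← Fintype.card_subtype, ← Nat.card_eq_fintype_card]
  refine Nat.card_congr ?_
  exact
    { toFun := fun v => ⟨Projectivization.mk (ZMod 2) v.1 v.2.1, v.2.2⟩
      invFun := fun y => ⟨(conf2_equiv.symm y.1).1, ⟨(conf2_equiv.symm y.1).2, by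
        have := conf2_equiv.apply_symm_apply y.1
        change conf2_equiv (conf2_equiv.symm y.1) ∈ H
        rw [this]; exact y.2⟩⟩
      left_inv := fun v => by
        apply Subtype.ext
        change (conf2_equiv.symm (conf2_equiv ⟨v.1, v.2.1⟩)).1 = v.1
        rw [Equiv.symm_apply_apply]
      right_inv := fun y => by
        apply Subtype.ext
        exact conf2_equiv.apply_symm_apply y.1 }

private lemma zero_not_mem_vec (H : Set (ℙ (ZMod 2) (Fin 3 → ZMod 2))) :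
    (0 : Fin 3 → ZMod 2) ∉ vec H := fun ⟨h, _⟩ => h rfl

open Classical in
/-- the complement (in the nonzero vectors) of a set of vectors -/
private lemma conf2_compl (P : (Fin 3 → ZMod 2) → Prop) (h0 : ¬ P 0) :
    (Finset.univ.filter (fun v => v ≠ 0 ∧ ¬ P v)).card + (Finset.univ.filter P).card = 7 := by
  have h1 : (Finset.univ.filter (fun v : Fin 3 → ZMod 2 => v ≠ 0)).card = 7 := by
    decide
  rw [← h1, ← Finset.card_union_of_disjoint]
  · congr 1
    ext v
    simp only [Finset.mem_union, Finset.mem_filter, Finset.mem_univ, true_and]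
    constructor
    · rintro (h | h)
      · exact h.1
      · rintro rfl; exact h0 h
    · intro h
      by_cases hP : P v
      · exact Or.inr hP
      · exact Or.inl ⟨h, hP⟩
  · rw [Finset.disjoint_filter]
    intro v _ h1 h2
    exact h1.2 h2

theorem sixFree_of (H : Set (ℙ (ZMod 2) (Fin 3 → ZMod 2))) (hH : H.ncard = 6) (n : ℕ)
    (X : Set (Fin n → ZMod 2)) (hX0 : (0 : Fin n → ZMod 2) ∉ X)
    (h : ¬ ∃ L : (Fin 3 → ZMod 2) →ₗ[ZMod 2] (Fin n → ZMod 2), Function.Injective L ∧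
        ∀ v, v ≠ 0 → (L v ∈ X ↔ v ∈ vec H)) : SixFree X := by
  classical
  intro x y w hi hc
  rw [cnt3_eq X hX0] at hc
  have c1 := conf2_compl (fun v => comb x y w v ∈ X) (by simpa using hX0)
  have c2 := conf2_compl (fun v => v ∈ vec H) (zero_not_mem_vec H)
  rw [conf2_card, hH] at c2
  obtain ⟨s, hs⟩ := Finset.card_eq_one.1 (by omega :
    (Finset.univ.filter (fun v => v ≠ 0 ∧ ¬ comb x y w v ∈ X)).card = 1)
  obtain ⟨t, ht⟩ := Finset.card_eq_one.1 (by omega :
    (Finset.univ.filter (fun v => v ≠ 0 ∧ ¬ v ∈ vec H)).card = 1)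
  have hs' : ∀ v, (v ≠ 0 ∧ ¬ comb x y w v ∈ X) ↔ v = s := fun v => by
    have := Finset.ext_iff.1 hs v
    simpa only [Finset.mem_filter, Finset.mem_univ, true_and, Finset.mem_singleton] using this
  have ht' : ∀ v, (v ≠ 0 ∧ ¬ v ∈ vec H) ↔ v = t := fun v => by
    have := Finset.ext_iff.1 ht v
    simpa only [Finset.mem_filter, Finset.mem_univ, true_and, Finset.mem_singleton] using this
  have hs0 := ((hs' s).2 rfl).1
  have ht0 := ((ht' t).2 rfl).1
  obtain ⟨s2, s3, hsi⟩ := complete1 s hs0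
  obtain ⟨t2, t3, hti⟩ := complete1 t ht0
  obtain ⟨A, hA, -, -⟩ := exists_equiv hti hsi
  refine conf2_transfer h hi A fun v hv => ?_
  have hAv : A v ≠ 0 := fun h => hv (by simpa using h)
  have e1 := hs' (A v)
  have e2 := ht' v
  have e3 : A v = s ↔ v = t := by
    rw [← hA]; exact A.injective.eq_iff
  tauto

theorem fiveFree_of (H : Set (ℙ (ZMod 2) (Fin 3 → ZMod 2))) (hH : H.ncard = 5) (n : ℕ)
    (X : Set (Fin n → ZMod 2)) (hX0 : (0 : Fin n → ZMod 2) ∉ X)
    (h : ¬ ∃ L : (Fin 3 → ZMod 2) →ₗ[ZMod 2] (Fin n → ZMod 2), Function.Injective L ∧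
        ∀ v, v ≠ 0 → (L v ∈ X ↔ v ∈ vec H)) : FiveFree X := by
  classical
  intro x y w hi hc
  rw [cnt3_eq X hX0] at hc
  have c1 := conf2_compl (fun v => comb x y w v ∈ X) (by simpa using hX0)
  have c2 := conf2_compl (fun v => v ∈ vec H) (zero_not_mem_vec H)
  rw [conf2_card, hH] at c2
  obtain ⟨s, s', hss, hs⟩ := Finset.card_eq_two.1 (by omega :
    (Finset.univ.filter (fun v => v ≠ 0 ∧ ¬ comb x y w v ∈ X)).card = 2)
  obtain ⟨t, t', htt, ht⟩ := Finset.card_eq_two.1 (by omega :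
    (Finset.univ.filter (fun v => v ≠ 0 ∧ ¬ v ∈ vec H)).card = 2)
  have hs' : ∀ v, (v ≠ 0 ∧ ¬ comb x y w v ∈ X) ↔ v = s ∨ v = s' := fun v => by
    have := Finset.ext_iff.1 hs v
    simpa only [Finset.mem_filter, Finset.mem_univ, true_and, Finset.mem_insert,
      Finset.mem_singleton] using this
  have ht' : ∀ v, (v ≠ 0 ∧ ¬ v ∈ vec H) ↔ v = t ∨ v = t' := fun v => by
    have := Finset.ext_iff.1 ht v
    simpa only [Finset.mem_filter, Finset.mem_univ, true_and, Finset.mem_insert,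
      Finset.mem_singleton] using this
  have hs0 := ((hs' s).2 (Or.inl rfl)).1
  have ht0 := ((ht' t).2 (Or.inl rfl)).1
  have hs0' := ((hs' s').2 (Or.inr rfl)).1
  have ht0' := ((ht' t').2 (Or.inr rfl)).1
  obtain ⟨s3, hsi⟩ := complete2 s s' hs0 hs0' hss
  obtain ⟨t3, hti⟩ := complete2 t t' ht0 ht0' htt
  obtain ⟨A, hA, hA', -⟩ := exists_equiv hti hsi
  refine conf2_transfer h hi A fun v hv => ?_
  have hAv : A v ≠ 0 := fun h => hv (by simpa using h)
  have e1 := hs' (A v)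
  have e2 := ht' v
  have e3 : A v = s ↔ v = t := by
    rw [← hA]; exact A.injective.eq_iff
  have e4 : A v = s' ↔ v = t' := by
    rw [← hA']; exact A.injective.eq_iff
  tauto

theorem lineFree_of (H : Set (ℙ (ZMod 2) (Fin 3 → ZMod 2))) (hH : IsLine (ZMod 2) H) (n : ℕ)
    (X : Set (Fin n → ZMod 2)) (hX0 : (0 : Fin n → ZMod 2) ∉ X)
    (h : ¬ ∃ L : (Fin 3 → ZMod 2) →ₗ[ZMod 2] (Fin n → ZMod 2), Function.Injective L ∧
        ∀ v, v ≠ 0 → (L v ∈ X ↔ v ∈ vec H)) : LineFree X := by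
  classical
  intro x y w hi hx hy hxy
  by_contra hcon
  push Not at hcon
  obtain ⟨k1, k2, k3, k4⟩ := hcon
  obtain ⟨U, hU, hUH⟩ := hH
  have hvec : ∀ v : Fin 3 → ZMod 2, v ≠ 0 → (v ∈ vec H ↔ v ∈ U) := by
    intro v hv
    constructor
    · rintro ⟨hv', hm⟩
      have := (hUH _).1 hm
      rw [Projectivization.submodule_mk] at this
      exact this (Submodule.mem_span_singleton_self v)
    · intro hm
      refine ⟨hv, (hUH _).2 ?_⟩
      rw [Projectivization.submodule_mk, Submodule.span_singleton_le_iff_mem]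
      exact hm
  -- a basis of `U`
  let b : Basis (Fin 2) (ZMod 2) U := finBasisOfFinrankEq (ZMod 2) U hU
  have hb0 : (b 0 : Fin 3 → ZMod 2) ≠ 0 := fun h => b.ne_zero 0 (Subtype.ext h)
  have hb1 : (b 1 : Fin 3 → ZMod 2) ≠ 0 := fun h => b.ne_zero 1 (Subtype.ext h)
  have hb01 : (b 0 : Fin 3 → ZMod 2) ≠ (b 1 : Fin 3 → ZMod 2) := fun h =>
    absurd (b.injective (Subtype.ext h)) (by decide)
  have hUtop : U ≠ ⊤ := by
    rintro rfl
    rw [finrank_top] at hU
    simp at hU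
  obtain ⟨u, hu⟩ : ∃ u, u ∉ U := by
    by_contra hc
    push Not at hc
    exact hUtop (eq_top_iff.2 fun v _ => hc v)
  have hind : Ind3 (b 0 : Fin 3 → ZMod 2) (b 1 : Fin 3 → ZMod 2) u :=
    ⟨hb0, hb1, hb01, fun h => hu (h ▸ U.zero_mem), fun h => hu (h ▸ (b 0).2),
      fun h => hu (h ▸ (b 1).2), fun h => hu (h ▸ U.add_mem (b 0).2 (b 1).2)⟩
  have hind2 : Ind3 (![1, 0, 0] : Fin 3 → ZMod 2) ![0, 1, 0] ![0, 0, 1] := by
    unfold Ind3; decide
  obtain ⟨A, hA1, hA2, hA3⟩ := exists_equiv hind hind2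
  refine conf2_transfer h hi A fun v hv => ?_
  rw [hvec v hv]
  set c := A v with hc
  have hvc : v = c 0 • (b 0 : Fin 3 → ZMod 2) + c 1 • (b 1 : Fin 3 → ZMod 2) + c 2 • u := by
    apply A.injective
    rw [map_add, map_add, map_smul, map_smul, map_smul, hA1, hA2, hA3, ← hc]
    funext i
    fin_cases i <;> simp
  have hc0 : c ≠ 0 := fun h => hv (by simpa [hc] using h)
  have e1 : v ∈ U ↔ c 2 = 0 := by
    rcases conf2_zmod (c 2) with h2 | h2
    · refine ⟨fun _ => h2, fun _ => ?_⟩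
      rw [hvc, h2, zero_smul, add_zero]
      exact U.add_mem (U.smul_mem _ (b 0).2) (U.smul_mem _ (b 1).2)
    · refine ⟨fun hm => ?_, fun h3 => absurd (h2.symm.trans h3) (by decide)⟩
      exfalso
      rw [hvc, h2, one_smul] at hm
      exact hu ((Submodule.add_mem_iff_right U
        (U.add_mem (U.smul_mem _ (b 0).2) (U.smul_mem _ (b 1).2))).1 hm)
  rw [e1, comb_apply]
  have hcc : c = ![c 0, c 1, c 2] := by
    funext i; fin_cases i <;> rfl
  rcases conf2_zmod (c 0) with a0 | a0 <;> rcases conf2_zmod (c 1) with a1 | a1 <;>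
    rcases conf2_zmod (c 2) with a2 | a2 <;> rw [a0, a1, a2] at hcc ⊢ <;>
    simp only [zero_smul, one_smul, zero_add, add_zero]
  · exact absurd (hcc.trans (by decide)) hc0
  · exact iff_of_false k1 (by decide)
  · exact iff_of_true hy trivial
  · exact iff_of_false (by rwa [add_comm]) (by decide)
  · exact iff_of_true hx trivial
  · exact iff_of_false (by rwa [add_comm]) (by decide)
  · exact iff_of_true hxy trivial
  · refine iff_of_false ?_ (by decide)
    rwa [show x + y + w = w + x + y by abel]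

theorem ncard_compl_fano (H : Set (ℙ (ZMod 2) (Fin 3 → ZMod 2))) :
    H.ncard + Hᶜ.ncard = 7 := by
  classical
  rw [Set.ncard_add_ncard_compl]
  rw [← Nat.card_congr conf2_equiv, Nat.card_eq_fintype_card]
  decide

end EHProj
end

section

/-!
# Configurations for `q = 3`, `k = 2`
-/

namespace EHProj

open scoped LinearAlgebra.Projectivization
open Module

theorem ncard_compl_line3 (H : Set (ℙ (ZMod 3) (Fin 2 → ZMod 3))) :
    H.ncard + Hᶜ.ncard = 4 := by
  have h1 : Nat.card (ℙ (ZMod 3) (Fin 2 → ZMod 3)) = 4 := by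
    rw [Projectivization.card_of_finrank_two (ZMod 3) (Fin 2 → ZMod 3) (by simp)]
    simp
  have : Finite (ℙ (ZMod 3) (Fin 2 → ZMod 3)) := Nat.finite_of_card_ne_zero (by omega)
  rw [Set.ncard_add_ncard_compl, h1]

section conf3aux

variable {n : ℕ}

/-- the linear map sending `h` to `(h0^2 + h1^2) x` and the orthogonal vector to a multiple of `y` -/
private def conf3L (h : Fin 2 → ZMod 3) (x y : Fin n → ZMod 3) :
    (Fin 2 → ZMod 3) →ₗ[ZMod 3] (Fin n → ZMod 3) where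
  toFun v := (h 0 * v 0 + h 1 * v 1) • x + (h 0 * v 1 - h 1 * v 0) • y
  map_add' v w := by
    simp only [Pi.add_apply]
    module
  map_smul' c v := by
    simp only [Pi.smul_apply, smul_eq_mul, RingHom.id_apply]
    module

private lemma conf3_dec1 : ∀ h0 h1 v0 v1 : ZMod 3, (h0 ≠ 0 ∨ h1 ≠ 0) → (v0 ≠ 0 ∨ v1 ≠ 0) →
    (h0 * v1 - h1 * v0 = 0 ↔ ((v0 = h0 ∧ v1 = h1) ∨ (v0 = -h0 ∧ v1 = -h1))) := by decide

private lemma conf3_dec2 : ∀ h0 h1 v0 v1 : ZMod 3, (h0 ≠ 0 ∨ h1 ≠ 0) → (v0 ≠ 0 ∨ v1 ≠ 0) →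
    h0 * v1 - h1 * v0 = 0 → h0 * v0 + h1 * v1 ≠ 0 := by decide

private lemma conf3_dec3 : ∀ a : ZMod 3, a ≠ 0 → a = 1 ∨ a = -1 := by decide

private lemma conf3_dec4 : ∀ a : ZMod 3, a = 0 ∨ a = 1 ∨ a = -1 := by decide

private lemma conf3_ne {v : Fin 2 → ZMod 3} : v ≠ 0 ↔ (v 0 ≠ 0 ∨ v 1 ≠ 0) := by
  rw [Function.ne_iff]
  constructor
  · rintro ⟨i, hi⟩
    fin_cases i
    · exact Or.inl hi
    · exact Or.inr hi
  · rintro (h | h)
    · exact ⟨0, h⟩
    · exact ⟨1, h⟩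

private lemma conf3_mk {v h : Fin 2 → ZMod 3} (hv : v ≠ 0) (hh : h ≠ 0) :
    Projectivization.mk (ZMod 3) v hv = Projectivization.mk (ZMod 3) h hh ↔
      h 0 * v 1 - h 1 * v 0 = 0 := by
  rw [Projectivization.mk_eq_mk_iff, conf3_dec1 _ _ _ _ (conf3_ne.mp hh) (conf3_ne.mp hv)]
  constructor
  · rintro ⟨a, rfl⟩
    rcases conf3_dec3 a a.ne_zero with ha | ha
    · left
      simp [Units.smul_def, ha]
    · right
      simp [Units.smul_def, ha]
  · rintro (⟨h0, h1⟩ | ⟨h0, h1⟩)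
    · refine ⟨1, ?_⟩
      funext i
      fin_cases i
      · simp [h0]
      · simp [h1]
    · refine ⟨-1, ?_⟩
      funext i
      fin_cases i
      · simp [h0]
      · simp [h1]

/-- the copy of the complement of a point -/
private lemma conf3_copy (H : Set (ℙ (ZMod 3) (Fin 2 → ZMod 3))) (hH : H.ncard = 3)
    (X : Set (Fin n → ZMod 3)) (hX0 : (0 : Fin n → ZMod 3) ∉ X)
    (hXs : ∀ c : ZMod 3, ∀ v, c ≠ 0 → v ∈ X → c • v ∈ X) (x y : Fin n → ZMod 3) (hx0 : x ≠ 0)
    (hx : x ∉ X) (hy : y ∈ X) (hyx : y + x ∈ X) (hyx' : y - x ∈ X) :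
    ∃ L : (Fin 2 → ZMod 3) →ₗ[ZMod 3] (Fin n → ZMod 3), Function.Injective L ∧
        ∀ v, v ≠ 0 → (L v ∈ X ↔ v ∈ vec H) := by
  have hc : Hᶜ.ncard = 1 := by
    have := ncard_compl_line3 H
    omega
  obtain ⟨p, hp⟩ := Set.ncard_eq_one.mp hc
  obtain ⟨h, hh, rfl⟩ : ∃ (h : Fin 2 → ZMod 3) (hh : h ≠ 0), Projectivization.mk (ZMod 3) h hh = p :=
    ⟨p.rep, p.rep_nonzero, p.mk_rep⟩
  have hmem : ∀ q : ℙ (ZMod 3) (Fin 2 → ZMod 3), q ∈ H ↔ q ≠ Projectivization.mk (ZMod 3) h hh := by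
    intro q
    have h1 : q ∈ Hᶜ ↔ q = Projectivization.mk (ZMod 3) h hh := by
      rw [hp, Set.mem_singleton_iff]
    rw [Set.mem_compl_iff] at h1
    tauto
  have hXs' : ∀ c : ZMod 3, ∀ v, c ≠ 0 → (c • v ∈ X ↔ v ∈ X) := by
    intro c v hc0
    refine ⟨fun hv => ?_, hXs c v hc0⟩
    have := hXs c⁻¹ _ (inv_ne_zero hc0) hv
    rwa [smul_smul, inv_mul_cancel₀ hc0, one_smul] at this
  have hall : ∀ a : ZMod 3, a • x + y ∈ X := by
    intro a
    rcases conf3_dec4 a with rfl | rfl | rfl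
    · rwa [zero_smul, zero_add]
    · rwa [one_smul, add_comm]
    · rw [neg_smul, one_smul, neg_add_eq_sub]
      exact hyx'
  have hab : ∀ a b : ZMod 3, b ≠ 0 → a • x + b • y ∈ X := by
    intro a b hb
    have h1 : a • x + b • y = b • ((b⁻¹ * a) • x + y) := by
      rw [smul_add, smul_smul, ← mul_assoc, mul_inv_cancel₀ hb, one_mul]
    rw [h1]
    exact hXs b _ hb (hall _)
  have hkey : ∀ v : Fin 2 → ZMod 3, v ≠ 0 →
      (conf3L h x y v ∈ X ↔ h 0 * v 1 - h 1 * v 0 ≠ 0) := by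
    intro v hv
    change (h 0 * v 0 + h 1 * v 1) • x + (h 0 * v 1 - h 1 * v 0) • y ∈ X ↔ _
    constructor
    · intro hm hb
      rw [hb, zero_smul, add_zero] at hm
      have ha := conf3_dec2 _ _ _ _ (conf3_ne.mp hh) (conf3_ne.mp hv) hb
      exact hx ((hXs' _ _ ha).mp hm)
    · intro hb
      exact hab _ _ hb
  refine ⟨conf3L h x y, ?_, ?_⟩
  · rw [injective_iff_map_eq_zero]
    intro v hv0
    by_contra hv
    by_cases hb : h 0 * v 1 - h 1 * v 0 = 0
    · have ha := conf3_dec2 _ _ _ _ (conf3_ne.mp hh) (conf3_ne.mp hv) hb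
      have h2 : (h 0 * v 0 + h 1 * v 1) • x + (h 0 * v 1 - h 1 * v 0) • y = 0 := hv0
      rw [hb, zero_smul, add_zero] at h2
      rcases smul_eq_zero.mp h2 with h3 | h3
      · exact ha h3
      · exact hx0 h3
    · have h2 := (hkey v hv).mpr hb
      rw [hv0] at h2
      exact hX0 h2
  · intro v hv
    rw [hkey v hv]
    constructor
    · intro hb
      refine ⟨hv, (hmem _).mpr ?_⟩
      rw [Ne, conf3_mk hv hh]
      exact hb
    · rintro ⟨hv', hm⟩
      have := (hmem _).mp hm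
      rwa [Ne, conf3_mk hv' hh] at this

end conf3aux

theorem threeFree_of (H : Set (ℙ (ZMod 3) (Fin 2 → ZMod 3))) (hH : H.ncard = 3) (n : ℕ)
    (X : Set (Fin n → ZMod 3)) (hX0 : (0 : Fin n → ZMod 3) ∉ X)
    (hXs : ∀ c : ZMod 3, ∀ v, c ≠ 0 → v ∈ X → c • v ∈ X)
    (h : ¬ ∃ L : (Fin 2 → ZMod 3) →ₗ[ZMod 3] (Fin n → ZMod 3), Function.Injective L ∧
        ∀ v, v ≠ 0 → (L v ∈ X ↔ v ∈ vec H)) : ThreeFree X := by
  intro x y hx hy hxy hxy' hcnt
  apply h
  have hneg : ∀ v, -v ∈ X ↔ v ∈ X := by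
    intro v
    have h1 : (-1 : ZMod 3) ≠ 0 := by decide
    constructor
    · intro hv
      have := hXs (-1) _ h1 hv
      simpa using this
    · intro hv
      have := hXs (-1) _ h1 hv
      simpa using this
  have h3 : ∀ v : Fin n → ZMod 3, v + v = -v := by
    intro v
    funext i
    have : ∀ a : ZMod 3, a + a = -a := by decide
    exact this _
  unfold cnt2 ind at hcnt
  by_cases h1 : x ∈ X
  · by_cases h2 : y ∈ X
    · by_cases h4 : x + y ∈ X
      · by_cases h5 : x - y ∈ X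
        · simp [h1, h2, h4, h5] at hcnt
        · -- `x - y` is missing
          refine conf3_copy H hH X hX0 hXs (x - y) x (sub_ne_zero.mpr hxy) h5 h1 ?_ ?_
          · have e : x + (x - y) = -(x + y) := by
              have := h3 x
              rw [← add_sub_assoc, this]
              abel
            rw [e, hneg]
            exact h4
          · have e : x - (x - y) = y := by abel
            rw [e]
            exact h2
      · by_cases h5 : x - y ∈ X
        · refine conf3_copy H hH X hX0 hXs (x + y) x ?_ h4 h1 ?_ ?_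
          · intro h0
            exact hxy' (eq_neg_of_add_eq_zero_left h0)
          · have e : x + (x + y) = -(x - y) := by
              have := h3 x
              rw [← add_assoc, this]
              abel
            rw [e, hneg]
            exact h5
          · have e : x - (x + y) = -y := by abel
            rw [e, hneg]
            exact h2
        · simp [h1, h2, h4, h5] at hcnt
    · by_cases h4 : x + y ∈ X
      · by_cases h5 : x - y ∈ X
        · exact conf3_copy H hH X hX0 hXs y x hy h2 h1 h4 h5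
        · simp [h1, h2, h4, h5] at hcnt
      · by_cases h5 : x - y ∈ X <;> simp [h1, h2, h4, h5] at hcnt
  · by_cases h2 : y ∈ X
    · by_cases h4 : x + y ∈ X
      · by_cases h5 : x - y ∈ X
        · refine conf3_copy H hH X hX0 hXs x y hx h1 h2 ?_ ?_
          · rw [add_comm]
            exact h4
          · rw [← neg_sub, hneg]
            exact h5
        · simp [h1, h2, h4, h5] at hcnt
      · by_cases h5 : x - y ∈ X <;> simp [h1, h2, h4, h5] at hcnt
    · by_cases h4 : x + y ∈ X <;> by_cases h5 : x - y ∈ X <;> simp [h1, h2, h4, h5] at hcnt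

end EHProj
end

section

open scoped LinearAlgebra.Projectivization

open Module

namespace EHProj

section Line

variable {V : Type} [AddCommGroup V] [Module (ZMod 2) V] [Finite V]

omit [Finite V] in
private lemma lineone_two (a : V) : a + a = 0 := by
  rw [← two_smul (ZMod 2) a, show (2 : ZMod 2) = 0 from rfl, zero_smul]

private lemma lineone_ind1 {W : Type} {X : Set W} {a : W} (h : a ∈ X) : ind X a = 1 := by
  simp [ind, h]

private lemma lineone_ind0 {W : Type} {X : Set W} {a : W} (h : a ∉ X) : ind X a = 0 := by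
  simp [ind, h]

private lemma lineone_ind01 {W : Type} (X : Set W) (a : W) :
    (a ∈ X ∧ ind X a = 1) ∨ (a ∉ X ∧ ind X a = 0) := by
  by_cases h : a ∈ X
  · exact Or.inl ⟨h, lineone_ind1 h⟩
  · exact Or.inr ⟨h, lineone_ind0 h⟩

omit [Module (ZMod 2) V] [Finite V] in
private lemma lineone_cnt {X : Set V} {x y w a b c d : V} (e1 : x + y = a) (e2 : x + w = b)
    (e3 : y + w = c) (e4 : x + y + w = d) :
    cnt3 X x y w = ind X x + ind X y + ind X w + ind X a + ind X b + ind X c + ind X d := by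
  subst e1 e2 e3 e4
  rfl

private lemma lineone_ne {W : Type} {X : Set W} {a b : W} (ha : a ∈ X) (hb : b ∉ X) : a ≠ b := by
  rintro rfl
  exact hb ha

/-- `k` is the only black point of the plane `⟨k,u,v⟩` -/
private structure LineOneP (X : Set V) (F : Submodule (ZMod 2) V) (k u v : V) : Prop where
  kF : k ∈ F
  uF : u ∈ F
  vF : v ∈ F
  u0 : u ≠ 0
  v0 : v ≠ 0
  uv : u ≠ v
  kX : k ∈ X
  uX : u ∉ X
  vX : v ∉ X
  uvX : u + v ∉ X
  kuX : k + u ∉ X
  kvX : k + v ∉ X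
  kuvX : k + u + v ∉ X
  ku0 : u ≠ k
  kv0 : v ≠ k
  kuv0 : v ≠ k + u

omit [Finite V] in
private lemma lineone_A {X : Set V} (hX0 : (0 : V) ∉ X) {F : Submodule (ZMod 2) V}
    (hloc : ∀ x ∈ F, ∀ y ∈ F, ∀ w ∈ F, Ind3 x y w → cnt3 X x y w = 0 ∨ cnt3 X x y w = 1 ∨
      cnt3 X x y w = 2 ∨ cnt3 X x y w = 4 ∨ cnt3 X x y w = 6) {k u v : V}
    (h : LineOneP X F k u v) {q : V} (hqF : q ∈ F) (hqX : q ∈ X) (hkq : q ≠ k) : k + q ∉ X := by
  intro hkqX
  have two := lineone_two (V := V)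
  have hk0 : k ≠ 0 := by rintro rfl; exact hX0 h.kX
  have hq0 : q ≠ 0 := by rintro rfl; exact hX0 hqX
  have hkqF : k + q ∈ F := F.add_mem h.kF hqF
  -- exactly one of `r+q`, `k+r+q` is black
  have one : ∀ r ∈ F, r ∉ X → k + r ∉ X → r ≠ 0 → r ≠ k →
      (r + q ∈ X ∧ k + r + q ∉ X) ∨ (r + q ∉ X ∧ k + r + q ∈ X) := by
    intro r hr hrX hkrX hr0 hrk
    have hI : Ind3 k q r := ⟨hk0, hq0, hkq.symm, hr0, hrk, (lineone_ne hqX hrX).symm,
      (lineone_ne hkqX hrX).symm⟩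
    have hc := hloc k h.kF q hqF r hr hI
    rw [lineone_cnt (a := k + q) (b := k + r) (c := r + q) (d := k + r + q) rfl rfl
      (by abel) (by abel), lineone_ind1 h.kX, lineone_ind1 hqX, lineone_ind0 hrX,
      lineone_ind1 hkqX, lineone_ind0 hkrX] at hc
    rcases lineone_ind01 X (r + q) with ⟨a1, a2⟩ | ⟨a1, a2⟩ <;>
      rcases lineone_ind01 X (k + r + q) with ⟨b1, b2⟩ | ⟨b1, b2⟩ <;> rw [a2, b2] at hc
    · omega
    · exact Or.inl ⟨a1, b1⟩
    · exact Or.inr ⟨a1, b1⟩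
    · omega
  -- the core: with `u+q`, `v+q` black
  have core : ∀ u v : V, LineOneP X F k u v → u + q ∈ X → k + u + q ∉ X → v + q ∈ X →
      k + v + q ∉ X → False := by
    intro u v h hu1 hu2 hv1 hv2
    have huv0 : u + v ≠ 0 := by
      intro h0
      apply h.uv
      have : u + v + v = v := by rw [h0, zero_add]
      rwa [add_assoc, two, add_zero] at this
    have huvk : u + v ≠ k := (lineone_ne h.kX h.uvX).symm
    have hk3 : k + (u + v) ∉ X := by rw [← add_assoc]; exact h.kuvX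
    rcases one (u + v) (F.add_mem h.uF h.vF) h.uvX hk3 huv0 huvk with ⟨c1, c2⟩ | ⟨c1, c2⟩
    · -- `u+v+q` black
      have hI : Ind3 (k + u) v (k + q) := by
        refine ⟨?_, h.v0, h.kuv0.symm, ?_, lineone_ne hkqX h.kuX, lineone_ne hkqX h.vX,
          lineone_ne hkqX h.kuvX⟩
        · intro h0
          apply h.ku0
          have : k + u + u = u := by rw [h0, zero_add]
          rw [add_assoc, two, add_zero] at this
          exact this.symm
        · rintro h0
          rw [h0] at hkqX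
          exact hX0 hkqX
      have hc := hloc (k + u) (F.add_mem h.kF h.uF) v h.vF (k + q) hkqF hI
      rw [lineone_cnt (a := k + u + v) (b := u + q) (c := k + v + q) (d := u + v + q) rfl
        (by rw [show k + u + (k + q) = u + q + (k + k) by abel, two, add_zero])
        (by abel)
        (by rw [show k + u + v + (k + q) = u + v + q + (k + k) by abel, two, add_zero]),
        lineone_ind0 h.kuX, lineone_ind0 h.vX, lineone_ind1 hkqX, lineone_ind0 h.kuvX,
        lineone_ind1 hu1, lineone_ind0 hv2, lineone_ind1 c1] at hc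
      omega
    · have hI : Ind3 u v q := ⟨h.u0, h.v0, h.uv, hq0, lineone_ne hqX h.uX, lineone_ne hqX h.vX,
        lineone_ne hqX h.uvX⟩
      have hc := hloc u h.uF v h.vF q hqF hI
      rw [lineone_cnt (a := u + v) (b := u + q) (c := v + q) (d := u + v + q) rfl rfl rfl rfl,
        lineone_ind0 h.uX, lineone_ind0 h.vX, lineone_ind1 hqX, lineone_ind0 h.uvX,
        lineone_ind1 hu1, lineone_ind1 hv1, lineone_ind0 c1] at hc
      omega
  -- changing `u` to `k+u`, `v` to `k+v`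
  have chU : ∀ u v : V, LineOneP X F k u v → LineOneP X F k (k + u) v := by
    intro u v h
    refine ⟨h.kF, F.add_mem h.kF h.uF, h.vF, ?_, h.v0, h.kuv0.symm, h.kX, h.kuX, h.vX, h.kuvX,
      ?_, h.kvX, ?_, (lineone_ne h.kX h.kuX).symm, h.kv0, ?_⟩
    · intro h0
      apply h.ku0
      have : k + u + u = u := by rw [h0, zero_add]
      rw [add_assoc, two, add_zero] at this
      exact this.symm
    · rw [← add_assoc, two, zero_add]; exact h.uX
    · rw [← add_assoc, two, zero_add]; exact h.uvX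
    · rw [← add_assoc, two, zero_add]; exact h.uv.symm
  have sw : ∀ u v : V, LineOneP X F k u v → LineOneP X F k v u := by
    intro u v h
    refine ⟨h.kF, h.vF, h.uF, h.v0, h.u0, h.uv.symm, h.kX, h.vX, h.uX, ?_, h.kvX, h.kuX, ?_,
      h.kv0, h.ku0, ?_⟩
    · rw [add_comm]; exact h.uvX
    · rw [show k + v + u = k + u + v by abel]; exact h.kuvX
    · intro h0
      apply h.kuv0
      rw [h0, ← add_assoc, two, zero_add]
  -- first fix `u`
  have stepU : ∀ u v : V, LineOneP X F k u v → ∃ u', LineOneP X F k u' v ∧ u' + q ∈ X ∧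
      k + u' + q ∉ X := by
    intro u v h
    rcases one u h.uF h.uX h.kuX h.u0 h.ku0 with ⟨c1, c2⟩ | ⟨c1, c2⟩
    · exact ⟨u, h, c1, c2⟩
    · refine ⟨k + u, chU u v h, c2, ?_⟩
      rw [← add_assoc, two, zero_add]; exact c1
  obtain ⟨u', hu', c1, c2⟩ := stepU u v h
  obtain ⟨v', hv', d1, d2⟩ := stepU v u' (sw u' v hu')
  exact core v' u' hv' d1 d2 c1 c2

omit [Finite V] in
private lemma lineone_B {X : Set V} (hX0 : (0 : V) ∉ X) (hL : LineFree X)
    {F : Submodule (ZMod 2) V}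
    (hloc : ∀ x ∈ F, ∀ y ∈ F, ∀ w ∈ F, Ind3 x y w → cnt3 X x y w = 0 ∨ cnt3 X x y w = 1 ∨
      cnt3 X x y w = 2 ∨ cnt3 X x y w = 4 ∨ cnt3 X x y w = 6) {q q' : V}
    (hq : q ∈ F) (hq' : q' ∈ F) (hqX : q ∈ X) (hqX' : q' ∈ X) (hne : q ≠ q')
    (hqq : q + q' ∈ X) {k u v : V} (h : LineOneP X F k u v) : False := by
  have two := lineone_two (V := V)
  have hk0 : k ≠ 0 := by rintro rfl; exact hX0 h.kX
  have hq0 : q ≠ 0 := by rintro rfl; exact hX0 hqX
  have hq0' : q' ≠ 0 := by rintro rfl; exact hX0 hqX'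
  have hqqF : q + q' ∈ F := F.add_mem hq hq'
  have A := fun {s : V} (hs : s ∈ F) (hsX : s ∈ X) (hsk : s ≠ k) => lineone_A hX0 hloc h hs hsX hsk
  -- `k` is not on the line
  have hqk : q ≠ k := by
    rintro rfl
    exact A hq' hqX' hne.symm hqq
  have hqk' : q' ≠ k := by
    rintro rfl
    exact A hq hqX hne (by rw [add_comm]; exact hqq)
  have hqqk : q + q' ≠ k := by
    intro h0
    apply A hq hqX hqk
    rw [← h0, show q + q' + q = q' + (q + q) by abel, two, add_zero]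
    exact hqX'
  -- `u + s` white for the points `s` of the line
  have key : ∀ s ∈ F, s ∈ X → s ≠ k → u + s ∉ X := by
    intro s hs hsX hsk
    have hks := A hs hsX hsk
    have hs0 : s ≠ 0 := by rintro rfl; exact hX0 hsX
    have pair : ∀ r ∈ F, r ∉ X → k + r ∉ X → r ≠ 0 → r ≠ k →
        ind X (r + s) = ind X (k + r + s) := by
      intro r hr hrX hkrX hr0 hrk
      have hI : Ind3 k r s := ⟨hk0, hr0, hrk.symm, hs0, hsk, lineone_ne hsX hrX,
        lineone_ne hsX hkrX⟩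
      have hc := hloc k h.kF r hr s hs hI
      rw [lineone_cnt (a := k + r) (b := k + s) (c := r + s) (d := k + r + s) rfl rfl
        rfl rfl, lineone_ind1 h.kX, lineone_ind1 hsX, lineone_ind0 hrX,
        lineone_ind0 hkrX, lineone_ind0 hks] at hc
      rcases lineone_ind01 X (r + s) with ⟨a1, a2⟩ | ⟨a1, a2⟩ <;>
        rcases lineone_ind01 X (k + r + s) with ⟨b1, b2⟩ | ⟨b1, b2⟩ <;> rw [a2, b2] at hc ⊢ <;>
        omega
    have pu := pair u h.uF h.uX h.kuX h.u0 h.ku0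
    have pv := pair v h.vF h.vX h.kvX h.v0 h.kv0
    have hus0 : u + s ≠ 0 := by
      intro h0
      have : u + s + s = s := by rw [h0, zero_add]
      rw [add_assoc, two, add_zero] at this
      exact h.uX (this ▸ hsX)
    have hvs0 : v + s ≠ 0 := by
      intro h0
      have : v + s + s = s := by rw [h0, zero_add]
      rw [add_assoc, two, add_zero] at this
      exact h.vX (this ▸ hsX)
    have e0 : (u + s) + (v + s) = u + v := by
      rw [show (u + s) + (v + s) = u + v + (s + s) by abel, two, add_zero]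
    have hI : Ind3 (u + s) (v + s) k := by
      refine ⟨hus0, hvs0, ?_, hk0, ?_, ?_, ?_⟩
      · intro h0
        exact h.uv (add_right_cancel h0)
      · intro h0
        have : s = k + u := by
          rw [h0, show u + s + u = s + (u + u) by abel, two, add_zero]
        exact h.kuX (this ▸ hsX)
      · intro h0
        have : s = k + v := by
          rw [h0, show v + s + v = s + (v + v) by abel, two, add_zero]
        exact h.kvX (this ▸ hsX)
      · rw [e0]
        exact lineone_ne h.kX h.uvX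
    have hc := hloc (u + s) (F.add_mem h.uF hs) (v + s) (F.add_mem h.vF hs) k h.kF hI
    rw [lineone_cnt (a := u + v) (b := k + u + s) (c := k + v + s) (d := k + u + v) e0
      (by abel) (by abel) (by rw [e0]; abel), lineone_ind1 h.kX, lineone_ind0 h.uvX,
      lineone_ind0 h.kuvX, ← pu, ← pv] at hc
    intro hus
    rw [lineone_ind1 hus] at hc
    rcases lineone_ind01 X (v + s) with ⟨a1, a2⟩ | ⟨a1, a2⟩ <;> rw [a2] at hc <;> omega
  have k1 := key q hq hqX hqk
  have k2 := key q' hq' hqX' hqk'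
  have k3 := key (q + q') hqqF hqq hqqk
  have hI : Ind3 q q' u := ⟨hq0, hq0', hne, h.u0, (lineone_ne hqX h.uX).symm,
    (lineone_ne hqX' h.uX).symm, (lineone_ne hqq h.uX).symm⟩
  rcases hL q q' u hI hqX hqX' hqq with c | c | c | c
  · exact h.uX c
  · exact k1 c
  · exact k2 c
  · exact k3 (by rw [← add_assoc]; exact c)

theorem line_one (X : Set V) (hX0 : (0 : V) ∉ X) (hL : LineFree X) (F : Submodule (ZMod 2) V)
    (hloc : ∀ x ∈ F, ∀ y ∈ F, ∀ w ∈ F, Ind3 x y w → cnt3 X x y w = 0 ∨ cnt3 X x y w = 1 ∨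
      cnt3 X x y w = 2 ∨ cnt3 X x y w = 4 ∨ cnt3 X x y w = 6)
    (q q' : V) (hq : q ∈ F) (hq' : q' ∈ F) (hqX : q ∈ X) (hqX' : q' ∈ X) (hne : q ≠ q')
    (hqq : q + q' ∈ X) (x y w : V) (hx : x ∈ F) (hy : y ∈ F) (hwF : w ∈ F) (hi : Ind3 x y w) :
    cnt3 X x y w ≠ 1 := by
  intro hc
  have two := lineone_two (V := V)
  have t2 : ∀ a b : V, a + (a + b) = b := fun a b => by rw [← add_assoc, two, zero_add]
  have t3 : ∀ a b : V, a + b + b = a := fun a b => by rw [add_assoc, two, add_zero]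
  obtain ⟨x0, y0, xy, w0, wx, wy, wxy⟩ := hi
  have B := fun {k u v : V} (h : LineOneP X F k u v) =>
    lineone_B hX0 hL hloc hq hq' hqX hqX' hne hqq h
  have zc : ∀ a b : V, a + b = 0 → a = b := fun a b h => by
    have := t3 a b
    rw [h, zero_add] at this
    exact this.symm
  unfold cnt3 at hc
  rcases lineone_ind01 X x with ⟨a1, b1⟩ | ⟨a1, b1⟩ <;>
  rcases lineone_ind01 X y with ⟨a2, b2⟩ | ⟨a2, b2⟩ <;>
  rcases lineone_ind01 X w with ⟨a3, b3⟩ | ⟨a3, b3⟩ <;>
  rcases lineone_ind01 X (x + y) with ⟨a4, b4⟩ | ⟨a4, b4⟩ <;>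
  rcases lineone_ind01 X (x + w) with ⟨a5, b5⟩ | ⟨a5, b5⟩ <;>
  rcases lineone_ind01 X (y + w) with ⟨a6, b6⟩ | ⟨a6, b6⟩ <;>
  rcases lineone_ind01 X (x + y + w) with ⟨a7, b7⟩ | ⟨a7, b7⟩ <;>
  rw [b1, b2, b3, b4, b5, b6, b7] at hc <;> first | omega | skip
  · exact B ⟨hx, hy, hwF, y0, w0, wy.symm, a1, a2, a3, a6, a4, a5, a7, xy.symm, wx, wxy⟩
  · refine B ⟨hy, hx, hwF, x0, w0, wx.symm, a2, a1, a3, a5, ?_, a6, ?_, xy, wy, ?_⟩
    · rw [add_comm]; exact a4
    · rw [add_comm y x]; exact a7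
    · rw [add_comm y x]; exact wxy
  · refine B ⟨hwF, hx, hy, x0, y0, xy, a3, a1, a2, a4, ?_, ?_, ?_, wx.symm, wy.symm, ?_⟩
    · rw [add_comm]; exact a5
    · rw [add_comm]; exact a6
    · rw [show w + x + y = x + y + w by abel]; exact a7
    · intro h0
      apply wxy
      rw [h0, show x + (w + x) = w + (x + x) by abel, two, add_zero]
  · have e1 : x + y + x = y := by rw [show x + y + x = y + (x + x) by abel, two, add_zero]
    refine B (k := x + y) (u := x) (v := w) ⟨F.add_mem hx hy, hx, hwF, x0, w0, wx.symm, a4, a1, a3,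
      a5, ?_, a7, ?_, ?_, wxy, ?_⟩
    · rw [e1]; exact a2
    · rw [e1]; exact a6
    · intro h0
      exact y0 (by simpa using h0)
    · rw [e1]; exact wy
  · have e1 : x + w + x = w := by rw [show x + w + x = w + (x + x) by abel, two, add_zero]
    refine B (k := x + w) (u := x) (v := y) ⟨F.add_mem hx hwF, hx, hy, x0, y0, xy, a5, a1, a2,
      a4, ?_, ?_, ?_, ?_, ?_, ?_⟩
    · rw [e1]; exact a3
    · rw [show x + w + y = x + y + w by abel]; exact a7
    · rw [e1, add_comm]; exact a6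
    · intro h0
      exact w0 (by simpa using h0)
    · intro h0
      apply wxy
      rw [h0, t2]
    · rw [e1]; exact wy.symm
  · have e1 : y + w + y = w := by rw [show y + w + y = w + (y + y) by abel, two, add_zero]
    refine B (k := y + w) (u := y) (v := x) ⟨F.add_mem hy hwF, hy, hx, y0, x0, xy.symm, a6, a2, a1,
      ?_, ?_, ?_, ?_, ?_, ?_, ?_⟩
    · rw [add_comm]; exact a4
    · rw [e1]; exact a3
    · rw [show y + w + x = x + y + w by abel]; exact a7
    · rw [e1, add_comm]; exact a5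
    · intro h0
      exact w0 (by simpa using h0)
    · intro h0
      apply wxy
      rw [h0, e1]
    · rw [e1]; exact wx.symm
  · have e1 : x + y + w + x = y + w := by
      rw [show x + y + w + x = y + w + (x + x) by abel, two, add_zero]
    have e2 : x + y + w + y = x + w := by
      rw [show x + y + w + y = x + w + (y + y) by abel, two, add_zero]
    refine B (k := x + y + w) (u := x) (v := y) ⟨F.add_mem (F.add_mem hx hy) hwF, hx, hy, x0, y0,
      xy, a7, a1, a2, a4, ?_, ?_, ?_, ?_, ?_, ?_⟩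
    · rw [e1]; exact a6
    · rw [e2]; exact a5
    · rw [e1, show y + w + y = w + (y + y) by abel, two, add_zero]; exact a3
    · intro h0
      apply wy
      symm
      apply zc
      have h1 : x + (y + w) = x + 0 := by rw [add_zero, ← add_assoc]; exact h0.symm
      exact add_left_cancel h1
    · intro h0
      apply wx
      symm
      apply zc
      have h1 : y + (x + w) = y + 0 := by
        rw [add_zero, show y + (x + w) = x + y + w by abel]; exact h0.symm
      exact add_left_cancel h1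
    · rw [e1]
      intro h0
      exact w0 (by simpa using h0)

end Line

end EHProj
end

section

namespace EHProj

open scoped LinearAlgebra.Projectivization
open Module

variable {p : ℕ} [Fact p.Prime] {V : Type} [AddCommGroup V] [Module (ZMod p) V] [Finite V]

/-- if every dense set of differences is hit, then `SU X U` is dense in the subspace itself -/
theorem growStep_aux (hp : p ≤ 3) (X : Set V) (hX0 : (0 : V) ∉ X)
    (hXs : ∀ c : ZMod p, ∀ v, c ≠ 0 → v ∈ X → c • v ∈ X) (hR : GrowRules p X)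
    (t : ℕ) (hw : ¬ HasWhite (p := p) X ⊤ t)
    (U H : Submodule (ZMod p) V) (hU : ∀ u ∈ U, u ≠ 0 → u ∈ X) (hUH : H ⊓ U = ⊥) (x : V)
    (hpos : 0 < rd (SU X U) H x) (hfin : t ≤ finrank (ZMod p) H)
    (hC : ∀ C : Set V, (1 / 2 : ℝ) ^ (2 * t + 2) ≤ rd C H 0 →
      ∃ w ∈ C, w ∈ H ∧ (1 / 2) * (rd (SU X U) H x) ^ 2 ≤
        rd {v | v ∈ SU X U ∧ v + w ∈ SU X U} H x) :
    (1 / 2 : ℝ) ^ (2 * t + 1) ≤ rd (SU X U) H 0 := by
  set D : Set V := {v | v ∈ BU X U ∧ v ∉ SU X U ∧ v ≠ 0} with hDdef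
  have hD : rd D H 0 < (1 / 2 : ℝ) ^ (2 * t + 2) := by
    by_contra hcon
    push Not at hcon
    obtain ⟨w, hwD, hwH, hlow⟩ := hC D hcon
    have hp2 : 0 < rd {v | v ∈ SU X U ∧ v + w ∈ SU X U} H x :=
      lt_of_lt_of_le (by positivity) hlow
    obtain ⟨v, ⟨hv1, hv2⟩, -⟩ := exists_of_rd_pos hp2
    have hwU : w ∉ U := by
      intro h
      have : w ∈ H ⊓ U := ⟨hwH, h⟩
      rw [hUH, Submodule.mem_bot] at this
      exact hwD.2.2 this
    have h1 := hR.1 U hU (v + w) v hv2 hv1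
    rw [add_sub_cancel_left] at h1
    exact hwD.2.1 (h1 hwU hwD.1)
  have hwH : ¬ HasWhite X H t := by
    rintro ⟨W, -, hW2, hW3⟩
    exact hw ⟨W, le_top, hW2, hW3⟩
  have hX := density_black X hXs H t hfin hwH
  have hp4 : (1 / 2 : ℝ) ^ (2 * t) ≤ (1 / (p : ℝ)) ^ t := by
    rw [pow_mul]
    apply pow_le_pow_left₀ (by norm_num)
    have h1 : (p : ℝ) ≤ 3 := by exact_mod_cast hp
    have h2 : (0 : ℝ) < p := by exact_mod_cast (Fact.out : p.Prime).pos
    rw [le_div_iff₀ h2]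
    linarith
  have hsub : rd X H 0 ≤ rd (D ∪ SU X U) H 0 := by
    apply rd_mono
    intro v _ hv
    by_cases hS : v ∈ SU X U
    · exact Or.inr hS
    · exact Or.inl ⟨⟨0, U.zero_mem, by simpa using hv⟩, hS, fun h => hX0 (h ▸ hv)⟩
  have hun := rd_union_le D (SU X U) H 0
  have e1 : (1 / 2 : ℝ) ^ (2 * t + 1) = (1 / 2) * (1 / 2) ^ (2 * t) := by rw [pow_succ]; ring
  have e2 : (1 / 2 : ℝ) ^ (2 * t + 2) = (1 / 4) * (1 / 2) ^ (2 * t) := by rw [pow_add]; norm_num; ring
  have e3 : (0 : ℝ) < (1 / 2) ^ (2 * t) := by positivity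
  rw [e2] at hD
  rw [e1]
  linarith

theorem grow_step (hp : p ≤ 3) (X : Set V) (hX0 : (0 : V) ∉ X)
    (hXs : ∀ c : ZMod p, ∀ v, c ≠ 0 → v ∈ X → c • v ∈ X) (hR : GrowRules p X)
    (t : ℕ) (ht : 1 ≤ t) (hw : ¬ HasWhite (p := p) X ⊤ t)
    (U H : Submodule (ZMod p) V) (hU : ∀ u ∈ U, u ≠ 0 → u ∈ X) (hUH : H ⊓ U = ⊥) (x : V)
    (hS : (1 / 2 : ℝ) ^ (4 * t + 5) ≤ rd (SU X U) H x)
    (hdim : stepN t + 4 * t + 10 ≤ finrank (ZMod p) H) :
    ∃ U' H' : Submodule (ZMod p) V, ∃ x' : V, (∀ u ∈ U', u ≠ 0 → u ∈ X) ∧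
      finrank (ZMod p) U' = finrank (ZMod p) U + 1 ∧ H' ⊓ U' = ⊥ ∧
      (1 / 2 : ℝ) ^ (4 * t + 5) ≤ rd (SU X U') H' x' ∧
      finrank (ZMod p) H ≤ finrank (ZMod p) H' + stepN t := by
  have hdim' : 45 * (4 * t + 5) * KK (4 * t + 5) (2 * t + 2) +
      45 * (2 * t + 1) * KK (2 * t + 1) (2 * t + 2) + 1 + 4 * t + 10 ≤ finrank (ZMod p) H := hdim
  -- first iteration
  obtain ⟨H1, hH1, hf1, x1, -, hd1, hC1⟩ :=
    it1 H (SU X U) x (4 * t + 5) (2 * t + 2) (by omega) hS
  have hpos0 : (0 : ℝ) < (1 / 2) ^ (4 * t + 5) := by positivity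
  have hU1 : H1 ⊓ U = ⊥ := by
    rw [eq_bot_iff, ← hUH]
    exact inf_le_inf_right U hH1
  have hS1 : (1 / 2 : ℝ) ^ (2 * t + 1) ≤ rd (SU X U) H1 0 :=
    growStep_aux hp X hX0 hXs hR t hw U H1 hU hU1 x1 (by linarith) (by omega) hC1
  -- second iteration
  obtain ⟨H2, hH2, hf2, x2, -, hd2, hC2⟩ :=
    it1 H1 (SU X U) 0 (2 * t + 1) (2 * t + 2) (by omega) hS1
  have hpos1 : (0 : ℝ) < (1 / 2) ^ (2 * t + 1) := by positivity
  have hU2 : H2 ⊓ U = ⊥ := by
    rw [eq_bot_iff, ← hU1]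
    exact inf_le_inf_right U hH2
  have hS2 : (1 / 2 : ℝ) ^ (2 * t + 1) ≤ rd (SU X U) H2 0 :=
    growStep_aux hp X hX0 hXs hR t hw U H2 hU hU2 x2 (by linarith) (by omega) hC2
  obtain ⟨z, hzS, hzH, hz⟩ := hC2 (SU X U)
    ((pow_le_pow_of_le_one (by norm_num) (by norm_num) (by omega)).trans hS2)
  have hz2 : (1 / 2 : ℝ) ^ (4 * t + 3) ≤ rd {v | v ∈ SU X U ∧ v + z ∈ SU X U} H2 x2 := by
    refine le_trans ?_ hz
    have h1 : (1 / 2 : ℝ) ^ (2 * t + 1) ≤ rd (SU X U) H2 x2 := hS1.trans hd2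
    have h2 : ((1 / 2 : ℝ) ^ (2 * t + 1)) ^ 2 ≤ (rd (SU X U) H2 x2) ^ 2 :=
      pow_le_pow_left₀ hpos1.le h1 2
    have h3 : (1 / 2 : ℝ) ^ (4 * t + 3) = (1 / 2) * ((1 / 2 : ℝ) ^ (2 * t + 1)) ^ 2 := by
      rw [← pow_mul, show 4 * t + 3 = (2 * t + 1) * 2 + 1 by ring, pow_succ]
      ring
    rw [h3]
    linarith
  have hzU : z ∉ U := by
    intro h
    have := hzS (-z) (U.neg_mem h)
    rw [add_neg_cancel] at this
    exact hX0 this
  have hz0 : z ≠ 0 := fun h => hzU (h ▸ U.zero_mem)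
  set W : Submodule (ZMod p) V := Submodule.span (ZMod p) {z} with hW
  have hWH : W ≤ H2 := by
    rw [hW, Submodule.span_singleton_le_iff_mem]
    exact hzH
  obtain ⟨H0, hH0, hH0W, -, hf0⟩ := exists_compl hWH
  have hfW : finrank (ZMod p) W = 1 := finrank_span_singleton hz0
  rw [hfW] at hf0
  -- the black space
  have hUW : U ⊓ W = ⊥ := by
    rw [eq_bot_iff]
    rintro v ⟨hv1, hv2⟩
    obtain ⟨c, rfl⟩ := Submodule.mem_span_singleton.1 hv2
    rw [Submodule.mem_bot]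
    by_cases hc : c = 0
    · rw [hc, zero_smul]
    · exact absurd ((U.smul_mem_iff hc).1 hv1) hzU
  have hfU : finrank (ZMod p) (U ⊔ W : Submodule (ZMod p) V) = finrank (ZMod p) U + 1 := by
    have := Submodule.finrank_sup_add_finrank_inf_eq U W
    rw [hUW, finrank_bot, hfW] at this
    omega
  have hblack : ∀ u ∈ U ⊔ W, u ≠ 0 → u ∈ X := by
    intro v hv hv0
    obtain ⟨u, hu, y, hy, rfl⟩ := Submodule.mem_sup.1 hv
    obtain ⟨c, rfl⟩ := Submodule.mem_span_singleton.1 hy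
    by_cases hc : c = 0
    · subst hc
      rw [zero_smul, add_zero] at hv0 ⊢
      exact hU u hu hv0
    · have h1 : z + c⁻¹ • u ∈ X := hzS _ (U.smul_mem _ hu)
      have h2 := hXs c _ hc h1
      rw [smul_add, smul_smul, mul_inv_cancel₀ hc, one_smul] at h2
      rwa [add_comm]
  -- the density of the new set
  have hnew : (1 / 2 : ℝ) ^ (4 * t + 4) ≤ rd (SU X (U ⊔ W)) H2 x2 := by
    have h1 : rd {v | v ∈ SU X U ∧ v + z ∈ SU X U} H2 x2
        ≤ rd (SU X (U ⊔ W) ∪ {v | v - z ∈ U}) H2 x2 := by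
      apply rd_mono
      rintro v - ⟨hv1, hv2⟩
      by_cases h : v - z ∈ U
      · exact Or.inr h
      · exact Or.inl (hR.2 U hU z v hzS hv1 hv2 h)
    have h2 := rd_union_le (SU X (U ⊔ W)) {v | v - z ∈ U} H2 x2
    have h3 : rd {v | v - z ∈ U} H2 x2 ≤ 1 / (Nat.card H2 : ℝ) := by
      apply rd_subsingleton
      intro v hv w hw' hv2 hw2
      have h4 : v - w ∈ H2 ⊓ U := by
        refine ⟨?_, ?_⟩
        · have := H2.sub_mem hv2 hw2
          rwa [sub_sub_sub_cancel_right] at this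
        · have := U.sub_mem hv hw'
          rwa [sub_sub_sub_cancel_right] at this
      rw [hU2, Submodule.mem_bot] at h4
      exact sub_eq_zero.1 h4
    have h5 : (2 : ℝ) ^ (4 * t + 4) ≤ (Nat.card H2 : ℝ) := by
      rw [natCard_eq]
      have h6 : 2 ^ (4 * t + 4) ≤ p ^ finrank (ZMod p) H2 :=
        (Nat.pow_le_pow_left (Fact.out : p.Prime).two_le _).trans
          (Nat.pow_le_pow_right (Fact.out : p.Prime).pos (by omega))
      exact_mod_cast h6
    have h7 : 1 / (Nat.card H2 : ℝ) ≤ (1 / 2) ^ (4 * t + 4) := by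
      rw [one_div_pow]
      exact one_div_le_one_div_of_le (by positivity) h5
    have h8 : (1 / 2 : ℝ) ^ (4 * t + 3) = 2 * (1 / 2) ^ (4 * t + 4) := by
      rw [pow_succ (1 / 2 : ℝ) (4 * t + 3)]; ring
    rw [h8] at hz2
    linarith
  obtain ⟨x', -, hx'⟩ := rd_avg (SU X (U ⊔ W)) hH0 x2
  refine ⟨U ⊔ W, H0, x', hblack, hfU, ?_, ?_, ?_⟩
  · rw [eq_bot_iff]
    rintro v ⟨hv1, hv2⟩
    obtain ⟨u, hu, y, hy, huy⟩ := Submodule.mem_sup.1 hv2
    have h1 : u ∈ H2 ⊓ U := by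
      refine ⟨?_, hu⟩
      have : u = v - y := by rw [← huy]; abel
      rw [this]
      exact H2.sub_mem (hH0 hv1) (hWH hy)
    rw [hU2, Submodule.mem_bot] at h1
    rw [h1, zero_add] at huy
    rw [← hH0W]
    exact ⟨hv1, huy ▸ hy⟩
  · refine le_trans ?_ (hnew.trans hx')
    exact pow_le_pow_of_le_one (by norm_num) (by norm_num) (by omega)
  · show finrank (ZMod p) H ≤ finrank (ZMod p) H0 + (45 * (4 * t + 5) * KK (4 * t + 5) (2 * t + 2) +
      45 * (2 * t + 1) * KK (2 * t + 1) (2 * t + 2) + 1)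
    omega

end EHProj
end

section

/-! # L-3: line-free sets, step B -/

namespace EHProj

open scoped LinearAlgebra.Projectivization
open Module

section Line
variable {V : Type} [AddCommGroup V] [Module (ZMod 2) V] [Finite V]

private lemma linestepb_rel (X : Set V) (hX0 : (0 : V) ∉ X) (hL : LineFree X)
    (H0 : Submodule (ZMod 2) V) {z : V} (hzX : z ∈ X) (hzH : z ∉ H0) (v w : V) (hw : w ∈ H0)
    (hv : v ∈ {v | (v ≠ 0 ∧ v ∉ X) ∧ (v + z ≠ 0 ∧ v + z ∉ X)})
    (hvw : v + w ∈ {v | (v ≠ 0 ∧ v ∉ X) ∧ (v + z ≠ 0 ∧ v + z ∉ X)}) :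
    w ∉ {h | h ∈ X ∧ h + z ∈ X} := by
  rintro ⟨hwX, hwzX⟩
  obtain ⟨⟨hv0, hvX⟩, hvz0, hvzX⟩ := hv
  obtain ⟨⟨hvw0, hvwX⟩, hvwz0, hvwzX⟩ := hvw
  have hzw : z + w ∈ X := by rw [add_comm]; exact hwzX
  have hI : Ind3 z w v := by
    refine ⟨?_, ?_, ?_, hv0, ?_, ?_, ?_⟩
    · rintro rfl; exact hX0 hzX
    · rintro rfl; exact hX0 hwX
    · rintro rfl; exact hzH hw
    · rintro rfl; exact hvX hzX
    · rintro rfl; exact hvX hwX
    · rintro rfl; exact hvX hzw
  rcases hL z w v hI hzX hwX hzw with h | h | h | h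
  · exact hvX h
  · exact hvzX h
  · exact hvwX h
  · apply hvwzX
    have : v + w + z = v + z + w := by abel
    rw [this]; exact h

-- L-3  (LineStepB.lean)
theorem line_stepB (X : Set V) (hX0 : (0 : V) ∉ X) (hL : LineFree X) (t : ℕ)
    (a b : V) (ha : a ∈ X) (hb : b ∈ X) (hab : a + b ∈ X) (hne : a ≠ b)
    (H0 : Submodule (ZMod 2) V) (hH0 : H0 ⊓ Submodule.span (ZMod 2) {a, b} = ⊥)
    (hz : ∀ z ∈ ({a, b, a + b} : Set V), ∃ y, (1 / 2 : ℝ) ^ (2 * t + 1) ≤
          rd {v | (v ≠ 0 ∧ v ∉ X) ∧ (v + z ≠ 0 ∧ v + z ∉ X)} H0 y) :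
    ∃ H ≤ H0, finrank (ZMod 2) H0 ≤ finrank (ZMod 2) H + (lka t + lkb t + lkc t) ∧
      ∀ z ∈ ({a, b, a + b} : Set V), rd {h | h ∈ X ∧ h + z ∈ X} H 0 < (1 / 2 : ℝ) ^ (lc1 t) := by
  have hspan : ∀ z, z ∈ X → z ∈ Submodule.span (ZMod 2) ({a, b} : Set V) → z ∉ H0 := by
    intro z hzX hzs hzH
    have h1 : z ∈ H0 ⊓ Submodule.span (ZMod 2) ({a, b} : Set V) := ⟨hzH, hzs⟩
    rw [hH0, Submodule.mem_bot] at h1
    rw [h1] at hzX
    exact hX0 hzX
  have has : a ∈ Submodule.span (ZMod 2) ({a, b} : Set V) := Submodule.subset_span (by simp)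
  have hbs : b ∈ Submodule.span (ZMod 2) ({a, b} : Set V) := Submodule.subset_span (by simp)
  have haH := hspan a ha has
  have hbH := hspan b hb hbs
  have habH := hspan (a + b) hab (Submodule.add_mem _ has hbs)
  obtain ⟨ya, hya⟩ := hz a (by simp)
  obtain ⟨yb, hyb⟩ := hz b (by simp)
  obtain ⟨yc, hyc⟩ := hz (a + b) (by simp)
  -- step one
  obtain ⟨Ha, hHa, fa, -, da⟩ := it1_disj H0 _ {h | h ∈ X ∧ h + a ∈ X} ya (2 * t + 1) (lca t)
    (by omega) hya (fun v w _ hw hv hvw => linestepb_rel X hX0 hL H0 ha haH v w hw hv hvw)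
  -- step two
  obtain ⟨yb', hyb1, hyb2⟩ := rd_avg
    {v | (v ≠ 0 ∧ v ∉ X) ∧ (v + b ≠ 0 ∧ v + b ∉ X)} hHa yb
  obtain ⟨Hb, hHb, fb, -, db⟩ := it1_disj Ha _ {h | h ∈ X ∧ h + b ∈ X} yb' (2 * t + 1) (lcb t)
    (by omega) (le_trans hyb hyb2)
    (fun v w _ hw hv hvw => linestepb_rel X hX0 hL H0 hb hbH v w (hHa hw) hv hvw)
  -- step three
  obtain ⟨yc', hyc1, hyc2⟩ := rd_avg
    {v | (v ≠ 0 ∧ v ∉ X) ∧ (v + (a + b) ≠ 0 ∧ v + (a + b) ∉ X)} (le_trans hHb hHa) yc
  obtain ⟨H, hH, fc, -, dc⟩ := it1_disj Hb _ {h | h ∈ X ∧ h + (a + b) ∈ X} yc' (2 * t + 1)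
    (lc1 t) (by omega) (le_trans hyc hyc2)
    (fun v w _ hw hv hvw => linestepb_rel X hX0 hL H0 hab habH v w (hHa (hHb hw)) hv hvw)
  have e1 : 45 * (2 * t + 1) * KK (2 * t + 1) (lca t) = lka t := rfl
  have e2 : 45 * (2 * t + 1) * KK (2 * t + 1) (lcb t) = lkb t := rfl
  have e3 : 45 * (2 * t + 1) * KK (2 * t + 1) (lc1 t) = lkc t := rfl
  rw [e1] at fa
  rw [e2] at fb
  rw [e3] at fc
  have c1 : lca t = lcb t + lkb t := rfl
  have c2 : lcb t = lc1 t + lkc t := rfl
  have hpow : ∀ k m : ℕ, (2 : ℝ) ^ k * (1 / 2 : ℝ) ^ (m + k) = (1 / 2 : ℝ) ^ m := by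
    intro k m
    rw [pow_add, mul_comm ((1 / 2 : ℝ) ^ m), ← mul_assoc, ← mul_pow]
    norm_num
  refine ⟨H, le_trans hH (le_trans hHb hHa), by omega, ?_⟩
  intro z hz'
  simp only [Set.mem_insert_iff, Set.mem_singleton_iff] at hz'
  rcases hz' with rfl | rfl | rfl
  · have h1 := rd_restrict {h | h ∈ X ∧ h + z ∈ X} (le_trans hH hHb) (x := 0) (y := 0)
      (by simp) (lkb t + lkc t) (by omega)
    refine lt_of_le_of_lt h1 ?_
    have h2 : (((2 : ℕ) : ℝ)) ^ (lkb t + lkc t) * rd {h | h ∈ X ∧ h + z ∈ X} Ha 0 <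
        (((2 : ℕ) : ℝ)) ^ (lkb t + lkc t) * (1 / 2 : ℝ) ^ (lca t) :=
      mul_lt_mul_of_pos_left da (by positivity)
    refine lt_of_lt_of_eq h2 ?_
    have h3 : lca t = lc1 t + (lkb t + lkc t) := by omega
    rw [h3]
    exact_mod_cast hpow _ _
  · have h1 := rd_restrict {h | h ∈ X ∧ h + z ∈ X} hH (x := 0) (y := 0)
      (by simp) (lkc t) (by omega)
    refine lt_of_le_of_lt h1 ?_
    have h2 : (((2 : ℕ) : ℝ)) ^ (lkc t) * rd {h | h ∈ X ∧ h + z ∈ X} Hb 0 <
        (((2 : ℕ) : ℝ)) ^ (lkc t) * (1 / 2 : ℝ) ^ (lcb t) :=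
      mul_lt_mul_of_pos_left db (by positivity)
    refine lt_of_lt_of_eq h2 ?_
    rw [c2]
    exact_mod_cast hpow _ _
  · exact dc

end Line

end EHProj
end
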