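import Pool.Agent.Lib.MP_f4f4db_co.Avoid
import Pool.Agent.Lib.MP_f4f4db_co.LineStepB
import Pool.Agent.Lib.MP_f4f4db_co.EHcompl
import Pool.Agent.Lib.MP_f4f4db_co.Defs
import Pool.Agent.Lib.MP_f4f4db_co.LineLocal

section

/-! G-2: growth -/

namespace EHProj

open scoped LinearAlgebra.Projectivization
open Module

variable {p : ℕ} [Fact p.Prime] {V : Type} [AddCommGroup V] [Module (ZMod p) V] [Finite V]

omit [Finite V] in
private theorem growth_SU_bot (X : Set V) : SU X (⊥ : Submodule (ZMod p) V) = X := by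
  ext v
  simp only [SU, Submodule.mem_bot, forall_eq, add_zero]
  rfl

theorem growth (hp : p ≤ 3) (X : Set V) (hX0 : (0 : V) ∉ X)
    (hXs : ∀ c : ZMod p, ∀ v, c ≠ 0 → v ∈ X → c • v ∈ X) (hR : GrowRules p X)
    (t : ℕ) (ht : 1 ≤ t) (hdim : growN t ≤ finrank (ZMod p) V) :
    HasBlack (p := p) X ⊤ t ∨ HasWhite (p := p) X ⊤ t := by
  by_cases hw : HasWhite (p := p) X ⊤ t
  · exact Or.inr hw
  left
  have hp0 : 0 < p := (Fact.out : p.Prime).pos
  have hgrow : growN t = t * stepN t + 4 * t + 10 := rfl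
  have key : ∀ i : ℕ, i ≤ t → ∃ U H : Submodule (ZMod p) V, ∃ x : V,
      (∀ u ∈ U, u ≠ 0 → u ∈ X) ∧ finrank (ZMod p) U = i ∧ H ⊓ U = ⊥ ∧
      (1 / 2 : ℝ) ^ (4 * t + 5) ≤ rd (SU X U) H x ∧
      finrank (ZMod p) V ≤ finrank (ZMod p) H + i * stepN t := by
    intro i
    induction i with
    | zero =>
      intro _
      refine ⟨⊥, ⊤, 0, ?_, finrank_bot _ _, by simp, ?_, ?_⟩
      · intro u hu hu0
        exact absurd ((Submodule.mem_bot _).1 hu) hu0
      · rw [growth_SU_bot]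
        have h1 := density_black X hXs (⊤ : Submodule (ZMod p) V) t
          (by rw [finrank_top]; nlinarith) hw
        refine le_trans ?_ h1
        have h2 : (1 / 2 : ℝ) ^ 2 ≤ 1 / (p : ℝ) := by
          have h3 : (p : ℝ) ≤ 3 := by exact_mod_cast hp
          have h4 : (0 : ℝ) < p := by exact_mod_cast hp0
          rw [le_div_iff₀ h4]
          linarith
        calc (1 / 2 : ℝ) ^ (4 * t + 5) ≤ (1 / 2 : ℝ) ^ (2 * t) :=
              pow_le_pow_of_le_one (by norm_num) (by norm_num) (by omega)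
          _ = ((1 / 2 : ℝ) ^ 2) ^ t := by rw [pow_mul]
          _ ≤ (1 / (p : ℝ)) ^ t := pow_le_pow_left₀ (by norm_num) h2 t
      · rw [finrank_top]
        omega
    | succ i ih =>
      intro hi
      obtain ⟨U, H, x, h1, h2, h3, h4, h5⟩ := ih (by omega)
      have h6 : stepN t + 4 * t + 10 ≤ finrank (ZMod p) H := by
        have h7 : (i + 1) * stepN t ≤ t * stepN t := Nat.mul_le_mul_right _ hi
        have h8 : (i + 1) * stepN t = i * stepN t + stepN t := by ring
        omega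
      obtain ⟨U', H', x', g1, g2, g3, g4, g5⟩ :=
        grow_step hp X hX0 hXs hR t ht hw U H h1 h3 x h4 h6
      refine ⟨U', H', x', g1, by rw [g2, h2], g3, g4, ?_⟩
      have h8 : (i + 1) * stepN t = i * stepN t + stepN t := by ring
      omega
  obtain ⟨U, H, x, h1, h2, -, -, -⟩ := key t le_rfl
  exact ⟨U, le_top, h2, h1⟩

end EHProj
end

section

/-! L-6: line-free, case two is impossible -/

namespace EHProj

open scoped LinearAlgebra.Projectivization
open Module

variable {V : Type} [AddCommGroup V] [Module (ZMod 2) V] [Finite V]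

section
omit [Finite V]

private theorem linecasetwo_self (v : V) : v + v = 0 := by
  rw [← two_smul (ZMod 2) v, show (2 : ZMod 2) = 0 from rfl, zero_smul]

private theorem linecasetwo_eq_of_add {v w : V} (h : v + w = 0) : v = w := by
  have h1 : v + w = w + w := by rw [h, linecasetwo_self]
  exact add_right_cancel h1

omit [AddCommGroup V] [Module (ZMod 2) V] in
private theorem linecasetwo_one_le {X : Set V} {p q r s : V}
    (h : p ∈ X ∨ q ∈ X ∨ r ∈ X ∨ s ∈ X) : 1 ≤ ind X p + ind X q + ind X r + ind X s := by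
  classical
  rcases h with h | h | h | h <;> simp only [ind, h, if_true] <;> omega

/-- Step 1 -/
private theorem linecasetwo_step1 (X : Set V) (hX0 : (0 : V) ∉ X) (hL : LineFree X)
    (a b : V)
    (F : Submodule (ZMod 2) V) (hF : F ⊓ Submodule.span (ZMod 2) {a, b} = ⊥)
    (h1 : ∀ h ∈ F, h ≠ 0 →
         ind X h + ind X (h + a) + ind X (h + b) + ind X (h + (a + b)) = 1)
    {x y h : V} (hx : x ∈ F) (hy : y ∈ F) (hh : h ∈ F) (hxX : x ∈ X) (hyX : y ∈ X)
    (hxyX : x + y ∈ X) (h0 : h ≠ 0) (hhx : h ≠ x) (hhy : h ≠ y) (hhxy : h ≠ x + y) :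
    ind X h + ind X (h + x) + ind X (h + y) + ind X (h + x + y) = 1 := by
  have hx0 : x ≠ 0 := fun e => hX0 (e ▸ hxX)
  have hy0 : y ≠ 0 := fun e => hX0 (e ▸ hyX)
  have hxy : x ≠ y := by
    rintro rfl
    rw [linecasetwo_self] at hxyX
    exact hX0 hxyX
  have hav : ∀ v ∈ Submodule.span (ZMod 2) {a, b}, ∀ z ∈ F, h ≠ z → h + v ≠ z := by
    intro v hv z hz hne e
    have h2 : v = z - h := by rw [← e]; abel
    have h3 : v ∈ F ⊓ Submodule.span (ZMod 2) {a, b} := ⟨by rw [h2]; exact F.sub_mem hz hh, hv⟩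
    rw [hF, Submodule.mem_bot] at h3
    rw [h3, add_zero] at e
    exact hne e
  have hS : ∀ v ∈ Submodule.span (ZMod 2) {a, b}, 1 ≤ ind X (h + v) + ind X (h + v + x) +
      ind X (h + v + y) + ind X (h + v + x + y) := by
    intro v hv
    apply linecasetwo_one_le
    exact hL x y (h + v) ⟨hx0, hy0, hxy, hav v hv 0 F.zero_mem h0, hav v hv x hx hhx,
      hav v hv y hy hhy, hav v hv _ (F.add_mem hx hy) hhxy⟩ hxX hyX hxyX
  have hma : a ∈ Submodule.span (ZMod 2) {a, b} := Submodule.subset_span (by simp)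
  have hmb : b ∈ Submodule.span (ZMod 2) {a, b} := Submodule.subset_span (by simp)
  have s1 := hS a hma
  have s2 := hS b hmb
  have s3 := hS (a + b) (Submodule.add_mem _ hma hmb)
  have s0 := hS 0 (Submodule.zero_mem _)
  have t0 := h1 h hh h0
  have hne : ∀ u : V, h ≠ u → h + u ≠ 0 := fun u hu e => hu (linecasetwo_eq_of_add e)
  have t1 := h1 (h + x) (F.add_mem hh hx) (hne x hhx)
  have t2 := h1 (h + y) (F.add_mem hh hy) (hne y hhy)
  have t3 := h1 (h + (x + y)) (F.add_mem hh (F.add_mem hx hy)) (hne _ hhxy)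
  rw [add_zero] at s0
  have e1 : h + x + a = h + a + x := by abel
  have e2 : h + x + b = h + b + x := by abel
  have e3 : h + x + (a + b) = h + (a + b) + x := by abel
  have e4 : h + y + a = h + a + y := by abel
  have e5 : h + y + b = h + b + y := by abel
  have e6 : h + y + (a + b) = h + (a + b) + y := by abel
  have e7 : h + (x + y) = h + x + y := by abel
  have e8 : h + x + y + a = h + a + x + y := by abel
  have e9 : h + x + y + b = h + b + x + y := by abel
  have e10 : h + x + y + (a + b) = h + (a + b) + x + y := by abel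
  rw [e1, e2, e3] at t1
  rw [e4, e5, e6] at t2
  rw [e7, e8, e9, e10] at t3
  omega

/-- Step 2 -/
private theorem linecasetwo_step2 (X : Set V) (hX0 : (0 : V) ∉ X) (hL : LineFree X)
    (a b : V)
    (F : Submodule (ZMod 2) V) (hF : F ⊓ Submodule.span (ZMod 2) {a, b} = ⊥)
    (h1 : ∀ h ∈ F, h ≠ 0 →
         ind X h + ind X (h + a) + ind X (h + b) + ind X (h + (a + b)) = 1)
    {x y h : V} (hx : x ∈ F) (hy : y ∈ F) (hh : h ∈ F) (hxX : x ∈ X) (hyX : y ∈ X)
    (hxyX : x + y ∈ X) (hhX : h ∈ X) (hxhX : x + h ∈ X) : h = y ∨ h = x + y := by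
  by_contra hcon
  push Not at hcon
  have h0 : h ≠ 0 := fun e => hX0 (e ▸ hhX)
  have hhx : h ≠ x := by
    rintro rfl
    rw [linecasetwo_self] at hxhX
    exact hX0 hxhX
  have h2 := linecasetwo_step1 X hX0 hL a b F hF h1 hx hy hh hxX hyX hxyX h0 hhx hcon.1 hcon.2
  have h3 : ind X h = 1 := by simp [ind, hhX]
  have h4 : ind X (h + x) = 1 := by
    rw [add_comm]
    simp [ind, hxhX]
  omega

end

/-- Step 3 -/
private theorem linecasetwo_step3 (X : Set V) (hX0 : (0 : V) ∉ X) (hL : LineFree X) (R : ℕ)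
    (a b : V)
    (F : Submodule (ZMod 2) V) (hF : F ⊓ Submodule.span (ZMod 2) {a, b} = ⊥)
    (hdim : 2 * R ≤ finrank (ZMod 2) F)
    (h1 : ∀ h ∈ F, h ≠ 0 →
         ind X h + ind X (h + a) + ind X (h + b) + ind X (h + (a + b)) = 1) (d : ℕ) (hd : d ≤ R) :
    ∃ G ≤ F, finrank (ZMod 2) G = d ∧ ∀ x ∈ G, ∀ y ∈ G, x ∈ X → y ∈ X → x + y ∉ X := by
  classical
  have := Fintype.ofFinite V
  induction d with
  | zero =>
    refine ⟨⊥, bot_le, finrank_bot _ _, fun x hx y _ hxX _ => ?_⟩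
    rw [(Submodule.mem_bot _).1 hx] at hxX
    exact absurd hxX hX0
  | succ d ih =>
    obtain ⟨G, hGF, hGd, hG⟩ := ih (by omega)
    -- the chosen pairs
    have hch : ∀ g : V, ∃ y : V, (∃ z ∈ F, z ∈ X ∧ g + z ∈ X) → (y ∈ F ∧ y ∈ X ∧ g + y ∈ X) := by
      intro g
      by_cases hz : ∃ z ∈ F, z ∈ X ∧ g + z ∈ X
      · obtain ⟨z, hz1, hz2, hz3⟩ := hz
        exact ⟨z, fun _ => ⟨hz1, hz2, hz3⟩⟩
      · exact ⟨0, fun h => absurd h hz⟩
    choose Y hY using hch
    set Gf : Finset V := Finset.univ.filter (fun v => v ∈ G) with hGf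
    set Ff : Finset V := Finset.univ.filter (fun v => v ∈ F) with hFf
    have hcard : ∀ H : Submodule (ZMod 2) V, (Finset.univ.filter (fun v => v ∈ H)).card =
        2 ^ finrank (ZMod 2) H := by
      intro H
      have h2 : Nat.card H = 2 ^ finrank (ZMod 2) H := by
        rw [Module.natCard_eq_pow_finrank (K := ZMod 2), Nat.card_zmod]
      rw [← h2, Nat.card_eq_fintype_card, Fintype.card_subtype]
    have hGc : Gf.card = 2 ^ d := by rw [hGf, hcard, hGd]
    have hFc : 2 ^ (2 * R) ≤ Ff.card := by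
      rw [hFf, hcard]
      exact Nat.pow_le_pow_right (by norm_num) hdim
    set B : Finset V := Gf ∪ (Gf ×ˢ Gf).image (fun q => Y q.1 + q.2) with hB
    have hBc : B.card < Ff.card := by
      refine lt_of_lt_of_le ?_ hFc
      calc B.card ≤ Gf.card + ((Gf ×ˢ Gf).image (fun q => Y q.1 + q.2)).card :=
            Finset.card_union_le _ _
        _ ≤ Gf.card + (Gf ×ˢ Gf).card := Nat.add_le_add_left Finset.card_image_le _
        _ = 2 ^ d + 2 ^ d * 2 ^ d := by rw [Finset.card_product, hGc]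
        _ ≤ 2 ^ d * 2 ^ d + 2 ^ d * 2 ^ d := by
            have : 1 ≤ 2 ^ d := Nat.one_le_two_pow
            nlinarith
        _ = 2 ^ (2 * d + 1) := by ring
        _ < 2 ^ (2 * R) := Nat.pow_lt_pow_right (by norm_num) (by omega)
    obtain ⟨v, hvF, hvB⟩ := Finset.exists_mem_notMem_of_card_lt_card hBc
    rw [hFf, Finset.mem_filter] at hvF
    replace hvF := hvF.2
    rw [hB, Finset.mem_union, Finset.mem_image] at hvB
    push Not at hvB
    obtain ⟨hvG, hvY⟩ := hvB
    have hvG' : v ∉ G := fun h => hvG (by rw [hGf, Finset.mem_filter]; exact ⟨Finset.mem_univ _, h⟩)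
    have hvY' : ∀ g ∈ G, ∀ g' ∈ G, Y g + g' ≠ v := fun g hg g' hg' =>
      hvY (g, g') (by
        rw [Finset.mem_product, hGf, Finset.mem_filter, Finset.mem_filter]
        exact ⟨⟨Finset.mem_univ _, hg⟩, ⟨Finset.mem_univ _, hg'⟩⟩)
    -- the key contradiction
    have hkey : ∀ g ∈ G, g ∈ X → ∀ g1 ∈ G, g1 + v ∈ X → g + (g1 + v) ∉ X := by
      intro g hg hgX g1 hg1 hz hgz
      have hzF : g1 + v ∈ F := F.add_mem (hGF hg1) hvF
      have hp := hY g ⟨g1 + v, hzF, hz, hgz⟩
      rcases linecasetwo_step2 X hX0 hL a b F hF h1 (hGF hg) hp.1 hzF hgX hp.2.1 hp.2.2 hz hgz with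
        h | h
      · apply hvY' g hg g1 hg1
        rw [← h]
        calc g1 + v + g1 = v + (g1 + g1) := by abel
          _ = v := by rw [linecasetwo_self, add_zero]
      · apply hvY' g hg (g + g1) (G.add_mem hg hg1)
        calc Y g + (g + g1) = (g + Y g) + g1 := by abel
          _ = (g1 + v) + g1 := by rw [h]
          _ = v + (g1 + g1) := by abel
          _ = v := by rw [linecasetwo_self, add_zero]
    refine ⟨G ⊔ Submodule.span (ZMod 2) {v}, sup_le hGF ?_, ?_, ?_⟩
    · rw [Submodule.span_singleton_le_iff_mem]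
      exact hvF
    · have hv0 : v ≠ 0 := fun h => hvG' (h ▸ G.zero_mem)
      have h2 := Submodule.finrank_sup_add_finrank_inf_eq G (Submodule.span (ZMod 2) {v})
      have h3 : G ⊓ Submodule.span (ZMod 2) {v} = ⊥ := by
        rw [eq_bot_iff]
        rintro z ⟨hz1, hz2⟩
        obtain ⟨c, rfl⟩ := Submodule.mem_span_singleton.1 hz2
        rw [Submodule.mem_bot]
        have hc : c = 0 ∨ c = 1 := by
          clear hz1 hz2
          revert c
          decide
        rcases hc with rfl | rfl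
        · rw [zero_smul]
        · rw [one_smul] at hz1
          exact absurd hz1 hvG'
      rw [h3, finrank_bot, add_zero, finrank_span_singleton hv0, hGd] at h2
      exact h2
    · have hdec : ∀ z ∈ G ⊔ Submodule.span (ZMod 2) {v}, z ∈ G ∨ ∃ g ∈ G, z = g + v := by
        intro z hz
        obtain ⟨g, hg, w, hw, rfl⟩ := Submodule.mem_sup.1 hz
        obtain ⟨c, rfl⟩ := Submodule.mem_span_singleton.1 hw
        have hc : c = 0 ∨ c = 1 := by
          clear hw hz
          revert c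
          decide
        rcases hc with rfl | rfl
        · left
          rw [zero_smul, add_zero]
          exact hg
        · right
          exact ⟨g, hg, by rw [one_smul]⟩
      intro x hx y hy hxX hyX hxyX
      rcases hdec x hx with hx | ⟨g1, hg1, rfl⟩
      · rcases hdec y hy with hy | ⟨g2, hg2, rfl⟩
        · exact hG x hx y hy hxX hyX hxyX
        · exact hkey x hx hxX g2 hg2 hyX hxyX
      · rcases hdec y hy with hy | ⟨g2, hg2, rfl⟩
        · rw [add_comm] at hxyX
          exact hkey y hy hyX g1 hg1 hxX hxyX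
        · have e : g1 + v + (g2 + v) = g1 + g2 := by
            calc g1 + v + (g2 + v) = (g1 + g2) + (v + v) := by abel
              _ = g1 + g2 := by rw [linecasetwo_self, add_zero]
          rw [e] at hxyX
          apply hkey (g1 + g2) (G.add_mem hg1 hg2) hxyX g1 hg1 hxX
          have e2 : g1 + g2 + (g1 + v) = g2 + v := by
            calc g1 + g2 + (g1 + v) = (g1 + g1) + (g2 + v) := by abel
              _ = g2 + v := by rw [linecasetwo_self, zero_add]
          rw [e2]
          exact hyX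

theorem line_case_two (X : Set V) (hX0 : (0 : V) ∉ X) (hL : LineFree X) (t : ℕ) (ht : 1 ≤ t)
    (hw : ¬ HasWhite (p := 2) X ⊤ t)
    (a b : V) (ha : a ∈ X) (hb : b ∈ X) (hab : a + b ∈ X) (hne : a ≠ b)
    (F : Submodule (ZMod 2) V) (hF : F ⊓ Submodule.span (ZMod 2) {a, b} = ⊥)
    (hdim : 2 * RR t ≤ finrank (ZMod 2) F)
    (h1 : ∀ h ∈ F, h ≠ 0 →
         ind X h + ind X (h + a) + ind X (h + b) + ind X (h + (a + b)) = 1) : False := by
  obtain ⟨G, -, hGd, hG⟩ := linecasetwo_step3 X hX0 hL (RR t) a b F hF hdim h1 (RR t) le_rfl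
  obtain ⟨x, hx, y, hy, -, hxX, hyX, hxyX⟩ := schur X hX0 t ht G hGd.ge (by
    rintro ⟨W, hW, hWt, hWX⟩
    exact hw ⟨W, le_top, hWt, hWX⟩)
  exact hG x hx y hy hxX hyX hxyX

end EHProj
end

section

/-! # Black density 1/4 for line-free sets (L-1) -/

namespace EHProj

open scoped LinearAlgebra.Projectivization
open Module

section Line
variable {V : Type} [AddCommGroup V] [Module (ZMod 2) V] [Finite V]

theorem linefact_meet (X : Set V) (hX0 : (0 : V) ∉ X) (hL : LineFree X) {a b : V}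
    (hab : a ≠ b) (ha : a ∈ X) (hb : b ∈ X) (hc : a + b ∈ X) (v : V) :
    v ∈ X ∨ v + a ∈ X ∨ v + b ∈ X ∨ v + (a + b) ∈ X := by
  by_cases h0 : v = 0
  · subst h0; right; left; simpa using ha
  by_cases h1 : v = a
  · left; rw [h1]; exact ha
  by_cases h2 : v = b
  · left; rw [h2]; exact hb
  by_cases h3 : v = a + b
  · left; rw [h3]; exact hc
  have ha0 : a ≠ 0 := fun h => hX0 (h ▸ ha)
  have hb0 : b ≠ 0 := fun h => hX0 (h ▸ hb)
  have h4 := hL a b v ⟨ha0, hb0, hab, h0, h1, h2, h3⟩ ha hb hc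
  rw [add_assoc] at h4
  exact h4

theorem line_fact (X : Set V) (hX0 : (0 : V) ∉ X) (hL : LineFree X) (t : ℕ) (ht : 1 ≤ t)
    (H : Submodule (ZMod 2) V) (hH : RR t ≤ finrank (ZMod 2) H) (hw : ¬ HasWhite X H t) (x : V) :
    1 / 4 ≤ rd X H x := by
  obtain ⟨a, haH, b, hbH, hab, ha, hb, hc⟩ := schur X hX0 t ht H hH hw
  set S : Set H := {h : H | x + (h : V) ∈ X} with hS
  have hfin : Finite H := inferInstance
  set T : H → Set H := fun l => {h : H | x + ((h + l : H) : V) ∈ X} with hT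
  have hTc : ∀ l, (T l).ncard = S.ncard := by
    intro l
    have : S = (fun h : H => h + l) '' (T l) := by
      ext h
      simp only [hS, hT, Set.mem_ofPred_eq, Set.mem_image]
      constructor
      · intro h1
        exact ⟨h - l, by simpa using h1, by simp⟩
      · rintro ⟨h', h1, rfl⟩
        exact h1
    rw [this, Set.ncard_image_of_injective _ (add_left_injective l)]
  have hcov : (Set.univ : Set H) ⊆
      ((T 0 ∪ T ⟨a, haH⟩) ∪ T ⟨b, hbH⟩) ∪ T (⟨a, haH⟩ + ⟨b, hbH⟩) := by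
    intro h _
    rcases linefact_meet X hX0 hL hab ha hb hc (x + (h : V)) with h1 | h1 | h1 | h1
    · left; left; left
      simp only [hT, Set.mem_ofPred_eq, add_zero]; exact h1
    · left; left; right
      simp only [hT, Set.mem_ofPred_eq, Submodule.coe_add, ← add_assoc]; exact h1
    · left; right
      simp only [hT, Set.mem_ofPred_eq, Submodule.coe_add, ← add_assoc]; exact h1
    · right
      simp only [hT, Set.mem_ofPred_eq, Submodule.coe_add]
      rw [← add_assoc x]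
      exact h1
  have h1 : (Set.univ : Set H).ncard ≤ 4 * S.ncard := by
    refine (Set.ncard_le_ncard hcov (Set.toFinite _)).trans ?_
    refine (Set.ncard_union_le _ _).trans ?_
    refine (Nat.add_le_add_right ((Set.ncard_union_le _ _).trans
      (Nat.add_le_add_right (Set.ncard_union_le _ _) _)) _).trans ?_
    rw [hTc, hTc, hTc, hTc]
    omega
  rw [Set.ncard_univ] at h1
  have h2 : Nat.card {h : H // x + (h : V) ∈ X} = S.ncard := rfl
  have h3 : 0 < Nat.card H := Nat.card_pos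
  have h4 : (0 : ℝ) < Nat.card H := by exact_mod_cast h3
  have h5 : (Nat.card H : ℝ) ≤ 4 * (S.ncard : ℝ) := by exact_mod_cast h1
  unfold rd
  rw [h2, le_div_iff₀ h4]
  linarith

end Line

end EHProj
end

section

/-! # L-2: line-free sets, step A -/

namespace EHProj

open scoped LinearAlgebra.Projectivization
open Module

section Line
variable {V : Type} [AddCommGroup V] [Module (ZMod 2) V] [Finite V]

private lemma linestepa_scal {S : Set V} (c : ZMod 2) (v : V) (hc : c ≠ 0) (hv : v ∈ S) :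
    c • v ∈ S := by
  have h1 : c = 1 := by
    fin_cases c
    · exact absurd rfl hc
    · rfl
  rw [h1, one_smul]; exact hv

-- L-2  (LineStepA.lean)
theorem line_stepA (X : Set V) (hX0 : (0 : V) ∉ X) (t : ℕ) (ht : 1 ≤ t)
    (hdim : 45 * t * KK t (RR t + 1) + RR t + t ≤ finrank (ZMod 2) V)
    (hb : ¬ HasBlack (p := 2) X ⊤ t) (hw : ¬ HasWhite (p := 2) X ⊤ t) :
    ∃ a b : V, a ∈ X ∧ b ∈ X ∧ a + b ∈ X ∧ a ≠ b ∧
      ∃ H0 : Submodule (ZMod 2) V, H0 ⊓ Submodule.span (ZMod 2) {a, b} = ⊥ ∧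
        finrank (ZMod 2) V ≤ finrank (ZMod 2) H0 + 45 * t * KK t (RR t + 1) + 2 ∧
        ∀ z ∈ ({a, b, a + b} : Set V), ∃ y, (1 / 2 : ℝ) ^ (2 * t + 1) ≤
          rd {v | (v ≠ 0 ∧ v ∉ X) ∧ (v + z ≠ 0 ∧ v + z ∉ X)} H0 y := by
  classical
  have htop : finrank (ZMod 2) (⊤ : Submodule (ZMod 2) V) = finrank (ZMod 2) V := finrank_top _ _
  have h1 := density_white (p := 2) X (fun c v hc hv => linestepa_scal c v hc hv) ⊤ t
    (by rw [htop]; omega) hb
  have h1' : (1 / 2 : ℝ) ^ t ≤ rd {v : V | v ≠ 0 ∧ v ∉ X} (⊤ : Submodule (ZMod 2) V) 0 := by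
    exact_mod_cast h1
  obtain ⟨H', hH', fH', x', hx', hrx', hC⟩ := it1 (p := 2) ⊤ {v : V | v ≠ 0 ∧ v ∉ X} 0 t
    (RR t + 1) ht h1'
  set α : ℝ := rd {v : V | v ≠ 0 ∧ v ∉ X} H' x' with hα
  have hα0 : (1 / 2 : ℝ) ^ t ≤ α := le_trans h1' hrx'
  set E : Set V := {w | rd {v | v ∈ {v : V | v ≠ 0 ∧ v ∉ X} ∧ v + w ∈ {v : V | v ≠ 0 ∧ v ∉ X}} H' x'
    < (1 / 2) * α ^ 2} with hE
  have hEd : rd E H' 0 < (1 / 2 : ℝ) ^ (RR t + 1) := by
    by_contra h
    obtain ⟨w, hwE, -, hw2⟩ := hC E (not_lt.mp h)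
    rw [hE, Set.mem_setOf_eq] at hwE
    linarith
  rw [htop] at fH'
  have hRR : RR t ≤ finrank (ZMod 2) H' := by omega
  obtain ⟨F, hF, fF, hFE⟩ := avoid (p := 2) E (fun c v hc hv => linestepa_scal c v hc hv) H'
    (RR t) hRR (by
      refine lt_trans hEd ?_
      have : ((1 : ℝ) / ((2 : ℕ) : ℝ)) = 1 / 2 := by norm_num
      rw [this, pow_succ]
      have : (0 : ℝ) < (1 / 2) ^ RR t := by positivity
      linarith)
  have hwF : ¬ HasWhite (p := 2) X F t := by
    rintro ⟨W, hW, fW, hWX⟩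
    exact hw ⟨W, le_top, fW, hWX⟩
  obtain ⟨a, haF, b, hbF, hne, haX, hbX, habX⟩ := schur X hX0 t ht F (le_of_eq fF.symm) hwF
  refine ⟨a, b, haX, hbX, habX, hne, ?_⟩
  have hspan : Submodule.span (ZMod 2) ({a, b} : Set V) ≤ H' := by
    rw [Submodule.span_le]
    intro v hv
    simp only [Set.mem_insert_iff, Set.mem_singleton_iff] at hv
    rcases hv with rfl | rfl
    · exact hF haF
    · exact hF hbF
  obtain ⟨H0, hH0, hinf, -, hfin⟩ := exists_compl hspan
  have hf2 : finrank (ZMod 2) (Submodule.span (ZMod 2) ({a, b} : Set V)) ≤ 2 := by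
    have h3 := finrank_span_finset_le_card (R := ZMod 2) ({a, b} : Finset V)
    have h4 : ({a, b} : Finset V).card ≤ 2 := Finset.card_le_two
    have h5 : ((({a, b} : Finset V)) : Set V) = {a, b} := by simp
    rw [h5] at h3
    exact le_trans h3 h4
  refine ⟨H0, hinf, by omega, ?_⟩
  intro z hz
  have hzF : z ∈ F := by
    simp only [Set.mem_insert_iff, Set.mem_singleton_iff] at hz
    rcases hz with rfl | rfl | rfl
    · exact haF
    · exact hbF
    · exact F.add_mem haF hbF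
  have hzX : z ∈ X := by
    simp only [Set.mem_insert_iff, Set.mem_singleton_iff] at hz
    rcases hz with rfl | rfl | rfl
    · exact haX
    · exact hbX
    · exact habX
  have hz0 : z ≠ 0 := by rintro rfl; exact hX0 hzX
  have hzE := hFE z hzF hz0
  rw [hE, Set.mem_setOf_eq, not_lt] at hzE
  obtain ⟨y, -, hy⟩ := rd_avg (p := 2)
    {v | v ∈ {v : V | v ≠ 0 ∧ v ∉ X} ∧ v + z ∈ {v : V | v ≠ 0 ∧ v ∉ X}} hH0 x'
  refine ⟨y, ?_⟩
  have h6 : (1 / 2 : ℝ) ^ (2 * t + 1) ≤ 1 / 2 * α ^ 2 := by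
    have h7 : ((1 / 2 : ℝ) ^ t) ^ 2 ≤ α ^ 2 := pow_le_pow_left₀ (by positivity) hα0 2
    have h8 : (1 / 2 : ℝ) ^ (2 * t + 1) = 1 / 2 * ((1 / 2 : ℝ) ^ t) ^ 2 := by
      rw [← pow_mul, pow_succ, mul_comm t 2]; ring
    rw [h8]; linarith
  exact le_trans h6 (le_trans hzE hy)

end Line

end EHProj
end

section

/-!
# Line-free sets, step C: the dichotomy
-/

namespace EHProj

open scoped LinearAlgebra.Projectivization
open Module

section Line
variable {V : Type} [AddCommGroup V] [Module (ZMod 2) V] [Finite V]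

omit [Finite V] in
theorem linestepc_third (a b z z' : V) (hz : z ∈ ({a, b, a + b} : Set V))
    (hz' : z' ∈ ({a, b, a + b} : Set V)) (hzz : z ≠ z') :
    z + z' ∈ ({a, b, a + b} : Set V) := by
  have h2 : ∀ v : V, v + v = 0 := fun v => ZModModule.add_self v
  simp only [Set.mem_insert_iff, Set.mem_singleton_iff] at hz hz' ⊢
  rcases hz with rfl | rfl | rfl <;> rcases hz' with rfl | rfl | rfl
  · exact absurd rfl hzz
  · right; right; rfl
  · right; left
    rw [← add_assoc, h2, zero_add]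
  · right; right; exact add_comm _ _
  · exact absurd rfl hzz
  · left
    have h : z + (a + z) = a + (z + z) := by abel
    rw [h, h2, add_zero]
  · right; left
    have h : z' + b + z' = b + (z' + z') := by abel
    rw [h, h2, add_zero]
  · left
    rw [add_assoc, h2, add_zero]
  · exact absurd rfl hzz

theorem line_stepC (X : Set V) (hX0 : (0 : V) ∉ X) (hL : LineFree X) (t : ℕ) (ht : 1 ≤ t)
    (hw : ¬ HasWhite (p := 2) X ⊤ t)
    (a b : V) (ha : a ∈ X) (hb : b ∈ X) (hab : a + b ∈ X) (hne : a ≠ b)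
    (H : Submodule (ZMod 2) V) (hH : H ⊓ Submodule.span (ZMod 2) {a, b} = ⊥)
    (hdim : lk2 t + RR t ≤ finrank (ZMod 2) H)
    (hD : ∀ z ∈ ({a, b, a + b} : Set V), rd {h | h ∈ X ∧ h + z ∈ X} H 0 < (1 / 2 : ℝ) ^ (lc1 t))
    (z z' : V) (hz : z ∈ ({a, b, a + b} : Set V)) (hz' : z' ∈ ({a, b, a + b} : Set V))
    (hzz : z ≠ z') :
    rd {h | h ≠ 0 ∧ h ∉ X ∧ h + z ∉ X} H 0 < (1 / 2 : ℝ) ^ (lg t) ∨
    rd {h | h + z' ∈ X ∧ h + (z + z') ∈ X} H 0 < (1 / 2 : ℝ) ^ (lg t) := by
  by_contra hcon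
  rw [not_or, not_lt, not_lt] at hcon
  obtain ⟨hP, hQ⟩ := hcon
  have hlg : 1 ≤ lg t := by unfold lg; omega
  obtain ⟨H', hH'H, hfr, x', y', hx', hy', hC⟩ := it2 H _ _ 0 0 (lg t) 3 hlg hP hQ
  rw [sub_zero] at hx' hy'
  have hfr' : finrank (ZMod 2) H ≤ finrank (ZMod 2) H' + lk2 t := hfr
  have hRR : RR t ≤ finrank (ZMod 2) H' := by omega
  have hw' : ¬ HasWhite (p := 2) X H' t := by
    rintro ⟨W, -, hW2, hW3⟩
    exact hw ⟨W, le_top, hW2, hW3⟩
  have hquart := line_fact X hX0 hL t ht H' hRR hw' (x' - y')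
  have hz'' := linestepc_third a b z z' hz hz' hzz
  -- the sets
  set EE : Set V := {e | e ∈ X ∧ e + a ∉ X ∧ e + b ∉ X ∧ e + (a + b) ∉ X} with hEE
  have hsub : rd X H' (x' - y') ≤ rd (EE ∪ ({h | h ∈ X ∧ h + a ∈ X} ∪
      ({h | h ∈ X ∧ h + b ∈ X} ∪ {h | h ∈ X ∧ h + (a + b) ∈ X}))) H' (x' - y') := by
    apply rd_mono
    intro v _ hv
    by_cases h1 : v + a ∈ X
    · right; left; exact ⟨hv, h1⟩
    · by_cases h2 : v + b ∈ X
      · right; right; left; exact ⟨hv, h2⟩
      · by_cases h3 : v + (a + b) ∈ X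
        · right; right; right; exact ⟨hv, h3⟩
        · left; exact ⟨hv, h1, h2, h3⟩
  have hu1 := rd_union_le EE ({h | h ∈ X ∧ h + a ∈ X} ∪
      ({h | h ∈ X ∧ h + b ∈ X} ∪ {h | h ∈ X ∧ h + (a + b) ∈ X})) H' (x' - y')
  have hu2 := rd_union_le {h | h ∈ X ∧ h + a ∈ X}
      ({h | h ∈ X ∧ h + b ∈ X} ∪ {h | h ∈ X ∧ h + (a + b) ∈ X}) H' (x' - y')
  have hu3 := rd_union_le {h | h ∈ X ∧ h + b ∈ X} {h | h ∈ X ∧ h + (a + b) ∈ X} H' (x' - y')
  have hDz : ∀ u ∈ ({a, b, a + b} : Set V), rd {h | h ∈ X ∧ h + u ∈ X} H' (x' - y') ≤ 1 / 512 := by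
    intro u hu
    have h1 := rd_restrict {h | h ∈ X ∧ h + u ∈ X} hH'H (x := 0) (y := x' - y')
      (by rw [sub_zero]; exact H.sub_mem hx' hy') (lk2 t) hfr'
    have h2 := hD u hu
    have h3 : ((2 : ℕ) : ℝ) ^ (lk2 t) * (1 / 2 : ℝ) ^ (lc1 t) ≤ 1 / 512 := by
      have : lc1 t = lk2 t + (lD t + 9) := by unfold lc1; omega
      rw [this, pow_add, ← mul_assoc, ← mul_pow]
      have h4 : ((2 : ℕ) : ℝ) * (1 / 2) = 1 := by norm_num
      rw [h4, one_pow, one_mul, pow_add]
      have h5 : (1 / 2 : ℝ) ^ (lD t) ≤ 1 := pow_le_one₀ (by norm_num) (by norm_num)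
      have h6 : (0 : ℝ) ≤ (1 / 2 : ℝ) ^ 9 := by positivity
      calc (1 / 2 : ℝ) ^ (lD t) * (1 / 2 : ℝ) ^ 9 ≤ 1 * (1 / 2 : ℝ) ^ 9 :=
            mul_le_mul_of_nonneg_right h5 h6
        _ = 1 / 512 := by norm_num
    calc rd {h | h ∈ X ∧ h + u ∈ X} H' (x' - y')
        ≤ ((2 : ℕ) : ℝ) ^ (lk2 t) * rd {h | h ∈ X ∧ h + u ∈ X} H 0 := h1
      _ ≤ ((2 : ℕ) : ℝ) ^ (lk2 t) * (1 / 2 : ℝ) ^ (lc1 t) :=
          mul_le_mul_of_nonneg_left h2.le (by positivity)
      _ ≤ 1 / 512 := h3
  have hDa := hDz a (by simp)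
  have hDb := hDz b (by simp)
  have hDab := hDz (a + b) (by simp)
  have hEEd : (1 / 2 : ℝ) ^ 3 ≤ rd EE H' (x' - y') := by
    have : (1 / 2 : ℝ) ^ 3 = 1 / 8 := by norm_num
    rw [this]
    linarith
  obtain ⟨v, hvP, w, hwQ, hv, hw1, hvw⟩ := hC EE hEEd
  obtain ⟨hv0, hvX, hvz⟩ := hvP
  obtain ⟨hwz', hwzz⟩ := hwQ
  have hvH : v ∈ H := by
    have := H.add_mem (hH'H hv) hx'
    rwa [sub_add_cancel] at this
  have hwH : w ∈ H := by
    have := H.add_mem (hH'H hw1) hy'
    rwa [sub_add_cancel] at this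
  have hbot : ∀ u ∈ H, u ∈ Submodule.span (ZMod 2) {a, b} → u = 0 := by
    intro u h1 h2
    have : u ∈ H ⊓ Submodule.span (ZMod 2) {a, b} := ⟨h1, h2⟩
    rwa [hH, Submodule.mem_bot] at this
  have hspan : ∀ u ∈ ({a, b, a + b} : Set V), u ∈ Submodule.span (ZMod 2) {a, b} := by
    intro u hu
    have h1 : a ∈ Submodule.span (ZMod 2) {a, b} := Submodule.subset_span (by simp)
    have h2 : b ∈ Submodule.span (ZMod 2) {a, b} := Submodule.subset_span (by simp)
    simp only [Set.mem_insert_iff, Set.mem_singleton_iff] at hu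
    rcases hu with rfl | rfl | rfl
    · exact h1
    · exact h2
    · exact Submodule.add_mem _ h1 h2
  have hmemX : ∀ u ∈ ({a, b, a + b} : Set V), u ∈ X := by
    intro u hu
    simp only [Set.mem_insert_iff, Set.mem_singleton_iff] at hu
    rcases hu with rfl | rfl | rfl
    · exact ha
    · exact hb
    · exact hab
  rw [ZModModule.sub_eq_add] at hvw
  have hEz : ∀ u ∈ ({a, b, a + b} : Set V), v + w + u ∉ X := by
    intro u hu
    simp only [Set.mem_insert_iff, Set.mem_singleton_iff] at hu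
    rcases hu with rfl | rfl | rfl
    · exact hvw.2.1
    · exact hvw.2.2.1
    · exact hvw.2.2.2
  have hw0 : w ≠ 0 := by
    rintro rfl
    rw [add_zero] at hvw
    exact hvX hvw.1
  have hzX := hmemX z hz
  have hind : Ind3 z (w + z') v := by
    refine ⟨?_, ?_, ?_, hv0, ?_, ?_, ?_⟩
    · rintro rfl; exact hX0 hzX
    · intro h; rw [h] at hwz'; exact hX0 hwz'
    · intro h
      apply hw0
      apply hbot w hwH
      have h1 : w = z - z' := by rw [h, add_sub_cancel_right]
      rw [h1]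
      exact Submodule.sub_mem _ (hspan z hz) (hspan z' hz')
    · intro h
      apply hv0
      apply hbot v hvH
      rw [h]; exact hspan z hz
    · intro h; rw [h] at hvX; exact hvX hwz'
    · intro h
      apply hvX
      rw [h]
      have : z + (w + z') = w + (z + z') := by abel
      rw [this]; exact hwzz
  have hcon := hL z (w + z') v hind hzX hwz' (by
    have : z + (w + z') = w + (z + z') := by abel
    rw [this]; exact hwzz)
  rcases hcon with h | h | h | h
  · exact hvX h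
  · exact hvz h
  · apply hEz z' hz'
    have : v + w + z' = v + (w + z') := by abel
    rw [this]; exact h
  · apply hEz (z + z') hz''
    have : v + w + (z + z') = v + z + (w + z') := by abel
    rw [this]; exact h

end Line

end EHProj
end

section

namespace EHProj

open scoped LinearAlgebra.Projectivization
open Module

theorem sixRules_add_self {V : Type} [AddCommGroup V] [Module (ZMod 2) V] (x : V) :
    x + x = 0 := by
  have h : (2 : ZMod 2) • x = x + x := two_smul _ x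
  rw [← h]
  have h2 : (2 : ZMod 2) = 0 := by decide
  rw [h2, zero_smul]

theorem six_rules {V : Type} [AddCommGroup V] [Module (ZMod 2) V] [Finite V] (X : Set V)
    (hX0 : (0 : V) ∉ X) (h6 : SixFree X) : GrowRules 2 X := by
  have two : ∀ x : V, x + x = 0 := sixRules_add_self
  refine ⟨?_, ?_⟩
  · intro U hU v w hv hw hb hbB
    obtain ⟨u₁, hu₁, hy⟩ := hbB
    intro u₂ hu₂
    by_contra hy'
    have hvX : v ∈ X := by simpa using hv 0 U.zero_mem
    -- elements
    have hne : u₁ + u₂ ≠ 0 := by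
      intro h
      apply hy'
      have : u₂ = u₁ := by
        calc u₂ = u₁ + u₂ + u₁ + -(u₁ + u₁) := by abel
          _ = u₁ := by rw [h, two]; simp
      rw [this]; exact hy
    have huU : u₁ + u₂ ∈ U := U.add_mem hu₁ hu₂
    have huX : u₁ + u₂ ∈ X := hU _ huU hne
    have hvU : v ∉ U := by
      intro h
      apply hX0
      rw [← two v]
      exact hv v h
    have hwU : w ∉ U := by
      intro h
      apply hX0
      rw [← two w]
      exact hw w h
    have hI : Ind3 (u₁ + u₂) (v - w + u₁) v := by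
      refine ⟨hne, ?_, ?_, ?_, ?_, ?_, ?_⟩
      · intro h; rw [h] at hy; exact hX0 hy
      · intro h
        apply hb
        have : v - w = (u₁ + u₂) - u₁ := by rw [h]; abel
        rw [this]
        exact U.sub_mem huU hu₁
      · intro h; rw [h] at hvX; exact hX0 hvX
      · intro h; exact hvU (h ▸ huU)
      · intro h
        apply hwU
        have : w = u₁ := by
          have h' : v - w + u₁ - v = 0 := by rw [← h]; abel
          have h'' : u₁ - w = 0 := by rw [← h']; abel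
          exact (sub_eq_zero.mp h'').symm
        rw [this]; exact hu₁
      · intro h
        apply hwU
        have h' : u₁ + u₂ + (v - w + u₁) - v = 0 := by rw [← h]; abel
        have h'' : u₁ + u₂ + u₁ - w = 0 := by rw [← h']; abel
        rw [← sub_eq_zero.mp h'']
        exact U.add_mem huU hu₁
    refine h6 _ _ _ hI ?_
    have e1 : u₁ + u₂ + (v - w + u₁) = v - w + u₂ := by
      calc u₁ + u₂ + (v - w + u₁) = v - w + u₂ + (u₁ + u₁) := by abel
        _ = _ := by rw [two, add_zero]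
    have e2 : u₁ + u₂ + v = v + (u₁ + u₂) := add_comm _ _
    have e3 : v - w + u₁ + v = w + u₁ := by
      calc v - w + u₁ + v = w + u₁ + (v + v) - (w + w) := by abel
        _ = _ := by rw [two, two]; simp
    have e4 : u₁ + u₂ + (v - w + u₁) + v = w + u₂ := by
      calc u₁ + u₂ + (v - w + u₁) + v = w + u₂ + (v + v) - (w + w) + (u₁ + u₁) := by abel
        _ = _ := by rw [two, two, two]; simp
    have h3 : w + u₁ ∈ X := hw u₁ hu₁
    have h4 : w + u₂ ∈ X := hw u₂ hu₂
    have h5 : v + (u₁ + u₂) ∈ X := hv _ huU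
    unfold cnt3
    rw [e4, e3, e2, e1]
    unfold ind
    rw [if_pos huX, if_pos hy, if_pos hvX, if_neg hy', if_pos h5, if_pos h3, if_pos h4]
  · intro U hU z v hz hv hvz _ u' hu'
    obtain ⟨u, hu, s, hs, rfl⟩ := Submodule.mem_sup.mp hu'
    obtain ⟨c, rfl⟩ := Submodule.mem_span_singleton.mp hs
    have hall : ∀ c : ZMod 2, c = 0 ∨ c = 1 := by decide
    have hc := hall c
    rcases hc with rfl | rfl
    · rw [zero_smul, add_zero]; exact hv u hu
    · rw [one_smul]
      have : v + (u + z) = v + z + u := by abel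
      rw [this]
      exact hvz u hu

theorem six_main {V : Type} [AddCommGroup V] [Module (ZMod 2) V] [Finite V] (X : Set V)
    (hX0 : (0 : V) ∉ X) (h6 : SixFree X) (t : ℕ) (ht : 1 ≤ t)
    (hdim : growN t ≤ finrank (ZMod 2) V) :
    HasBlack (p := 2) X ⊤ t ∨ HasWhite (p := 2) X ⊤ t := by
  refine growth (p := 2) (by norm_num) X hX0 ?_ (six_rules X hX0 h6) t ht hdim
  intro c v hc hv
  have hall : ∀ c : ZMod 2, c ≠ 0 → c = 1 := by decide
  have : c = 1 := hall c hc
  rw [this, one_smul]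
  exact hv

end EHProj
end

section

namespace EHProj

open scoped LinearAlgebra.Projectivization
open Module

theorem threeRules_add_self {V : Type} [AddCommGroup V] [Module (ZMod 3) V] (x : V) :
    x + x + x = 0 := by
  have h : (3 : ZMod 3) • x = x + x + x := by
    have : (3 : ZMod 3) = 1 + 1 + 1 := by decide
    rw [this, add_smul, add_smul, one_smul]
  rw [← h]
  have h2 : (3 : ZMod 3) = 0 := by decide
  rw [h2, zero_smul]

/-- the only forbidden pattern of a line -/
theorem threeRules_line {V : Type} [AddCommGroup V] [Module (ZMod 3) V] (X : Set V)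
    (hX0 : (0 : V) ∉ X) (h3 : ThreeFree X) {x y : V} (hx : x ∈ X) (hy : y ∈ X)
    (hxy : x ≠ y) (hxy' : x ≠ -y) : (x + y ∈ X ↔ x - y ∈ X) := by
  have hx0 : x ≠ 0 := fun h => hX0 (h ▸ hx)
  have hy0 : y ≠ 0 := fun h => hX0 (h ▸ hy)
  have h := h3 x y hx0 hy0 hxy hxy'
  unfold cnt2 ind at h
  rw [if_pos hx, if_pos hy] at h
  by_cases h1 : x + y ∈ X <;> by_cases h2 : x - y ∈ X <;> simp_all

theorem three_rules {V : Type} [AddCommGroup V] [Module (ZMod 3) V] [Finite V] (X : Set V)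
    (hX0 : (0 : V) ∉ X) (hXs : ∀ c : ZMod 3, ∀ v, c ≠ 0 → v ∈ X → c • v ∈ X)
    (h3 : ThreeFree X) : GrowRules 3 X := by
  have three : ∀ x : V, x + x + x = 0 := threeRules_add_self
  have hneg : ∀ v, v ∈ X → -v ∈ X := by
    intro v hv
    have := hXs (-1) v (by decide) hv
    rwa [neg_one_smul] at this
  refine ⟨?_, ?_⟩
  · intro U hU v w hv hw hb hbB
    obtain ⟨u₁, hu₁, hy⟩ := hbB
    intro u₂ hu₂
    by_contra hy'
    have hvX : v ∈ X := by simpa using hv 0 U.zero_mem
    -- (i)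
    have key : ∀ u ∈ U, v + (v - w) + u + u₂ ∉ X := by
      intro u hu hin
      have hx1 : v + u ∈ X := hv u hu
      have hd : v + u - (v - w + u₂) ∈ X := by
        have : v + u - (v - w + u₂) = w + (u - u₂) := by abel
        rw [this]; exact hw _ (U.sub_mem hu hu₂)
      have hp : v + u + (v - w + u₂) ∈ X := by
        have : v + u + (v - w + u₂) = v + (v - w) + u + u₂ := by abel
        rw [this]; exact hin
      have hx0 : v + u ≠ 0 := fun h => hX0 (h ▸ hx1)
      have hy0 : v - w + u₂ ≠ 0 := by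
        intro h
        apply hb
        have : v - w = -u₂ := eq_neg_of_add_eq_zero_left h
        rw [this]; exact U.neg_mem hu₂
      have hne : v + u ≠ v - w + u₂ := fun h => hy' (h ▸ hx1)
      have hne' : v + u ≠ -(v - w + u₂) := by
        intro h
        apply hy'
        have := hneg _ hx1
        rw [h, neg_neg] at this
        exact this
      have hc := h3 _ _ hx0 hy0 hne hne'
      unfold cnt2 ind at hc
      rw [if_pos hx1, if_neg hy', if_pos hp, if_pos hd] at hc
      exact hc rfl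
    -- (ii)
    have hd : v - (v - w + u₁) ∈ X := by
      have : v - (v - w + u₁) = w + (-u₁) := by abel
      rw [this]; exact hw _ (U.neg_mem hu₁)
    have hs : v + (v - w + u₁) ∉ X := by
      have : v + (v - w + u₁) = v + (v - w) + (u₁ - u₂) + u₂ := by abel
      rw [this]
      exact key _ (U.sub_mem hu₁ hu₂)
    have hne : v ≠ v - w + u₁ := by
      intro h
      rw [← h, sub_self] at hd
      exact hX0 hd
    have hne' : v ≠ -(v - w + u₁) := by
      intro h
      apply hy'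
      have e : v - w + u₂ = -(v + (u₁ - u₂)) := by
        have h2 : -v = v - w + u₁ := by rw [h, neg_neg, ← h]
        calc v - w + u₂ = v - w + u₁ - u₁ + u₂ := by abel
          _ = -v - u₁ + u₂ := by rw [h2]
          _ = _ := by abel
      rw [e]
      exact hneg _ (hv _ (U.sub_mem hu₁ hu₂))
    exact hs ((threeRules_line X hX0 h3 hvX hy hne hne').mpr hd)
  · intro U hU z v hz hv hvz hb u' hu'
    obtain ⟨u, hu, s, hs, rfl⟩ := Submodule.mem_sup.mp hu'
    obtain ⟨c, rfl⟩ := Submodule.mem_span_singleton.mp hs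
    have hall : ∀ c : ZMod 3, c = 0 ∨ c = 1 ∨ c = -1 := by decide
    have hc := hall c
    rcases hc with rfl | rfl | rfl
    · rw [zero_smul, add_zero]; exact hv u hu
    · rw [one_smul]
      have : v + (u + z) = v + z + u := by abel
      rw [this]
      exact hvz u hu
    · rw [neg_one_smul]
      have hx : v + u ∈ X := hv u hu
      have hzX : z ∈ X := by simpa using hz 0 U.zero_mem
      have hne : v + u ≠ z := by
        intro h
        apply hb
        have : v - z = -u := by rw [← h]; abel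
        rw [this]; exact U.neg_mem hu
      have hne' : v + u ≠ -z := by
        intro h
        have hU' : v + z ∈ U := by
          have : v + z = -u := by
            have h2 : z = -(v + u) := by rw [h, neg_neg]
            rw [h2]; abel
          rw [this]; exact U.neg_mem hu
        have := hvz _ (U.neg_mem hU')
        rw [add_neg_cancel] at this
        exact hX0 this
      have hsum : v + u + z ∈ X := by
        have : v + u + z = v + z + u := by abel
        rw [this]; exact hvz u hu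
      have := (threeRules_line X hX0 h3 hx hzX hne hne').mp hsum
      have e : v + (u + -z) = v + u - z := by abel
      rw [e]; exact this

theorem three_main {V : Type} [AddCommGroup V] [Module (ZMod 3) V] [Finite V] (X : Set V)
    (hX0 : (0 : V) ∉ X) (hXs : ∀ c : ZMod 3, ∀ v, c ≠ 0 → v ∈ X → c • v ∈ X)
    (h3 : ThreeFree X) (t : ℕ) (ht : 1 ≤ t) (hdim : growN t ≤ finrank (ZMod 3) V) :
    HasBlack (p := 3) X ⊤ t ∨ HasWhite (p := 3) X ⊤ t :=
  growth (p := 3) (by norm_num) X hX0 hXs (three_rules X hX0 hXs h3) t ht hdim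

end EHProj
end

section

/-!
# Line-free sets, step D: the clean subspace
-/

namespace EHProj

open scoped LinearAlgebra.Projectivization
open Module

section Line
variable {V : Type} [AddCommGroup V] [Module (ZMod 2) V] [Finite V]

theorem linestepd_union {D : ℕ} {H : Submodule (ZMod 2) V} (L : List (Set V))
    (hlen : L.length ≤ 7) (hL : ∀ A ∈ L, rd A H 0 < (1 / 2 : ℝ) ^ (D + 4)) :
    rd {v | ∃ A ∈ L, v ∈ A} H 0 < (1 / ((2 : ℕ) : ℝ)) ^ D := by
  have key : ∀ L : List (Set V), (∀ A ∈ L, rd A H 0 < (1 / 2 : ℝ) ^ (D + 4)) →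
      rd {v | ∃ A ∈ L, v ∈ A} H 0 ≤ L.length * (1 / 2 : ℝ) ^ (D + 4) := by
    intro L
    induction L with
    | nil =>
      intro _
      have h0 : rd {v : V | ∃ A ∈ ([] : List (Set V)), v ∈ A} H 0 = 0 := by
        have h1 := rd_compl {v : V | ∃ A ∈ ([] : List (Set V)), v ∈ A} H 0
        have h2 : rd {v : V | ∃ A ∈ ([] : List (Set V)), v ∈ A}ᶜ H 0 = 1 := by
          apply rd_full
          intro v _
          simp
        linarith
      rw [h0]; simp
    | cons A L ih =>
      intro h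
      have h1 := ih (fun B hB => h B (List.mem_cons_of_mem _ hB))
      have h2 := h A List.mem_cons_self
      have h3 : rd {v | ∃ B ∈ A :: L, v ∈ B} H 0 ≤ rd (A ∪ {v | ∃ B ∈ L, v ∈ B}) H 0 := by
        apply rd_mono
        rintro v _ ⟨B, hB, hv⟩
        rcases List.mem_cons.1 hB with rfl | hB
        · left; exact hv
        · right; exact ⟨B, hB, hv⟩
      have h4 := rd_union_le A {v | ∃ B ∈ L, v ∈ B} H 0
      rw [List.length_cons]
      push_cast
      nlinarith
  have h1 := key L hL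
  have h2 : (L.length : ℝ) ≤ 7 := by exact_mod_cast hlen
  have h3 : (0 : ℝ) < (1 / 2 : ℝ) ^ D := by positivity
  have h4 : (1 / 2 : ℝ) ^ (D + 4) = (1 / 2 : ℝ) ^ D * (1 / 16) := by
    rw [pow_add]; norm_num
  rw [h4] at h1
  have h5 : (1 / ((2 : ℕ) : ℝ)) = 1 / 2 := by norm_num
  rw [h5]
  nlinarith

omit [Module (ZMod 2) V] [Finite V] in
theorem linestepd_count (X : Set V) (a b h : V) (h0 : h ≠ 0)
    (h1 : ¬ (h ∈ X ∧ h + a ∈ X)) (h3 : ¬ (h ∈ X ∧ h + b ∈ X)) (h4 : ¬ (h ∈ X ∧ h + (a + b) ∈ X))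
    (h5 : ¬ (h + a ∈ X ∧ h + b ∈ X ∧ h + (a + b) ∈ X))
    (h6 : ¬ (h ≠ 0 ∧ h ∉ X ∧ h + a ∉ X ∧ h + b ∈ X ∧ h + (a + b) ∈ X))
    (h7 : ¬ (h ≠ 0 ∧ h ∉ X ∧ h + b ∉ X ∧ h + a ∈ X ∧ h + (a + b) ∈ X))
    (h8 : ¬ (h ≠ 0 ∧ h ∉ X ∧ h + (a + b) ∉ X ∧ h + a ∈ X ∧ h + b ∈ X))
    (h9 : h ∈ X ∨ h + a ∈ X ∨ h + b ∈ X ∨ h + (a + b) ∈ X) :
    ind X h + ind X (h + a) + ind X (h + b) + ind X (h + (a + b)) = 1 := by
  unfold ind
  by_cases e1 : h ∈ X <;> by_cases e2 : h + a ∈ X <;> by_cases e3 : h + b ∈ X <;>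
    by_cases e4 : h + (a + b) ∈ X <;> simp_all

theorem line_stepD (X : Set V) (hX0 : (0 : V) ∉ X) (hL : LineFree X) (t : ℕ) (ht : 1 ≤ t)
    (hw : ¬ HasWhite (p := 2) X ⊤ t)
    (a b : V) (ha : a ∈ X) (hb : b ∈ X) (hab : a + b ∈ X) (hne : a ≠ b)
    (H : Submodule (ZMod 2) V) (hH : H ⊓ Submodule.span (ZMod 2) {a, b} = ⊥)
    (hdim : lk2 t + lD t + RR t ≤ finrank (ZMod 2) H)
    (hD : ∀ z ∈ ({a, b, a + b} : Set V), rd {h | h ∈ X ∧ h + z ∈ X} H 0 < (1 / 2 : ℝ) ^ (lc1 t)) :
    ∃ F ≤ H, finrank (ZMod 2) F = lD t ∧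
      ((∀ h ∈ F, h ≠ 0 → ∀ z ∈ ({a, b, a + b} : Set V), (h + z ∈ X ↔ h ∉ X)) ∨
       (∀ h ∈ F, h ≠ 0 →
         ind X h + ind X (h + a) + ind X (h + b) + ind X (h + (a + b)) = 1)) := by
  have h2 : ∀ v : V, v + v = 0 := fun v => ZModModule.add_self v
  have hlgc : (1 / 2 : ℝ) ^ (lc1 t) ≤ (1 / 2 : ℝ) ^ (lD t + 4) := by
    apply pow_le_pow_of_le_one (by norm_num) (by norm_num)
    unfold lc1; omega
  have hlg : lg t = lD t + 4 := rfl
  have hDa : rd {h | h ∈ X ∧ h + a ∈ X} H 0 < (1 / 2 : ℝ) ^ (lD t + 4) :=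
    lt_of_lt_of_le (hD a (by simp)) hlgc
  have hDb : rd {h | h ∈ X ∧ h + b ∈ X} H 0 < (1 / 2 : ℝ) ^ (lD t + 4) :=
    lt_of_lt_of_le (hD b (by simp)) hlgc
  have hDab : rd {h | h ∈ X ∧ h + (a + b) ∈ X} H 0 < (1 / 2 : ℝ) ^ (lD t + 4) :=
    lt_of_lt_of_le (hD (a + b) (by simp)) hlgc
  have hdim' : lk2 t + RR t ≤ finrank (ZMod 2) H := by omega
  have hlDdim : lD t ≤ finrank (ZMod 2) H := by omega
  have ha0 : a ≠ 0 := by rintro rfl; exact hX0 ha
  have hb0 : b ≠ 0 := by rintro rfl; exact hX0 hb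
  have hab0 : a + b ≠ 0 := by intro h; rw [h] at hab; exact hX0 hab
  have hsmul : ∀ E : Set V, ∀ c : ZMod 2, ∀ v, c ≠ 0 → v ∈ E → c • v ∈ E := by
    intro E c v hc hv
    have : c = 1 := by
      revert hc; revert c; decide
    rw [this, one_smul]; exact hv
  -- step C for the three points
  have hCa := line_stepC X hX0 hL t ht hw a b ha hb hab hne H hH hdim' hD a b
    (by simp) (by simp) hne
  have hCb := line_stepC X hX0 hL t ht hw a b ha hb hab hne H hH hdim' hD b a
    (by simp) (by simp) hne.symm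
  have hCab := line_stepC X hX0 hL t ht hw a b ha hb hab hne H hH hdim' hD (a + b) a
    (by simp) (by simp) (by
      intro h
      apply hb0
      exact left_eq_add.1 h.symm)
  rw [add_comm b a] at hCb
  have haba : a + b + a = b := by
    have : a + b + a = b + (a + a) := by abel
    rw [this, h2, add_zero]
  rw [haba] at hCab
  rw [hlg] at hCa hCb hCab
  by_cases hcase : rd {h | h ≠ 0 ∧ h ∉ X ∧ h + a ∉ X} H 0 < (1 / 2 : ℝ) ^ (lD t + 4) ∧
      rd {h | h ≠ 0 ∧ h ∉ X ∧ h + b ∉ X} H 0 < (1 / 2 : ℝ) ^ (lD t + 4) ∧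
      rd {h | h ≠ 0 ∧ h ∉ X ∧ h + (a + b) ∉ X} H 0 < (1 / 2 : ℝ) ^ (lD t + 4)
  · obtain ⟨hPa, hPb, hPab⟩ := hcase
    obtain ⟨F, hFH, hF, hav⟩ := avoid (p := 2) _ (hsmul _) H (lD t) hlDdim
      (linestepd_union [{h | h ∈ X ∧ h + a ∈ X}, {h | h ∈ X ∧ h + b ∈ X},
        {h | h ∈ X ∧ h + (a + b) ∈ X}, {h | h ≠ 0 ∧ h ∉ X ∧ h + a ∉ X},
        {h | h ≠ 0 ∧ h ∉ X ∧ h + b ∉ X}, {h | h ≠ 0 ∧ h ∉ X ∧ h + (a + b) ∉ X}]
        (by simp) (by
          intro A hA
          simp only [List.mem_cons, List.not_mem_nil, or_false] at hA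
          rcases hA with rfl | rfl | rfl | rfl | rfl | rfl <;> assumption))
    refine ⟨F, hFH, hF, Or.inl ?_⟩
    intro h hh h0 z hz
    have hav' := hav h hh h0
    simp only [List.mem_cons, List.not_mem_nil, or_false, Set.mem_ofPred_eq,
      exists_eq_or_imp, exists_eq_left, not_or, not_and, not_not] at hav'
    obtain ⟨h1, h3, h4, h5, h6, h7⟩ := hav'
    simp only [Set.mem_insert_iff, Set.mem_singleton_iff] at hz
    rcases hz with rfl | rfl | rfl
    · exact ⟨fun hx hx' => h1 hx' hx, fun hx => h5 h0 hx⟩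
    · exact ⟨fun hx hx' => h3 hx' hx, fun hx => h6 h0 hx⟩
    · exact ⟨fun hx hx' => h4 hx' hx, fun hx => h7 h0 hx⟩
  · -- case 2
    have hW : rd {h | h + a ∈ X ∧ h + b ∈ X ∧ h + (a + b) ∈ X} H 0 < (1 / 2 : ℝ) ^ (lD t + 4) := by
      rcases not_and_or.1 hcase with h | h
      · have h1 := hCa.resolve_left h
        refine lt_of_le_of_lt (rd_mono ?_) h1
        rintro v _ ⟨hv1, hv2, hv3⟩
        exact ⟨hv2, hv3⟩
      · rcases not_and_or.1 h with h | h
        · have h1 := hCb.resolve_left h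
          refine lt_of_le_of_lt (rd_mono ?_) h1
          rintro v _ ⟨hv1, hv2, hv3⟩
          exact ⟨hv1, hv3⟩
        · have h1 := hCab.resolve_left h
          refine lt_of_le_of_lt (rd_mono ?_) h1
          rintro v _ ⟨hv1, hv2, hv3⟩
          exact ⟨hv1, hv2⟩
    have hR1 : rd {h | h ≠ 0 ∧ h ∉ X ∧ h + a ∉ X ∧ h + b ∈ X ∧ h + (a + b) ∈ X} H 0 <
        (1 / 2 : ℝ) ^ (lD t + 4) := by
      rcases hCa with h | h
      · refine lt_of_le_of_lt (rd_mono ?_) h
        rintro v _ ⟨hv1, hv2, hv3, -, -⟩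
        exact ⟨hv1, hv2, hv3⟩
      · refine lt_of_le_of_lt (rd_mono ?_) h
        rintro v _ ⟨-, -, -, hv4, hv5⟩
        exact ⟨hv4, hv5⟩
    have hR2 : rd {h | h ≠ 0 ∧ h ∉ X ∧ h + b ∉ X ∧ h + a ∈ X ∧ h + (a + b) ∈ X} H 0 <
        (1 / 2 : ℝ) ^ (lD t + 4) := by
      rcases hCb with h | h
      · refine lt_of_le_of_lt (rd_mono ?_) h
        rintro v _ ⟨hv1, hv2, hv3, -, -⟩
        exact ⟨hv1, hv2, hv3⟩
      · refine lt_of_le_of_lt (rd_mono ?_) h
        rintro v _ ⟨-, -, -, hv4, hv5⟩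
        exact ⟨hv4, hv5⟩
    have hR3 : rd {h | h ≠ 0 ∧ h ∉ X ∧ h + (a + b) ∉ X ∧ h + a ∈ X ∧ h + b ∈ X} H 0 <
        (1 / 2 : ℝ) ^ (lD t + 4) := by
      rcases hCab with h | h
      · refine lt_of_le_of_lt (rd_mono ?_) h
        rintro v _ ⟨hv1, hv2, hv3, -, -⟩
        exact ⟨hv1, hv2, hv3⟩
      · refine lt_of_le_of_lt (rd_mono ?_) h
        rintro v _ ⟨-, -, -, hv4, hv5⟩
        exact ⟨hv4, hv5⟩
    obtain ⟨F, hFH, hF, hav⟩ := avoid (p := 2) _ (hsmul _) H (lD t) hlDdim
      (linestepd_union [{h | h ∈ X ∧ h + a ∈ X}, {h | h ∈ X ∧ h + b ∈ X},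
        {h | h ∈ X ∧ h + (a + b) ∈ X}, {h | h + a ∈ X ∧ h + b ∈ X ∧ h + (a + b) ∈ X},
        {h | h ≠ 0 ∧ h ∉ X ∧ h + a ∉ X ∧ h + b ∈ X ∧ h + (a + b) ∈ X},
        {h | h ≠ 0 ∧ h ∉ X ∧ h + b ∉ X ∧ h + a ∈ X ∧ h + (a + b) ∈ X},
        {h | h ≠ 0 ∧ h ∉ X ∧ h + (a + b) ∉ X ∧ h + a ∈ X ∧ h + b ∈ X}]
        (by simp) (by
          intro A hA
          simp only [List.mem_cons, List.not_mem_nil, or_false] at hA
          rcases hA with rfl | rfl | rfl | rfl | rfl | rfl | rfl <;> assumption))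
    refine ⟨F, hFH, hF, Or.inr ?_⟩
    intro h hh h0
    have hav' := hav h hh h0
    simp only [List.mem_cons, List.not_mem_nil, or_false, Set.mem_ofPred_eq,
      exists_eq_or_imp, exists_eq_left, not_or] at hav'
    obtain ⟨h1, h3, h4, h5, h6, h7, h8⟩ := hav'
    have hbot : ∀ u ∈ Submodule.span (ZMod 2) {a, b}, h ≠ u := by
      rintro u hu rfl
      apply h0
      have : h ∈ H ⊓ Submodule.span (ZMod 2) {a, b} := ⟨hFH hh, hu⟩
      rwa [hH, Submodule.mem_bot] at this
    have hsa : a ∈ Submodule.span (ZMod 2) {a, b} := Submodule.subset_span (by simp)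
    have hsb : b ∈ Submodule.span (ZMod 2) {a, b} := Submodule.subset_span (by simp)
    have hLh := hL a b h ⟨ha0, hb0, hne, h0, hbot a hsa, hbot b hsb,
      hbot (a + b) (Submodule.add_mem _ hsa hsb)⟩ ha hb hab
    rw [add_assoc] at hLh
    exact linestepd_count X a b h h0 h1 h3 h4 h5 h6 h7 h8 hLh

end Line

end EHProj
end

section

/-! # Main theorem for 5-free sets (F-4) -/

namespace EHProj

open scoped LinearAlgebra.Projectivization
open Module

section Five
variable {V : Type} [AddCommGroup V] [Module (ZMod 2) V] [Finite V]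

/-- the shear `v ↦ v + l(v) z` -/
def fivemain_psi (l : V →ₗ[ZMod 2] ZMod 2) (z : V) : V →ₗ[ZMod 2] V :=
  LinearMap.id + l.smulRight z

theorem fivemain_psi_apply (l : V →ₗ[ZMod 2] ZMod 2) (z v : V) :
    fivemain_psi l z v = v + l v • z := rfl

theorem fivemain_zmod2 (c : ZMod 2) : c = 0 ∨ c = 1 := by
  revert c; decide

theorem fivemain_psi_inj (l : V →ₗ[ZMod 2] ZMod 2) {z : V} {F : Submodule (ZMod 2) V}
    (hz : z ∉ F) {v : V} (hv : v ∈ F) (h : fivemain_psi l z v = 0) : v = 0 := by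
  rw [fivemain_psi_apply] at h
  rcases fivemain_zmod2 (l v) with h1 | h1
  · rw [h1, zero_smul, add_zero] at h; exact h
  · rw [h1, one_smul] at h
    exfalso
    apply hz
    have : z = -v := by rw [eq_neg_iff_add_eq_zero, add_comm]; exact h
    rw [this]
    exact F.neg_mem hv

theorem five_main (X : Set V) (hX0 : (0 : V) ∉ X) (h5 : FiveFree X) (t : ℕ) (ht : 1 ≤ t)
    (hdim : fiveN t ≤ finrank (ZMod 2) V) :
    HasBlack (p := 2) X ⊤ t ∨ HasWhite (p := 2) X ⊤ t := by
  classical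
  by_contra hcon
  push Not at hcon
  obtain ⟨hb, hw⟩ := hcon
  obtain ⟨z, hzX, F, hzF, hF, hswap⟩ := five_find X hX0 h5 t ht hdim hb hw
  set f : V → ZMod 2 := fun v => if v ∈ X then 1 else 0 with hf
  have hf0 : f 0 = 0 := by simp [hf, hX0]
  -- the key equivalence
  have key : ∀ (l : V →ₗ[ZMod 2] ZMod 2), ∀ v ∈ F, (f v + l v = 1 ↔ fivemain_psi l z v ∈ X) := by
    intro l v hv
    by_cases hv0 : v = 0
    · subst hv0
      rw [map_zero, map_zero, hf0]
      constructor
      · intro h; exact absurd h (by decide)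
      · intro h; exact absurd h hX0
    rw [fivemain_psi_apply]
    rcases fivemain_zmod2 (l v) with h1 | h1
    · rw [h1, zero_smul, add_zero, add_zero]
      simp only [hf]
      by_cases hvX : v ∈ X
      · simp [hvX]
      · simp [hvX]
    · rw [h1, one_smul, hswap v hv hv0]
      simp only [hf]
      by_cases hvX : v ∈ X
      · simp only [hvX, if_true, not_true_eq_false, iff_false]; decide
      · simp [hvX]
  obtain ⟨l, W, hWF, hWt, c, hc⟩ := five_struct F f hf0 (by
    intro l x hx y hy w hw' hi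
    have hinj : ∀ v ∈ F, v ≠ 0 → fivemain_psi l z v ≠ 0 := fun v hv hv0 h =>
      hv0 (fivemain_psi_inj l hzF hv h)
    have hinj2 : ∀ u ∈ F, ∀ v ∈ F, u ≠ v → fivemain_psi l z u ≠ fivemain_psi l z v := by
      intro u hu v hv huv h
      refine hinj (u - v) (F.sub_mem hu hv) (sub_ne_zero.2 huv) ?_
      rw [map_sub, h, sub_self]
    obtain ⟨i1, i2, i3, i4, i5, i6, i7⟩ := hi
    have h6 := h5 (fivemain_psi l z x) (fivemain_psi l z y) (fivemain_psi l z w)
      ⟨hinj x hx i1, hinj y hy i2, hinj2 x hx y hy i3, hinj w hw' i4, hinj2 w hw' x hx i5,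
        hinj2 w hw' y hy i6, by
          rw [← map_add]; exact hinj2 w hw' (x + y) (F.add_mem hx hy) i7⟩
    have hind : ∀ v ∈ F, ind {v | f v + l v = 1} v = ind X (fivemain_psi l z v) := by
      intro v hv
      unfold ind
      by_cases h : fivemain_psi l z v ∈ X
      · have h' : v ∈ {v | f v + l v = 1} := (key l v hv).2 h
        rw [if_pos h, if_pos h']
      · have h' : v ∉ {v | f v + l v = 1} := fun h' => h ((key l v hv).1 h')
        rw [if_neg h, if_neg h']
    have hcnt : cnt3 {v | f v + l v = 1} x y w =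
        cnt3 X (fivemain_psi l z x) (fivemain_psi l z y) (fivemain_psi l z w) := by
      unfold cnt3
      rw [hind x hx, hind y hy, hind w hw', hind _ (F.add_mem hx hy), hind _ (F.add_mem hx hw'),
        hind _ (F.add_mem hy hw'), hind _ (F.add_mem (F.add_mem hx hy) hw')]
      simp only [map_add]
    rw [hcnt]
    exact h6) t hF
  -- the image of `W`
  set φ : W →ₗ[ZMod 2] V := (fivemain_psi l z).domRestrict W with hφ
  have hφinj : Function.Injective φ := by
    rw [← LinearMap.ker_eq_bot, LinearMap.ker_eq_bot']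
    intro v hv
    exact Subtype.ext (fivemain_psi_inj l hzF (hWF v.2) hv)
  have hrank : finrank (ZMod 2) (LinearMap.range φ) = t := by
    rw [LinearMap.finrank_range_of_inj hφinj, hWt]
  rcases fivemain_zmod2 c with hc0 | hc1
  · apply hw
    refine ⟨LinearMap.range φ, le_top, hrank, ?_⟩
    rintro _ ⟨v, rfl⟩ hne hmem
    have hv0 : (v : V) ≠ 0 := by
      intro h
      apply hne
      have : v = 0 := Subtype.ext h
      rw [this, map_zero]
    have h1 := hc v v.2 hv0
    have h2 := (key l v (hWF v.2)).2 hmem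
    rw [h1, hc0] at h2
    exact absurd h2 (by decide)
  · apply hb
    refine ⟨LinearMap.range φ, le_top, hrank, ?_⟩
    rintro _ ⟨v, rfl⟩ hne
    have hv0 : (v : V) ≠ 0 := by
      intro h
      apply hne
      have : v = 0 := Subtype.ext h
      rw [this, map_zero]
    have h1 := hc v v.2 hv0
    rw [hc1] at h1
    exact (key l v (hWF v.2)).1 h1

end Five

end EHProj
end

section

/-! L-9: main theorem for line-free sets. -/

namespace EHProj

open scoped LinearAlgebra.Projectivization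
open Module

section Line
variable {V : Type} [AddCommGroup V] [Module (ZMod 2) V] [Finite V]

-- L-9  (LineMain.lean)
theorem line_main (X : Set V) (hX0 : (0 : V) ∉ X) (hL : LineFree X) (t : ℕ) (ht : 1 ≤ t)
    (hdim : lineN t ≤ finrank (ZMod 2) V) :
    HasBlack (p := 2) X ⊤ t ∨ HasWhite (p := 2) X ⊤ t := by
  by_contra hcon
  rw [not_or] at hcon
  obtain ⟨hb, hw⟩ := hcon
  have hlD : lD t = 2 * RR t + 2 * t + 2 := rfl
  unfold lineN at hdim
  obtain ⟨a, b, ha, hb', hab, hne, H0, hH0, hfin0, hz⟩ :=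
    line_stepA X hX0 t ht (by omega) hb hw
  obtain ⟨H, hHH0, hfinH, hD⟩ := line_stepB X hX0 hL t a b ha hb' hab hne H0 hH0 hz
  have hH : H ⊓ Submodule.span (ZMod 2) {a, b} = ⊥ :=
    eq_bot_iff.mpr (le_trans (inf_le_inf_right _ hHH0) hH0.le)
  obtain ⟨F, hFH, hFfin, hcase⟩ := line_stepD X hX0 hL t ht hw a b ha hb' hab hne H hH
    (by omega) hD
  have hF : F ⊓ Submodule.span (ZMod 2) {a, b} = ⊥ :=
    eq_bot_iff.mpr (le_trans (inf_le_inf_right _ hFH) hH.le)
  rcases hcase with h1 | h1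
  · have hloc : ∀ x ∈ F, ∀ y ∈ F, ∀ w ∈ F, Ind3 x y w → cnt3 X x y w = 0 ∨ cnt3 X x y w = 1 ∨
        cnt3 X x y w = 2 ∨ cnt3 X x y w = 4 ∨ cnt3 X x y w = 6 := fun x hx y hy w hw hi =>
      line_local X hX0 hL a b ha hb' hab hne F hF h1 x y w hx hy hw hi
    have hwF : ¬ HasWhite X F t := by
      rintro ⟨W, -, h2, h3⟩
      exact hw ⟨W, le_top, h2, h3⟩
    obtain ⟨q, hq, q', hq', hqne, hqX, hqX', hqq⟩ := schur X hX0 t ht F (by omega) hwF
    have hone := line_one X hX0 hL F hloc q q' hq hq' hqX hqX' hqne hqq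
    obtain ⟨W, hWF, hWfin, hWf⟩ := quad F (fun v => ((ind X v : ℕ) : ZMod 2))
      (by simp [ind, hX0]) (by
        intro x hx y hy w hw' hi
        have h3 := hloc x hx y hy w hw' hi
        have h4 := hone x y w hx hy hw' hi
        have h5 : ((cnt3 X x y w : ℕ) : ZMod 2) = 0 := by
          rcases h3 with h | h | h | h | h
          · rw [h]; rfl
          · exact absurd h h4
          · rw [h]; rfl
          · rw [h]; rfl
          · rw [h]; rfl
        unfold cnt3 at h5
        push_cast at h5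
        exact h5) t (by omega)
    apply hw
    refine ⟨W, le_top, hWfin, fun w hw' _ hX => ?_⟩
    have h6 := hWf w hw'
    simp [ind, hX] at h6
  · exact line_case_two X hX0 hL t ht hw a b ha hb' hab hne F hF (by omega) h1

end Line

end EHProj
end

section

/-! # Final assembly (job E5) -/

namespace EHProj

open scoped LinearAlgebra.Projectivization
open Module

private theorem final_fin (n : ℕ) (p : ℕ) [Fact p.Prime] :
    finrank (ZMod p) (Fin n → ZMod p) = n := by simp

private theorem final_six (H : Set (ℙ (ZMod 2) (Fin 3 → ZMod 2))) (hH : H.ncard = 6) :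
    EHProperty (ZMod 2) 3 H := by
  refine eh_of_poly 2 3 H growN polyBdd_growN ?_
  intro n t ht hn X hX0 _ hno
  exact six_main X hX0 (sixFree_of H hH n X hX0 hno) t ht (by rw [final_fin]; exact hn)

private theorem final_five (H : Set (ℙ (ZMod 2) (Fin 3 → ZMod 2))) (hH : H.ncard = 5) :
    EHProperty (ZMod 2) 3 H := by
  refine eh_of_poly 2 3 H fiveN polyBdd_fiveN ?_
  intro n t ht hn X hX0 _ hno
  exact five_main X hX0 (fiveFree_of H hH n X hX0 hno) t ht (by rw [final_fin]; exact hn)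

private theorem final_line (H : Set (ℙ (ZMod 2) (Fin 3 → ZMod 2))) (hH : IsLine (ZMod 2) H) :
    EHProperty (ZMod 2) 3 H := by
  refine eh_of_poly 2 3 H lineN polyBdd_lineN ?_
  intro n t ht hn X hX0 _ hno
  exact line_main X hX0 (lineFree_of H hH n X hX0 hno) t ht (by rw [final_fin]; exact hn)

private theorem final_three (H : Set (ℙ (ZMod 3) (Fin 2 → ZMod 3))) (hH : H.ncard = 3) :
    EHProperty (ZMod 3) 2 H := by
  refine eh_of_poly 3 2 H growN polyBdd_growN ?_
  intro n t ht hn X hX0 hXs hno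
  exact three_main X hX0 hXs (threeFree_of H hH n X hX0 hXs hno) t ht
    (by rw [final_fin]; exact hn)

theorem final :
    (∀ H : Set (ℙ (ZMod 2) (Fin 3 → ZMod 2)),
      (H.ncard = 1 ∨ H.ncard = 2 ∨ H.ncard = 5 ∨ H.ncard = 6 ∨ IsLine (ZMod 2) H ∨
        IsLine (ZMod 2) Hᶜ) → EHProperty (ZMod 2) 3 H) ∧
    (∀ H : Set (ℙ (ZMod 3) (Fin 2 → ZMod 3)),
      (H.ncard = 1 ∨ H.ncard = 3) → EHProperty (ZMod 3) 2 H) := by
  constructor
  · intro H h
    have hc := ncard_compl_fano H
    rcases h with h | h | h | h | h | h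
    · exact eh_compl _ 3 H (final_six _ (by omega))
    · exact eh_compl _ 3 H (final_five _ (by omega))
    · exact final_five H h
    · exact final_six H h
    · exact final_line H h
    · exact eh_compl _ 3 H (final_line _ h)
  · intro H h
    have hc := ncard_compl_line3 H
    rcases h with h | h
    · exact eh_compl _ 2 H (final_three _ (by omega))
    · exact final_three H h

end EHProj
end
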